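import Pool.Agent.Lib.MP_028aa5_nt.V.Defs

/-! Statements: loops, rational points and one component. -/

namespace Pool.Agent.Lib.MP_028aa5_nt.V

open Finset T U
open scoped Classical

/-- `g` is near a rational point of level `R` -/
def DX.Cls (D : DX) (κ y : ℝ) (R : ℕ) (Q T : ℝ) (g : D.P) : Prop :=
  ∃ (q : ℕ) (γ : D.P), 1 ≤ q ∧ q ≤ Q ∧ γ ∈ D.Rat q ∧ D.ν κ y (g * (D.dil R γ)⁻¹) ≤ T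

/-- the dilates of `γ` are periodic modulo the lattice -/
def DS.Per (D : DS) (q : ℕ) (γ : D.P) : Prop :=
  ∀ a b : ℕ, a ≡ b [MOD q] → D.Eq (D.dil a γ) (D.dil b γ)

/-- a graph with a large eigenvalue has a vertex with many walks back to its class -/
def LoopXSt : Prop := ∀ (D : DS) (π : Par) (N : Net) (E : Finset N.Ed) (φ : N.W → D.P) (Λ : Type)
  (cls : N.W → Λ) (R r u nW : ℝ) (n : ℕ), D.Ok → π.Ok → N.Is π E → D.LvX N R φ E →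
  N.Ray π.ν E (1 / 2) → #(univ.image cls) ≤ nW → D.Cla π N φ cls R u r → 1 ≤ n →
  ∃ e ∈ E, ∃ x, (x = N.up e ∨ x = N.lo e) ∧ ∃ (b : ℕ) (A : Finset ℕ),
    (#π.PP : ℝ) ^ n / (4 ^ n * nW * n.factorial ^ 2) ≤ #A ∧ 0 < b ∧ b ≤ (2 * π.P) ^ n ∧
    ∀ a ∈ A, 0 < a ∧ |Real.log a - Real.log b| ≤ u + (4 * n + 2) * π.κ1 ∧
      D.Cl π.κ R (N.pos π x / b) r (D.dil a (φ x)) (D.dil b (φ x))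

/-- such a vertex is near a rational point -/
def SeedXSt : Prop := ∀ (D : DX) (π : Par) (N : Net) (E : Finset N.Ed) (φ : N.W → D.P) (Λ : Type)
  (cls : N.W → Λ) (r u u' nW Na : ℝ) (R n Wd : ℕ), D.toDS.Ok → D.OkN → π.Ok → N.Is π E → 0 ≤ r →
  0 < R → D.LvX N R φ E → N.Ray π.ν E (1 / 2) → #(univ.image cls) ≤ nW → D.Cla π N φ cls R u r →
  1 ≤ n → u + (4 * n + 2) * π.κ1 ≤ u' → u' ≤ 1 →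
  Na ≤ (#π.PP : ℝ) ^ n / (4 ^ n * nW * n.factorial ^ 2) → 2 * D.Dm < Na →
  2 * D.Dm * (4 * u' * (2 * π.P) ^ n) / Na + 1 ≤ Wd →
  (D.Dm * (1 + r) * Wd * (2 * π.P) ^ n / π.κ) ^ (2 * D.Dm) ≤ R →
  ∃ e ∈ E, ∃ x, (x = N.up e ∨ x = N.lo e) ∧ D.Cls π.κ (N.pos π x) R ((Wd : ℝ) ^ D.Dm)
    ((D.Dm * (1 + r) * Wd * (2 * π.P) ^ n / π.κ) ^ D.Dm) (φ x)

/-- propagation from the seeds and the exact decomposition -/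
def LevYSt : Prop := ∀ (D : DX) (π : Par) (N : Net) (E : Finset N.Ed) (φ : N.W → D.P)
  (ε Q0 T0 Q T Tm : ℝ) (R tm : ℕ), D.toDS.Ok → D.OkA → D.OkN → π.Ok → N.Is π E → 0 < R →
  D.LvX N R φ E → N.Ray π.ν E (1 - ε) → 1 ≤ tm → ε + 1 / tm < 1 / 2 → 2 * π.κ1 ≤ 1 →
  (∀ x, 1 ≤ π.κ * N.pos π x) → 0 ≤ Q0 → 0 ≤ T0 →
  (∀ E' ⊆ E, N.Ray π.ν E' (1 / 2) → ∃ e ∈ E', ∃ x, (x = N.up e ∨ x = N.lo e) ∧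
    D.Cls π.κ (N.pos π x) R Q0 T0 (φ x)) →
  Q0 * (2 * π.P) ^ tm ≤ Q → (9 ^ D.k) ^ tm * T0 ≤ T →
  T + 2 * D.Dm + (D.Dm * (1 + (T + D.Dm)) / π.κ) ^ D.Dm ≤ Tm →
  (D.Dm * (1 + (1 + 9 ^ D.k) * Tm) * Q ^ 2) ^ D.Dm < R →
  ∃ (E' : Finset N.Ed) (γ τ : N.W → D.P), E' ⊆ E ∧ D.Dec π Q Tm N E' φ γ τ ∧
    N.Ray π.ν E' (1 - 2 * ε - 2 / tm)

/-- the decomposition in the regime -/
def LevZSt : Prop := ∀ (k K : ℕ) (c : ℝ), 0 < c → ∃ c1 A : ℝ, 0 < c1 ∧ 1 ≤ A ∧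
  ∀ (tm : ℕ) (C D0 : ℝ), 1 ≤ tm → 0 < D0 → ∃ X0 : ℝ, ∀ X ≥ X0,
  ∀ (D : DX) (π : Par) (N : Net) (E : Finset N.Ed) (φ : N.W → D.P) (Λ : Type) (cls : N.W → Λ)
  (ε : ℝ) (R : ℕ), D.toDS.Ok → D.OkA → D.OkN → D.k = k → D.Dm = K → 2 * K ^ 3 ≤ π.k → π.Nf = 1 →
  Reg2 π X A C D0 → N.Is π E → D.LvX N R φ E → N.Ray π.ν E (1 - ε) → ε + 1 / tm < 1 / 2 →
  X ^ (7 * π.k + 2) ≤ R → π.κ * #(univ.image cls) ≤ X ^ c1 →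
  D.Cla π N φ cls R (3 * π.κ) (2 * 9 ^ D.k) → (∀ x, 1 ≤ π.κ * N.pos π x) →
  ∃ (E' : Finset N.Ed) (γ τ : N.W → D.P), E' ⊆ E ∧ D.Dec π (X ^ c) (X ^ (8 * K ^ 2)) N E' φ γ τ ∧
    N.Ray π.ν E' (1 - 2 * ε - 2 / tm)

/-- exact heights and orbits -/
structure DenXSt : Prop where
  rat : ∀ (D : DX) (q : ℕ) γ γ', D.OkA → D.Eq γ γ' → γ ∈ D.Rat q → γ' ∈ D.Rat q
  ex : ∀ (D : DX) (q : ℕ) γ, D.OkA → 1 ≤ q → γ ∈ D.Rat q → ∃ q' : ℕ, q' ≤ q ∧ D.Den q' γ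
  uniq : ∀ (D : DX) q q' γ, D.Den q γ → D.Den q' γ → q = q'
  congr : ∀ (D : DX) q γ γ', D.OkA → D.Eq γ γ' → D.Den q γ → D.Den q γ'
  cop : ∀ (D : DX) q γ (a : ℕ), D.OkA → Nat.Coprime a q → D.Den q γ → D.Den q (D.dil a γ)
  per : ∀ (D : DX) (Q q : ℕ) γ, D.OkA → γ ∈ D.Rat Q → Q ^ D.Dm ∣ q → D.Per q γ
  stab : ∀ (D : DS) (q : ℕ) [NeZero q] γ0, D.Ok → D.Per q γ0 → ∃ h : ℕ, 0 < h ∧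
    ∀ γ (a0 : ℕ), Nat.Coprime a0 q → D.Eq γ (D.dil a0 γ0) →
      #{a : (ZMod q)ˣ | D.Eq γ (D.dil (a : ZMod q).val γ0)} = h
  orb : ∀ (D : DS) (q p : ℕ) γ γ', D.Ok → 1 ≤ q → D.Per q γ → Nat.Coprime p q →
    D.Eq γ' (D.dil p γ) → ∀ β, (∃ a : ℕ, Nat.Coprime a q ∧ D.Eq β (D.dil a γ)) ↔
      ∃ a : ℕ, Nat.Coprime a q ∧ D.Eq β (D.dil a γ')

/-- one label -/
def LabXSt : Prop := ∀ (D : DX) (π : Par) (N : Net) (E : Finset N.Ed) (φ γ τ : N.W → D.P)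
  (yx : N.W → ℝ) (Q Tm lam ω u : ℝ) (Q1 : ℕ), D.toDS.Ok → D.OkA → π.Ok → π.Nf = 1 → N.Is π E →
  D.Dec π Q Tm N E φ γ τ → Pos π N E yx u → N.Ray π.ν E lam → Real.log Q ≤ ω * Real.log π.P →
  0 < lam - 2 * √(ω / #π.PP) → 1 ≤ Q1 → Q1 ≤ π.P →
  ∃ (q0 : ℕ) (γ0 t : D.P) (w : N.W → ℝ) (V : Finset N.W) (E1 : Finset N.Ed), E1 ⊆ E ∧ 1 ≤ q0 ∧
    q0 ≤ Q ∧ γ0 ∈ D.Rat q0 ∧ (∀ x, 0 ≤ w x) ∧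
    (∀ x ∈ V, (∃ e ∈ E, x = N.up e ∨ x = N.lo e) ∧ D.dil (yx x) (τ x) = t ∧
      ∃ a : ℕ, Nat.Coprime a (q0 ^ D.Dm * Q1) ∧ D.Eq (γ x) (D.dil a γ0)) ∧
    (∀ e ∈ E1, N.up e ∈ V ∧ N.lo e ∈ V ∧ Nat.Coprime (N.pr e) (q0 ^ D.Dm * Q1)) ∧
    0 < ∑ x ∈ V, w x ^ 2 ∧
    (lam - 2 * √(ω / #π.PP)) * ∑ x ∈ V, w x ^ 2 ≤ 2 / #π.PP * ∑ e ∈ E1, w (N.up e) * w (N.lo e)

/-- one component -/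
def BlockXSt : Prop := ∀ (D : DX) (Qf : ℝ → ℕ) (π : Par) (f : ℕ → ℂ) (N : Net) (E : Finset N.Ed)
  (φ γ τ : N.W → D.P) (yx : N.W → ℝ) (η ε2 Q Tm lam ω u β Kp : ℝ) (cL cU Nc : ℕ), D.toDS.Ok →
  D.OkA → D.OkE Qf → π.Ok → π.Nf = 1 → N.Is π E → (∀ n, ‖f n‖ ≤ 1) →
  D.Real0 π f η ε2 cL cU Nc N E φ → cL ≤ cU → D.Dec π Q Tm N E φ γ τ → Pos π N E yx u →
  N.Ray π.ν E lam → Real.log Q ≤ ω * Real.log π.P → 0 < lam - 2 * √(ω / #π.PP) → 0 < β →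
  Qf β ≤ π.P → u ≤ π.κ → 1 ≤ Kp → 2 * π.P * Kp ≤ π.κ * π.ps cL →
  ∃ (q : ℕ) (_ : NeZero q) (Φ : ℝ → ℕ → ℂ) (vU vL : ℕ → (ZMod q)ˣ → ℝ)
    (Gd : Finset (ℕ × (ZMod q)ˣ × ℕ)), q ≤ Q ^ D.Dm * Qf β ∧ Qf β ∣ q ∧
    Ker π.κ ((D.Dm * (1 + 5 ^ D.k * Tm)) ^ D.Dm / π.κ) β q (Qf β) Φ ∧
    BlkK π f Φ q vU vL Gd cL cU Nc (cU + Nc) (lam - 2 * √(ω / #π.PP))
      (η - 40 * (u / π.κ + 1 / Kp)) (ε2 + 40 * (u / π.κ + 1 / Kp)) u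

/-- from the top of the tower to one component -/
def CoreASt : Prop := ∀ (k K : ℕ) (Qf : ℝ → ℕ) (ε1 er β c : ℝ), 0 < ε1 → 0 < er → 0 < β → 0 < c →
  ∃ ε c1 A : ℝ, 0 < ε ∧ 0 < c1 ∧ 1 ≤ A ∧ ∀ C D0 : ℝ, 0 < D0 → ∃ X0 : ℝ, ∀ X ≥ X0,
  ∀ (D : DX) (π : Par) (f : ℕ → ℂ) (N : Net) (E : Finset N.Ed) (φ : N.W → D.P) (Λ : Type)
  (cls : N.W → Λ) (yx : N.W → ℝ) (η ε2 : ℝ) (R cL cU Nc : ℕ), D.OkX k K Qf → 2 * K ^ 3 ≤ π.k →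
  π.Nf = 1 → Reg2 π X A C D0 → (∀ n, ‖f n‖ ≤ 1) → N.Is π E → D.LvX N R φ E →
  N.Ray π.ν E (1 - ε) → X ^ (7 * π.k + 2) ≤ R → π.κ * #(univ.image cls) ≤ X ^ c1 →
  D.Cla π N φ cls R (3 * π.κ) (2 * 9 ^ D.k) → Pos π N E yx (X * π.κ0) →
  D.Real0 π f η ε2 cL cU Nc N E φ → cL ≤ cU → π.P ^ 2 ≤ π.κ * π.ps cL →
  ∃ (q : ℕ) (_ : NeZero q) (Φ : ℝ → ℕ → ℂ) (vU vL : ℕ → (ZMod q)ˣ → ℝ)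
    (Gd : Finset (ℕ × (ZMod q)ˣ × ℕ)), q ≤ X ^ c ∧ Qf β ∣ q ∧
    Ker π.κ (X ^ (7 * π.k + 1)) β q (Qf β) Φ ∧
    BlkK π f Φ q vU vL Gd cL cU Nc (cU + Nc) (1 - ε1) (η - er) (ε2 + er) (X * π.κ0)

end Pool.Agent.Lib.MP_028aa5_nt.V
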