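import Pool.Agent.Lib.MP_028aa5_nt.V.StB

/-! Statements: the tower over a graph of atoms. -/

namespace Pool.Agent.Lib.MP_028aa5_nt.V

open Finset T U
open scoped Classical

/-- the tower over a graph, with explicit conditions -/
def TowYSt : Prop := ∀ (D : DS) (ε δ : ℝ), D.Ok → D.Fine → 0 < ε → ε ≤ 1 / 64 → 0 < δ → ∃ ρ : ℝ,
  0 < ρ ∧ ρ ≤ 1 ∧ ∀ (π : Par) (N : Net) (E : Finset N.Ed) (φ : N.W → D.P) (cL cU Nc s : ℕ)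
  (K L u : ℝ), π.Ok → N.Is π E → D.Lv π N 1 ρ φ E → N.Ray π.ν E (1 - ε) →
  (∀ x, N.isU x = true → N.cell x ∈ Ico cU (cU + Nc)) →
  (∀ x, N.isU x = false → N.cell x ∈ Ico cL (cL + Nc)) → cL ≤ cU → Nc * π.κ1 ≤ 2 →
  π.P ^ 9 ≤ π.κ * π.ps cL → 8 ≤ π.P → 2 * √(π.M / #π.PP) ≤ ε →
  (1 / ε + 1) * #π.PP * π.κ0 ≤ u → u ≤ π.κ → (s + 9) * π.κ ≤ 1 →
  2 * π.M * (12 * π.G + 1) * D.cK ≤ K → 2 * D.cK ≤ K → K ^ 70 ≤ #π.PP →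
  4 * D.cD * (8 + s) ≤ K → 0 ≤ L → 6 * L + 6 ≤ Real.log K →
  (s + 1) * (16 * (Real.log K / K) + 6 * Real.exp (-L)) ≤ 32 * ε →
  ∃ R : ℕ, π.P ^ s ≤ R ∧ ∃ (N' : Net) (E' : Finset N'.Ed) (φ' : N'.W → D.P)
    (cls : N'.W → Bool × ℤ × D.P) (yx : N'.W → ℝ),
    D.Out π N E φ δ u R (1 - 64 * ε) (12 * K ^ (3 * (s + 1))) N' E' φ' cls yx

/-- the tower in the regime -/
def TowXSt : Prop := ∀ (D : DS) (k : ℕ) (ε δ c : ℝ), D.Ok → D.Fine → 0 < ε → ε ≤ 1 / 64 → 0 < δ →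
  0 < c → ∃ ρ A : ℝ, 0 < ρ ∧ ρ ≤ 1 ∧ 1 ≤ A ∧ ∀ (G M : ℕ) (C D0 : ℝ), 0 < D0 → ∃ X0 : ℝ, ∀ X ≥ X0,
  ∀ (π : Par) (N : Net) (E : Finset N.Ed) (φ : N.W → D.P) (cL cU Nc : ℕ), π.k = k → π.G = G →
  π.M = M → Reg2 π X A C D0 → N.Is π E → D.Lv π N 1 ρ φ E → N.Ray π.ν E (1 - ε) →
  (∀ x, N.isU x = true → N.cell x ∈ Ico cU (cU + Nc)) →
  (∀ x, N.isU x = false → N.cell x ∈ Ico cL (cL + Nc)) → cL ≤ cU → Nc * π.κ1 ≤ 2 →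
  π.P ^ 9 ≤ π.κ * π.ps cL →
  ∃ R : ℕ, X ^ (7 * k + 2) ≤ R ∧ ∃ (N' : Net) (E' : Finset N'.Ed) (φ' : N'.W → D.P)
    (cls : N'.W → Bool × ℤ × D.P) (yx : N'.W → ℝ),
    D.Out π N E φ δ (X * π.κ0) R (1 - 64 * ε) (X ^ c) N' E' φ' cls yx

end Pool.Agent.Lib.MP_028aa5_nt.V
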