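import Pool.Agent.Lib.MP_028aa5_nt.V.Defs

/-! Statements: correlations, the stable scale, exact points, rare positions. -/

namespace Pool.Agent.Lib.MP_028aa5_nt.V

open Finset T U
open scoped Classical

namespace DX

variable (D : DX)

/-- the window at `y` carries an admissible atom -/
def At (Ad : D.P → Prop) (κ : ℝ) (f : ℕ → ℂ) (η y : ℝ) : Prop := ∃ g, Ad g ∧ η ≤ ‖D.cc κ f y g‖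

/-- the window at `y` carries a family with more than `M` atoms -/
def Bad (Ad : D.P → Prop) (κ : ℝ) (f : ℕ → ℂ) (η ρ : ℝ) (M : ℕ) (y : ℝ) : Prop :=
  ∃ A, D.Fam Ad κ f η ρ y A ∧ M < #A

/-- the class of atoms is closed under integer dilations -/
def Clo (Ad : D.P → Prop) : Prop := ∀ (p : ℕ) g, Ad g → Ad (D.dil p g)

end DX

/-- the range of the primes of `fw` -/
structure Pw (X a : ℝ) (i0 i1 B : ℕ) : Prop where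
  lo : X ^ a ≤ (2 : ℝ) ^ i0
  hi : (2 : ℝ) ^ i1 ≤ X ^ (1 / 10 : ℝ)
  ab : 2 ≤ a * B

/-- the range of the windows -/
structure Rg (X C θ κ Y : ℝ) : Prop where
  lo : X ^ θ ≤ Y
  hi : 8 * Y ≤ X
  len : Real.log X ^ C ≤ κ * Y
  κ : κ ≤ X ^ (-(1 / 2 : ℝ))

namespace DX

variable (D : DX)

/-- few positions carry an atom -/
def Rare (Ad : D.P → Prop) : Prop := ∀ a η β θ : ℝ, 0 < a → 0 < η → 0 < β → 9 / 10 < θ →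
  ∃ C X0 : ℝ, ∀ X ≥ X0, ∀ (i0 i1 B : ℕ) (κ Y : ℝ), Pw X a i0 i1 B → Rg X C θ κ Y →
  MeasureTheory.volume {v ∈ Set.Icc (Real.log Y) (Real.log Y + 3) |
    D.At Ad κ (fw (SS i0 i1) B) η (Real.exp v)} ≤ ENNReal.ofReal β

/-- few positions carry a large family -/
def Tame (Ad : D.P → Prop) : Prop := ∀ a η ρ : ℝ, 0 < a → 0 < η → 0 < ρ → ∃ M : ℕ,
  ∀ β θ : ℝ, 0 < β → 9 / 10 < θ →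
  ∃ C X0 : ℝ, ∀ X ≥ X0, ∀ (i0 i1 B : ℕ) (κ Y : ℝ), Pw X a i0 i1 B → Rg X C θ κ Y →
  MeasureTheory.volume {v ∈ Set.Icc (Real.log Y) (Real.log Y + 2) |
    D.Bad Ad κ (fw (SS i0 i1) B) η ρ M (Real.exp v)} ≤ ENNReal.ofReal β

/-- a large family gives an atom of one of finitely many rare classes on a shorter window -/
def Red (Ad : D.P → Prop) : Prop := ∀ η ρ : ℝ, 0 < η → 0 < ρ → ∃ (M L n : ℕ) (D' : Fin n → DX)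
  (Ad' : ∀ j, (D' j).P → Prop) (η' K0 : ℝ), 1 ≤ L ∧ 0 < η' ∧ (∀ j, (D' j).Rare (Ad' j)) ∧
  ∀ (κ κ' y : ℝ) (f : ℕ → ℂ), (∀ n, ‖f n‖ ≤ 1) → 0 < κ' → κ ≤ 1 → (1 + κ') ^ L = 1 + κ →
    K0 ≤ κ * y → D.Bad Ad κ f η ρ M y → ∃ j, ∃ i < L, (D' j).At (Ad' j) κ' f η' (y * (1 + κ') ^ i)

/-- few cells carry an atom -/
def Cell (k : ℕ) (Ad : D.P → Prop) : Prop := ∀ (a η c0 θ : ℝ) (G0 : ℕ), 0 < a → 0 < η → 0 < c0 →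
  9 / 10 < θ → ∃ (G : ℕ) (C X0 : ℝ), G0 ≤ G ∧ 1 ≤ G ∧ ∀ X ≥ X0, ∀ (π : Par) (i0 i1 B cX Nc : ℕ),
  π.k = k → π.G = G → 1 ≤ π.Nf → π.κ0 = X ^ (-(7 * k + 4 : ℝ)) → Pw X a i0 i1 B →
  X ^ θ ≤ π.ps cX → π.ps cX ≤ X → Real.log X ^ C ≤ π.κ * π.ps cX → π.κ ≤ X ^ (-(1 / 2 : ℝ)) →
  1 ≤ Nc * π.κ1 → Nc * π.κ1 ≤ Real.log 4 →
  (#{c ∈ Ico cX (cX + Nc) | D.At Ad π.κ (fw (SS i0 i1) B) η (π.ps c)} : ℝ) < c0 * Nc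

/-- no graph at the stable scale -/
def Core (k : ℕ) : Prop := ∀ η a : ℝ, 0 < η → η ≤ 1 → 0 < a →
  ∃ (ε ε2 ρ : ℝ) (G0 : ℕ) (A : ℝ), 0 < ε ∧ 0 < ε2 ∧ 0 < ρ ∧ 1 ≤ A ∧
  ∀ (G M : ℕ) (C D0 : ℝ), G0 ≤ G → 0 < D0 →
  ∃ X0 : ℝ, ∀ X ≥ X0, ∀ (π : Par) (i0 i1 B cL cU Nc : ℕ) (N : Net) (E : Finset N.Ed)
  (φ : N.W → D.P), π.k = k → π.M = M → π.G = G → Reg2 π X A C D0 →
  X ^ a ≤ (2 : ℝ) ^ i0 → (2 : ℝ) ^ i1 ≤ X ^ (1 / 10 : ℝ) → 2 ≤ a * B → N.Is π E →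
  D.Lv π N 1 ρ φ E → N.Ray π.ν E (1 - ε) → D.Real0 π (fw (SS i0 i1) B) η ε2 cL cU Nc N E φ →
  cL ≤ cU → Nc * π.κ1 ≤ Real.log 4 → X ^ (9 / 10 : ℝ) ≤ π.ps cL →
  π.ps cU ≤ X → π.P ^ 9 ≤ π.κ * π.ps cL → False

/-- local uniformity of the Liouville function against all atoms -/
def Main : Prop := ∀ η : ℝ, 0 < η → ∃ C X0 : ℝ, ∀ X ≥ X0, ∀ H : ℝ, Real.log X ^ C ≤ H → H ≤ X →
  ∫ x in X..2 * X, supU (fun (g : D.P) n => lio n * D.ev g n) H x ≤ η * (H * X)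

end DX

/-- correlations -/
structure CcSt : Prop where
  bd : ∀ (D : DX) Qf κ f y g, D.OkE Qf → (∀ n, ‖f n‖ ≤ 1) → 0 < κ → 1 ≤ κ * y → ‖D.cc κ f y g‖ ≤ 2
  int : ∀ (D : DX) Qf κ f y g h, D.OkE Qf → D.Eq g h → D.cc κ f y g = D.cc κ f y h
  pert : ∀ (D : DX) Qf κ f y r g h, D.toDS.Ok → D.OkE Qf → (∀ n, ‖f n‖ ≤ 1) → 0 < κ →
    1 ≤ κ * y → r ≤ 1 → D.Cl κ 1 y r g h → ‖D.cc κ f y g - D.cc κ f y h‖ ≤ 2 * D.Dm * r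
  move : ∀ (D : DX) Qf κ f y y' u g, D.OkE Qf → (∀ n, ‖f n‖ ≤ 1) → 0 < κ → κ ≤ 1 → 1 ≤ κ * y →
    0 < y' → |Real.log y' - Real.log y| ≤ u → u ≤ 1 →
    ‖D.cc κ f y' g - D.cc κ f y g‖ ≤ 20 * (u / κ + 1 / (κ * y))
  tk : ∀ (D : DX) Qf κ f y g (Q : Finset ℕ) (B : ℝ), D.OkE Qf → (∀ n, ‖f n‖ ≤ 1) → 0 < κ →
    1 ≤ B → (∀ p ∈ Q, p.Prime ∧ p ≤ B ∧ ∀ m, 0 < m → f (p * m) = -f m) → 4 * B ^ 2 ≤ κ * y →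
    ∑ p ∈ Q, 1 / (p : ℝ) * ‖D.cc κ f y g + D.cc κ f (y / p) (D.dil p g)‖ ^ 2 ≤ 8
  wid : ∀ (D : DX) Qf κ κ' f y g, D.OkE Qf → (∀ n, ‖f n‖ ≤ 1) → 0 < κ' → κ' ≤ κ → 1 ≤ κ' * y →
    ‖D.cc κ f y g - D.cc κ' f y g‖ ≤ 3 * (κ - κ') / κ + 1 / (κ * y)

/-- matching into a largest family -/
def MatchSt : Prop := ∀ (D : DX) (Ad : D.P → Prop) (κ η ρ y : ℝ) (f : ℕ → ℂ)
  (A AL : Finset D.P), D.toDS.Ok → 0 ≤ ρ → D.Fam Ad κ f η ρ y A → D.Fam Ad κ f η ρ y AL →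
  (∀ A', D.Fam Ad κ f η ρ y A' → #A' ≤ #AL) →
  ∃ m : D.P → D.P, Set.InjOn m A ∧ ∀ g ∈ A, m g ∈ AL ∧ D.Cl κ 1 y ρ (m g) g

/-- dilates of a family form a family, except for few primes -/
def DescSt : Prop := ∀ (D : DX) (Qf : ℝ → ℕ) (Ad : D.P → Prop) (π : Par) (f : ℕ → ℂ)
  (η η' ρ ρ' ε2 K1 y : ℝ) (A : Finset D.P), D.toDS.Ok → D.OkE Qf → D.Clo Ad → π.Ok →
  (∀ n, ‖f n‖ ≤ 1) → 2 * π.κ1 ≤ 1 → 12 * π.P ^ 2 ≤ K1 → K1 ≤ π.κ * y → 0 ≤ ρ' →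
  ρ ≤ 1 → ρ' * (1 + 8 / π.G) ^ D.k ≤ ρ → η' ≤ η - ε2 - 20 * (2 / π.G + 1 / K1) →
  D.Fam Ad π.κ f η ρ y A →
  ∃ Col : Finset ℕ, #Col ≤ #A ^ 2 ∧ ∀ p ∈ π.PP, p ∉ Col → Set.InjOn (D.dil p) A ∧ ∀ y' : ℝ,
    K1 ≤ π.κ * y' → |Real.log (y / p) - Real.log y'| ≤ 2 * π.κ1 →
    D.Fam Ad π.κ f η' ρ' y' (image (D.dil p)
      {g ∈ A | ‖D.cc π.κ f y g + D.cc π.κ f (y / p) (D.dil p g)‖ ≤ ε2})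

/-- one descent; the cells in `Bd` are given up -/
def A1St : Prop := ∀ (D : DX) (Qf : ℝ → ℕ) (Ad : D.P → Prop) (π : Par) (f : ℕ → ℂ)
  (δ η η' ρ ρ' ε2 τ β K1 : ℝ) (cL sh Nc : ℕ) (AU AL : ℕ → Finset D.P) (Bd : Finset ℕ),
  D.toDS.Ok → D.OkE Qf → D.Clo Ad → π.Ok → (∀ n, ‖f n‖ ≤ 1) → δ ≤ 1 → π.κ1 ≤ δ → 2 * π.κ1 ≤ 1 →
  (∀ p ∈ π.PP, p ≤ (1 + δ) * π.P) → 1 ≤ Nc * π.κ1 → sh * π.κ1 ≤ Real.log π.P →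
  Real.log π.P < (sh + 1) * π.κ1 → 12 * π.P ^ 2 ≤ K1 → K1 ≤ π.κ * π.ps cL → 0 ≤ ρ' →
  ρ ≤ 1 → ρ' * (1 + 8 / π.G) ^ D.k ≤ ρ → 0 < ε2 →
  η' ≤ η - ε2 - 20 * (2 / π.G + 1 / K1) → (#Bd : ℝ) ≤ β * Nc →
  (∀ c ∈ Ico (cL + sh) (cL + sh + Nc), D.Fam Ad π.κ f η ρ (π.ps c) (AU c) ∧ #(AU c) ≤ π.M) →
  (∀ c ∈ Ico cL (cL + Nc), D.Fam Ad π.κ f η' ρ' (π.ps c) (AL c) ∧ #(AL c) ≤ π.M ∧
    (c ∉ Bd → ∀ A, D.Fam Ad π.κ f η' ρ' (π.ps c) A → #A ≤ #(AL c))) →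
  ∑ p ∈ π.PP, ∑ c ∈ Ico (cL + sh) (cL + sh + Nc), ∑ g ∈ AU c,
    ‖D.cc π.κ f (π.ps c) g + D.cc π.κ f (π.ps c / p) (D.dil p g)‖ ^ 2 ≤ τ * #π.PP * Nc →
  ∃ (N : Net) (E : Finset N.Ed) (φ : N.W → D.P), N.Is π E ∧ D.Lv π N 1 ρ' φ E ∧
    D.Real0 π f η' ε2 cL (cL + sh) Nc N E φ ∧
    ∀ lam, lam * (∑ c ∈ Ico (cL + sh) (cL + sh + Nc), (#(AU c) : ℝ) +
      ∑ c ∈ Ico cL (cL + Nc), (#(AL c) : ℝ)) ≤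
      2 * (∑ c ∈ Ico (cL + sh) (cL + sh + Nc), (#(AU c) : ℝ) -
        π.M * Nc * (τ / ε2 ^ 2 + π.M ^ 2 / #π.PP + 3 * δ + β)) →
      0 < ∑ c ∈ Ico (cL + sh) (cL + sh + Nc), (#(AU c) : ℝ) → N.Ray π.ν E lam

/-- one descent with the choice of the primes and of the lower families -/
def OneSt : Prop := ∀ (M : ℕ) (ε2 ls : ℝ), 1 ≤ M → 0 < ε2 → 0 < ls → ∃ D0 K0 : ℝ, 1 ≤ D0 ∧
  ∀ (D : DX) (Qf : ℝ → ℕ) (Ad : D.P → Prop) (π : Par) (f : ℕ → ℂ) (P1 η η' ρ ρ' K1 : ℝ)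
  (cU Nc : ℕ) (AU : ℕ → Finset D.P), D.toDS.Ok → D.OkE Qf → D.Clo Ad → 1 ≤ π.k →
  π.M = M → 1 ≤ π.G → 0 < π.κ0 → 1 ≤ π.Nf → π.κ * K0 ≤ 1 → K0 ≤ P1 → 1 ≤ Nc * π.κ1 →
  12 * (P1 ^ D0) ^ 2 ≤ K1 → K1 * P1 ^ D0 ≤ π.κ * π.ps cU → (∀ n, ‖f n‖ ≤ 1) →
  (∀ p : ℕ, p.Prime → p ≤ P1 ^ D0 → ∀ m, 0 < m → f (p * m) = -f m) → 0 ≤ ρ' → ρ ≤ 1 →
  ρ' * (1 + 8 / π.G) ^ D.k ≤ ρ → η' ≤ η - ε2 - 20 * (2 / π.G + 1 / K1) →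
  (∀ c ∈ Ico cU (cU + Nc), D.Fam Ad π.κ f η ρ (π.ps c) (AU c) ∧ #(AU c) ≤ M) →
  (∀ c1, 8 * π.ps c1 ≤ π.ps cU → π.ps cU ≤ P1 ^ D0 * π.ps c1 →
    (#{c ∈ Ico c1 (c1 + Nc) | D.Bad Ad π.κ f η' ρ' M (π.ps c)} : ℝ) ≤ ls / M * Nc) →
  ∃ (P : ℝ) (PP : Finset ℕ) (cL : ℕ) (AL : ℕ → Finset D.P) (N : Net) (E : Finset N.Ed)
    (φ : N.W → D.P), Par.Ok { π with P := P, PP := PP } ∧ P1 ≤ P ∧ P ≤ P1 ^ D0 ∧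
    P / (D0 * Real.log P) ≤ #PP ∧ cL ≤ cU ∧ π.ps cU ≤ P1 ^ D0 * π.ps cL ∧
    (∀ c ∈ Ico cL (cL + Nc), D.Fam Ad π.κ f η' ρ' (π.ps c) (AL c) ∧ #(AL c) ≤ M) ∧
    N.Is { π with P := P, PP := PP } E ∧ D.Lv { π with P := P, PP := PP } N 1 ρ' φ E ∧
    D.Real0 { π with P := P, PP := PP } f η' ε2 cL cU Nc N E φ ∧
    ∀ lam, lam * (∑ c ∈ Ico cU (cU + Nc), (#(AU c) : ℝ) + ∑ c ∈ Ico cL (cL + Nc), (#(AL c) : ℝ)) ≤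
      2 * (∑ c ∈ Ico cU (cU + Nc), (#(AU c) : ℝ) - 2 * ls * Nc) →
      0 < ∑ c ∈ Ico cU (cU + Nc), (#(AU c) : ℝ) →
      N.Ray (Par.ν { π with P := P, PP := PP }) E lam

/-- the stable scale -/
def A2St : Prop := ∀ (k M m1 G0 : ℕ) (η c0 ρ ε ε2 : ℝ), 1 ≤ M → 0 < η → 0 < c0 → 0 < ρ →
  ρ ≤ 1 → 0 < ε → 0 < ε2 → ∃ (G : ℕ) (D0 K0 β : ℝ), G0 ≤ G ∧ 1 ≤ G ∧ 1 ≤ D0 ∧ 0 < β ∧
  ∀ (D : DX) (Qf : ℝ → ℕ) (Ad : D.P → Prop) (π : Par) (f : ℕ → ℂ) (P1 : ℝ) (cX Nc : ℕ),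
  D.toDS.Ok → D.OkE Qf → D.Clo Ad → D.k = k → 1 ≤ π.k → π.G = G → π.M = M → 0 < π.κ0 →
  1 ≤ π.Nf → π.κ * K0 ≤ 1 → K0 ≤ P1 → 1 ≤ Nc * π.κ1 → P1 ^ D0 ≤ π.κ * π.ps cX →
  (∀ n, ‖f n‖ ≤ 1) → (∀ p : ℕ, p.Prime → p ≤ P1 ^ D0 → ∀ m, 0 < m → f (p * m) = -f m) →
  (∀ c1, 8 * π.ps c1 ≤ π.ps cX → π.ps cX ≤ P1 ^ D0 * π.ps c1 → P1 ≤ π.κ * π.ps c1 →
    (#{c ∈ Ico c1 (c1 + Nc) | D.Bad Ad π.κ f (η / 2) (ρ / 2) M (π.ps c)} : ℝ) ≤ β * Nc) →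
  c0 * Nc ≤ #{c ∈ Ico cX (cX + Nc) | D.At Ad π.κ f η (π.ps c)} →
  ∃ (P : ℝ) (PP : Finset ℕ) (cL cU : ℕ) (N : Net) (E : Finset N.Ed) (φ : N.W → D.P),
    Par.Ok { π with P := P, PP := PP } ∧ P1 ≤ P ∧ P ≤ P1 ^ D0 ∧ P / (D0 * Real.log P) ≤ #PP ∧
    cL ≤ cU ∧ cU ≤ cX ∧ π.ps cX ≤ P1 ^ D0 * π.ps cL ∧ P ^ m1 ≤ π.κ * π.ps cL ∧
    N.Is { π with P := P, PP := PP } E ∧ D.Lv { π with P := P, PP := PP } N 1 ρ φ E ∧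
    D.Real0 { π with P := P, PP := PP } f (η / 2) ε2 cL cU Nc N E φ ∧
    N.Ray (Par.ν { π with P := P, PP := PP }) E (1 - ε)

/-- colliding primes -/
def ColSt : Prop := ∀ (D : DS) (π : Par) (N : Net) (E : Finset N.Ed) (φ : N.W → D.P) (r Y : ℝ),
  D.Ok → π.Ok → N.Is π E → (∀ x, Y ≤ N.pos π x) → 2 * r ≤ 100 ^ (D.k + 1) →
  4 * π.P ^ 2 ≤ π.κ * Y →
  ∃ Col : N.W → Finset ℕ, (∀ x, #(Col x) ≤ π.M) ∧ ∀ x x', ∀ p ∈ π.PP, ∀ w,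
    N.isU x = N.isU x' → N.cell x = N.cell x' → p ∉ Col x → D.dil p w ∈ D.Λ →
    D.ν π.κ (N.pos π x) (φ x * w * (φ x')⁻¹) ≤ r → w ∈ D.Λ

/-- nearly invariant sets in a discrete subgroup -/
def FolSt : Prop := ∀ (D : DS) (ε : ℝ), D.Ok → 0 < ε → ∃ Nn : ℝ, 1 ≤ Nn ∧ ∀ (κ y r : ℝ)
  (L : Subgroup D.P), 0 < r → Nn * r ≤ 1 → (∀ R : ℝ, {d | d ∈ L ∧ D.ν κ y d ≤ R}.Finite) →
  ∃ B : Finset D.P, B.Nonempty ∧ (∀ d ∈ B, D.ν κ y d ≤ Nn * r) ∧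
    ∀ s ∈ L, D.ν κ y s ≤ r → (1 - ε) * #B ≤ #{d ∈ B | d * s ∈ B}

/-- exact atoms -/
def OffSt : Prop := ∀ (D : DS) (ε : ℝ), D.Ok → D.Fine → 0 < ε → ε ≤ 1 → ∃ Nn : ℝ, 1 ≤ Nn ∧
  ∀ (κ γ r ν lam : ℝ) (N1 : Net) (E1 : Finset N1.Ed) (φ : N1.W → D.P) (nn : N1.W → ℕ), 0 < κ →
  0 < γ → 0 < r → Nn * r ≤ 1 → 0 ≤ ν → Fine N1 E1 → N1.Ray ν E1 lam →
  (∀ e ∈ E1, 0 < N1.pr e ∧ nn (N1.up e) = N1.pr e * nn (N1.lo e) ∧ 0 < nn (N1.lo e) ∧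
    D.Cl κ 1 (γ * nn (N1.lo e)) r (φ (N1.lo e)) (D.dil (N1.pr e) (φ (N1.up e)))) →
  ∃ (N2 : Net) (E2 : Finset N2.Ed) (bx : N2.W → N1.W) (be : N2.Ed → N1.Ed) (ψ : N2.W → D.P),
    Fine N2 E2 ∧ N2.Ray ν E2 (lam * (1 - ε)) ∧ ∀ e ∈ E2, be e ∈ E1 ∧ N1.pr (be e) = N2.pr e ∧
      bx (N2.up e) = N1.up (be e) ∧ bx (N2.lo e) = N1.lo (be e) ∧
      D.Eq (ψ (N2.lo e)) (D.dil (N2.pr e) (ψ (N2.up e))) ∧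
      D.ν κ (γ * nn (N1.up (be e))) (ψ (N2.up e) * (φ (N1.up (be e)))⁻¹) ≤ Nn * r ∧
      D.ν κ (γ * nn (N1.lo (be e))) (ψ (N2.lo e) * (φ (N1.lo (be e)))⁻¹) ≤ Nn * r

/-- the exact graph at the bottom of the tower -/
def InitSt : Prop := ∀ (D : DS) (ε δ : ℝ), D.Ok → D.Fine → 0 < ε → ε ≤ 1 / 8 → 0 < δ → δ ≤ 1 →
  ∃ ρ : ℝ, 0 < ρ ∧ ρ ≤ 1 ∧ ∀ (π : Par) (N : Net) (E : Finset N.Ed) (φ : N.W → D.P) (Y u : ℝ)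
  (S : D.Pt → ℤ × D.P), π.Ok → N.Is π E → D.Lv π N 1 ρ φ E →
  N.Ray π.ν E (1 - ε) → (∀ x, Y ≤ N.pos π x) → 2 * π.κ ≤ 1 → 4 * π.P ^ 2 ≤ π.κ * Y →
  2 * √(π.M / #π.PP) ≤ ε → (1 / ε + 1) * #π.PP * π.κ0 ≤ u → u ≤ π.κ →
  ∃ (E0 : Finset (D.Pt × ℕ)) (F F' : D.Pt → ℝ), (D.geo π Y S).Gr E0 F F' (1 - 4 * ε) ∧
    ∀ e ∈ E0, D.Lnk π N E φ δ u e.1 e.2

/-- states at the bottom of the tower -/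
def Cnt0St : Prop := ∀ (D : DS) (π : Par) (N : Net) (E : Finset N.Ed) (φ : N.W → D.P) (Y δ u : ℝ)
  (S : D.Pt → ℤ × D.P) (E0 : Finset (D.Pt × ℕ)), D.Ok → π.Ok → N.Is π E →
  D.StMap π.κ S → δ ≤ 1 → u ≤ π.κ → 8 ≤ π.P → (∀ x, Y ≤ N.pos π x) →
  (∀ e ∈ E0, D.Lnk π N E φ δ u e.1 e.2) →
  (∀ e ∈ E0, (D.geo π Y S).V 0 e.1) ∧
    (D.geo π Y S).Cnt (E0.image Prod.fst) (2 * π.M * (12 * π.G + 1) * D.cK) ∧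
    (D.geo π Y S).Cnt (E0.image (D.geo π Y S).lw) (2 * π.M * (12 * π.G + 1) * D.cK)

/-- the graph at the top of the tower -/
def NetSt : Prop := ∀ (D : DS) (π : Par) (N : Net) (E : Finset N.Ed) (φ : N.W → D.P)
  (Y δ u lam Mb : ℝ) (S : D.Pt → ℤ × D.P) (R : List ℕ) (E1 : Finset (D.Pt × ℕ)) (F F' : D.Pt → ℝ)
  (cL cU Nc : ℕ), D.Ok → π.Ok → N.Is π E → D.StMap π.κ S → 2 * π.κ ≤ 1 →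
  u ≤ π.κ → (D.geo π Y S).Gr E1 F F' lam → (∀ r ∈ R, r ∈ π.PP) →
  (∀ e ∈ E1, D.Lnk π N E φ δ u ((D.geo π Y S).chL R e.1) e.2) →
  (D.geo π Y S).Cnt (E1.image Prod.fst) Mb → (D.geo π Y S).Cnt (E1.image (D.geo π Y S).lw) Mb →
  (∀ x, N.isU x = true → N.cell x ∈ Ico cU (cU + Nc)) →
  (∀ x, N.isU x = false → N.cell x ∈ Ico cL (cL + Nc)) → Nc * π.κ1 ≤ 2 →
  ∃ (N' : Net) (E' : Finset N'.Ed) (φ' : N'.W → D.P) (cls : N'.W → Bool × ℤ × D.P)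
    (yx : N'.W → ℝ), D.Out π N E φ (5 ^ D.k * δ) u R.prod lam (12 * Mb) N' E' φ' cls yx

/-- the properties that come from `f` pass to the new graph -/
def RealSt : Prop := ∀ (D : DX) (Qf : ℝ → ℕ) (π : Par) (f : ℕ → ℂ) (η ε2 δ u lam nW K er : ℝ)
  (cL cU Nc R : ℕ) (N : Net) (E : Finset N.Ed) (φ : N.W → D.P) (N' : Net) (E' : Finset N'.Ed)
  (φ' : N'.W → D.P) (cls : N'.W → Bool × ℤ × D.P) (yx : N'.W → ℝ), D.toDS.Ok → D.OkE Qf → π.Ok →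
  N.Is π E → (∀ n, ‖f n‖ ≤ 1) → D.Real0 π f η ε2 cL cU Nc N E φ → cL ≤ cU → 1 ≤ K →
  2 * π.P * K ≤ π.κ * π.ps cL → δ ≤ 1 → 4 * D.Dm * δ + 40 / π.G + 40 / K ≤ er →
  D.Out π N E φ δ u R lam nW N' E' φ' cls yx →
  D.Real0 (vA π (Fintype.card N'.W)) f (η - er) (ε2 + er) (cL * π.Nf) (cU * π.Nf) (Nc * π.Nf)
    N' E' φ'

/-- from the core to cells -/
def CellSt : Prop := ∀ (D : DX) (k : ℕ) (Qf : ℝ → ℕ) (Ad : D.P → Prop), 1 ≤ k → D.toDS.Ok →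
  D.OkE Qf → D.Clo Ad → D.Core k → D.Tame Ad → D.Cell k Ad

/-- from cells to positions -/
def RareSt : Prop := ∀ (D : DX) (k : ℕ) (Qf : ℝ → ℕ) (Ad : D.P → Prop), D.OkE Qf →
  D.Cell k Ad → D.Rare Ad

/-- the union bound -/
def TameSt : Prop := ∀ (D : DX) (Ad : D.P → Prop), D.Red Ad → D.Tame Ad

/-- from cells to the integral -/
def TopSt : Prop := ∀ (D : DX) (k : ℕ) (Qf : ℝ → ℕ), D.OkE Qf → D.Cell k (fun _ => True) → D.Main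

end Pool.Agent.Lib.MP_028aa5_nt.V
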