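import Pool.Agent.Lib.MP_028aa5_nt.T.A0a
import Pool.Agent.Lib.MP_028aa5_nt.T.A0
import Pool.Agent.Lib.MP_028aa5_nt.T.C

/-! From the integral of a supremum over a family of bounded sequences to cells with an atom. -/

namespace Pool.Agent.Lib.MP_028aa5_nt.V

open Finset MeasureTheory T
open scoped ComplexConjugate Classical

namespace Gen

/-- the supremum over a family of sequences -/
noncomputable def supG {ι : Type} (u : ι → ℕ → ℂ) (H x : ℝ) : ℝ :=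
  ⨆ i, ‖∑ n ∈ Ioc ⌊x⌋₊ ⌊x + H⌋₊, lio n * u i n‖

variable {ι : Type} [Nonempty ι] {u : ι → ℕ → ℂ}

lemma term_le {a b : ℂ} (ha : ‖a‖ ≤ 1) (hb : ‖b‖ ≤ 1) : ‖a * b‖ ≤ 1 := by
  rw [norm_mul]
  exact mul_le_one₀ ha (norm_nonneg _) hb

omit [Nonempty ι] in
lemma meas (u : ι → ℕ → ℂ) (H : ℝ) : Measurable (supG u H) := by
  obtain ⟨g, hg⟩ : ∃ g : ℕ × ℕ → ℝ, ∀ x, supG u H x = g (⌊x⌋₊, ⌊x + H⌋₊) :=
    ⟨fun j => ⨆ i, ‖∑ n ∈ Ioc j.1 j.2, lio n * u i n‖, fun _ => rfl⟩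
  rw [show supG u H = g ∘ fun x => (⌊x⌋₊, ⌊x + H⌋₊) from funext hg]
  exact (measurable_of_countable g).comp
    (Nat.measurable_floor.prodMk (Nat.measurable_floor.comp (measurable_add_const H)))

theorem integ (hu : ∀ i n, ‖u i n‖ ≤ 1) {H X : ℝ} (hH : 0 ≤ H) (hX : 0 ≤ X) :
    IntervalIntegrable (supG u H) volume X (2 * X) := by
  rw [intervalIntegrable_iff_integrableOn_Ioc_of_le (by linarith)]
  refine Measure.integrableOn_of_bounded (M := H + 1) (by simp) (meas u H).aestronglyMeasurable ?_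
  filter_upwards [ae_restrict_mem measurableSet_Ioc] with x hx
  rw [supG, Real.norm_of_nonneg (Real.iSup_nonneg fun _ => norm_nonneg _)]
  refine ciSup_le fun i => ?_
  have := A0a.sum_le (a := fun n => lio n * u i n) (fun n => term_le (A0a.lio_le n) (hu i n))
    (hX.trans hx.1.le) (le_add_of_nonneg_right hH)
  linarith

open A0a in
theorem a0a (hu : ∀ i n, ‖u i n‖ ≤ 1) (π : Par) (X H : ℝ) (c0 Nc : ℕ) (s : ℕ → ℝ)
    (hκ0 : 0 < π.κ0) (hG : 1 ≤ π.G) (hκX : 1 ≤ π.κ * X) (hH : 0 ≤ H) (hHX : H ≤ X)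
    (h0 : π.ps c0 ≤ X) (h1 : 3 * X ≤ π.ps (c0 + Nc))
    (hs : ∀ c ∈ Ico c0 (c0 + Nc), ∀ i,
      ‖∑ n ∈ Ioc ⌊π.ps c⌋₊ ⌊π.ps c * (1 + π.κ)⌋₊, lio n * u i n‖ ≤ s c) :
    ∫ x in X..2 * X, supG u H x ≤ 20 * π.κ * X * X + H / π.G * ∑ c ∈ Ico c0 (c0 + Nc), s c := by
  have hk1 : 0 ≤ π.κ1 := by unfold Par.κ1; positivity
  have hκ : 0 ≤ π.κ := sub_nonneg.2 (Real.one_le_exp (by positivity))
  have hX : 0 ≤ X := hH.trans hHX
  have hG0 : (0 : ℝ) < π.G := by exact_mod_cast hG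
  have hp : Monotone π.ps := fun c c' h => Real.exp_le_exp.2 (by gcongr)
  have hpG : ∀ c, π.ps c * (1 + π.κ) = π.ps (c + π.G) := fun c => A0.ps_G π c
  have hs0 : ∀ c ∈ Ico c0 (c0 + Nc), 0 ≤ s c := fun c hc =>
    (norm_nonneg _).trans (hs c hc (Classical.arbitrary ι))
  have hI : IntervalIntegrable (fun x => ∑ c ∈ Ico c0 (c0 + Nc),
      (Set.Ioc (π.ps c - H) (π.ps c)).indicator (fun _ => s c) x) volume X (2 * X) := by
    have := IntervalIntegrable.sum (Ico c0 (c0 + Nc)) fun c _ =>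
      ind_int (π.ps c - H) (π.ps c) (s c) X (2 * X)
    rwa [Finset.sum_fn] at this
  have h2 : ∫ x in X..2 * X, supG u H x ≤ ∫ x in X..2 * X, (7 * π.κ * X + (π.G : ℝ)⁻¹ *
      ∑ c ∈ Ico c0 (c0 + Nc), (Set.Ioc (π.ps c - H) (π.ps c)).indicator (fun _ => s c) x) := by
    refine intervalIntegral.integral_mono_on (by linarith) (integ hu hH hX)
      (intervalIntegrable_const.add (hI.const_mul _)) fun x hx => ciSup_le fun i => ?_
    have h3 := point hp hκ hpG hX hκX hH hHX h0 h1 hx.1 hx.2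
      (a := fun n => lio n * u i n) (fun n => term_le (lio_le n) (hu i n)) fun c hc => hs c hc _
    refine le_of_mul_le_mul_left (h3.trans (le_of_eq ?_)) hG0
    rw [mul_add, mul_inv_cancel_left₀ hG0.ne']
  refine h2.trans ?_
  rw [intervalIntegral.integral_add intervalIntegrable_const (hI.const_mul _),
    intervalIntegral.integral_const, intervalIntegral.integral_const_mul,
    intervalIntegral.integral_finsetSum fun c _ => ind_int _ _ _ _ _, smul_eq_mul]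
  refine add_le_add ?_ ?_
  · have : 0 ≤ π.κ * X * X := by positivity
    linarith
  · rw [div_eq_inv_mul, mul_assoc, mul_sum _ _ H]
    exact mul_le_mul_of_nonneg_left (sum_le_sum fun c hc => ind_le hH (hs0 c hc) (by linarith))
      (by positivity)

open A0 in
theorem a0 (hu : ∀ i n, ‖u i n‖ ≤ 1) (π : Par) (η X H : ℝ) (S : Finset ℕ) (B c0 Nc : ℕ)
    (h0 : 0 < η) (k0 : 0 < π.κ0) (hNf : 1 ≤ π.Nf) (hG : 1 ≤ π.G) (κ1 : π.κ ≤ 1)
    (hκ : 1 ≤ π.κ * X) (hH : 100 * π.κ * X ≤ η * H) (hHX : H ≤ X) (hS : ∀ p ∈ S, p.Prime)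
    (hc : (#S : ℝ) ≤ X) (hL : (300 / η) ^ 2 ≤ LL S) (hB : 1 ≤ B)
    (hω : ∀ n : ℕ, 0 < n → n ≤ 8 * X → #{p ∈ S | p ∣ n} ≤ B) (a1 : X / 2 ≤ π.ps c0)
    (a2 : π.ps c0 ≤ X) (a3 : 3 * X ≤ π.ps (c0 + Nc)) (a4 : π.ps (c0 + Nc) ≤ 4 * X)
    (hI : η * (H * X) < ∫ x in X..2 * X, supG u H x) :
    η / 200 * Nc ≤ #{c ∈ Ico c0 (c0 + Nc) |
      ∃ i, η * LL S / (100 * B) ≤ ‖C.av π.κ (π.ps c) fun n => fw S B n * u i n‖} := by
  have l0 : 0 < LL S := lt_of_lt_of_le (by positivity) hL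
  have g0 : (0 : ℝ) < π.G := by exact_mod_cast hG
  have b0 : (0 : ℝ) < B := by exact_mod_cast hB
  have t0 : 0 < π.κ1 := mul_pos (by exact_mod_cast hNf) k0
  have κ0 : 0 < π.κ := sub_pos.2 (Real.one_lt_exp_iff.2 (mul_pos g0 t0))
  have x0 : 0 < X := (mul_pos_iff_of_pos_left κ0).1 (one_pos.trans_le hκ)
  have H0 : 0 < H := (mul_pos_iff_of_pos_left h0).1 (lt_of_lt_of_le (by positivity) hH)
  have p0 : ∀ c, 0 < π.ps c := fun c => Real.exp_pos _
  have p4 : ∀ c ∈ Ico c0 (c0 + Nc), π.ps c ≤ 4 * X := fun c hc => le_trans (Real.exp_le_exp.2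
    (mul_le_mul_of_nonneg_right (Nat.cast_le.2 (mem_Ico.1 hc).2.le) t0.le)) a4
  have w8 : ∀ c ∈ Ico c0 (c0 + Nc), ∀ n ∈ Ioc ⌊π.ps c⌋₊ ⌊π.ps c * (1 + π.κ)⌋₊,
      0 < n ∧ (n : ℝ) ≤ 8 * X := fun c hc n hn => ⟨(Nat.zero_le _).trans_lt (mem_Ioc.1 hn).1,
    ((Nat.le_floor_iff (by positivity [p0 c])).1 (mem_Ioc.1 hn).2).trans
      (by nlinarith [p4 c hc, p0 c])⟩
  have κ2 : π.κ ≤ 2 * (π.G * π.κ1) := by
    have k1 := mul_le_mul_of_nonneg_right (Real.add_one_le_exp (-(π.G * π.κ1)))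
      (Real.exp_pos (π.G * π.κ1)).le
    rw [← Real.exp_add, neg_add_cancel, Real.exp_zero] at k1
    rw [Par.κ] at κ1 ⊢
    nlinarith [mul_pos g0 t0]
  have n3 : Nc * π.κ1 ≤ 3 := by
    rw [ps_add] at a4
    have k1 := Real.quadratic_le_exp_of_nonneg (show 0 ≤ Nc * π.κ1 by positivity)
    have k2 : Real.exp (Nc * π.κ1) ≤ 8 := le_of_mul_le_mul_left
      (by nlinarith [Real.exp_pos (Nc * π.κ1)]) x0
    nlinarith
  have key := a0a hu π X H c0 Nc (fun c => (if ∃ α, η * LL S / (100 * B) ≤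
      ‖C.av π.κ (π.ps c) fun n => fw S B n * u α n‖ then 5 * π.κ * X else 0) + η * π.κ * X / 25 +
      ∑ n ∈ Ioc ⌊π.ps c⌋₊ ⌊π.ps c * (1 + π.κ)⌋₊, |1 - (#{p ∈ S | p ∣ n} : ℝ) / LL S|)
    k0 hG hκ H0.le hHX a2 a3 (fun c hc α => by
      have e0 : 0 ≤ ∑ n ∈ Ioc ⌊π.ps c⌋₊ ⌊π.ps c * (1 + π.κ)⌋₊,
          |1 - (#{p ∈ S | p ∣ n} : ℝ) / LL S| := sum_nonneg fun _ _ => abs_nonneg _
      split_ifs with hg
      · refine (norm_sum_le_of_le _ (n := fun _ => 1) fun n _ => ?_).trans ?_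
        · exact term_le (A0a.lio_le n) (hu α n)
        · rw [sum_const, Nat.card_Ioc, nsmul_one, Nat.cast_sub (Nat.floor_mono
            (le_mul_of_one_le_right (p0 c).le (by linarith)))]
          have e1 := Nat.floor_le (show 0 ≤ π.ps c * (1 + π.κ) by positivity [p0 c])
          have e2 := Nat.lt_floor_add_one (π.ps c)
          have e3 : 0 ≤ η * π.κ * X / 25 := by positivity
          nlinarith [mul_le_mul_of_nonneg_left (p4 c hc) κ0.le]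
      · have e1 := (not_le.1 fun h => hg ⟨α, h⟩).le
        rw [C.av, norm_mul, norm_inv, Complex.norm_real, Real.norm_eq_abs,
          abs_of_pos (mul_pos κ0 (p0 c)), inv_mul_le_iff₀ (mul_pos κ0 (p0 c))] at e1
        have e2 : ∑ n ∈ Ioc ⌊π.ps c⌋₊ ⌊π.ps c * (1 + π.κ)⌋₊, lio n * u α n =
            ((B / LL S : ℝ) : ℂ) * ∑ n ∈ Ioc ⌊π.ps c⌋₊ ⌊π.ps c * (1 + π.κ)⌋₊,
              fw S B n * u α n + ∑ n ∈ Ioc ⌊π.ps c⌋₊ ⌊π.ps c * (1 + π.κ)⌋₊,
              ((1 - (#{p ∈ S | p ∣ n} : ℝ) / LL S : ℝ) : ℂ) * (lio n * u α n) := by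
          rw [mul_sum, ← sum_add_distrib]
          refine sum_congr rfl fun n hn => ?_
          have e3 : (B : ℂ) ≠ 0 := by exact_mod_cast b0.ne'
          rw [fw, min_eq_left (hω n (w8 c hc n hn).1 (w8 c hc n hn).2)]
          push_cast
          field_simp
          ring
        rw [e2, zero_add]
        refine (norm_add_le _ _).trans (add_le_add ?_ (norm_sum_le_of_le _ fun n _ => ?_))
        · rw [norm_mul, Complex.norm_real, Real.norm_eq_abs, abs_of_pos (div_pos b0 l0)]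
          refine (mul_le_mul_of_nonneg_left (e1.trans (mul_le_mul_of_nonneg_right
            (mul_le_mul_of_nonneg_left (p4 c hc) κ0.le) (by positivity)))
            (div_pos b0 l0).le).trans_eq ?_
          field_simp
          ring
        · rw [norm_mul, Complex.norm_real, Real.norm_eq_abs]
          exact mul_le_of_le_one_right (abs_nonneg _) (term_le (A0a.lio_le n) (hu α n)))
  have err : ∑ c ∈ Ico c0 (c0 + Nc), ∑ n ∈ Ioc ⌊π.ps c⌋₊ ⌊π.ps c * (1 + π.κ)⌋₊,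
      |1 - (#{p ∈ S | p ∣ n} : ℝ) / LL S| ≤ π.G * (η * X / 20) := by
    rw [sum_comm' (t' := Icc 1 ⌊8 * X⌋₊)
      (s' := fun n => {c ∈ Ico c0 (c0 + Nc) | n ∈ Ioc ⌊π.ps c⌋₊ ⌊π.ps c * (1 + π.κ)⌋₊})
      fun c n => ⟨fun h => ⟨mem_filter.2 h, mem_Icc.2 ⟨(w8 c h.1 n h.2).1,
        Nat.le_floor (w8 c h.1 n h.2).2⟩⟩, fun h => mem_filter.1 h.1⟩]
    refine le_trans ?_ (mul_le_mul_of_nonneg_left (dev hS h0 x0 hc hL) g0.le)
    rw [mul_sum]
    refine sum_le_sum fun n _ => ?_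
    rw [sum_const, nsmul_eq_mul]
    exact mul_le_mul_of_nonneg_right (Nat.cast_le.2 (few π t0 _ n)) (abs_nonneg _)
  rw [sum_add_distrib, sum_add_distrib, ← sum_filter, sum_const, sum_const, Nat.card_Ico,
    Nat.add_sub_cancel_left, nsmul_eq_mul, nsmul_eq_mul] at key
  generalize (#{c ∈ Ico c0 (c0 + Nc) | ∃ α, η * LL S / (100 * B) ≤
    ‖C.av π.κ (π.ps c) fun n => fw S B n * u α n‖} : ℕ) = m at key ⊢
  have j1 : Nc * (η * π.κ * X / 25) ≤ π.G * (η * X) * (6 / 25) := by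
    have j2 : π.κ * Nc ≤ 6 * π.G := by
      linarith [mul_le_mul_of_nonneg_right κ2 (Nat.cast_nonneg Nc),
        mul_le_mul_of_nonneg_left n3 g0.le]
    linarith [mul_le_mul_of_nonneg_left j2 (mul_pos h0 x0).le]
  have j2 : m * (5 * π.κ * X) ≤ π.G * X * (10 * (m * π.κ1)) := by
    nlinarith [mul_le_mul_of_nonneg_left κ2 (show 0 ≤ m * X by positivity)]
  have j3 := (hI.trans_le key).trans_le (add_le_add le_rfl (mul_le_mul_of_nonneg_left
    (add_le_add (add_le_add j2 j1) err) (div_pos H0 g0).le))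
  have j4 : H / π.G * (π.G * X * (10 * (m * π.κ1)) + π.G * (η * X) * (6 / 25) +
      π.G * (η * X / 20)) = H * X * (10 * (m * π.κ1) + η * (29 / 100)) := by
    field_simp
    ring
  have j5 : η ≤ 10 * (m * π.κ1) + η * (49 / 100) := le_of_mul_le_mul_left
    (by nlinarith [mul_le_mul_of_nonneg_right hH x0.le]) (mul_pos H0 x0)
  refine le_of_mul_le_mul_right ?_ t0
  nlinarith [mul_le_mul_of_nonneg_left n3 h0.le]

end Gen

end Pool.Agent.Lib.MP_028aa5_nt.V
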