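import Pool.Agent.Lib.MP_028aa5_nt.V.StB
import Pool.Agent.Lib.MP_028aa5_nt.T.A1

/-! One descent: the graph and the count of its edges. -/

namespace Pool.Agent.Lib.MP_028aa5_nt.V

open Finset T U
open scoped Classical

namespace A1J

variable {Ω : Type}

theorem bad (I Bd : Finset ℕ) (b Nf : ℕ) (h0 : 0 < Nf) :
    ∑ c ∈ I, ∑ r ∈ range Nf, (if b ≤ c * Nf + r ∧ (c * Nf + r - b) / Nf ∈ Bd then (1 : ℝ) else 0) ≤
      #Bd * Nf := by
  rw [← sum_product', sum_boole, ← Nat.cast_mul, Nat.cast_le, ← card_range Nf, ← card_product,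
    card_range]
  refine card_le_card_of_injOn (fun x => ((x.1 * Nf + x.2 - b) / Nf, (x.1 * Nf + x.2 - b) % Nf))
    (fun x hx => ?_) fun x hx y hy h => ?_
  · simp only [coe_filter, mem_product, mem_range, Set.mem_ofPred_eq] at hx
    exact mem_coe.2 (mem_product.2 ⟨hx.2.2, mem_range.2 (Nat.mod_lt _ h0)⟩)
  · simp only [coe_filter, mem_product, mem_range, Set.mem_ofPred_eq] at hx hy
    obtain ⟨h1, h2⟩ := Prod.ext_iff.1 h
    have h3 := Nat.div_add_mod (x.1 * Nf + x.2 - b) Nf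
    have h4 := Nat.div_add_mod (y.1 * Nf + y.2 - b) Nf
    dsimp only at h1 h2
    rw [h1, h2, h4] at h3
    have h5 : x.1 * Nf + x.2 = y.1 * Nf + y.2 := by omega
    have h6 := congrArg (· % Nf) h5
    simp only [Nat.mul_add_mod', Nat.mod_eq_of_lt hx.1.2, Nat.mod_eq_of_lt hy.1.2] at h6
    rw [h6, Nat.add_right_cancel_iff] at h5
    exact Prod.ext (Nat.eq_of_mul_eq_mul_right h0 h5) h6

/-- the vertices -/
noncomputable def Vx (I J : Finset ℕ) (A B : ℕ → Finset Ω) : Finset (Bool × Σ _ : ℕ, Ω) :=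
  {true} ×ˢ I.sigma A ∪ {false} ×ˢ J.sigma B

theorem mem_V {I J : Finset ℕ} {A B : ℕ → Finset Ω} {x : Bool × Σ _ : ℕ, Ω} :
    x ∈ Vx I J A B ↔ (x.1 = true ∧ x.2.1 ∈ I ∧ x.2.2 ∈ A x.2.1) ∨
      (x.1 = false ∧ x.2.1 ∈ J ∧ x.2.2 ∈ B x.2.1) := by
  simp only [Vx, mem_union, mem_product, mem_singleton, mem_sigma]

theorem card_V (I J : Finset ℕ) (A B : ℕ → Finset Ω) :
    #(Vx I J A B) = ∑ c ∈ I, #(A c) + ∑ c ∈ J, #(B c) := by
  rw [Vx, card_union_of_disjoint, card_product, card_product, card_sigma, card_sigma]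
  · simp
  · refine disjoint_left.2 fun x h h' => ?_
    simp only [mem_product, mem_singleton] at h h'
    exact absurd (h.1.symm.trans h'.1) (by decide)

theorem ext_V {I J : Finset ℕ} {A B : ℕ → Finset Ω} {x y : Vx I J A B} (h1 : x.1.1 = y.1.1)
    (h2 : x.1.2.1 = y.1.2.1) (h3 : x.1.2.2 = y.1.2.2) : x = y :=
  Subtype.ext (Prod.ext h1 (Sigma.ext h2 (heq_of_eq h3)))

/-- the graph -/
noncomputable def net (I J : Finset ℕ) (A B : ℕ → Finset Ω) : Net where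
  W := Vx I J A B
  Ed := Vx I J A B × Vx I J A B × ℕ × ℕ
  up e := e.1
  lo e := e.2.1
  pr e := e.2.2.1
  fj e := e.2.2.2
  isU x := x.1.1
  cell x := x.1.2.1

end A1J

open A1J in
theorem st_A1 (hM : MatchSt) (hD : DescSt) : A1St := by
  intro D Qf Ad π f δ η η' ρ ρ' ε2 τ β K1 cL sh Nc AU AL Bd okD oe clo ok hf d1 kd k2 hp hN s1 s2 hK
    hK1 r0 r1 rr e0 he hBd hU hL ht
  set I := Ico (cL + sh) (cL + sh + Nc) with hI
  set J := Ico cL (cL + Nc) with hJ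
  set w : ℕ → D.P → ℕ → ℝ := fun c α p =>
    ‖D.cc π.κ f (π.ps c) α + D.cc π.κ f (π.ps c / p) (D.dil p α)‖ with hw
  have h0 := ok.κ0
  have nf : (1 : ℝ) ≤ π.Nf := by exact_mod_cast ok.Nf
  have k01 : π.κ0 ≤ π.κ1 := le_mul_of_one_le_left h0.le nf
  have hk : ∀ c, cL ≤ c → K1 ≤ π.κ * π.ps c := fun c hc => by
    have a : 0 ≤ π.κ := sub_nonneg.2 (Real.one_le_exp (mul_nonneg (Nat.cast_nonneg _) (by linarith)))
    refine hK1.trans (mul_le_mul_of_nonneg_left (Real.exp_le_exp.2 ?_) a)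
    exact mul_le_mul_of_nonneg_right (by exact_mod_cast hc) (by linarith)
  have c1 : ∀ c, ∃ Col : Finset ℕ, c ∈ I → #Col ≤ #(AU c) ^ 2 ∧ ∀ p ∈ π.PP, p ∉ Col →
      Set.InjOn (D.dil p) (AU c) ∧ ∀ y' : ℝ, K1 ≤ π.κ * y' →
        |Real.log (π.ps c / p) - Real.log y'| ≤ 2 * π.κ1 →
        D.Fam Ad π.κ f η' ρ' y' (image (D.dil p) {α ∈ AU c | w c α p ≤ ε2}) := by
    intro c
    by_cases hc : c ∈ I
    · obtain ⟨Col, h⟩ := hD D Qf Ad π f η η' ρ ρ' ε2 K1 (π.ps c) (AU c) okD oe clo ok hf k2 hK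
        (hk c (le_trans (Nat.le_add_right _ _) (mem_Ico.1 hc).1)) r0 r1 rr he (hU c hc).1
      exact ⟨Col, fun _ => h⟩
    · exact ⟨∅, fun h => absurd h hc⟩
  choose Col hCol using c1
  have c2 : ∀ p j : ℕ, ∃ m : D.P → D.P, j / π.Nf ∈ I → p ∈ π.PP → p ∉ Col (j / π.Nf) →
      π.lg p ≤ j → (j - π.lg p) / π.Nf ∈ J → (j - π.lg p) / π.Nf ∉ Bd →
      Set.InjOn m (image (D.dil p) {α ∈ AU (j / π.Nf) | w (j / π.Nf) α p ≤ ε2} : Finset D.P) ∧
        ∀ α ∈ image (D.dil p) {α ∈ AU (j / π.Nf) | w (j / π.Nf) α p ≤ ε2},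
          m α ∈ AL ((j - π.lg p) / π.Nf) ∧
            D.Cl π.κ 1 (π.ps ((j - π.lg p) / π.Nf)) ρ' (m α) α := by
    intro p j
    by_cases h : j / π.Nf ∈ I ∧ p ∈ π.PP ∧ p ∉ Col (j / π.Nf) ∧ π.lg p ≤ j ∧
        (j - π.lg p) / π.Nf ∈ J ∧ (j - π.lg p) / π.Nf ∉ Bd
    · obtain ⟨a, b, c, d, e, e'⟩ := h
      obtain ⟨m, h⟩ := hM D Ad π.κ η' ρ' _ f _ _ okD r0
        (((hCol _ a).2 p b c).2 _ (hk _ (mem_Ico.1 e).1)
          (A1.edge π h0 ok.Nf j p (ok.pr p b).1.pos d)) (hL _ e).1 ((hL _ e).2.2 e')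
      exact ⟨m, fun _ _ _ _ _ _ => h⟩
    · exact ⟨id, fun a b c d e e' => absurd ⟨a, b, c, d, e, e'⟩ h⟩
  choose m hm using c2
  let R : Vx I J AU AL × Vx I J AU AL × ℕ × ℕ → Prop := fun e =>
    e.1.1.1 = true ∧ e.2.1.1.1 = false ∧ e.2.2.2 / π.Nf = e.1.1.2.1 ∧ π.lg e.2.2.1 ≤ e.2.2.2 ∧
      (e.2.2.2 - π.lg e.2.2.1) / π.Nf = e.2.1.1.2.1 ∧ e.2.2.1 ∉ Col e.1.1.2.1 ∧
      w e.1.1.2.1 e.1.1.2.2 e.2.2.1 ≤ ε2 ∧
      e.2.1.1.2.2 = m e.2.2.1 e.2.2.2 (D.dil e.2.2.1 e.1.1.2.2) ∧ e.2.1.1.2.1 ∉ Bd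
  let E : Finset (Vx I J AU AL × Vx I J AU AL × ℕ × ℕ) :=
    (univ ×ˢ univ ×ˢ π.PP ×ˢ range ((cL + sh + Nc) * π.Nf)).filter R
  have mE : ∀ e, e ∈ E ↔ (e.2.2.1 ∈ π.PP ∧ e.2.2.2 < (cL + sh + Nc) * π.Nf) ∧ R e := fun e => by
    simp only [E, mem_filter, mem_product, mem_univ, true_and, mem_range]
  have vU : ∀ x : Vx I J AU AL, x.1.1 = true → x.1.2.1 ∈ I ∧ x.1.2.2 ∈ AU x.1.2.1 := fun x h =>
    ((mem_V.1 x.2).resolve_right fun k => absurd (h.symm.trans k.1) (by decide)).2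
  have vL : ∀ x : Vx I J AU AL, x.1.1 = false → x.1.2.1 ∈ J ∧ x.1.2.2 ∈ AL x.1.2.1 := fun x h =>
    ((mem_V.1 x.2).resolve_left fun k => absurd (k.1.symm.trans h) (by decide)).2
  have key : ∀ x y p j, (x, y, p, j) ∈ E →
      D.dil p x.1.2.2 ∈ image (D.dil p) {α ∈ AU (j / π.Nf) | w (j / π.Nf) α p ≤ ε2} ∧
      j / π.Nf ∈ I ∧ p ∉ Col (j / π.Nf) ∧ (j - π.lg p) / π.Nf ∈ J ∧
      (j - π.lg p) / π.Nf ∉ Bd := by
    intro x y p j h
    obtain ⟨-, a1, a2, a3, -, a5, a6, a7, -, a9⟩ := (mE _).1 h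
    dsimp only at a1 a2 a3 a5 a6 a7 a9
    rw [a3, a5]
    exact ⟨mem_image_of_mem _ (mem_filter.2 ⟨(vU x a1).2, a7⟩), (vU x a1).1, a6, (vL y a2).1, a9⟩
  have cV : (Fintype.card (Vx I J AU AL) : ℝ) =
      ∑ c ∈ I, (#(AU c) : ℝ) + ∑ c ∈ J, (#(AL c) : ℝ) := by
    rw [Fintype.card_coe, card_V]
    push_cast
    rfl
  refine ⟨net I J AU AL, E, fun x => x.1.2.2, ⟨fun e h => ((mE e).1 h).2.1,
    fun e h => ((mE e).1 h).2.2.1, fun e h => ((mE e).1 h).1.1, fun e h => ((mE e).1 h).2.2.2.1,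
    fun e h => ((mE e).1 h).2.2.2.2.1, fun e h => ((mE e).1 h).2.2.2.2.2.1, ?_, ?_, ?_⟩, ?_,
    ⟨?_, fun x h => (vU x h).1, fun x h => (vL x h).1, fun e h => ((mE e).1 h).2.2.2.2.2.2.2.1,
      fun e h => (hL _ (vL _ ((mE e).1 h).2.2.1).1).1.1 _ (vL _ ((mE e).1 h).2.2.1).2 |>.2⟩, ?_⟩
  · rintro ⟨x, y, p, j⟩ h ⟨x', y', p', j'⟩ h' (rfl : j = j') (rfl : p = p') (rfl : x = x')
    obtain ⟨-, -, a2, -, -, a5, -, -, a8, -⟩ := (mE _).1 h
    obtain ⟨-, -, b2, -, -, b5, -, -, b8, -⟩ := (mE _).1 h'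
    obtain rfl : y = y' := ext_V (a2.trans b2.symm) (a5.symm.trans b5) (a8.trans b8.symm)
    rfl
  · rintro ⟨x, y, p, j⟩ h ⟨x', y', p', j'⟩ h' (rfl : j = j') (rfl : p = p') (rfl : y = y')
    obtain ⟨⟨a0, -⟩, a1, -, a3, a4, -, -, -, a8, -⟩ := (mE _).1 h
    obtain ⟨-, b1, -, b3, -, -, -, -, b8, -⟩ := (mE _).1 h'
    obtain ⟨u1, u2, u3, u4, u5⟩ := key _ _ _ _ h
    have e1 := (hm p j u2 a0 u3 a4 u4 u5).1 u1 (key _ _ _ _ h').1 (a8.symm.trans b8)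
    have m1 := (vU x a1).2
    have m2 := (vU x' b1).2
    dsimp only at a3 b3
    rw [← a3] at m1
    rw [← b3] at m2
    obtain rfl : x = x' :=
      ext_V (a1.trans b1.symm) (a3.symm.trans b3) (((hCol _ u2).2 p a0 u3).1 m1 m2 e1)
    rfl
  · intro b c
    have g : ∀ A : Finset D.P, (∀ x : Vx I J AU AL, x.1.1 = b → x.1.2.1 = c → x.1.2.2 ∈ A) →
        #{x : Vx I J AU AL | x.1.1 = b ∧ x.1.2.1 = c} ≤ #A := fun A hA =>
      card_le_card_of_injOn (fun x => x.1.2.2)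
        (fun x hx => hA x (mem_filter.1 hx).2.1 (mem_filter.1 hx).2.2) fun x hx y hy h =>
        ext_V ((mem_filter.1 hx).2.1.trans (mem_filter.1 hy).2.1.symm)
          ((mem_filter.1 hx).2.2.trans (mem_filter.1 hy).2.2.symm) h
    refine le_trans (le_of_eq (by congr)) (?_ : #{x : Vx I J AU AL | x.1.1 = b ∧ x.1.2.1 = c} ≤ _)
    cases b
    · by_cases hc : c ∈ J
      · exact (g (AL c) fun x h h' => h' ▸ (vL x h).2).trans (hL c hc).2.1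
      · exact (g ∅ fun x h h' => absurd (h' ▸ (vL x h).1) hc).trans (Nat.zero_le _)
    · by_cases hc : c ∈ I
      · exact (g (AU c) fun x h h' => h' ▸ (vU x h).2).trans (hU c hc).2
      · exact (g ∅ fun x h h' => absurd (h' ▸ (vU x h).1) hc).trans (Nat.zero_le _)
  · rintro ⟨x, y, p, j⟩ h
    obtain ⟨⟨a0, -⟩, -, -, -, a4, a5, -, -, a8, -⟩ := (mE _).1 h
    obtain ⟨u1, u2, u3, u4, u5⟩ := key _ _ _ _ h
    have := ((hm p j u2 a0 u3 a4 u4 u5).2 _ u1).2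
    dsimp only at a5 a8
    rw [a5, ← a8] at this
    exact this
  · change Fintype.card (Vx I J AU AL) ≤ _
    have a := sum_le_card_nsmul I (fun c => #(AU c)) π.M fun c hc => (hU c hc).2
    have b := sum_le_card_nsmul J (fun c => #(AL c)) π.M fun c hc => (hL c hc).2.1
    rw [Fintype.card_coe, card_V]
    simp only [hI, hJ, Nat.card_Ico, Nat.add_sub_cancel_left, smul_eq_mul] at a b ⊢
    nlinarith
  intro lam hlam pos
  have hlg : ∀ p ∈ π.PP, sh * π.Nf ≤ π.lg p ∧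
      ((π.lg p - sh * π.Nf : ℕ) : ℝ) ≤ 3 * δ * (Nc * π.Nf) := by
    intro p hp'
    have P2 := ok.P
    have a := A1.lg π h0 p
    have b : Real.log π.P ≤ Real.log p := Real.log_le_log (by linarith) (ok.pr p hp').2.1.le
    have c : Real.log p ≤ δ + Real.log π.P := by
      have d0 : 0 < 1 + δ := by linarith
      refine (Real.log_le_log (by exact_mod_cast (ok.pr p hp').1.pos) (hp p hp')).trans ?_
      rw [Real.log_mul d0.ne' (by linarith)]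
      linarith [Real.log_le_sub_one_of_pos d0]
    have e : sh * π.Nf ≤ π.lg p := by
      have : ((sh * π.Nf : ℕ) : ℝ) * π.κ0 ≤ π.lg p * π.κ0 := by
        push_cast
        rw [mul_assoc]
        exact s1.trans (b.trans a.1)
      exact_mod_cast le_of_mul_le_mul_right this h0
    refine ⟨e, le_of_mul_le_mul_right ?_ h0⟩
    rw [Nat.cast_sub e]
    push_cast
    have g : 3 * δ * 1 ≤ 3 * δ * (Nc * π.κ1) := mul_le_mul_of_nonneg_left hN (by linarith)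
    have k : π.κ1 = π.Nf * π.κ0 := rfl
    rw [k] at g s2 kd k01
    nlinarith [a.2]
  let Gd : ℕ → D.P → ℕ → ℕ → Prop := fun c α p r =>
    p ∉ Col c ∧ w c α p ≤ ε2 ∧ cL * π.Nf + π.lg p ≤ c * π.Nf + r ∧
      (c * π.Nf + r - π.lg p) / π.Nf ∉ Bd
  have good : ∑ c ∈ I, ∑ α ∈ AU c, ∑ p ∈ π.PP, ∑ r ∈ range π.Nf,
      (if Gd c α p r then (1 : ℝ) else 0) ≤ #E := by
    simp only [← sum_product', sum_sigma']
    rw [sum_boole, Nat.cast_le]
    refine card_le_card_of_surjOn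
      (fun e => ⟨e.1.1.2.1, e.1.1.2.2, e.2.2.1, e.2.2.2 % π.Nf⟩) ?_
    rintro ⟨c, α, p, r⟩ h
    simp only [coe_filter, mem_product, mem_sigma, mem_range, Set.mem_ofPred_eq] at h
    obtain ⟨⟨a1, a2, a3, a4⟩, a5, a6, a7, a8⟩ := h
    have n0 : 0 < π.Nf := ok.Nf
    have j1 : (c * π.Nf + r) / π.Nf = c := by
      rw [add_comm, Nat.add_mul_div_right _ _ n0, Nat.div_eq_of_lt a4, zero_add]
    have j2 : c * π.Nf + r < (cL + sh + Nc) * π.Nf := by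
      have := Nat.mul_le_mul_right π.Nf (Nat.succ_le_of_lt (mem_Ico.1 a1).2)
      rw [Nat.succ_mul] at this
      omega
    have j3 : π.lg p ≤ c * π.Nf + r := by omega
    have j4 : (c * π.Nf + r - π.lg p) / π.Nf ∈ J := by
      have := (hlg p a3).1
      rw [add_mul, add_mul] at j2
      refine mem_Ico.2 ⟨(Nat.le_div_iff_mul_le n0).2 (by omega), (Nat.div_lt_iff_lt_mul n0).2 ?_⟩
      rw [add_mul]
      omega
    have z := ((hm p _ (j1.symm ▸ a1) a3 (j1.symm ▸ a5) j3 j4 a8).2 (D.dil p α)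
      (j1.symm ▸ mem_image_of_mem _ (mem_filter.2 ⟨a2, a6⟩))).1
    refine ⟨(⟨(true, ⟨c, α⟩), mem_V.2 (Or.inl ⟨rfl, a1, a2⟩)⟩,
      ⟨(false, ⟨_, _⟩), mem_V.2 (Or.inr ⟨rfl, j4, z⟩)⟩, p, c * π.Nf + r),
      (mE _).2 ⟨⟨a3, j2⟩, rfl, rfl, j1, j3, rfl, a5, a6, rfl, a8⟩, ?_⟩
    simp only [Nat.mul_add_mod', Nat.mod_eq_of_lt a4]
  have M1 : (1 : ℝ) ≤ π.M := by
    obtain ⟨c, hc, h⟩ := exists_ne_zero_of_sum_ne_zero pos.ne'
    have : #(AU c) ≠ 0 := by exact_mod_cast h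
    exact_mod_cast le_trans (Nat.pos_of_ne_zero this) (hU c hc).2
  have cI : (#I : ℝ) = Nc := by simp [hI]
  have cM : ∀ c ∈ I, (#(AU c) : ℝ) ≤ π.M := fun c hc => by exact_mod_cast (hU c hc).2
  have b1 : ∑ c ∈ I, ∑ _α ∈ AU c, ∑ p ∈ π.PP, ∑ _r ∈ range π.Nf,
      (if p ∈ Col c then (1 : ℝ) else 0) ≤ Nc * (π.M * (π.Nf * π.M ^ 2)) := by
    rw [← cI, ← nsmul_eq_mul]
    refine sum_le_card_nsmul _ _ _ fun c hc => ?_
    simp only [sum_const, card_range, nsmul_eq_mul, ← mul_sum, sum_boole]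
    have a : (#{p ∈ π.PP | p ∈ Col c} : ℝ) ≤ π.M ^ 2 := by
      have := (card_le_card fun p (h : p ∈ {p ∈ π.PP | p ∈ Col c}) => (mem_filter.1 h).2).trans
        ((hCol c hc).1.trans (Nat.pow_le_pow_left (hU c hc).2 2))
      exact_mod_cast this
    have := cM c hc
    gcongr
  have b2 : ∑ c ∈ I, ∑ α ∈ AU c, ∑ p ∈ π.PP, ∑ _r ∈ range π.Nf, w c α p ^ 2 / ε2 ^ 2 ≤
      π.M * (π.Nf * (τ * #π.PP * Nc) / ε2 ^ 2) := by
    have a : ∑ c ∈ I, ∑ α ∈ AU c, ∑ p ∈ π.PP, w c α p ^ 2 ≤ τ * #π.PP * Nc := by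
      refine le_trans (le_of_eq ?_) ht
      rw [sum_comm (s := π.PP)]
      exact sum_congr rfl fun c _ => sum_comm
    have b : 0 ≤ ∑ c ∈ I, ∑ α ∈ AU c, ∑ p ∈ π.PP, w c α p ^ 2 := by positivity
    simp only [sum_const, card_range, nsmul_eq_mul, ← mul_sum, ← sum_div]
    rw [mul_div_assoc]
    refine le_trans ?_ (le_mul_of_one_le_left (by have := b.trans a; positivity) M1)
    gcongr
  have b3 : ∑ c ∈ I, ∑ _α ∈ AU c, ∑ p ∈ π.PP, ∑ r ∈ range π.Nf,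
      (if c * π.Nf + r < cL * π.Nf + π.lg p then (1 : ℝ) else 0) ≤
      π.M * (#π.PP * (3 * δ * (Nc * π.Nf))) := by
    calc _ ≤ ∑ c ∈ I, π.M * ∑ p ∈ π.PP, ∑ r ∈ range π.Nf,
          (if c * π.Nf + r < cL * π.Nf + π.lg p then (1 : ℝ) else 0) := by
          refine sum_le_sum fun c hc => ?_
          rw [sum_const, nsmul_eq_mul]
          exact mul_le_mul_of_nonneg_right (cM c hc) (by positivity)
      _ ≤ _ := by
          rw [← mul_sum, sum_comm, ← nsmul_eq_mul (#π.PP)]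
          refine mul_le_mul_of_nonneg_left (sum_le_card_nsmul _ _ _ fun p hp' => ?_) (by linarith)
          have e : cL * π.Nf + π.lg p = (cL + sh) * π.Nf + (π.lg p - sh * π.Nf) := by
            have := (hlg p hp').1
            rw [add_mul]
            omega
          rw [e]
          exact (A1.bd _ _ _ _).trans (hlg p hp').2
  have b4 : ∑ c ∈ I, ∑ _α ∈ AU c, ∑ p ∈ π.PP, ∑ r ∈ range π.Nf,
      (if π.lg p ≤ c * π.Nf + r ∧ (c * π.Nf + r - π.lg p) / π.Nf ∈ Bd then (1 : ℝ) else 0) ≤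
      π.M * (#π.PP * (β * Nc * π.Nf)) := by
    calc _ ≤ ∑ c ∈ I, π.M * ∑ p ∈ π.PP, ∑ r ∈ range π.Nf, (if π.lg p ≤ c * π.Nf + r ∧
          (c * π.Nf + r - π.lg p) / π.Nf ∈ Bd then (1 : ℝ) else 0) := by
          refine sum_le_sum fun c hc => ?_
          rw [sum_const, nsmul_eq_mul]
          exact mul_le_mul_of_nonneg_right (cM c hc) (by positivity)
      _ ≤ _ := by
          rw [← mul_sum, sum_comm, ← nsmul_eq_mul (#π.PP)]
          refine mul_le_mul_of_nonneg_left (sum_le_card_nsmul _ _ _ fun p hp' => ?_) (by linarith)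
          exact (bad _ _ _ _ ok.Nf).trans (mul_le_mul_of_nonneg_right hBd (by linarith))
  have tot : (∑ c ∈ I, (#(AU c) : ℝ)) * (#π.PP * π.Nf) ≤ #E + Nc * (π.M * (π.Nf * π.M ^ 2)) +
      π.M * (π.Nf * (τ * #π.PP * Nc) / ε2 ^ 2) + π.M * (#π.PP * (3 * δ * (Nc * π.Nf))) +
      π.M * (#π.PP * (β * Nc * π.Nf)) := by
    refine le_trans ?_ (add_le_add (add_le_add (add_le_add (add_le_add good b1) b2) b3) b4)
    simp only [← sum_add_distrib]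
    rw [sum_mul]
    refine sum_le_sum fun c _ => ?_
    rw [← nsmul_eq_mul]
    refine card_nsmul_le_sum _ _ _ fun α _ => ?_
    rw [← nsmul_eq_mul]
    refine card_nsmul_le_sum _ _ _ fun p _ => ?_
    refine le_trans (by simp) (card_nsmul_le_sum _ _ 1 fun r _ => ?_)
    have q0 : 0 ≤ w c α p ^ 2 / ε2 ^ 2 := by positivity
    by_cases g : Gd c α p r
    · rw [if_pos g]
      split_ifs <;> linarith
    rw [if_neg g]
    by_cases g1 : p ∈ Col c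
    · rw [if_pos g1]
      split_ifs <;> linarith
    by_cases g3 : c * π.Nf + r < cL * π.Nf + π.lg p
    · rw [if_neg g1, if_pos g3]
      split_ifs <;> linarith
    by_cases g4 : (c * π.Nf + r - π.lg p) / π.Nf ∈ Bd
    · rw [if_neg g1, if_neg g3, if_pos ⟨by omega, g4⟩]
      linarith
    have g2 : ε2 ≤ w c α p := le_of_not_ge fun k => g ⟨g1, k, not_lt.1 g3, g4⟩
    have : 1 ≤ w c α p ^ 2 / ε2 ^ 2 := (one_le_div (by positivity)).2 (by gcongr)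
    rw [if_neg g1, if_neg g3, if_neg fun k => g4 k.2]
    linarith
  have s : ∑ _x : (net I J AU AL).W, (1 : ℝ) ^ 2 =
      ∑ c ∈ I, (#(AU c) : ℝ) + ∑ c ∈ J, (#(AL c) : ℝ) := by
    rw [← cV, one_pow, sum_const, nsmul_eq_mul, mul_one]
    rfl
  refine ⟨fun _ => 1, ?_, ?_⟩
  · rw [s]
    exact add_pos_of_pos_of_nonneg pos (sum_nonneg fun _ _ => Nat.cast_nonneg _)
  · rw [s]
    refine hlam.trans ?_
    have pp : (0 : ℝ) < #π.PP := by exact_mod_cast ok.ne.card_pos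
    have q : (net I J AU AL).Qf π.ν E (fun _ => 1) = 2 * (#E / (#π.PP * π.Nf)) := by
      change 2 * (1 / (π.Nf * #π.PP : ℝ)) * ∑ _e ∈ E, (1 : ℝ) * 1 = _
      rw [sum_const, nsmul_eq_mul]
      ring
    rw [q]
    refine mul_le_mul_of_nonneg_left ((le_div_iff₀ (by positivity)).2 ?_) zero_le_two
    have : π.M * Nc * (τ / ε2 ^ 2 + π.M ^ 2 / #π.PP + 3 * δ + β) * (#π.PP * π.Nf) =
        Nc * (π.M * (π.Nf * π.M ^ 2)) + π.M * (π.Nf * (τ * #π.PP * Nc) / ε2 ^ 2) +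
          π.M * (#π.PP * (3 * δ * (Nc * π.Nf))) + π.M * (#π.PP * (β * Nc * π.Nf)) := by
      field_simp
      ring
    rw [sub_mul, this]
    linarith

end Pool.Agent.Lib.MP_028aa5_nt.V
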