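import Pool.Agent.Lib.MP_028aa5_nt.V.StB
import Pool.Agent.Lib.MP_028aa5_nt.T.A2

/-! The stable scale. -/

namespace Pool.Agent.Lib.MP_028aa5_nt.V

open Finset T U
open scoped Classical

lemma A2J.fam_mono {D : DX} {Ad : D.P → Prop} {κ η η' ρ ρ' y : ℝ} {f : ℕ → ℂ} {A : Finset D.P}
    (h1 : η' ≤ η)
    (h2 : ρ' ≤ ρ) (h : D.Fam Ad κ f η ρ y A) : D.Fam Ad κ f η' ρ' y A :=
  ⟨fun α hα => ⟨(h.1 α hα).1, h1.trans (h.1 α hα).2⟩,
    fun α hα β hβ hne hc => h.2 α hα β hβ hne (hc.imp fun _ hz => ⟨hz.1, hz.2.trans h2⟩)⟩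

open T.A2 in
theorem st_A2 (hOne : OneSt) : A2St := by
  intro k M m1 G0 η c0 ρ ε ε2 hM1 hη hc0 hρ hρ1 hε hε2
  obtain ⟨J, hJ1, hJ⟩ : ∃ J : ℕ, 1 ≤ J ∧ (M : ℝ) ≤ J * (ε * c0) := by
    refine ⟨⌈(M : ℝ) / (ε * c0)⌉₊ + 1, by omega, ?_⟩
    rw [← div_le_iff₀ (by positivity)]
    push_cast
    linarith [Nat.le_ceil ((M : ℝ) / (ε * c0))]
  have hJ0 : (0 : ℝ) < J := by exact_mod_cast hJ1
  obtain ⟨s, hs⟩ : ∃ s : ℝ, s = η / (8 * J) := ⟨_, rfl⟩
  have hs0 : 0 < s := by rw [hs]; positivity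
  have hsJ : 8 * J * s = η := by rw [hs]; field_simp
  obtain ⟨D', K0', hD', hO⟩ := hOne M (min ε2 s) (ε * c0 / 4) hM1 (lt_min hε2 hs0) (by positivity)
  obtain ⟨G, hG0, hG1, hGs, hG2⟩ := exG G0 (k * J) (40 / s)
  obtain ⟨K0, hK1, hK2, hK4⟩ : ∃ K0 : ℝ, 12 ≤ K0 ∧ K0' ≤ K0 ∧ 10 / s ≤ K0 :=
    ⟨max (max 12 K0') (10 / s), le_max_of_le_left (le_max_left _ _),
      le_max_of_le_left (le_max_right _ _), le_max_right _ _⟩
  have hM0 : (0 : ℝ) < M := by exact_mod_cast hM1
  have hn1 : (1 : ℝ) ≤ ((m1 + J + 4 : ℕ) : ℝ) := by exact_mod_cast (by omega : 1 ≤ m1 + J + 4)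
  have hDD : D' ≤ D' * ((m1 + J + 4 : ℕ) : ℝ) := le_mul_of_one_le_right (by linarith) hn1
  refine ⟨G, D' * ((m1 + J + 4 : ℕ) : ℝ), K0, ε * c0 / 4 / M, hG0, hG1, hD'.trans hDD,
    by positivity, ?_⟩
  intro D Qf Ad π f P1 cX Nc okD oe clo ek hk eG eM hκ0 hNf hκK hP1 hNc hX hf hmul hbad hcount
  have hP12 : 12 ≤ P1 := hK1.trans hP1
  have hP0 : 0 ≤ P1 := by linarith
  rw [Real.rpow_mul hP0, Real.rpow_natCast] at hX hmul hbad ⊢
  obtain ⟨Q, hQ⟩ : ∃ Q : ℝ, Q = P1 ^ D' := ⟨_, rfl⟩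
  rw [← hQ] at hX hmul hbad ⊢
  have hPQ : P1 ≤ Q := by
    rw [hQ]
    exact Real.self_le_rpow_of_one_le (by linarith) hD'
  have hQ1 : 1 ≤ Q := by linarith
  have hQ0 : 0 < Q := by linarith
  have hGr : (0 : ℝ) < G := by exact_mod_cast hG1
  have hκ1 : 0 < π.κ1 := by
    have : (0 : ℝ) < π.Nf := by exact_mod_cast hNf
    exact mul_pos this hκ0
  have hκ : 0 < π.κ := by
    have h : 0 < (π.G : ℝ) * π.κ1 := by rw [eG]; positivity
    unfold Par.κ
    linarith [Real.add_one_le_exp ((π.G : ℝ) * π.κ1)]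
  have hκle : π.κ ≤ 1 := by nlinarith
  have hNc0 : (0 : ℝ) < Nc := by
    rcases Nat.eq_zero_or_pos Nc with h | h
    · rw [h, Nat.cast_zero, zero_mul] at hNc
      linarith
    · exact_mod_cast h
  have hps : ∀ c, 0 < π.ps c := fun c => Real.exp_pos _
  obtain ⟨b, hb⟩ : ∃ b : ℝ, b = 1 + 8 / (G : ℝ) := ⟨_, rfl⟩
  rw [← hb] at hG2
  have hb1 : 1 ≤ b := by
    rw [hb]
    exact le_add_of_nonneg_right (by positivity)
  have hb0 : 0 < b := by linarith
  have hK1Q : Q ≤ Q ^ (m1 + 3) := le_self_pow₀ hQ1 (by omega)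
  by_contra hgoal
  have key : ∀ i : ℕ, i ≤ J → ∃ (cU : ℕ) (AU : ℕ → Finset D.P), cU ≤ cX ∧
      π.ps cX ≤ Q ^ i * π.ps cU ∧
      (∀ c ∈ Ico cU (cU + Nc), D.Fam Ad π.κ f (η - i * (4 * s)) (ρ / b ^ (k * i)) (π.ps c) (AU c) ∧
        #(AU c) ≤ M) ∧
      c0 * Nc + i * (ε * (c0 * Nc)) ≤ ∑ c ∈ Ico cU (cU + Nc), (#(AU c) : ℝ) := by
    intro i
    induction i with
    | zero =>
      intro _
      refine ⟨cX, fun c => if h : D.At Ad π.κ f η (π.ps c) then {h.choose} else ∅,
        le_rfl, by simp, ?_, ?_⟩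
      · intro c _
        beta_reduce
        split_ifs with h
        · refine ⟨⟨fun α hα => ?_, fun α hα β hβ hne => ?_⟩, by simpa using hM1⟩
          · rw [mem_singleton.1 hα]
            simpa using h.choose_spec
          · exact absurd ((mem_singleton.1 hα).trans (mem_singleton.1 hβ).symm) hne
        · exact ⟨⟨fun α hα => absurd hα (notMem_empty α), fun α hα => absurd hα (notMem_empty α)⟩,
            by simp⟩
      · rw [Nat.cast_zero, zero_mul, add_zero]
        refine hcount.trans (le_of_eq ?_)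
        rw [card_filter]
        push_cast
        refine sum_congr rfl fun c _ => ?_
        split_ifs <;> simp
    | succ i ih =>
      intro hi
      obtain ⟨cU, AU, h1, h2, h3, h4⟩ := ih (by omega)
      have hiJ : ((i + 1 : ℕ) : ℝ) ≤ J := by exact_mod_cast hi
      have hη' : η / 2 ≤ η - ((i + 1 : ℕ) : ℝ) * (4 * s) := by nlinarith
      have hbi : b ^ (k * (i + 1)) ≤ 2 :=
        (pow_le_pow_right₀ hb1 (Nat.mul_le_mul_left k hi)).trans hG2
      have hρ' : ρ / 2 ≤ ρ / b ^ (k * (i + 1)) :=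
        div_le_div_of_nonneg_left hρ.le (by positivity) hbi
      have hρ2 : ∀ j : ℕ, ρ / b ^ j ≤ ρ := fun j => div_le_self hρ.le (one_le_pow₀ hb1)
      have hcU : Q ^ (m1 + 3) * Q ≤ π.κ * π.ps cU := by
        have e1 : Q ^ i * (Q ^ (m1 + 3) * Q) ≤ Q ^ (m1 + J + 4) := by
          rw [← pow_succ, ← pow_add]
          exact pow_le_pow_right₀ hQ1 (by omega)
        have e2 : π.κ * π.ps cX ≤ Q ^ i * (π.κ * π.ps cU) := by
          rw [mul_left_comm]
          exact mul_le_mul_of_nonneg_left h2 hκ.le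
        exact le_of_mul_le_mul_left (e1.trans (hX.trans e2)) (by positivity)
      obtain ⟨P, PP, cL, AL, N, E, φ, o1, o2, o3, o4, o5, o6, o7, o8, o9, o10, o11⟩ :=
        hO D Qf Ad π f P1 (η - i * (4 * s)) (η - ((i + 1 : ℕ) : ℝ) * (4 * s)) (ρ / b ^ (k * i))
          (ρ / b ^ (k * (i + 1))) (Q ^ (m1 + 3)) cU Nc AU okD oe clo hk eM (eG ▸ hG1) hκ0 hNf
          (le_trans (mul_le_mul_of_nonneg_left hK2 hκ.le) hκK) (hK2.trans hP1) hNc
          (by
            rw [← hQ]
            have e1 : Q ^ 3 ≤ Q ^ (m1 + 3) := pow_le_pow_right₀ hQ1 (by omega)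
            have e2 : 12 * Q ^ 2 ≤ Q * Q ^ 2 :=
              mul_le_mul_of_nonneg_right (by linarith) (by positivity)
            nlinarith)
          (by rw [← hQ]; exact hcU) hf
          (fun p hp hpQ => hmul p hp (by
            rw [← hQ] at hpQ
            exact hpQ.trans (le_self_pow₀ hQ1 (by omega))))
          (by positivity) ((hρ2 _).trans hρ1)
          (by
            rw [eG, ek, ← hb, mul_add, mul_one, pow_add]
            refine le_of_eq ?_
            field_simp)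
          (by
            rw [eG]
            have e1 : min ε2 s ≤ s := min_le_right _ _
            have e2 : 2 / (G : ℝ) ≤ s / 20 := by
              rw [div_le_iff₀ hs0] at hGs
              rw [div_le_iff₀ hGr]
              linarith
            have e3 : 1 / Q ^ (m1 + 3) ≤ s / 10 := by
              have e4 : 10 / s ≤ Q ^ (m1 + 3) := by linarith
              rw [div_le_iff₀ hs0] at e4
              rw [div_le_iff₀ (by positivity)]
              linarith
            push_cast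
            linarith)
          h3
          (fun c1 u1 u2 => by
            rw [← hQ] at u2
            have u3 : π.ps cX ≤ Q ^ (i + 1) * π.ps c1 := by
              rw [pow_succ, mul_assoc]
              exact h2.trans (mul_le_mul_of_nonneg_left u2 (by positivity))
            have u4 : π.ps cU ≤ π.ps cX := Real.exp_le_exp.2
              (mul_le_mul_of_nonneg_right (Nat.cast_le.2 h1) hκ1.le)
            have u5 : Q ^ (m1 + 3) * Q ≤ π.κ * π.ps c1 * Q := by
              rw [mul_assoc, mul_comm (π.ps c1)]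
              exact hcU.trans (mul_le_mul_of_nonneg_left u2 hκ.le)
            refine le_trans (Nat.cast_le.2 (card_le_card (monotone_filter_right _
              fun c _ ⟨A, hA, hA'⟩ => ⟨A, A2J.fam_mono hη' hρ' hA, hA'⟩))) (hbad c1 (u1.trans u4)
              (u3.trans (mul_le_mul_of_nonneg_right (pow_le_pow_right₀ hQ1 (by omega)) (hps _).le))
              (hPQ.trans (hK1Q.trans (le_of_mul_le_mul_right u5 hQ0)))))
      rw [← hQ] at o3 o6
      have hX' : π.ps cX ≤ Q ^ (i + 1) * π.ps cL := by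
        rw [pow_succ, mul_assoc]
        exact h2.trans (mul_le_mul_of_nonneg_left o6 (by positivity))
      by_cases hL : ∑ c ∈ Ico cU (cU + Nc), (#(AU c) : ℝ) + ε * (c0 * Nc) ≤
          ∑ c ∈ Ico cL (cL + Nc), (#(AL c) : ℝ)
      · refine ⟨cL, AL, o5.trans h1, hX', o7, ?_⟩
        push_cast
        linarith
      · exfalso
        apply hgoal
        have hi0 : 0 ≤ (i : ℝ) * (ε * (c0 * Nc)) := by positivity
        have hcN : 0 < c0 * Nc := by positivity
        have hlog : 0 < Real.log P := Real.log_pos (by linarith)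
        refine ⟨P, PP, cL, cU, N, E, φ, o1, o2, o3.trans (le_self_pow₀ hQ1 (by omega)),
          le_trans ?_ o4, o5, h1, hX'.trans ?_, ?_, o8,
          fun e he => (o9 e he).imp fun _ hz => ⟨hz.1, hz.2.trans (hρ2 _)⟩,
          ⟨o10.card, o10.cu, o10.cl, fun e he => (o10.tk e he).trans (min_le_left _ _),
            fun e he => hη'.trans (o10.big e he)⟩, o11 _ ?_ (by linarith)⟩
        · exact div_le_div_of_nonneg_left (by linarith) (mul_pos (by linarith) hlog)
            (mul_le_mul_of_nonneg_right hDD hlog.le)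
        · exact mul_le_mul_of_nonneg_right (pow_le_pow_right₀ hQ1 (by omega)) (hps _).le
        · have e0 : P ^ m1 ≤ Q ^ m1 := pow_le_pow_left₀ (by linarith) o3 m1
          have e1 : Q ^ (i + 1) * Q ^ m1 ≤ Q ^ (m1 + J + 4) := by
            rw [← pow_add]
            exact pow_le_pow_right₀ hQ1 (by omega)
          have e2 : π.κ * π.ps cX ≤ Q ^ (i + 1) * (π.κ * π.ps cL) := by
            rw [mul_left_comm]
            exact mul_le_mul_of_nonneg_left hX' hκ.le
          exact e0.trans (le_of_mul_le_mul_left (e1.trans (hX.trans e2)) (by positivity))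
        · have h := ray_ok ε (c0 * Nc) (∑ c ∈ Ico cU (cU + Nc), (#(AU c) : ℝ))
            (∑ c ∈ Ico cL (cL + Nc), (#(AL c) : ℝ)) hε hcN (by linarith)
            (sum_nonneg fun _ _ => Nat.cast_nonneg _) (not_le.1 hL).le
          refine h.trans (le_of_eq ?_)
          ring
  obtain ⟨cU, AU, -, -, h3, h4⟩ := key J le_rfl
  have h5 : ∑ c ∈ Ico cU (cU + Nc), (#(AU c) : ℝ) ≤ ∑ _c ∈ Ico cU (cU + Nc), (M : ℝ) :=
    sum_le_sum fun c hc => by exact_mod_cast (h3 c hc).2
  rw [sum_const, Nat.card_Ico, Nat.add_sub_cancel_left, nsmul_eq_mul] at h5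
  have h6 := mul_le_mul_of_nonneg_left hJ hNc0.le
  have h7 : 0 < c0 * Nc := by positivity
  nlinarith

end Pool.Agent.Lib.MP_028aa5_nt.V
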