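import Pool.Agent.Lib.MP_028aa5_nt.T.C

/-! Averages of bounded sequences over windows, and the measure of sets of positions. -/

namespace Pool.Agent.Lib.MP_028aa5_nt.V

open Finset MeasureTheory T T.C
open scoped ComplexConjugate Classical

namespace Gen

lemma tkg {κ y B : ℝ} {f u : ℕ → ℂ} (Q : Finset ℕ) (hf : ∀ n, ‖f n * u n‖ ≤ 1) (hκ : 0 < κ) (hB : 1 ≤ B)
    (hQ : ∀ p ∈ Q, p.Prime ∧ p ≤ B ∧ ∀ m, 0 < m → f (p * m) = -f m) (h : 4 * B ^ 2 ≤ κ * y) :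
    ∑ p ∈ Q, 1 / (p : ℝ) * ‖av κ y (fun n => f n * u n) +
      av κ (y / p) fun n => f n * u (p * n)‖ ^ 2 ≤ 8 := by
  have h1 : 1 ≤ κ * y := by nlinarith
  have hy := pos hκ h1
  have h0 : 0 < κ * y := mul_pos hκ hy
  obtain ⟨l1, l2⟩ := len hκ hy
  have hB' : (⌊B⌋₊ : ℝ) ≤ B := Nat.floor_le (by linarith)
  have hB0 : (0 : ℝ) ≤ ⌊B⌋₊ := Nat.cast_nonneg _
  have H := tk (B := ⌊B⌋₊) (fl_le hκ hy) Q
    (fun p hp => ⟨(hQ p hp).1, Nat.le_floor (hQ p hp).2.1⟩) (by nlinarith)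
    (fun n => f n * u n) hf
  have key : ∀ p ∈ Q, 1 / (p : ℝ) * ‖av κ y (fun n => f n * u n) +
      av κ (y / p) fun n => f n * u (p * n)‖ ^ 2 =
      p * ‖∑ n ∈ Ioc ⌊y⌋₊ ⌊y * (1 + κ)⌋₊ with p ∣ n, f n * u n -
        (∑ n ∈ Ioc ⌊y⌋₊ ⌊y * (1 + κ)⌋₊, f n * u n) / p‖ ^ 2 / (κ * y) ^ 2 := by
    intro p hp
    obtain ⟨hp1, -, hp3⟩ := hQ p hp
    have p0 : (0 : ℝ) < p := by exact_mod_cast hp1.pos
    have p1 : (p : ℂ) ≠ 0 := by exact_mod_cast hp1.ne_zero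
    have e1 : ∑ n ∈ Ioc ⌊y⌋₊ ⌊y * (1 + κ)⌋₊ with p ∣ n, f n * u n =
        -∑ m ∈ Ioc ⌊y / p⌋₊ ⌊y / p * (1 + κ)⌋₊, f m * u (p * m) := by
      rw [sum_dvd hp1.pos, div_mul_eq_mul_div, Nat.floor_div_natCast, Nat.floor_div_natCast,
        ← sum_neg_distrib]
      refine sum_congr rfl fun m hm => ?_
      rw [hp3 m (lt_of_le_of_lt (Nat.zero_le _) (mem_Ioc.1 hm).1), neg_mul]
    rw [e1]
    unfold av
    generalize ∑ m ∈ Ioc ⌊y / p⌋₊ ⌊y / p * (1 + κ)⌋₊, f m * u (p * m) = S'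
    generalize ∑ n ∈ Ioc ⌊y⌋₊ ⌊y * (1 + κ)⌋₊, f n * u n = S
    have c1 : (κ : ℂ) ≠ 0 := by exact_mod_cast hκ.ne'
    have c2 : (y : ℂ) ≠ 0 := by exact_mod_cast hy.ne'
    have e2 : ((κ * y : ℝ) : ℂ)⁻¹ * S + ((κ * (y / p) : ℝ) : ℂ)⁻¹ * S' =
        -((p / (κ * y) : ℝ) : ℂ) * (-S' - S / p) := by
      push_cast
      field_simp
      ring
    rw [e2, norm_mul, norm_neg, Complex.norm_real, Real.norm_of_nonneg (by positivity)]
    field_simp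
  rw [sum_congr rfl key, ← sum_div, div_le_iff₀ (by positivity)]
  refine H.trans ?_
  have l3 : (0 : ℝ) ≤ (⌊y * (1 + κ)⌋₊ : ℝ) - ⌊y⌋₊ := by linarith
  have l4 := pow_le_pow_left₀ l3 (show (⌊y * (1 + κ)⌋₊ : ℝ) - ⌊y⌋₊ ≤ 2 * (κ * y) by linarith) 2
  linarith


/-- changing the length of the window -/
lemma wid {κ κ' y : ℝ} {a : ℕ → ℂ} (ha : ∀ n, ‖a n‖ ≤ 1) (hκ' : 0 < κ') (h : κ' ≤ κ)
    (h1 : 1 ≤ κ' * y) : ‖av κ y a - av κ' y a‖ ≤ 3 * (κ - κ') / κ + 1 / (κ * y) := by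
  have hκ : 0 < κ := hκ'.trans_le h
  have hy := pos hκ' h1
  have f1 : ⌊y⌋₊ ≤ ⌊y * (1 + κ')⌋₊ := fl_le hκ' hy
  have f2 : ⌊y * (1 + κ')⌋₊ ≤ ⌊y * (1 + κ)⌋₊ := Nat.floor_le_floor (by gcongr)
  have e1 : av κ y a - av κ' y a = ((κ * y : ℝ) : ℂ)⁻¹ *
      ∑ n ∈ Ioc ⌊y * (1 + κ')⌋₊ ⌊y * (1 + κ)⌋₊, a n - (((κ - κ') / κ : ℝ) : ℂ) * av κ' y a := by
    have c1 : (κ : ℂ) ≠ 0 := by exact_mod_cast hκ.ne'
    have c2 : (y : ℂ) ≠ 0 := by exact_mod_cast hy.ne'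
    have c3 : (κ' : ℂ) ≠ 0 := by exact_mod_cast hκ'.ne'
    unfold av
    rw [← sum_Ioc_consecutive a f1 f2]
    push_cast
    field_simp
    ring
  have b1 : ‖∑ n ∈ Ioc ⌊y * (1 + κ')⌋₊ ⌊y * (1 + κ)⌋₊, a n‖ ≤ (κ - κ') * y + 1 := by
    refine (norm_sum_le _ _).trans ((sum_le_card_nsmul _ _ _ fun n _ => ha n).trans ?_)
    rw [Nat.card_Ioc, nsmul_eq_mul, mul_one, Nat.cast_sub f2]
    have h2 := Nat.floor_le (show 0 ≤ y * (1 + κ) by positivity)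
    have h3 := Nat.lt_floor_add_one (y * (1 + κ'))
    linarith
  have b2 : ‖av κ' y a‖ ≤ 2 := by simpa using av_le2 hκ' h1 zero_le_one fun n _ => ha n
  have d0 : 0 ≤ (κ - κ') / κ := div_nonneg (by linarith) hκ.le
  rw [e1]
  refine (norm_sub_le _ _).trans ?_
  rw [norm_mul, norm_mul, norm_inv, Complex.norm_real, Complex.norm_real,
    Real.norm_of_nonneg (mul_pos hκ hy).le, Real.norm_of_nonneg d0]
  have b3 := mul_le_mul_of_nonneg_left b1 (inv_pos.2 (mul_pos hκ hy)).le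
  have b4 := mul_le_mul_of_nonneg_left b2 d0
  have e2 : (κ * y)⁻¹ * ((κ - κ') * y + 1) = (κ - κ') / κ + 1 / (κ * y) := by field_simp
  have e3 : 3 * (κ - κ') / κ = 3 * ((κ - κ') / κ) := by ring
  linarith

/-- a window is a convex combination of `L` shorter windows -/
lemma split {κ κ' y : ℝ} {L : ℕ} (a : ℕ → ℂ) (hκ' : 0 < κ') (hy : 0 < y) (hL : 1 ≤ L)
    (h : (1 + κ') ^ L = 1 + κ) : ∃ i < L, ‖av κ y a‖ ≤ ‖av κ' (y * (1 + κ') ^ i) a‖ := by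
  have q1 : (1 : ℝ) < 1 + κ' := by linarith
  have hκ : 0 < κ := by
    have := one_lt_pow₀ q1 (show L ≠ 0 by omega)
    linarith
  have t1 : ∀ m : ℕ, ∑ n ∈ Ioc ⌊y⌋₊ ⌊y * (1 + κ') ^ m⌋₊, a n = ∑ i ∈ range m,
      ((κ' * (y * (1 + κ') ^ i) : ℝ) : ℂ) * av κ' (y * (1 + κ') ^ i) a := fun m => by
    induction m with
    | zero => simp
    | succ m ih =>
      have p0 : 0 < y * (1 + κ') ^ m := by positivity
      have c1 : ((κ' * (y * (1 + κ') ^ m) : ℝ) : ℂ) ≠ 0 := by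
        exact_mod_cast (mul_pos hκ' p0).ne'
      rw [sum_range_succ, ← ih, av, mul_inv_cancel_left₀ c1, pow_succ, ← mul_assoc]
      exact (sum_Ioc_consecutive a (Nat.floor_le_floor
        (le_mul_of_one_le_right hy.le (one_le_pow₀ q1.le))) (fl_le hκ' p0)).symm
  have t2 : ∀ m : ℕ, ∑ i ∈ range m, κ' * (y * (1 + κ') ^ i) = ((1 + κ') ^ m - 1) * y := fun m => by
    induction m with
    | zero => simp
    | succ m ih => rw [sum_range_succ, ih]; ring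
  obtain ⟨i, hi, hm⟩ := exists_max_image (range L) (fun i => ‖av κ' (y * (1 + κ') ^ i) a‖)
    ⟨0, mem_range.2 hL⟩
  refine ⟨i, mem_range.1 hi, ?_⟩
  have t3 := t2 L
  rw [h, add_sub_cancel_left] at t3
  rw [av, ← h, t1, norm_mul, norm_inv, Complex.norm_real, Real.norm_of_nonneg (mul_pos hκ hy).le,
    inv_mul_le_iff₀ (mul_pos hκ hy), ← t3, sum_mul]
  refine norm_sum_le_of_le _ fun j hj => ?_
  rw [norm_mul, Complex.norm_real, Real.norm_of_nonneg (by positivity)]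
  exact mul_le_mul_of_nonneg_left (hm j hj) (by positivity)

/-- a set covered by cells is small -/
lemma vol_le {s : Set ℝ} {w : ℝ} (hw : 0 < w) (T : Finset ℕ) (h0 : ∀ v ∈ s, 0 ≤ v)
    (h : ∀ v ∈ s, ⌊v / w⌋₊ ∈ T) : volume s ≤ ENNReal.ofReal (#T * w) := by
  have h1 : s ⊆ ⋃ c ∈ T, Set.Ico (c * w) (c * w + w) := fun v hv => by
    refine Set.mem_iUnion₂.2 ⟨_, h v hv, ?_, ?_⟩
    · exact (le_div_iff₀ hw).1 (Nat.floor_le (div_nonneg (h0 v hv) hw.le))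
    · have := (div_lt_iff₀ hw).1 (Nat.lt_floor_add_one (v / w))
      linarith
  refine (measure_mono h1).trans ((measure_biUnion_finset_le _ _).trans (le_of_eq ?_))
  simp only [Real.volume_Ico, add_sub_cancel_left, sum_const, nsmul_eq_mul]
  rw [ENNReal.ofReal_mul (Nat.cast_nonneg _), ENNReal.ofReal_natCast]

/-- a set that contains a piece of each cell is large -/
lemma le_vol {s : Set ℝ} {w u β : ℝ} (hu : 0 < u) (hw : u ≤ w) (hβ : 0 ≤ β) (T : Finset ℕ)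
    (h : ∀ c ∈ T, ∀ v, c * w ≤ v → v ≤ c * w + u → v ∈ s) (hs : volume s ≤ ENNReal.ofReal β) :
    #T * u ≤ β := by
  have h1 : ⋃ c ∈ T, Set.Ico (c * w) (c * w + u) ⊆ s :=
    Set.iUnion₂_subset fun c hc v hv => h c hc v hv.1 hv.2.le
  have h2 := (measure_mono (μ := volume) h1).trans hs
  have d : ∀ c c' : ℕ, c < c' →
      Disjoint (Set.Ico (c * w) (c * w + u)) (Set.Ico (c' * w) (c' * w + u)) := fun c c' hc => by
    have h3 : (c : ℝ) + 1 ≤ c' := by exact_mod_cast hc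
    refine Set.disjoint_left.2 fun v hv hv' => ?_
    have := mul_le_mul_of_nonneg_right h3 (hu.le.trans hw)
    linarith [hv.2, hv'.1]
  rw [measure_biUnion_finset (fun c _ c' _ hne => (lt_or_gt_of_ne hne).elim (d c c')
    fun hc => (d c' c hc).symm) fun _ _ => measurableSet_Ico] at h2
  simp only [Real.volume_Ico, add_sub_cancel_left, sum_const, nsmul_eq_mul] at h2
  rwa [← ENNReal.ofReal_natCast, ← ENNReal.ofReal_mul (Nat.cast_nonneg _),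
    ENNReal.ofReal_le_ofReal_iff hβ] at h2

/-- union bound for translates -/
lemma vol_union {J : Type} (I : Finset J) {s : Set ℝ} (t : J → Set ℝ) (d : J → ℝ) {β : ℝ}
    (h : ∀ v ∈ s, ∃ j ∈ I, v + d j ∈ t j) (ht : ∀ j ∈ I, volume (t j) ≤ ENNReal.ofReal β) :
    volume s ≤ ENNReal.ofReal (#I * β) := by
  have h1 : s ⊆ ⋃ j ∈ I, (fun v => v + d j) ⁻¹' t j := fun v hv => by
    obtain ⟨j, hj, h2⟩ := h v hv
    exact Set.mem_iUnion₂.2 ⟨j, hj, h2⟩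
  refine (measure_mono h1).trans ((measure_biUnion_finset_le _ _).trans ?_)
  refine (sum_le_card_nsmul _ _ (ENNReal.ofReal β) fun j hj => ?_).trans (le_of_eq ?_)
  · rw [measure_preimage_add_right]
    exact ht j hj
  · rw [nsmul_eq_mul, ENNReal.ofReal_mul (Nat.cast_nonneg _), ENNReal.ofReal_natCast]

end Gen

end Pool.Agent.Lib.MP_028aa5_nt.V
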