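import Pool.Agent.Lib.MP_028aa5_nt.V.StB
import Pool.Agent.Lib.MP_028aa5_nt.V.GenB

/-! Elementary properties of the correlations with atoms. -/

namespace Pool.Agent.Lib.MP_028aa5_nt.V

open Finset T U
open scoped Classical

namespace CcJ

variable {D : DX} {Qf : ℝ → ℕ}

lemma term (e : D.OkE Qf) {f : ℕ → ℂ} (hf : ∀ n, ‖f n‖ ≤ 1) (g : D.P) (n : ℕ) :
    ‖f n * D.ev g n‖ ≤ 1 := by
  rw [norm_mul]
  exact mul_le_one₀ (hf n) (norm_nonneg _) (e.bd _ _ _ _)

lemma ev_lam (e : D.OkE Qf) (g : D.P) {l : D.P} (hl : l ∈ D.Λ) (n : ℕ) :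
    D.ev (g * l) n = D.ev g n := by
  have h1 := e.lam g n 1 n l hl
  rw [one_mul] at h1
  rw [e.mul, h1, ← e.mul, mul_one]

lemma ev_dil (e : D.OkE Qf) (g : D.P) (p n : ℕ) : D.ev (D.dil p g) n = D.ev g (p * n) := by
  unfold DX.ev
  rw [e.dil1, Nat.cast_mul]

end CcJ

open CcJ in
theorem st_Cc : CcSt where
  bd D Qf κ f y g e hf hκ h := by
    have := C.av_le2 hκ h zero_le_one fun n _ => term e hf g n
    rwa [mul_one] at this
  int D Qf κ f y g h e hg := by
    unfold DX.cc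
    have : ∀ n, D.ev g n = D.ev h n := fun n => by
      rw [← ev_lam e g hg n, mul_inv_cancel_left]
    simp only [this]
  pert D Qf κ f y r g h ok e hf hκ h1 hr hc := by
    obtain ⟨l, hl, hc⟩ := hc
    rw [ok.dil_one] at hc
    have hy := C.pos hκ h1
    have r0 : 0 ≤ r := (ok.nonneg _ _ _).trans hc
    have e1 := C.av_sub κ y 1 (fun n => f n * D.ev g n) fun n => f n * D.ev h n
    rw [one_mul] at e1
    change ‖C.av κ y (fun n => f n * D.ev g n) - C.av κ y fun n => f n * D.ev h n‖ ≤ _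
    rw [e1, mul_assoc]
    refine C.av_le2 hκ h1 (by positivity) fun n hn => ?_
    obtain ⟨w1, w2⟩ := C.win hκ hy hn
    have w3 : |(n : ℝ) - y| ≤ 2 * κ * y := by
      rw [show (n : ℝ) - y = (n / y - 1) * y by field_simp, abs_of_nonneg (by positivity)]
      exact mul_le_mul_of_nonneg_right (by linarith) hy.le
    have h2 := e.pert κ y _ h n 1 0 hκ hy w3 (hc.trans hr)
    rw [inv_mul_cancel_right] at h2
    rw [one_mul, ← mul_sub, norm_mul, ← ev_lam e g hl n]
    exact (mul_le_of_le_one_left (norm_nonneg _) (hf n)).trans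
      (h2.trans (mul_le_mul_of_nonneg_left hc (Nat.cast_nonneg _)))
  move D Qf κ f y y' u g e hf hκ hκ1 h hy' hl hu := C.move (term e hf g) hκ hκ1 h hy' hl hu
  tk D Qf κ f y g Q B e hf hκ hB hQ h := by
    have h1 := Gen.tkg (u := D.ev g) Q (term e hf g) hκ hB hQ h
    simp only [← ev_dil e] at h1
    exact h1
  wid D Qf κ κ' f y g e hf hκ' h h1 := Gen.wid (term e hf g) hκ' h h1

end Pool.Agent.Lib.MP_028aa5_nt.V
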