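import Pool.Agent.Lib.MP_028aa5_nt.V.StB
import Pool.Agent.Lib.MP_028aa5_nt.V.GenB
import Pool.Agent.Lib.MP_028aa5_nt.T.Main

/-! From the core to cells. -/

namespace Pool.Agent.Lib.MP_028aa5_nt.V

open Finset T U T.MainJ
open scoped Classical

namespace CellJ

lemma two {k : ℕ} {x : ℝ} (h0 : 0 ≤ x) (h : k * x ≤ 1 / 2) : (1 + x) ^ k ≤ 2 := by
  have h1 : (1 + x) ^ k ≤ Real.exp x ^ k :=
    pow_le_pow_left₀ (by linarith) (by linarith [Real.add_one_le_exp x]) k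
  rw [← Real.exp_nat_mul] at h1
  refine h1.trans ((Real.exp_le_exp.2 (h.trans ?_)).trans_eq (Real.exp_log two_pos))
  linarith [Real.log_two_gt_d9]

/-- a large family at a cell stays a large family along the cell -/
lemma bad (hc : CcSt) (hl : ClSt) {D : DX} {Qf : ℝ → ℕ} {Ad : D.P → Prop} {κ u η ρ y y' : ℝ}
    {f : ℕ → ℂ} {M M' : ℕ} (ok : D.toDS.Ok) (oe : D.OkE Qf) (hf : ∀ n, ‖f n‖ ≤ 1) (k0 : 0 < κ)
    (k1 : κ ≤ 1) (hy : 1 ≤ κ * y) (hy' : 0 < y') (hu : |Real.log y' - Real.log y| ≤ u)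
    (u1 : u ≤ 1) (h1 : 20 * (u / κ + 1 / (κ * y)) ≤ η / 4) (h2 : (1 + 4 * u / κ) ^ D.k ≤ 2)
    (hρ : 0 ≤ ρ) (hM : M' ≤ M) (h : D.Bad Ad κ f (η / 2) (ρ / 2) M y) :
    D.Bad Ad κ f (η / 4) (ρ / 4) M' y' := by
  obtain ⟨A, ⟨a1, a2⟩, a3⟩ := h
  have y0 : 0 < y := (mul_pos_iff_of_pos_left k0).1 (one_pos.trans_le hy)
  refine ⟨A, ⟨fun g hg => ⟨(a1 g hg).1, ?_⟩, fun g hg g' hg' hne h => a2 g hg g' hg' hne ?_⟩,
    hM.trans_lt a3⟩
  · have m := hc.move D Qf κ f y y' u g oe hf k0 k1 hy hy' hu u1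
    have t := norm_sub_norm_le (D.cc κ f y g) (D.cc κ f y' g)
    rw [norm_sub_rev] at t
    linarith [(a1 g hg).2]
  · refine hl.mono _ _ _ _ _ _ _ _ ?_
      (hl.shift _ κ 1 y' y u _ g g' ok k0 k1 hy' y0 (by rwa [abs_sub_comm]) u1 h)
    nlinarith

end CellJ

open CellJ

theorem st_Cell (h2 : A2St) (hc : CcSt) (hl : ClSt) (hF : FtSt) (hS : RegSt) : CellSt := by
  intro D k Qf Ad hk ok oe clo hC hT a η0 c0 θ G0 ha hη0 hc0 hθ
  obtain ⟨η, hη, hη1, hη2⟩ : ∃ η : ℝ, 0 < η ∧ η ≤ 1 ∧ η ≤ η0 :=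
    ⟨min 1 η0, lt_min one_pos hη0, min_le_left _ _, min_le_right _ _⟩
  obtain ⟨ε, ε2, ρ0, G1, A, p1, p2, p3, A1, hC⟩ := hC (η / 2) a (by positivity) (by linarith) ha
  obtain ⟨ρ, hρ, hρ1, hρ2⟩ : ∃ ρ : ℝ, 0 < ρ ∧ ρ ≤ 1 ∧ ρ ≤ ρ0 :=
    ⟨min 1 ρ0, lt_min one_pos p3, min_le_left _ _, min_le_right _ _⟩
  obtain ⟨M0, hT⟩ := hT a (η / 4) (ρ / 4) ha (by positivity) (by positivity)
  obtain ⟨G, D0, K0, β, g0, g1, d1, hβ, h2⟩ := h2 D.k (max M0 1) 9
    (max (max G0 G1) (max ⌈160 / η⌉₊ (8 * D.k))) η c0 ρ ε ε2 (le_max_right _ _) hη hc0 hρ hρ1 p1 p2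
  simp only [max_le_iff] at g0
  obtain ⟨⟨g2, g3⟩, g4, g5⟩ := g0
  obtain ⟨δ, hδ, hδθ⟩ : ∃ δ : ℝ, 0 < δ ∧ θ = 9 / 10 + δ + δ := ⟨(θ - 9 / 10) / 2, by linarith, by ring⟩
  obtain ⟨C', X1, hT⟩ := hT β (9 / 10 + δ) hβ (by linarith)
  obtain ⟨A', a1, a2⟩ : ∃ A' : ℝ, A ≤ A' ∧ C' ≤ A' := ⟨max A C', le_max_left _ _, le_max_right _ _⟩
  have C0 : 0 < A' * D0 := mul_pos (by linarith) (by linarith)
  obtain ⟨X2, hC⟩ := hC G (max M0 1) (A' * D0) D0 g3 (by linarith)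
  obtain ⟨X3, s1⟩ := hS.poly 1 (min a δ) ⌈A' * D0⌉₊ (lt_min ha hδ)
  obtain ⟨X4, s2⟩ := hS.poly K0 (1 / 2) 0 (by norm_num)
  set T : ℝ := max (max K0 (160 / η)) 1 with hTd
  refine ⟨G, A' * D0, max (max (max X1 X2) (max X3 X4)) (Real.exp T), g2, g1,
    fun X hX π i0 i1 B cX Nc pk pG n1 pκ pw y0 y1 y2 y3 n2 n3 => ?_⟩
  simp only [ge_iff_le, max_le_iff] at hX
  obtain ⟨⟨⟨x1, x2⟩, x3, x4⟩, x6⟩ := hX
  have X0 : 0 < X := (Real.exp_pos _).trans_le x6
  have u1 : T ≤ Real.log X := (Real.le_log_iff_exp_le X0).2 x6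
  have l2 : 1 ≤ Real.log X := (le_max_right _ _).trans u1
  have X1' : 1 ≤ X := by linarith [Real.log_le_sub_one_of_pos X0]
  set u : ℝ := Real.log X with hu
  have u0 : 0 < u := by linarith
  set P1 : ℝ := u ^ A' with hP1
  have PD : P1 ^ D0 = u ^ (A' * D0) := by rw [hP1, ← Real.rpow_mul u0.le]
  have PX : P1 ^ D0 ≤ X ^ min a δ := by
    rw [PD]
    refine le_trans ?_ (s1 X x3)
    rw [one_mul, ← Real.rpow_natCast]
    exact Real.rpow_le_rpow_of_exponent_le l2 (Nat.le_ceil _)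
  have PXa : P1 ^ D0 ≤ X ^ a := PX.trans (Real.rpow_le_rpow_of_exponent_le X1' (min_le_left _ _))
  have PXb : P1 ^ D0 ≤ X ^ δ := PX.trans (Real.rpow_le_rpow_of_exponent_le X1' (min_le_right _ _))
  have PD1 : 1 ≤ P1 ^ D0 := by
    rw [PD]
    exact Real.one_le_rpow l2 C0.le
  have uP : u ≤ P1 := Real.self_le_rpow_of_one_le l2 (A1.trans a1)
  rw [← PD] at y2
  have κ00 : 0 < π.κ0 := pκ ▸ Real.rpow_pos_of_pos X0 _
  have κ10 : 0 < π.κ1 := mul_pos (by exact_mod_cast n1) κ00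
  have ps0 : ∀ c, 0 < π.ps c := fun c => Real.exp_pos _
  have κp : 0 < π.κ := (mul_pos_iff_of_pos_right (ps0 cX)).1 (one_pos.trans_le (PD1.trans y2))
  have κ1 : π.κ ≤ 1 := y3.trans (Real.rpow_le_one_of_one_le_of_nonpos X1' (by norm_num))
  have κX : 1 ≤ π.κ * X := PD1.trans (y2.trans (mul_le_mul_of_nonneg_left y1 κp.le))
  have κK : π.κ * K0 ≤ 1 := by
    have h1 := s2 X x4
    rw [pow_zero, mul_one] at h1
    have h3 : X ^ (-(1 / 2 : ℝ)) * X ^ (1 / 2 : ℝ) = 1 := by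
      rw [← Real.rpow_add X0, neg_add_cancel, Real.rpow_zero]
    have h4 : 0 < X ^ (1 / 2 : ℝ) := Real.rpow_pos_of_pos X0 _
    calc π.κ * K0 ≤ π.κ * X ^ (1 / 2 : ℝ) := mul_le_mul_of_nonneg_left h1 κp.le
      _ ≤ _ := mul_le_mul_of_nonneg_right y3 h4.le
      _ = 1 := h3
  have G0' : (0 : ℝ) < G := by exact_mod_cast g1
  have κG : π.κ1 / π.κ ≤ 1 / G := by
    rw [div_le_div_iff₀ κp G0', one_mul, mul_comm, ← pG, Par.κ]
    linarith [Real.add_one_le_exp (π.G * π.κ1)]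
  have κ11 : π.κ1 ≤ 1 := by
    have h1 : (1 : ℝ) / G ≤ 1 := by
      rw [div_le_one G0']
      exact_mod_cast g1
    exact ((div_le_one κp).1 (κG.trans h1)).trans κ1
  have l4 : Real.log 4 ≤ 2 := by
    have := Real.log_two_lt_d9
    rw [show (4 : ℝ) = 2 ^ 2 by norm_num, Real.log_pow]
    push_cast
    linarith
  have hpr : ∀ p ∈ SS i0 i1, p.Prime ∧ X ^ a < p := fun p hp => by
    obtain ⟨h1, h2⟩ := mem_filter.1 hp
    rw [mem_Ioc] at h1
    exact ⟨h2, pw.lo.trans_lt (by exact_mod_cast h1.1)⟩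
  have low : ∀ c, π.ps cX ≤ P1 ^ D0 * π.ps c → X ^ (9 / 10 + δ) ≤ π.ps c := fun c h => by
    have h5 : 0 < X ^ δ := Real.rpow_pos_of_pos X0 _
    refine le_of_mul_le_mul_left ?_ h5
    rw [← Real.rpow_add X0, add_comm δ, ← hδθ]
    exact y0.trans (h.trans (mul_le_mul_of_nonneg_right PXb (ps0 c).le))
  by_contra hcon
  rw [not_lt] at hcon
  obtain ⟨P, PP, cL, cU, N, E, φ, r1, r2, r3, r4, r5, r6, r7, r8, r9, r10, r11, r12⟩ :=
    h2 D Qf Ad { π with M := max M0 1 } (fw (SS i0 i1) B) P1 cX Nc ok oe clo rfl (pk ▸ hk) pG rfl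
      κ00 n1 κK (((le_max_left _ _).trans (le_max_left _ _)).trans (u1.trans uP)) n2 y2
      (hF.fw_bd _ _)
      (fun p hp h m hm => hF.fw_mul _ B p m (fun r hr => (hpr r hr).1) hp
        (fun h' => by linarith [(hpr p h').2]) hm)
      (fun c1 b1 b2 b3 => by
        change 8 * π.ps c1 ≤ π.ps cX at b1
        change π.ps cX ≤ P1 ^ D0 * π.ps c1 at b2
        change P1 ≤ π.κ * π.ps c1 at b3
        have v := hT X x1 i0 i1 B π.κ (π.ps c1) pw ⟨low c1 b2, b1.trans y1,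
          (Real.rpow_le_rpow_of_exponent_le l2 a2).trans b3, y3⟩
        have w := Gen.le_vol κ10 le_rfl hβ.le ({c ∈ Ico c1 (c1 + Nc) |
          D.Bad Ad π.κ (fw (SS i0 i1) B) (η / 2) (ρ / 2) (max M0 1) (π.ps c)}) (fun c hc' v v1 v2 => by
            obtain ⟨h3, h4⟩ := mem_filter.1 hc'
            rw [mem_Ico] at h3
            have h5 : (c1 : ℝ) ≤ c := by exact_mod_cast h3.1
            have h6 : (c : ℝ) + 1 ≤ c1 + Nc := by exact_mod_cast h3.2
            have h7 : P1 ≤ π.κ * π.ps c :=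
              b3.trans (mul_le_mul_of_nonneg_left (ps_mono κ10.le h3.1) κp.le)
            have e1 : ∀ c : ℕ, Real.log (π.ps c) = c * π.κ1 := fun c => Real.log_exp _
            refine ⟨⟨?_, ?_⟩, bad hc hl ok oe (hF.fw_bd _ _) κp κ1 (l2.trans (uP.trans h7))
              (Real.exp_pos v) (u := π.κ1) ?_ κ11 ?_ (two (by positivity) ?_) hρ.le
              (le_max_left _ _) h4⟩
            · rw [e1]
              exact (mul_le_mul_of_nonneg_right h5 κ10.le).trans v1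
            · rw [e1]
              nlinarith [mul_le_mul_of_nonneg_right h6 κ10.le]
            · rw [e1, Real.log_exp, abs_le]
              constructor <;> linarith
            · have h8 : 160 / η ≤ G := (Nat.le_ceil _).trans (by exact_mod_cast g4)
              have h9 : 160 / η ≤ π.κ * π.ps c :=
                ((le_max_right _ _).trans (le_max_left _ _)).trans (u1.trans (uP.trans h7))
              have q0 : 0 < 160 / η := by positivity
              have j1 := one_div_le_one_div_of_le q0 h8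
              have j2 := one_div_le_one_div_of_le q0 h9
              rw [one_div_div] at j1 j2
              linarith
            · have h8 : (8 : ℝ) * D.k ≤ G := by exact_mod_cast g5
              have h9 : D.k * (1 / (G : ℝ)) ≤ 1 / 8 := by
                rw [mul_one_div, div_le_iff₀ G0']
                linarith
              have := mul_le_mul_of_nonneg_left κG (Nat.cast_nonneg (α := ℝ) D.k)
              rw [mul_div_assoc]
              linarith) v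
        refine le_of_mul_le_mul_right (w.trans ?_) κ10
        rw [mul_assoc]
        exact le_mul_of_one_le_right hβ.le n2)
      (hcon.trans (Nat.cast_le.2 (card_le_card (monotone_filter_right _
        fun c _ ⟨g, h1, h3⟩ => ⟨g, h1, hη2.trans h3⟩))))
  refine hC X x2 { π with P := P, PP := PP, M := max M0 1 } i0 i1 B cL cU Nc N E φ pk rfl pG
    ⟨r1, (Real.rpow_le_rpow_of_exponent_le l2 a1).trans r2, r3.trans_eq PD, r4, ?_, ?_, y3⟩
    pw.lo pw.hi pw.ab r9 (fun e he => hl.mono _ _ _ _ _ _ _ _ hρ2 (r10 e he)) r12 r11 r5 n3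
    ((Real.rpow_le_rpow_of_exponent_le X1' (by linarith)).trans (low cL r7))
    ((ps_mono κ10.le r6).trans y1) r8
  · change π.κ0 = X ^ (-(7 * π.k + 4 : ℝ))
    rw [pk, pκ]
  · rw [div_le_iff₀ X0]
    exact κX

end Pool.Agent.Lib.MP_028aa5_nt.V
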