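import Pool.Agent.Lib.MP_028aa5_nt.V.StC
import Pool.Agent.Lib.MP_028aa5_nt.U.Pt

/-! Closeness and exact points over a dilation system. -/

namespace Pool.Agent.Lib.MP_028aa5_nt.V

open Finset T U
open scoped Classical

namespace ClJ

variable {D : DS} {κ c y y' r r' u : ℝ} {g h i g' h' : D.P}

theorem dil_comm (hD : D.Ok) (a b : ℝ) (g : D.P) : D.dil a (D.dil b g) = D.dil b (D.dil a g) := by
  rw [hD.dil_dil, hD.dil_dil, mul_comm]

theorem dil_inv (hD : D.Ok) {a : ℝ} (ha : a ≠ 0) (g : D.P) : D.dil a (D.dil (1 / a) g) = g := by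
  rw [hD.dil_dil, mul_one_div_cancel ha, hD.dil_one]

theorem dil_inv' (hD : D.Ok) {a : ℝ} (ha : a ≠ 0) (g : D.P) : D.dil (1 / a) (D.dil a g) = g := by
  rw [hD.dil_dil, one_div_mul_cancel ha, hD.dil_one]

theorem mem_mul (hD : D.Ok) (m n : ℕ) (h : D.dil n g ∈ D.Λ) : D.dil (m * n : ℕ) g ∈ D.Λ := by
  rw [Nat.cast_mul, ← hD.dil_dil]
  exact hD.mem m _ h

theorem mem_mul' (hD : D.Ok) (m n : ℕ) (h : D.dil m g ∈ D.Λ) : D.dil (m * n : ℕ) g ∈ D.Λ := by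
  rw [mul_comm]
  exact mem_mul hD n m h

theorem ν_div (hD : D.Ok) (κ y : ℝ) (g h : D.P) : D.ν κ y (g * h⁻¹) ≤ D.ν κ y g + D.ν κ y h := by
  simpa only [hD.inv] using hD.mul κ y g h⁻¹

theorem refl (hD : D.Ok) (hr : 0 ≤ r) : D.Cl κ c y r g g :=
  ⟨1, D.Λ.one_mem, by simpa [hD.one] using hr⟩

theorem symm (hD : D.Ok) (h1 : D.Cl κ c y r g h) : D.Cl κ c y r h g := by
  obtain ⟨l, hl, h1⟩ := h1
  refine ⟨l⁻¹, D.Λ.inv_mem hl, ?_⟩
  rw [← hD.inv] at h1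
  simpa [mul_assoc] using h1

theorem trans (hD : D.Ok) (h1 : D.Cl κ c y r g h) (h2 : D.Cl κ c y r' h i) :
    D.Cl κ c y (r + r') g i := by
  obtain ⟨l, hl, h1⟩ := h1
  obtain ⟨l', hl', h2⟩ := h2
  refine ⟨l * l', D.Λ.mul_mem hl hl', le_trans ?_ ((hD.mul _ _ _ _).trans (add_le_add h1 h2))⟩
  simp [mul_assoc]

theorem mono (hr : r ≤ r') (h1 : D.Cl κ c y r g h) : D.Cl κ c y r' g h :=
  h1.imp fun _ h => ⟨h.1, h.2.trans hr⟩

theorem nonneg (hD : D.Ok) (h1 : D.Cl κ c y r g h) : 0 ≤ r := by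
  obtain ⟨l, -, h1⟩ := h1
  exact (hD.nonneg _ _ _).trans h1

theorem lift (hD : D.Ok) (a : ℝ) (h1 : D.Cl κ c (a * y) r g h) :
    D.Cl κ (a * c) y r (D.dil a g) (D.dil a h) := by
  obtain ⟨l, hl, h1⟩ := h1
  refine ⟨l, hl, ?_⟩
  rw [← hD.ndil] at h1
  simpa [hD.dil_dil] using h1

theorem dil (hD : D.Ok) (a : ℕ) (h1 : D.Cl κ c (a * y) r g h) :
    D.Cl κ c y r (D.dil a g) (D.dil a h) := by
  obtain ⟨l, hl, h1⟩ := lift hD a h1
  refine ⟨D.dil a l, hD.mem a l hl, ?_⟩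
  rwa [hD.dil_dil, mul_comm c]

theorem shift (hD : D.Ok) (h0 : 0 < κ) (h1 : κ ≤ 1) (hy : 0 < y) (hy' : 0 < y')
    (hu : |Real.log y' - Real.log y| ≤ u) (hu1 : u ≤ 1) (hc : D.Cl κ c y r g h) :
    D.Cl κ c y' ((1 + 4 * u / κ) ^ D.k * r) g h := by
  obtain ⟨l, hl, h2⟩ := hc
  have : 0 ≤ u := (abs_nonneg _).trans hu
  exact ⟨l, hl, (hD.shift _ _ _ _ _ h0 h1 hy hy' hu hu1).trans
    (mul_le_mul_of_nonneg_left h2 (by positivity))⟩

theorem n5 (hD : D.Ok) (h0 : 0 < κ) (h1 : κ ≤ 1) (hy : 0 < y) (hy' : 0 < y')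
    (hu : |Real.log y' - Real.log y| ≤ κ) : D.ν κ y' g ≤ 5 ^ D.k * D.ν κ y g := by
  simpa only [PtJ.five h0] using hD.shift κ y y' κ g h0 h1 hy hy' hu h1

theorem cl5 (hD : D.Ok) (h0 : 0 < κ) (h1 : κ ≤ 1) (hy : 0 < y) (hy' : 0 < y')
    (hu : |Real.log y' - Real.log y| ≤ κ) (hc : D.Cl κ c y r g h) :
    D.Cl κ c y' (5 ^ D.k * r) g h := by
  simpa only [PtJ.five h0] using shift hD h0 h1 hy hy' hu h1 hc

theorem cl9 (hD : D.Ok) (h0 : 0 < κ) (h1 : 2 * κ ≤ 1) (hy : 0 < y) (hy' : 0 < y')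
    (hu : |Real.log y' - Real.log y| ≤ 2 * κ) (hc : D.Cl κ c y r g h) :
    D.Cl κ c y' (9 ^ D.k * r) g h := by
  simpa only [PtJ.nine h0] using shift hD h0 (by linarith) hy hy' hu h1 hc

theorem eq_refl (g : D.P) : D.Eq g g := by simp [DS.Eq]

theorem eq_symm (h1 : D.Eq g h) : D.Eq h g := by
  simpa [DS.Eq] using D.Λ.inv_mem h1

theorem eq_trans (h1 : D.Eq g h) (h2 : D.Eq h i) : D.Eq g i := by
  simpa [DS.Eq, mul_assoc] using D.Λ.mul_mem h1 h2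

theorem eq_dil (hD : D.Ok) (a : ℕ) (h1 : D.Eq g h) : D.Eq (D.dil a g) (D.dil a h) := by
  simpa [DS.Eq] using hD.mem a _ h1

theorem eq_mul (g : D.P) {l : D.P} (hl : l ∈ D.Λ) : D.Eq (g * l) g := by
  simpa [DS.Eq] using hl

theorem eq_mem (h1 : D.Eq g h) (h2 : h ∈ D.Λ) : g ∈ D.Λ := by
  simpa using D.Λ.mul_mem h2 (D.Λ.inv_mem h1)

theorem congr (hD : D.Ok) (h1 : D.Eq g g') (h2 : D.Eq h h') (hc : D.Cl κ 1 y r g h) :
    D.Cl κ 1 y r g' h' := by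
  obtain ⟨l, hl, h3⟩ := hc
  refine ⟨(g⁻¹ * g')⁻¹ * l * (h⁻¹ * h'), D.Λ.mul_mem (D.Λ.mul_mem (D.Λ.inv_mem h1) hl) h2, ?_⟩
  rw [hD.dil_one] at h3 ⊢
  simpa [mul_assoc] using h3

theorem same (hD : D.Ok) {w w' : D.P} (hc : 0 < c) (hcy : c ≤ κ * y)
    (hw : D.dil c w ∈ D.Λ) (hw' : D.dil c w' ∈ D.Λ)
    (h1 : D.ν κ y (g * w * h⁻¹ * (g * w' * h⁻¹)⁻¹) ≤ 100 ^ (D.k + 1)) : w = w' := by
  refine mul_inv_eq_one.1 (hD.rig κ y c g _ hc hcy ?_ ?_)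
  · rw [map_mul, map_inv]
    exact D.Λ.mul_mem hw (D.Λ.inv_mem hw')
  · simpa [mul_assoc] using h1

theorem one (hD : D.Ok) {ρ : ℝ} {w w' : D.P} {r s : ℕ} (hrs : Nat.Coprime r s) (hr : 0 < r)
    (hs : 0 < s) (hw : D.dil r w ∈ D.Λ) (hw' : D.dil s w' ∈ D.Λ) (h1 : D.ν κ y (g * w * h⁻¹) ≤ ρ)
    (h2 : D.ν κ y (g * w' * h⁻¹) ≤ ρ) (hρ : 2 * ρ ≤ 100 ^ (D.k + 1)) (hy : (r * s : ℝ) ≤ κ * y) :
    w ∈ D.Λ := by
  have e : w = w' := same hD (c := (r * s : ℕ)) (by positivity) (by exact_mod_cast hy)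
    (mem_mul' hD r s hw) (mem_mul hD r s hw') ((ν_div hD _ _ _ _).trans (by linarith))
  exact hD.int r s w hrs hw (e ▸ hw')

theorem mkp (D : DS) (J : ℤ) (y : ℝ) (g : D.P) : D.Eq (D.mkP J y g).ph g :=
  QuotientGroup.eq.1 (QuotientGroup.out_eq' _)

theorem ext (t t' : D.Pt) (h1 : t.J = t'.J) (h2 : t.y = t'.y) (h3 : D.Eq t.ph t'.ph) : t = t' := by
  obtain ⟨J, y, b⟩ := t
  obtain ⟨J', y', b'⟩ := t'
  have h4 : b = b' := by
    rw [← QuotientGroup.out_eq' b, ← QuotientGroup.out_eq' b']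
    exact QuotientGroup.eq.2 h3
  cases h1
  cases h2
  cases h4
  rfl

theorem ch (π : Par) (p : ℕ) (t : D.Pt) : D.Eq (D.chd π p t).ph (D.dil p t.ph) := mkp _ _ _ _

theorem ch_eq {π : Par} {p r : ℕ} {y z : D.Pt} (h : D.chd π p y = D.chd π r z) :
    D.Eq (D.dil p y.ph) (D.dil r z.ph) := eq_trans (eq_symm (ch π p y)) (h ▸ ch π r z)

theorem comm (hD : D.Ok) (π : Par) (p r : ℕ) (t : D.Pt) :
    D.chd π p (D.chd π r t) = D.chd π r (D.chd π p t) := by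
  refine ext _ _ (sub_right_comm _ _ _) (div_right_comm _ _ _) ?_
  refine eq_trans (eq_trans (ch π p _) (eq_dil hD p (ch π r t))) ?_
  refine eq_symm (eq_trans (ch π r _) ?_)
  rw [dil_comm hD]
  exact eq_dil hD r (ch π p t)

theorem pull (hD : D.Ok) (π : Par) (p r : ℕ) (y z : D.Pt) (hp : p.Prime) (hr : r.Prime)
    (h : p ≠ r) (e : D.chd π p y = D.chd π r z) : ∃ t, D.chd π r t = y ∧ D.chd π p t = z := by
  have e1 : y.J - π.lg p = z.J - π.lg r := congrArg DS.Pt.J e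
  have e2 : y.y / p = z.y / r := congrArg DS.Pt.y e
  obtain ⟨a, ha, b, hb, e3⟩ := hD.bez p r ((Nat.coprime_primes hp hr).2 h) _ (ch_eq e)
  have hp0 : (p : ℝ) ≠ 0 := by exact_mod_cast hp.ne_zero
  have hr0 : (r : ℝ) ≠ 0 := by exact_mod_cast hr.ne_zero
  refine ⟨D.mkP (y.J + π.lg r) (y.y * r) (D.dil (1 / r) (y.ph * a)), ?_, ?_⟩
  · refine ext _ _ (add_sub_cancel_right _ _) (mul_div_cancel_right₀ _ hr0) ?_
    refine eq_trans (eq_trans (ch π r _) (eq_dil hD r (mkp _ _ _ _))) ?_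
    rw [dil_inv hD hr0]
    exact eq_mul _ ha
  · refine ext _ _ ?_ ?_ ?_
    · change y.J + π.lg r - π.lg p = z.J
      omega
    · change y.y * r / p = z.y
      rw [mul_div_right_comm, e2, div_mul_cancel₀ _ hr0]
    refine eq_trans (eq_trans (ch π p _) (eq_dil hD p (mkp _ _ _ _))) ?_
    have e4 : D.dil p (y.ph * a) = D.dil r (z.ph * b⁻¹) := by
      rw [map_mul, map_mul, map_inv, eq_mul_inv_iff_mul_eq, mul_assoc, ← e3, mul_inv_cancel_left]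
    rw [dil_comm hD, e4, dil_inv' hD hr0]
    exact eq_mul _ (D.Λ.inv_mem hb)

theorem uniq (hD : D.Ok) (π : Par) (p r : ℕ) (t t' : D.Pt) (hp : p.Prime) (hr : r.Prime)
    (h : p ≠ r) (e : D.chd π r t = D.chd π r t') (e' : D.chd π p t = D.chd π p t') : t = t' := by
  have e1 : t.J - π.lg r = t'.J - π.lg r := congrArg DS.Pt.J e
  have e2 : t.y / r = t'.y / r := congrArg DS.Pt.y e
  have hr0 : (r : ℝ) ≠ 0 := by exact_mod_cast hr.ne_zero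
  refine ext _ _ (by omega) ((div_left_inj' hr0).1 e2)
    (hD.int p r _ ((Nat.coprime_primes hp hr).2 h) ?_ ?_)
  · simpa [DS.Eq] using ch_eq e'
  · simpa [DS.Eq] using ch_eq e

theorem chL_y (π : Par) (Y : ℝ) (S : D.Pt → ℤ × D.P) (R : List ℕ) (t : D.Pt) :
    DS.Pt.y ((D.geo π Y S).chL R t) = t.y / R.prod := by
  induction R generalizing t with
  | nil => simp [Sys.chL]
  | cons r R ih =>
    refine (ih (D.chd π r t)).trans ?_
    change t.y / r / _ = _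
    rw [div_div, List.prod_cons, Nat.cast_mul]

theorem chL_ph (hD : D.Ok) (π : Par) (Y : ℝ) (S : D.Pt → ℤ × D.P) (R : List ℕ) (t : D.Pt) :
    D.Eq (DS.Pt.ph ((D.geo π Y S).chL R t)) (D.dil (R.prod : ℕ) t.ph) := by
  induction R generalizing t with
  | nil =>
    rw [List.prod_nil, Nat.cast_one, hD.dil_one]
    exact eq_refl _
  | cons r R ih =>
    refine eq_trans (ih (D.chd π r t)) ?_
    rw [List.prod_cons, Nat.cast_mul, mul_comm, ← hD.dil_dil]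
    exact eq_dil hD _ (ch π r t)

theorem chL_ch (hD : D.Ok) (π : Par) (Y : ℝ) (S : D.Pt → ℤ × D.P) (R : List ℕ) (p : ℕ)
    (t : D.Pt) : (D.geo π Y S).chL R (D.chd π p t) = D.chd π p ((D.geo π Y S).chL R t) := by
  induction R generalizing t with
  | nil => rfl
  | cons r R ih =>
    exact (congrArg ((D.geo π Y S).chL R) (comm hD π r p t)).trans (ih (D.chd π r t))

theorem near (hD : D.Ok) {S : D.Pt → ℤ × D.P} (hS : D.StMap κ S) {t t' : D.Pt} (h : S t = S t') :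
    D.Cl κ 1 (Real.exp ((S t).1 * κ)) 2 t.ph t'.ph := by
  have h1 := hS.pt t'
  rw [← h] at h1
  simpa only [one_add_one_eq_two] using trans hD (hS.pt t) (symm hD h1)

end ClJ

open ClJ

theorem st_Cl : ClSt where
  refl _ _ _ _ _ _ := refl
  symm _ _ _ _ _ _ _ := symm
  trans _ _ _ _ _ _ _ _ _ := trans
  mono _ _ _ _ _ _ _ _ := mono
  nonneg _ _ _ _ _ _ _ := nonneg
  dil _ _ _ _ _ _ _ a h := dil h a
  lift _ _ _ _ _ _ _ a h := lift h a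
  shift _ _ _ _ _ _ _ _ _ := shift
  n5 _ _ _ _ _ := n5
  cl5 _ _ _ _ _ _ _ _ := cl5
  cl9 _ _ _ _ _ _ _ _ := cl9
  eq_refl _ := eq_refl
  eq_symm _ _ _ := eq_symm
  eq_trans _ _ _ _ := eq_trans
  eq_dil _ _ _ a h := eq_dil h a
  congr _ _ _ _ _ _ _ _ := congr
  one _ _ _ _ _ _ _ _ _ _ h := one h

theorem st_Pt : PtSt where
  mkp := mkp
  ext _ := ext
  ch _ := ch
  comm _ π p r t h := comm h π p r t
  pull _ π p r y z h := pull h π p r y z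
  uniq _ π p r t t' h := uniq h π p r t t'
  chL_y _ := chL_y
  chL_ph _ π Y S R t h := chL_ph h π Y S R t
  chL_ch _ π Y S R p t h := chL_ch h π Y S R p t
  near _ _ _ _ _ h h' := near h h'

end Pool.Agent.Lib.MP_028aa5_nt.V
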