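import Pool.Agent.Lib.MP_028aa5_nt.V.StB
import Pool.Agent.Lib.MP_028aa5_nt.U.Init

/-! Colliding primes and the exact graph at the bottom of the tower. -/

namespace Pool.Agent.Lib.MP_028aa5_nt.V

open Finset T U
open scoped Classical

theorem st_Col (hC : ClSt) : ColSt := by
  intro D π N E φ r Y hD ok hI hY h1 h2
  have hκ : 0 ≤ π.κ := by
    have h0 : 0 ≤ π.G * π.κ1 :=
      mul_nonneg (Nat.cast_nonneg _) (mul_nonneg (Nat.cast_nonneg _) ok.κ0.le)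
    rw [Par.κ]
    linarith [Real.add_one_le_exp (π.G * π.κ1)]
  let Q : N.W → ℕ → Prop := fun x p => ∃ x', N.isU x = N.isU x' ∧ N.cell x = N.cell x' ∧
    ∃ w, D.dil p w ∈ D.Λ ∧ D.ν π.κ (N.pos π x) (φ x * w * (φ x')⁻¹) ≤ r ∧ w ∉ D.Λ
  refine ⟨fun x => π.PP.filter (Q x), fun x => ?_, fun x x' p hp w h3 h4 h5 h6 h7 => ?_⟩
  · refine le_trans ?_ (hI.mu (N.isU x) (N.cell x))
    have : Nonempty N.W := ⟨x⟩
    choose! g g1 g2 z g3 g4 g5 using fun p (hp : p ∈ π.PP.filter (Q x)) => (mem_filter.1 hp).2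
    refine card_le_card_of_injOn g (fun p hp => mem_filter.2 ⟨mem_univ _, (g1 p hp).symm,
      (g2 p hp).symm⟩) fun p hp q hq e => ?_
    by_contra hne
    obtain ⟨p1, p2, p3⟩ := ok.pr p (mem_filter.1 hp).1
    obtain ⟨q1, q2, q3⟩ := ok.pr q (mem_filter.1 hq).1
    have p0 : (0 : ℝ) < p := Nat.cast_pos.2 p1.pos
    have q0 : (0 : ℝ) < q := Nat.cast_pos.2 q1.pos
    have pq : (p : ℝ) * q ≤ 4 * π.P ^ 2 :=
      (mul_le_mul p3 q3 q0.le (p0.le.trans p3)).trans_eq (by ring)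
    have hy := mul_le_mul_of_nonneg_left (hY x) hκ
    have g6 := g4 q hq
    rw [← e] at g6
    exact g5 p hp (hC.one D _ _ r _ _ _ _ p q hD ((Nat.coprime_primes p1 q1).2 hne) p1.pos q1.pos
      (g3 p hp) (g3 q hq) (g4 p hp) g6 h1 (by linarith))
  · by_contra h8
    exact h5 (mem_filter.2 ⟨hp, x', h3, h4, w, h6, h7, h8⟩)

namespace InitJ

open U.InitJ (ray_mono near)

theorem cl_of {D : DS} {κ y r : ℝ} {g h : D.P} (hn : D.ν κ y (g * h⁻¹) ≤ r) : D.Cl κ 1 y r g h :=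
  ⟨1, D.Λ.one_mem, by rwa [map_one, mul_one]⟩

theorem n9 {D : DS} (hD : D.Ok) {κ y y' : ℝ} (g : D.P) (h0 : 0 < κ) (h1 : 2 * κ ≤ 1) (hy : 0 < y)
    (hy' : 0 < y') (h : |Real.log y' - Real.log y| ≤ 2 * κ) :
    D.ν κ y' g ≤ 9 ^ D.k * D.ν κ y g := by
  have := hD.shift κ y y' (2 * κ) g h0 (by linarith) hy hy' h h1
  rwa [show 1 + 4 * (2 * κ) / κ = 9 by field_simp; norm_num] at this

theorem four (k : ℕ) : (2 * (2 * 9 ^ k) : ℝ) ≤ 100 ^ (k + 1) := by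
  have : (9 : ℝ) ^ k ≤ 100 ^ k := pow_le_pow_left₀ (by norm_num) (by norm_num) k
  have h : (0 : ℝ) < 100 ^ k := by positivity
  rw [pow_succ]
  linarith

/-- the data of an exact edge over an edge `b` of the graph -/
structure Ov (D : DS) (π : Par) (N : Net) (φ : N.W → D.P) (δ u : ℝ) (b : N.Ed) (p Ju Jl : ℕ)
    (yu yl : ℝ) (ψu ψl : D.P) : Prop where
  pr : N.pr b = p
  ju : Ju = N.fj b
  jl : Jl = N.fj b - π.lg p
  y : yu = p * yl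
  pos : 0 < yl
  lu : |Real.log yu - Ju * π.κ0| ≤ u
  ll : |Real.log yl - Jl * π.κ0| ≤ u
  eq : D.Eq ψl (D.dil p ψu)
  nu : D.ν π.κ yu (ψu * (φ (N.up b))⁻¹) ≤ δ
  nl : D.ν π.κ yl (ψl * (φ (N.lo b))⁻¹) ≤ δ

variable {D : DS} {π : Par} {N : Net} {E : Finset N.Ed} {φ : N.W → D.P} {δ u : ℝ}

theorem child (hD : D.Ok) (hC : ClSt) (hP : PtSt) (ok : π.Ok) (is : N.Is π E) {b : N.Ed}
    (hb : b ∈ E) {p Ju Jl : ℕ} {yu yl : ℝ} {ψu ψl : D.P}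
    (h : Ov D π N φ δ u b p Ju Jl yu yl ψu ψl) :
    D.mkP Jl yl ψl = D.chd π p (D.mkP Ju yu ψu) := by
  have hp : (0 : ℝ) < p := by
    have := (ok.pr _ (is.pr b hb)).1.pos
    rw [h.pr] at this
    exact_mod_cast this
  refine hP.ext _ _ _ ?_ ?_ ?_
  · have := is.le b hb
    rw [h.pr] at this
    change (Jl : ℤ) = (Ju : ℤ) - π.lg p
    rw [h.jl, h.ju, Nat.cast_sub this]
  · change yl = yu / p
    rw [h.y, mul_div_cancel_left₀ _ hp.ne']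
  · exact hC.eq_trans _ _ _ _ (hP.mkp _ _ _ _) (hC.eq_trans _ _ _ _ h.eq (hC.eq_symm _ _ _
      (hC.eq_trans _ _ _ _ (hP.ch D π p _) (hC.eq_dil _ _ _ p hD (hP.mkp _ _ _ _)))))

theorem lnk (hD : D.Ok) (hC : ClSt) (hP : PtSt) (ok : π.Ok) (is : N.Is π E) {b : N.Ed}
    (hb : b ∈ E) {p Ju Jl : ℕ} {yu yl : ℝ} {ψu ψl : D.P}
    (h : Ov D π N φ δ u b p Ju Jl yu yl ψu ψl) : D.Lnk π N E φ δ u (D.mkP Ju yu ψu) p := by
  have hp : (0 : ℝ) < p := by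
    have := (ok.pr _ (is.pr b hb)).1.pos
    rw [h.pr] at this
    exact_mod_cast this
  have e : yu / p = yl := by rw [h.y, mul_div_cancel_left₀ _ hp.ne']
  refine ⟨b, hb, h.pr, ?_, ?_, ?_, ?_, ?_, ?_⟩
  · change (Ju : ℤ) = _
    rw [h.ju]
  · change 0 < yu
    rw [h.y]
    exact mul_pos hp h.pos
  · change |Real.log yu - _| ≤ _
    rw [← h.ju]
    exact h.lu
  · change |Real.log (yu / p) - _| ≤ _
    rw [← h.jl, e]
    exact h.ll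
  · exact hC.congr _ _ _ _ _ _ _ _ hD (hC.eq_symm _ _ _ (hP.mkp _ _ _ _)) (hC.eq_refl _ _)
      (cl_of h.nu)
  · rw [← child hD hC hP ok is hb h]
    change D.Cl _ _ (yu / p) _ _ _
    rw [e]
    exact hC.congr _ _ _ _ _ _ _ _ hD (hC.eq_symm _ _ _ (hP.mkp _ _ _ _)) (hC.eq_refl _ _)
      (cl_of h.nl)

theorem parent (hD : D.Ok) (hB : BasSt) (hC : ClSt) (hP : PtSt) (ok : π.Ok) (is : N.Is π E)
    (hκ : 2 * π.κ ≤ 1) (hδ : δ ≤ 1) (hu : u ≤ π.κ) {b b' : N.Ed} (hb : b ∈ E) (hb' : b' ∈ E)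
    {p Ju Jl Ju' Jl' : ℕ} {yu yl yu' yl' : ℝ} {ψu ψl ψu' ψl' : D.P}
    (h : Ov D π N φ δ u b p Ju Jl yu yl ψu ψl) (h' : Ov D π N φ δ u b' p Ju' Jl' yu' yl' ψu' ψl')
    (col : ∀ x' w, N.isU (N.up b) = N.isU x' → N.cell (N.up b) = N.cell x' → D.dil p w ∈ D.Λ →
      D.ν π.κ (N.pos π (N.up b)) (φ (N.up b) * w * (φ x')⁻¹) ≤ 2 * 9 ^ D.k → w ∈ D.Λ)
    (e : D.mkP Jl yl ψl = D.mkP Jl' yl' ψl') :
    D.mkP Ju yu ψu = D.mkP Ju' yu' ψu' := by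
  have hp0 : 0 < p := by
    have := (ok.pr _ (is.pr b hb)).1.pos
    rwa [h.pr] at this
  have hp : (0 : ℝ) < p := by exact_mod_cast hp0
  have κ0 : 0 < π.κ := (hB.κ1_pos π ok).trans_le (hB.κ1_le π ok)
  have eJ : Jl = Jl' := by exact_mod_cast (show (Jl : ℤ) = Jl' from congrArg DS.Pt.J e)
  have ey : yl = yl' := congrArg DS.Pt.y e
  have l1 := is.le b hb
  have l2 := is.le b' hb'
  rw [h.pr] at l1
  rw [h'.pr] at l2
  have ef : N.fj b = N.fj b' := by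
    have := h.jl
    have := h'.jl
    omega
  have eu : yu = yu' := by rw [h.y, h'.y, ey]
  have el : D.Eq ψl ψl' := hC.eq_trans _ _ _ _ (hC.eq_symm _ _ _ (hP.mkp _ Jl yl ψl))
    (by rw [e]; exact hP.mkp _ _ _ _)
  have hw : D.dil p (ψu⁻¹ * ψu') ∈ D.Λ := by
    rw [map_mul, map_inv]
    exact hC.eq_trans _ _ _ _ (hC.eq_symm _ _ _ h.eq) (hC.eq_trans _ _ _ _ el h'.eq)
  have y0 : 0 < yu := by rw [h.y]; exact mul_pos hp h.pos
  have n1 : D.ν π.κ yu (φ (N.up b) * (ψu⁻¹ * ψu') * (φ (N.up b'))⁻¹) ≤ 2 := by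
    rw [show φ (N.up b) * (ψu⁻¹ * ψu') * (φ (N.up b'))⁻¹ =
      (ψu * (φ (N.up b))⁻¹)⁻¹ * (ψu' * (φ (N.up b'))⁻¹) by group]
    have a := hD.mul π.κ yu (ψu * (φ (N.up b))⁻¹)⁻¹ (ψu' * (φ (N.up b'))⁻¹)
    rw [hD.inv] at a
    have a1 := h.nu
    have a2 := h'.nu
    rw [← eu] at a2
    linarith
  have n2 := n9 hD (φ (N.up b) * (ψu⁻¹ * ψu') * (φ (N.up b'))⁻¹) κ0 hκ y0
    (hB.pos_pos π N (N.up b)) (by
      have := near hB ok (h.lu.trans hu)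
      rw [h.ju, is.cu b hb] at this
      rw [abs_sub_comm]
      exact this)
  have eq : D.Eq ψu ψu' := col (N.up b') _ (by rw [is.up b hb, is.up b' hb'])
    (by rw [← is.cu b hb, ← is.cu b' hb', ef]) hw (n2.trans (by
      rw [mul_comm 2]
      exact mul_le_mul_of_nonneg_left n1 (by positivity)))
  refine hP.ext _ _ _ ?_ eu (hC.eq_trans _ _ _ _ (hP.mkp _ _ _ _)
    (hC.eq_trans _ _ _ _ eq (hC.eq_symm _ _ _ (hP.mkp _ _ _ _))))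
  change (Ju : ℤ) = Ju'
  rw [h.ju, h'.ju, ef]

end InitJ

open InitJ
open U.InitJ (ray_mono near)

theorem st_Init (hB : BasSt) (hC : ClSt) (hP : PtSt) (hDrop : DropSt) (hCol : ColSt)
    (hBlow : BlowSt) (hOff : OffSt) (hMerge : MergeSt) : InitSt := by
  intro D ε δ hD hF hε hε' hδ hδ'
  obtain ⟨Nn, hNn, off⟩ := hOff D ε hD hF hε (by linarith)
  have h9 : (1 : ℝ) ≤ 9 ^ D.k := one_le_pow₀ (by norm_num)
  have hq : 1 ≤ Nn * 9 ^ D.k := one_le_mul_of_one_le_of_one_le hNn h9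
  have hρ : 0 < δ / (Nn * 9 ^ D.k) := by positivity
  refine ⟨δ / (Nn * 9 ^ D.k), hρ, (div_le_one (by positivity)).mpr (hδ'.trans hq), ?_⟩
  intro π N E φ Y u S ok is lv ray hY hκ hP4 hM hL huκ
  have κ0 : 0 < π.κ := (hB.κ1_pos π ok).trans_le (hB.κ1_le π ok)
  obtain ⟨Col, c1, c2⟩ := hCol D π N E φ (2 * 9 ^ D.k) Y hD ok is hY (four _) hP4
  have ray1 := ray_mono (hDrop π N E (1 - ε) π.M Col ok is (fun x => by exact_mod_cast c1 x) ray)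
    (lam' := 1 - 2 * ε) (by linarith)
  have sub : {e ∈ E | N.pr e ∉ Col (N.up e)} ⊆ E := filter_subset _ _
  obtain ⟨N1, E1, bx, be, nn, γ, hγ, fi1, ray2, h1⟩ :=
    hBlow π N _ _ ⌈1 / ε⌉₊ ok (hB.mono π N E _ is sub) ray1
  have hu : (⌈1 / ε⌉₊ : ℝ) * #π.PP * π.κ0 ≤ u := by
    refine le_trans ?_ hL
    have := (Nat.ceil_lt_add_one (show 0 ≤ 1 / ε by positivity)).le
    have := ok.κ0
    gcongr
  have pp : ∀ e ∈ E1, 0 < N1.pr e := fun e he => by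
    rw [← (h1 e he).2.1]
    exact (ok.pr _ (is.pr _ (sub (h1 e he).1))).1.pos
  have eδ : Nn * (9 ^ D.k * (δ / (Nn * 9 ^ D.k))) = δ := by field_simp
  obtain ⟨N2, E2, bx2, be2, ψ, fi2, ray3, h2⟩ := off π.κ γ (9 ^ D.k * (δ / (Nn * 9 ^ D.k))) _ _
    N1 E1 (fun v => φ (bx v)) nn κ0 hγ (by positivity) (eδ.trans_le hδ') (by positivity) fi1 ray2
    fun e he => by
      obtain ⟨a1, a2, a3, a4, a5, a6, a7, a8, a9, a10⟩ := h1 e he
      refine ⟨pp e he, a7, a8, ?_⟩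
      rw [a3, a4, ← a2]
      refine hC.cl9 _ _ _ _ _ _ _ _ hD κ0 hκ (hB.pos_pos π N _) (by positivity) ?_ (lv _ (sub a1))
      have := near hB ok ((a10.trans hu).trans huκ)
      rwa [a6, ← a2, is.cl _ (sub a1)] at this
  rw [eδ] at h2
  have ov : ∀ e ∈ E2, be (be2 e) ∈ {e ∈ E | N.pr e ∉ Col (N.up e)} ∧
      Ov D π N φ δ u (be (be2 e)) (N2.pr e) (N1.cell (bx2 (N2.up e))) (N1.cell (bx2 (N2.lo e)))
        (γ * nn (bx2 (N2.up e))) (γ * nn (bx2 (N2.lo e))) (ψ (N2.up e)) (ψ (N2.lo e)) := by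
    intro e he
    obtain ⟨b1, b2, b3, b4, b5, b6, b7⟩ := h2 e he
    obtain ⟨a1, a2, a3, a4, a5, a6, a7, a8, a9, a10⟩ := h1 _ b1
    rw [b3, b4]
    refine ⟨a1, a2.trans b2, a5, b2 ▸ a6, ?_, by positivity, a9.trans hu, a10.trans hu, b5,
      a3 ▸ b6, a4 ▸ b7⟩
    rw [a7, b2]
    push_cast
    ring
  have hl : 1 - ε ≤ (⌈1 / ε⌉₊ : ℝ) / (⌈1 / ε⌉₊ + 1) := by
    have a := Nat.le_ceil (1 / ε)
    rw [div_le_iff₀ hε] at a
    rw [le_div_iff₀ (by positivity)]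
    nlinarith
  have hl2 : 1 - 4 * ε ≤ (1 - 2 * ε) * ((⌈1 / ε⌉₊ : ℝ) / (⌈1 / ε⌉₊ + 1)) * (1 - ε) := by
    have a : (1 - 2 * ε) * (1 - ε) * (1 - ε) ≤
        (1 - 2 * ε) * ((⌈1 / ε⌉₊ : ℝ) / (⌈1 / ε⌉₊ + 1)) * (1 - ε) :=
      mul_le_mul_of_nonneg_right (mul_le_mul_of_nonneg_left hl (by linarith)) (by linarith)
    nlinarith [mul_nonneg (mul_nonneg hε.le hε.le) (show 0 ≤ 5 - 2 * ε by linarith)]
  obtain ⟨F, F', gr⟩ := hMerge (D.geo π Y S) N2 E2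
    (fun v => D.mkP (N1.cell (bx2 v)) (γ * nn (bx2 v)) (ψ v)) (1 - 4 * ε) fi2
    (ray_mono ray3 hl2) (by linarith)
    (fun e he => ⟨(ov e he).2.pr ▸ is.pr _ (sub (ov e he).1),
      child hD hC hP ok is (sub (ov e he).1) (ov e he).2⟩)
    fun e he e' he' q1 q2 => by
      have o := (ov e he).2
      have o' := (ov e' he').2
      rw [← q1] at o'
      refine parent hD hB hC hP ok is hκ hδ' huκ (sub (ov e he).1) (sub (ov e' he').1) o o'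
        (fun x' w s1 s2 => c2 _ x' _ ?_ w s1 s2 ?_) q2
      · exact o.pr ▸ is.pr _ (sub (ov e he).1)
      · exact o.pr ▸ (mem_filter.mp (ov e he).1).2
  refine ⟨_, F, F', gr, fun e he => ?_⟩
  obtain ⟨e2, he2, rfl⟩ := mem_image.mp he
  exact lnk hD hC hP ok is (sub (ov e2 he2).1) (ov e2 he2).2

end Pool.Agent.Lib.MP_028aa5_nt.V
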