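import Pool.Agent.Lib.MP_028aa5_nt.V.StB

/-! Matching into a largest family; dilates of a family. -/

namespace Pool.Agent.Lib.MP_028aa5_nt.V

open Finset T U
open scoped Classical

namespace MD

lemma hall (hN : ClSt) (D : DX) (Ad : D.P → Prop) (κ η ρ y : ℝ) (f : ℕ → ℂ)
    (A AL A' B : Finset D.P) (ok : D.toDS.Ok) (hρ : 0 ≤ ρ)
    (hA : D.Fam Ad κ f η ρ y A) (hL : D.Fam Ad κ f η ρ y AL)
    (hmax : ∀ A', D.Fam Ad κ f η ρ y A' → #A' ≤ #AL) (hA' : A' ⊆ A) (hB : B ⊆ AL)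
    (hnb : ∀ α ∈ A', ∀ β ∈ AL, D.Cl κ 1 y ρ β α → β ∈ B) : #A' ≤ #B := by
  have hF : D.Fam Ad κ f η ρ y ((AL \ B) ∪ A') := by
    refine ⟨fun α hα => ?_, fun α hα β hβ hne hcl => ?_⟩
    · rcases mem_union.1 hα with h | h
      · exact hL.1 α (mem_sdiff.1 h).1
      · exact hA.1 α (hA' h)
    · rcases mem_union.1 hα with h | h <;> rcases mem_union.1 hβ with h' | h'
      · exact hL.2 α (mem_sdiff.1 h).1 β (mem_sdiff.1 h').1 hne hcl
      · exact (mem_sdiff.1 h).2 (hnb β h' α (mem_sdiff.1 h).1 hcl)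
      · exact (mem_sdiff.1 h').2 (hnb α h β (mem_sdiff.1 h').1 (hN.symm _ _ _ _ _ _ _ ok hcl))
      · exact hA.2 α (hA' h) β (hA' h') hne hcl
  have hd : Disjoint (AL \ B) A' := by
    rw [disjoint_left]
    intro α h h'
    exact (mem_sdiff.1 h).2 (hnb α h' α (mem_sdiff.1 h).1 (hN.refl _ _ _ _ _ _ ok hρ))
  have h1 := hmax _ hF
  rw [card_union_of_disjoint hd, card_sdiff_of_subset hB] at h1
  have h2 := card_le_card hB
  omega

lemma dil_inv {D : DS} (ok : D.Ok) {p : ℝ} (hp : p ≠ 0) (g : D.P) :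
    D.dil p (D.dil p⁻¹ g) = g := by rw [ok.dil_dil, mul_inv_cancel₀ hp, ok.dil_one]

lemma dil_inj {D : DS} (ok : D.Ok) {p : ℝ} (hp : p ≠ 0) : Function.Injective (D.dil p) := by
  intro g h e
  have := congrArg (D.dil p⁻¹) e
  rwa [ok.dil_dil, ok.dil_dil, inv_mul_cancel₀ hp, ok.dil_one, ok.dil_one] at this

end MD

theorem st_Match (hN : ClSt) : MatchSt := by
  intro D Ad κ η ρ y f A AL ok hρ hA hL hmax
  obtain ⟨g, hg, hg'⟩ := (Finset.all_card_le_biUnion_card_iff_existsInjective'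
    (fun α : A => {β ∈ AL | D.Cl κ 1 y ρ β α})).1 (by
      intro s
      have h := MD.hall hN D Ad κ η ρ y f A AL (s.map (Function.Embedding.subtype _))
        (s.biUnion fun α : A => {β ∈ AL | D.Cl κ 1 y ρ β α}) ok hρ hA hL hmax
        (by
          intro α hα
          obtain ⟨a, _, rfl⟩ := mem_map.1 hα
          exact a.2)
        (biUnion_subset.2 fun a _ => filter_subset _ _)
        (by
          intro α hα β hβ hcl
          obtain ⟨a, ha, rfl⟩ := mem_map.1 hα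
          exact mem_biUnion.2 ⟨a, ha, mem_filter.2 ⟨hβ, hcl⟩⟩)
      rwa [card_map] at h)
  refine ⟨fun α => if h : α ∈ A then g ⟨α, h⟩ else α, fun α hα β hβ h => ?_, fun α hα => ?_⟩
  · have hα' : α ∈ A := hα
    have hβ' : β ∈ A := hβ
    simp only [dif_pos hα', dif_pos hβ'] at h
    exact congrArg Subtype.val (hg h)
  · simp only [dif_pos hα]
    exact mem_filter.1 (hg' ⟨α, hα⟩)

theorem st_Desc (hN : ClSt) (hC : CcSt) (hB : BasSt) : DescSt := by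
  intro D Qf Ad π f η η' ρ ρ' ε2 K1 y A ok oe clo hπ hf hκ1 hP hK hρ' hρ hρρ hη hA
  have hκ1p := hB.κ1_pos π hπ
  have hκ : 0 < π.κ := lt_of_lt_of_le hκ1p (hB.κ1_le π hπ)
  have hP2 := hπ.P
  have hK1 : 1 ≤ K1 := by nlinarith
  have hy : 0 < y := by
    by_contra h
    have := mul_nonpos_of_nonneg_of_nonpos hκ.le (not_lt.1 h)
    linarith
  have hG : (0 : ℝ) < π.G := by exact_mod_cast hπ.G
  have hq : 2 * π.κ1 / π.κ ≤ 2 / π.G := by
    rw [div_le_div_iff₀ hκ hG]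
    have := hB.κ_ge π hπ
    linarith
  refine ⟨(A ×ˢ A).biUnion fun q => {p ∈ π.PP | q.1 ≠ q.2 ∧
    ∃ w, D.dil p w ∈ D.Λ ∧ D.ν π.κ y (q.1 * w * q.2⁻¹) ≤ ρ}, ?_, fun p hp hc => ?_⟩
  · refine (card_biUnion_le_card_mul _ _ 1 fun q hq => ?_).trans
      (by rw [card_product, mul_one, sq])
    refine card_le_one.2 fun r hr s hs => ?_
    by_contra hne
    obtain ⟨hr, hq', z, hz0, hz⟩ := mem_filter.1 hr
    obtain ⟨hs, -, z', hz0', hz'⟩ := mem_filter.1 hs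
    obtain ⟨r1, r2, r3⟩ := hπ.pr r hr
    obtain ⟨s1, s2, s3⟩ := hπ.pr s hs
    have h3 : (r : ℝ) * s ≤ π.κ * y := by
      have : (r : ℝ) * s ≤ (2 * π.P) * (2 * π.P) :=
        mul_le_mul r3 s3 (by linarith) (by linarith)
      nlinarith
    have h4 : (100 : ℝ) ≤ 100 ^ (D.k + 1) := le_self_pow₀ (by norm_num) (by omega)
    have := hN.one D.toDS π.κ y ρ _ _ z z' r s ok ((Nat.coprime_primes r1 s1).2 hne) r1.pos s1.pos
      hz0 hz0' hz hz' (by linarith) h3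
    exact hA.2 q.1 (mem_product.1 hq).1 q.2 (mem_product.1 hq).2 hq'
      ⟨z, this, by rwa [ok.dil_one]⟩
  · obtain ⟨p1, p2, p3⟩ := hπ.pr p hp
    have hp0 : (0 : ℝ) < p := by linarith
    have hyp : 0 < y / p := div_pos hy hp0
    refine ⟨(MD.dil_inj ok hp0.ne').injOn, fun y' hK' hyy => ⟨fun α' hα' => ?_, ?_⟩⟩
    · obtain ⟨α, hα, rfl⟩ := mem_image.1 hα'
      obtain ⟨hα, hε⟩ := mem_filter.1 hα
      have h1 := (hA.1 α hα).2
      refine ⟨clo p α (hA.1 α hα).1, ?_⟩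
      have h2 := hC.move D Qf π.κ f y' (y / p) (2 * π.κ1) (D.dil p α) oe hf hκ hπ.κ (by linarith) hyp
        hyy hκ1
      have h3 : 1 / (π.κ * y') ≤ 1 / K1 := one_div_le_one_div_of_le (by linarith) hK'
      have h4 : ‖D.cc π.κ f y α‖ ≤ ‖D.cc π.κ f y α + D.cc π.κ f (y / p) (D.dil p α)‖ +
          ‖D.cc π.κ f (y / p) (D.dil p α)‖ := by
        simpa using norm_sub_le (D.cc π.κ f y α + D.cc π.κ f (y / p) (D.dil p α))
          (D.cc π.κ f (y / p) (D.dil p α))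
      have h5 : ‖D.cc π.κ f (y / p) (D.dil p α)‖ ≤
          ‖D.cc π.κ f (y / p) (D.dil p α) - D.cc π.κ f y' (D.dil p α)‖ +
            ‖D.cc π.κ f y' (D.dil p α)‖ := by
        simpa using norm_add_le (D.cc π.κ f (y / p) (D.dil p α) - D.cc π.κ f y' (D.dil p α))
          (D.cc π.κ f y' (D.dil p α))
      linarith
    · intro α' hα' β' hβ' hne hcl
      obtain ⟨α, hα, rfl⟩ := mem_image.1 hα'
      obtain ⟨β, hβ, rfl⟩ := mem_image.1 hβ'
      have hy' : 0 < y' := by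
        by_contra h
        have := mul_nonpos_of_nonneg_of_nonpos hκ.le (not_lt.1 h)
        linarith
      obtain ⟨z, hz0, hz⟩ := hN.shift D.toDS π.κ 1 y' (y / p) (2 * π.κ1) ρ' _ _ ok hκ hπ.κ hy' hyp
        hyy hκ1 hcl
      rw [ok.dil_one, ← MD.dil_inv ok hp0.ne' z, ← map_inv, ← map_mul, ← map_mul, ok.ndil,
        mul_div_cancel₀ _ hp0.ne'] at hz
      have h1 : 1 + 4 * (2 * π.κ1) / π.κ ≤ 1 + 8 / π.G := by
        have e1 : 4 * (2 * π.κ1) / π.κ = 4 * (2 * π.κ1 / π.κ) := by ring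
        have e2 : (8 : ℝ) / π.G = 4 * (2 / π.G) := by ring
        rw [e1, e2]
        linarith
      have h2 : (1 + 4 * (2 * π.κ1) / π.κ) ^ D.k ≤ (1 + 8 / π.G) ^ D.k :=
        pow_le_pow_left₀ (by positivity) h1 _
      have h3 := mul_le_mul_of_nonneg_right h2 hρ'
      refine hc (mem_biUnion.2 ⟨(α, β), mem_product.2 ⟨(mem_filter.1 hα).1, (mem_filter.1 hβ).1⟩,
        mem_filter.2 ⟨hp, fun h => hne (congrArg (D.dil p) h), D.dil (p : ℝ)⁻¹ z,
          by rwa [MD.dil_inv ok hp0.ne'], ?_⟩⟩)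
      linarith

end Pool.Agent.Lib.MP_028aa5_nt.V
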