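import Pool.Agent.Lib.MP_028aa5_nt.V.StB
import Pool.Agent.Lib.MP_028aa5_nt.U.Net

/-! The number of states at the bottom of the tower and the graph at the top. -/

namespace Pool.Agent.Lib.MP_028aa5_nt.V

open Finset T U
open scoped Classical

namespace Cnt0J

theorem ck_ge (D : DS) (hD : D.Ok) : (D.Cv * (5 ^ D.k + 2) ^ 2) ^ D.Dm ≤ D.cK := by
  unfold DS.cK
  have h0 : 0 ≤ D.Cv := zero_le_one.trans hD.cv
  have h1 : (5 : ℝ) ^ D.k ≤ 25 ^ D.k := pow_le_pow_left₀ (by norm_num) (by norm_num) _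
  have h2 : (0 : ℝ) ≤ 25 ^ D.k := by positivity
  have h3 : (D.Cv * (5 ^ D.k + 2) ^ 2) ^ D.Dm ≤ (D.Cv * (2 * 25 ^ D.k + 2) ^ 2) ^ D.Dm := by
    refine pow_le_pow_left₀ (by positivity) ?_ _
    exact mul_le_mul_of_nonneg_left (pow_le_pow_left₀ (by positivity) (by linarith) 2) h0
  have h4 : (0 : ℝ) ≤ (D.Cv * (2 * 25 ^ D.k + 2) ^ 2) ^ D.Dm := by positivity
  linarith

theorem cnt (hN : ClSt) (hB : T.BasSt) (hP : U.PtSt) (hV : U.VASt) (D : DS) (π : Par) (N : Net)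
    (E : Finset N.Ed) (φ : N.W → D.P) (Y δ : ℝ) (S : D.Pt → ℤ × D.P) (A : Finset D.Pt)
    (hD : D.Ok) (hok : π.Ok) (hI : N.Is π E) (hS : D.StMap π.κ S) (hδ : δ ≤ 1)
    (hA : ∀ t ∈ A, ∃ x, 0 < t.y ∧ |Real.log t.y - Real.log (N.pos π x)| ≤ 2 * π.κ ∧
      D.Cl π.κ 1 t.y δ t.ph (φ x)) :
    (D.geo π Y S).Cnt A (2 * π.M * (12 * π.G + 1) * D.cK) := by
  intro c
  have hκ : 0 < π.κ := (hB.κ1_pos π hok).trans_le (hB.κ1_le π hok)
  set X : Finset N.W := {x | |Real.log (N.pos π x) - c * π.κ| ≤ 6 * π.G * π.κ1} with hX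
  have hXc : (#X : ℝ) ≤ 2 * π.M * (2 * (6 * π.G) + 1) :=
    hB.near π N E (c * π.κ) (6 * π.G) hok hI (by positivity)
  set B : N.W → Finset D.Pt := fun x =>
    {t ∈ A | (S t).1 = c ∧ D.Cl π.κ 1 (Real.exp (c * π.κ)) (5 ^ D.k) t.ph (φ x)} with hBd
  have hBc : ∀ x ∈ X, (#((B x).image S) : ℝ) ≤ D.cK := fun x _ =>
    (hS.few c (φ x) (5 ^ D.k) (B x) (by positivity) fun t ht => (mem_filter.1 ht).2).trans
      (ck_ge D hD)
  have hsub : ∀ σ, σ ∈ A.image S → σ.1 = c → σ ∈ X.biUnion fun x => (B x).image S := by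
    intro σ h1 h2
    obtain ⟨t, ht, rfl⟩ := mem_image.1 h1
    obtain ⟨x, h3, h4, h5⟩ := hA t ht
    have h6 := hP.cell π.κ t.y hκ
    rw [← hS.cell t, h2] at h6
    refine mem_biUnion.2 ⟨x, mem_filter.2 ⟨mem_univ _, ?_⟩,
      mem_image.2 ⟨t, mem_filter.2 ⟨ht, h2, ?_⟩, rfl⟩⟩
    · have h7 := hV.κ_le π hok
      have h8 := abs_le.1 h4
      have h9 := abs_le.1 h6
      rw [abs_le]
      constructor <;> linarith [h8.1, h8.2, h9.1, h9.2]
    · have h7 := hN.cl5 D π.κ 1 t.y (Real.exp (c * π.κ)) δ _ _ hD hκ hok.κ h3 (Real.exp_pos _)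
        (by rw [Real.log_exp, abs_sub_comm]; exact h6) h5
      refine hN.mono _ _ _ _ _ _ _ _ ?_ h7
      exact mul_le_of_le_one_right (by positivity) hδ
  have h1 : #{σ ∈ A.image (D.geo π Y S).S | (D.geo π Y S).cl σ = c} ≤
      #(X.biUnion fun x => (B x).image S) := by
    refine card_le_card fun σ hσ => ?_
    obtain ⟨h1, h2⟩ := mem_filter.1 hσ
    obtain ⟨t, ht, rfl⟩ := mem_image.1 h1
    exact hsub (S t) (mem_image_of_mem S ht) h2
  have h2 : (#(X.biUnion fun x => (B x).image S) : ℝ) ≤ ∑ x ∈ X, (#((B x).image S) : ℝ) := by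
    exact_mod_cast card_biUnion_le
  have h3 : ∑ x ∈ X, (#((B x).image S) : ℝ) ≤ #X * D.cK := by
    rw [← nsmul_eq_mul]
    exact sum_le_card_nsmul _ _ _ hBc
  have h4 : 0 ≤ D.cK := by
    have h0 : 0 ≤ D.Cv := zero_le_one.trans hD.cv
    unfold DS.cK
    positivity
  refine (Nat.cast_le.2 h1).trans (h2.trans (h3.trans ?_))
  refine mul_le_mul_of_nonneg_right (hXc.trans (le_of_eq ?_)) h4
  ring

theorem cls (hB : T.BasSt) (hP : U.PtSt) (D : DS) (π : Par) (Y Mb s0 : ℝ) (S : D.Pt → ℤ × D.P)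
    (A : Finset D.Pt) (hok : π.Ok) (hS : D.StMap π.κ S) (hC : (D.geo π Y S).Cnt A Mb)
    (hA : ∀ t ∈ A, |Real.log t.y - s0| ≤ 1 + π.κ) : π.κ * #(A.image S) ≤ 6 * Mb := by
  have hκ : 0 < π.κ := (hB.κ1_pos π hok).trans_le (hB.κ1_le π hok)
  obtain ⟨I, hI, hI'⟩ := hP.cells π.κ s0 (1 + π.κ) hκ (by linarith)
  have hM : 0 ≤ Mb := (Nat.cast_nonneg _).trans (hC 0)
  have h1 : (#(A.image S) : ℝ) ≤ #I * Mb := by
    refine card_le_fibers (A.image S) I Prod.fst (fun σ hσ => ?_) fun c _ => ?_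
    · obtain ⟨t, ht, rfl⟩ := mem_image.1 hσ
      rw [hS.cell t]
      exact hI' _ (hA t ht)
    · refine le_trans (Nat.cast_le.2 (card_le_card fun σ hσ => ?_)) (hC c)
      obtain ⟨h1, h2⟩ := mem_filter.1 hσ
      obtain ⟨t, ht, rfl⟩ := mem_image.1 h1
      refine (@mem_filter _ _ (_) _ _).2 ⟨?_, h2⟩
      exact (@mem_image _ _ (_) _ _ _).2 ⟨t, ht, rfl⟩
  have h2 : π.κ * #I ≤ 6 := by
    have := mul_le_mul_of_nonneg_left hI hκ.le
    have e : π.κ * (2 * (1 + π.κ) / π.κ + 2) = 2 + 4 * π.κ := by field_simp; ring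
    linarith [hok.κ]
  calc π.κ * #(A.image S) ≤ π.κ * (#I * Mb) := mul_le_mul_of_nonneg_left h1 hκ.le
    _ = π.κ * #I * Mb := by ring
    _ ≤ 6 * Mb := mul_le_mul_of_nonneg_right h2 hM

theorem ex (D : DS) (hD : D.Ok) (R p : ℝ) (a b : D.P) (h : D.Eq a (D.dil p b)) :
    D.Ex R (D.dil R a) (D.dil p (D.dil R b)) := by
  refine ⟨(a⁻¹ * D.dil p b)⁻¹, D.Λ.inv_mem h, ?_⟩
  rw [hD.dil_dil, mul_comm p R, ← hD.dil_dil, ← map_mul]
  congr 1
  group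

end Cnt0J

theorem st_Cnt0 (hN : ClSt) (hB : T.BasSt) (hP : U.PtSt) (hV : U.VASt) : Cnt0St := by
  intro D π N E φ Y δ u S E0 hD hok hI hS hδ hu h8 hY hL
  have hκ1 := hB.κ1_le π hok
  refine ⟨fun e0 he0 => ?_, Cnt0J.cnt hN hB hP hV D π N E φ Y δ S _ hD hok hI hS hδ fun t ht => ?_,
    Cnt0J.cnt hN hB hP hV D π N E φ Y δ S _ hD hok hI hS hδ fun t ht => ?_⟩
  · obtain ⟨e, he, h1, -, h3, -, h5, -, -⟩ := hL e0 he0
    change Y * π.P ^ 0 ≤ e0.1.y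
    have hp : (8 : ℝ) < e0.2 := h8.trans_lt (h1 ▸ (hok.pr _ (hI.pr e he)).2.1)
    have k1 := hY (N.lo e)
    have k2 := hV.ps_le π (N.fj e - π.lg e0.2) hok
    rw [Net.pos, ← hI.cl e he, h1] at k1
    have k3 : π.yy (N.fj e - π.lg e0.2) ≤ Real.exp (Real.log (e0.1.y / e0.2) + 1) := by
      refine Real.exp_le_exp.2 ?_
      linarith [(abs_le.1 h5).1, hok.κ]
    rw [Real.exp_add, Real.exp_log (by positivity)] at k3
    have k4 : e0.1.y / e0.2 * Real.exp 1 ≤ e0.1.y := by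
      rw [div_mul_eq_mul_div, div_le_iff₀ (by linarith)]
      exact mul_le_mul_of_nonneg_left (by linarith [Real.exp_one_lt_d9]) h3.le
    rw [pow_zero, mul_one]
    linarith
  · obtain ⟨e0, he0, rfl⟩ := mem_image.1 ht
    obtain ⟨e, he, -, -, h3, h4, -, h6, -⟩ := hL e0 he0
    refine ⟨N.up e, h3, ?_, h6⟩
    have k1 := hB.fine_up π N E hok hI e he
    rw [Par.yy, Real.log_exp] at k1
    have k2 := abs_le.1 k1
    have k3 := abs_le.1 h4
    rw [abs_le]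
    constructor <;> linarith [k2.1, k2.2, k3.1, k3.2]
  · obtain ⟨e0, he0, rfl⟩ := mem_image.1 ht
    obtain ⟨e, he, h1, -, h3, -, h5, -, h7⟩ := hL e0 he0
    have hp : (8 : ℝ) < e0.2 := h8.trans_lt (h1 ▸ (hok.pr _ (hI.pr e he)).2.1)
    refine ⟨N.lo e, show 0 < e0.1.y / e0.2 by positivity, ?_, h7⟩
    change |Real.log (e0.1.y / e0.2) - Real.log (N.pos π (N.lo e))| ≤ 2 * π.κ
    have k1 := hB.fine π (N.fj e - π.lg e0.2) hok
    rw [Par.yy, Real.log_exp] at k1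
    rw [Net.pos, ← hI.cl e he, h1]
    have k2 := abs_le.1 k1
    have k3 := abs_le.1 h5
    rw [abs_le]
    constructor <;> linarith [k2.1, k2.2, k3.1, k3.2]

open U.NetJ in
theorem st_Net (hN : ClSt) (hQ : PtSt) (hB : T.BasSt) (hP : U.PtSt) (hV : U.VASt) : NetSt := by
  intro D π N E φ Y δ u lam Mb S R E1 F F' cL cU Nc hD ok is hS h2 huκ gr hR lnk c1 c2 hU hL hNc
  have hκ : 0 < π.κ := (hB.κ1_pos π ok).trans_le (hB.κ1_le π ok)
  have hR0 : 0 < R.prod := List.prod_pos fun r hr => (ok.pr r (hR r hr)).1.pos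
  have hR1 : (0 : ℝ) < (R.prod : ℕ) := Nat.cast_pos.2 hR0
  obtain ⟨b, hb⟩ : ∃ b : D.Pt → D.Pt, b = (D.geo π Y S).chL R := ⟨_, rfl⟩
  have by_ : ∀ t, (b t).y = t.y / (R.prod : ℕ) := fun t => hb ▸ hQ.chL_y D π Y S R t
  have bph : ∀ t, D.Eq (b t).ph (D.dil (R.prod : ℕ) t.ph) := fun t =>
    hb ▸ hQ.chL_ph D π Y S R t hD
  have bch : ∀ p t, b (D.chd π p t) = D.chd π p (b t) := fun p t =>
    hb ▸ hQ.chL_ch D π Y S R p t hD
  rw [← hb] at lnk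
  choose e0 h0 h1 hJ hy hu hl cu cl using lnk
  have jU : ∀ e (he : e ∈ E1), (b e.1).J.toNat = N.fj (e0 e he) := fun e he => by
    rw [hJ e he, Int.toNat_natCast]
  have le : ∀ e (he : e ∈ E1), π.lg e.2 ≤ N.fj (e0 e he) := fun e he =>
    h1 e he ▸ is.le _ (h0 e he)
  have jL : ∀ e (he : e ∈ E1),
      (b (D.chd π e.2 e.1)).J.toNat = N.fj (e0 e he) - π.lg e.2 := fun e he => by
    rw [bch]
    change ((b e.1).J - π.lg e.2).toNat = _
    rw [hJ e he, Int.toNat_sub]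
  have yL : ∀ e : D.Pt × ℕ, (b (D.chd π e.2 e.1)).y = (b e.1).y / e.2 := fun e => by
    rw [bch]
    rfl
  have pp : ∀ e ∈ E1, (0 : ℝ) < e.2 := fun e he => Nat.cast_pos.2 (ok.pr _ (gr.pr e he)).1.pos
  have lgb : ∀ t, 0 < (b t).y → 0 < t.y ∧
      Real.log t.y = Real.log (R.prod : ℕ) + Real.log (b t).y := fun t ht => by
    rw [by_] at ht ⊢
    have h3 : 0 < t.y := (div_pos_iff_of_pos_right hR1).1 ht
    exact ⟨h3, by rw [Real.log_div h3.ne' hR1.ne']; ring⟩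
  let N' := nt (D.geo π Y S) E1 fun t => (b t).J.toNat
  have pf : ∀ v : N'.W, 0 < (b v.1.2).y ∧
      |Real.log (b v.1.2).y - (b v.1.2).J.toNat * π.κ0| ≤ u := by
    intro v
    obtain ⟨e, -, rfl | rfl⟩ := ends _ _ _ v
    · change 0 < (b e.1.1).y ∧ |Real.log (b e.1.1).y - (b e.1.1).J.toNat * π.κ0| ≤ u
      rw [jU _ e.2]
      exact ⟨hy _ e.2, hu _ e.2⟩
    · change 0 < (b (D.chd π e.1.2 e.1.1)).y ∧ |Real.log (b (D.chd π e.1.2 e.1.1)).y -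
        (b (D.chd π e.1.2 e.1.1)).J.toNat * π.κ0| ≤ u
      rw [jL _ e.2, yL e.1]
      exact ⟨div_pos (hy _ e.2) (pp _ e.2), hl _ e.2⟩
  have ps : ∀ v : N'.W, N'.pos (vA π (Fintype.card N'.W)) v =
      Real.exp ((b v.1.2).J.toNat * π.κ0) := fun v => hV.ps _ _ _
  refine ⟨N', E1.attach, fun v => D.dil (R.prod : ℕ) (DS.Pt.ph v.1.2), fun v => (v.1.1, S v.1.2),
    fun v => (b v.1.2).y,
    ⟨fun _ _ => rfl, fun _ _ => rfl, fun e _ => gr.pr _ e.2, fun _ _ => Nat.div_one _,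
      fun e _ => ?_, fun e _ => ?_, fun e _ e' _ _ h3 h4 => ?_, fun e _ e' _ _ h3 h4 => ?_,
      fun _ _ => card_le_univ _⟩, fun e _ => ?_, ?_, ends _ _ _, ?_, fun x x' h => ?_,
    fun e _ => ⟨(pf _).1, yL e.1, ?_, ?_⟩,
    fun e _ => ⟨e0 _ e.2, h0 _ e.2, h1 _ e.2, (jU _ e.2).symm, ?_, ?_⟩⟩
  · exact (le _ e.2).trans_eq (jU _ e.2).symm
  · change ((b e.1.1).J.toNat - π.lg e.1.2) / 1 = (b (D.chd π e.1.2 e.1.1)).J.toNat
    rw [Nat.div_one, jU _ e.2, jL _ e.2]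
  · exact Subtype.ext (Prod.ext (congrArg (fun v : N'.W => v.1.2) h4) h3)
  · exact Subtype.ext (Prod.ext
      (gr.pu _ e.2 _ e'.2 h3 (congrArg (fun v : N'.W => v.1.2) h4)) h3)
  · exact Cnt0J.ex D hD _ _ _ _ (hQ.ch D π e.1.2 e.1.1)
  · rw [hV.ν]
    exact ray _ _ _ gr
  · have a1 := Cnt0J.cls hB hP D π Y Mb (Real.log (R.prod : ℕ) + (cU * π.κ1 + 1)) S _ ok hS c1
      fun t ht => by
        obtain ⟨e, he, rfl⟩ := mem_image.1 ht
        have w := win ok (is.cu _ (h0 e he) ▸ hU _ (is.up _ (h0 e he))) hNc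
        have w' := hu e he
        rw [(lgb _ (hy e he)).2]
        rw [abs_le] at w w' ⊢
        constructor <;> linarith [w.1, w.2, w'.1, w'.2]
    have a2 := Cnt0J.cls hB hP D π Y Mb (Real.log (R.prod : ℕ) + (cL * π.κ1 + 1)) S _ ok hS c2
      fun t ht => by
        obtain ⟨e, he, rfl⟩ := mem_image.1 ht
        have w := win ok (is.cl _ (h0 e he) ▸ hL _ (is.lo _ (h0 e he))) hNc
        have w' := hl e he
        rw [h1 e he] at w
        rw [← yL e] at w'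
        change |Real.log (D.chd π e.2 e.1).y - _| ≤ _
        rw [(lgb (D.chd π e.2 e.1) (yL e ▸ div_pos (hy e he) (pp e he))).2]
        rw [abs_le] at w w' ⊢
        constructor <;> linarith [w.1, w.2, w'.1, w'.2]
    refine (mul_le_mul_of_nonneg_left (Nat.cast_le.2 (num (D.geo π Y S) E1 _ S
      ((E1.image Prod.fst).image S) ((E1.image (D.geo π Y S).lw).image S)
      (fun e he => mem_image_of_mem _ (mem_image_of_mem _ he))
      fun e he => mem_image_of_mem _ (mem_image_of_mem _ he))) hκ.le).trans ?_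
    rw [Nat.cast_add, mul_add]
    exact (add_le_add a1 a2).trans_eq (by ring)
  · have h3 : S x.1.2 = S x'.1.2 := (Prod.ext_iff.1 h).2
    obtain ⟨p1, p2⟩ := pf x
    obtain ⟨p3, p4⟩ := pf x'
    have l1 := (lgb _ p1).2
    have l2 := (lgb _ p3).2
    have p5 := hP.cell2 π.κ _ _ hκ
      ((hS.cell _).symm.trans ((congrArg Prod.fst h3).trans (hS.cell _)))
    have p6 := hP.cell π.κ (DS.Pt.y x.1.2) hκ
    rw [← hS.cell x.1.2] at p6
    rw [hV.κ, ps, ps, Real.log_exp, Real.log_exp]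
    rw [abs_le] at p2 p4 p5 p6
    refine ⟨(Prod.ext_iff.1 h).1, abs_le.2 ⟨by linarith [p2.1, p2.2, p4.1, p4.2, p5.1, p5.2],
      by linarith [p2.1, p2.2, p4.1, p4.2, p5.1, p5.2]⟩, ?_⟩
    have p7 := hN.lift D _ _ _ _ _ _ (R.prod : ℕ) hD (hN.cl9 D _ _ _
      ((R.prod : ℕ) * Real.exp ((b x.1.2).J.toNat * π.κ0)) _ _ _ hD hκ h2 (Real.exp_pos _)
      (mul_pos hR1 (Real.exp_pos _)) (by
        rw [Real.log_mul hR1.ne' (Real.exp_pos _).ne', Real.log_exp, Real.log_exp, abs_le]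
        constructor <;> linarith [p2.1, p2.2, p6.1, p6.2]) (hQ.near D _ _ _ _ hD hS h3))
    rw [mul_comm ((9 : ℝ) ^ D.k), mul_one] at p7
    exact p7
  · rw [ps, Real.log_exp]
    exact (pf _).2
  · rw [ps, Real.log_exp]
    exact (pf _).2
  · refine hN.congr D _ _ _ _ _ _ _ hD (bph e.1.1) (hN.eq_refl D _)
      (hN.cl5 D _ _ _ _ _ _ _ hD hκ ok.κ (hy _ e.2) (Real.exp_pos _) ?_ (cu _ e.2))
    rw [Par.yy, Real.log_exp, abs_sub_comm]
    exact (hu _ e.2).trans huκ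
  · have h3 := cl _ e.2
    rw [← bch] at h3
    refine hN.congr D _ _ _ _ _ _ _ hD (bph (D.chd π e.1.2 e.1.1)) (hN.eq_refl D _)
      (hN.cl5 D _ _ _ _ _ _ _ hD hκ ok.κ (div_pos (hy _ e.2) (pp _ e.2)) (Real.exp_pos _) ?_ h3)
    rw [Par.yy, Real.log_exp, abs_sub_comm, h1 _ e.2]
    exact (hl _ e.2).trans huκ

end Pool.Agent.Lib.MP_028aa5_nt.V
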