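import Pool.Agent.Lib.MP_028aa5_nt.V.StB

/-! Nearly invariant sets and exact atoms. -/

namespace Pool.Agent.Lib.MP_028aa5_nt.V

open Finset T U
open scoped Classical

namespace OffJ

variable {Γ : Type} [Group Γ]

/-- the cover given by the shifts `sh` -/
noncomputable def cov (N : Net) (D : Finset Γ) (sh : N.Ed → Γ) : Net where
  W := N.W × D
  Ed := N.Ed × D
  up e := (N.up e.1, e.2)
  lo e := (N.lo e.1, if h : e.2.1 * sh e.1 ∈ D then ⟨_, h⟩ else e.2)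
  pr e := N.pr e.1
  fj e := N.fj e.1
  isU v := N.isU v.1
  cell v := N.cell v.1

/-- its edges -/
noncomputable def ce (N : Net) (E : Finset N.Ed) (D : Finset Γ) (sh : N.Ed → Γ) :
    Finset (N.Ed × D) := {e ∈ E ×ˢ univ | e.2.1 * sh e.1 ∈ D}

theorem mem_ce {N : Net} {E : Finset N.Ed} {D : Finset Γ} {sh : N.Ed → Γ}
    {e : N.Ed × D} : e ∈ ce N E D sh ↔ e.1 ∈ E ∧ e.2.1 * sh e.1 ∈ D := by
  simp [ce]

theorem fine {N : Net} {E : Finset N.Ed} (h : Fine N E) (D : Finset Γ)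
    (sh : N.Ed → Γ) : Fine (cov N D sh) (ce N E D sh) where
  up e he := h.up _ (mem_ce.1 he).1
  lo e he := h.lo _ (mem_ce.1 he).1
  iu e he e' he' h1 h2 := Prod.ext
    (h.iu _ (mem_ce.1 he).1 _ (mem_ce.1 he').1 h1 (congrArg Prod.fst h2))
    (congrArg (fun v : N.W × D => v.2) h2 :)
  il e he e' he' h1 h2 := by
    have h3 := h.il _ (mem_ce.1 he).1 _ (mem_ce.1 he').1 h1 (congrArg Prod.fst h2)
    have h4 := congrArg (fun v : N.W × D => v.2.1) h2
    simp only [cov, dif_pos (mem_ce.1 he).2, dif_pos (mem_ce.1 he').2] at h4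
    rw [h3, mul_left_inj] at h4
    exact Prod.ext h3 (Subtype.ext h4)

theorem ray {N : Net} {E : Finset N.Ed} {ν lam ε : ℝ} (hν : 0 ≤ ν) (hε : ε ≤ 1)
    (h : N.Ray ν E lam) {D : Finset Γ} (hD : D.Nonempty) (sh : N.Ed → Γ)
    (hs : ∀ e ∈ E, (1 - ε) * #D ≤ #{d ∈ D | d * sh e ∈ D}) :
    (cov N D sh).Ray ν (ce N E D sh) (lam * (1 - ε)) := by
  obtain ⟨u, hu, h⟩ := h
  have hD0 : (0 : ℝ) < #D := by exact_mod_cast hD.card_pos
  have e1 : ∑ x : N.W × D, |u x.1| ^ 2 = #D * ∑ x, u x ^ 2 := by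
    simp [Fintype.sum_prod_type, mul_sum]
  refine ⟨fun x : N.W × D => |u x.1|, ?_, ?_⟩
  · change 0 < ∑ x : N.W × D, |u x.1| ^ 2
    rw [e1]
    positivity
  · change lam * (1 - ε) * ∑ x : N.W × D, |u x.1| ^ 2 ≤
      2 * ν * ∑ e ∈ ce N E D sh, |u (N.up e.1)| * |u (N.lo e.1)|
    have e2 : (1 - ε) * #D * ∑ e ∈ E, u (N.up e) * u (N.lo e) ≤
        ∑ e ∈ ce N E D sh, |u (N.up e.1)| * |u (N.lo e.1)| := by
      rw [ce, sum_filter, sum_product, mul_sum]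
      refine sum_le_sum fun e he => ?_
      have e3 : ∑ d : D, (if d.1 * sh e ∈ D then |u (N.up e)| * |u (N.lo e)| else 0) =
          #{d ∈ D | d * sh e ∈ D} * (|u (N.up e)| * |u (N.lo e)|) := by
        rw [sum_coe_sort D fun d => if d * sh e ∈ D then |u (N.up e)| * |u (N.lo e)| else 0,
          ← sum_filter, sum_const, nsmul_eq_mul]
      refine le_trans ?_ e3.ge
      refine (mul_le_mul_of_nonneg_left (le_abs_self _) (mul_nonneg (by linarith) hD0.le)).trans ?_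
      rw [abs_mul]
      exact mul_le_mul_of_nonneg_right (hs e he) (by positivity)
    have e4 := mul_le_mul_of_nonneg_left h (mul_nonneg (sub_nonneg.2 hε) hD0.le)
    have e5 := mul_le_mul_of_nonneg_left e2 (mul_nonneg zero_le_two hν)
    rw [e1]
    unfold Net.Qf at e4
    linarith

theorem num {θ C : ℝ} (d : ℕ) (hC : 0 ≤ C) (h0 : 0 < θ) (h1 : θ < 1) :
    ∃ N : ℕ, θ ^ N * (C * (N + 2)) ^ d < 1 := by
  have h2 := (tendsto_pow_const_mul_const_pow_of_abs_lt_one d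
    (r := θ) (by rwa [abs_of_pos h0])).const_mul ((3 * C) ^ d)
  rw [mul_zero] at h2
  obtain ⟨N, hN, hN1⟩ := ((h2.eventually (gt_mem_nhds one_pos)).and
    (Filter.eventually_ge_atTop 1)).exists
  refine ⟨N, lt_of_le_of_lt ?_ hN⟩
  have N1 : (1 : ℝ) ≤ N := by exact_mod_cast hN1
  have h3 : C * (N + 2) ≤ 3 * C * N := by nlinarith
  calc θ ^ N * (C * (N + 2)) ^ d ≤ θ ^ N * (3 * C * N) ^ d := by gcongr
    _ = _ := by rw [mul_pow]; ring

end OffJ

open OffJ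

theorem st_Fol : FolSt := by
  intro D ε ok hε
  by_cases h1 : 1 ≤ ε
  · refine ⟨1, le_rfl, fun κ y r L hr _ _ => ⟨{1}, singleton_nonempty _, fun d hd => ?_,
      fun s _ _ => ?_⟩⟩
    · rw [mem_singleton.1 hd, ok.one]
      positivity
    · exact (mul_nonpos_of_nonpos_of_nonneg (by linarith) (Nat.cast_nonneg _)).trans
        (Nat.cast_nonneg _)
  have cv := ok.cv
  obtain ⟨N, hNn⟩ := num (θ := 1 - ε) (C := 2 * D.Cv) D.Dm (by linarith) (by linarith) (by linarith)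
  have N0 : (0 : ℝ) ≤ N := Nat.cast_nonneg _
  refine ⟨N + 1, by linarith, fun κ g r L hr hr1 fin => ?_⟩
  set B : ℕ → Finset D.P := fun i => (fin ((i + 1) * r)).toFinset with hB
  have hm : ∀ (i : ℕ) d, d ∈ B i ↔ d ∈ L ∧ D.ν κ g d ≤ (i + 1) * r := fun i d =>
    Set.Finite.mem_toFinset _
  have h0 : ∀ i, (1 : D.P) ∈ B i := fun i => (hm i 1).2 ⟨L.one_mem, by rw [ok.one]; positivity⟩
  have h2 : (#(B N) : ℝ) ≤ (2 * D.Cv * (N + 2)) ^ D.Dm * #(B 0) := by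
    have h3 := ok.cov D.P κ g ((N + 1) * r) r (#(B 0)) (B N) id (by positivity) hr
      (fun d hd => ((hm N d).1 hd).2) fun C hC hd => by
        rcases C.eq_empty_or_nonempty with rfl | ⟨c, hc⟩
        · simp
        refine Nat.cast_le.2 (card_le_card_of_injOn (fun d => d * c⁻¹) (fun d hd' => ?_)
          fun d _ d' _ h => mul_left_injective _ h)
        have hd'' : d ∈ C := hd'
        refine mem_coe.2 ((hm 0 _).2 ⟨L.mul_mem ((hm N d).1 (hC hd'')).1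
          (L.inv_mem ((hm N c).1 (hC hc)).1), ?_⟩)
        simpa using hd d hd'' c hc
    refine h3.trans (mul_le_mul_of_nonneg_right (pow_le_pow_left₀ (by positivity) ?_ _)
      (Nat.cast_nonneg _))
    rw [mul_div_cancel_right₀ _ hr.ne']
    have h4 : 0 ≤ D.Cv * (N + 2) := by positivity
    nlinarith
  obtain ⟨i, hi, h4⟩ : ∃ i < N, (1 - ε) * #(B (i + 1)) ≤ #(B i) := by
    by_contra h5
    push Not at h5
    have h6 : ∀ i ≤ N, (#(B 0) : ℝ) ≤ (1 - ε) ^ i * #(B i) := fun i => by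
      induction i with
      | zero => simp
      | succ i ih =>
        intro hi
        refine (ih (by omega)).trans ?_
        rw [pow_succ, mul_assoc]
        exact mul_le_mul_of_nonneg_left (h5 i hi).le (pow_nonneg (by linarith) _)
    have h7 : (0 : ℝ) < #(B 0) := Nat.cast_pos.2 (card_pos.2 ⟨_, h0 0⟩)
    have h8 := (h6 N le_rfl).trans
      (mul_le_mul_of_nonneg_left h2 (pow_nonneg (by linarith : (0 : ℝ) ≤ 1 - ε) N))
    rw [← mul_assoc] at h8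
    nlinarith
  refine ⟨B (i + 1), ⟨_, h0 _⟩, fun d hd => ((hm _ d).1 hd).2.trans ?_, fun s hs hs' => ?_⟩
  · have h5 : ((i + 1 : ℕ) : ℝ) ≤ N := Nat.cast_le.2 hi
    exact mul_le_mul_of_nonneg_right (by linarith) hr.le
  · refine h4.trans (Nat.cast_le.2 (card_le_card fun d hd => ?_))
    obtain ⟨h5, h6⟩ := (hm i d).1 hd
    refine mem_filter.2 ⟨(hm _ d).2 ⟨h5, h6.trans ?_⟩, (hm _ _).2 ⟨L.mul_mem h5 hs, ?_⟩⟩
    · push_cast
      nlinarith
    · refine (ok.mul κ g _ _).trans ?_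
      push_cast
      linarith

theorem st_Off (hF : FolSt) : OffSt := by
  intro D ε ok fi hε hε1
  obtain ⟨Nn, hNn, hF⟩ := hF D ε ok hε
  refine ⟨3 * Nn + 1, by linarith, ?_⟩
  intro κ γ r ν lam N1 E1 φ nn h0 hγ hr hr1 hν hfi hray hE
  set θ : N1.W → D.P := fun v => D.dil (nn v) (φ v) with hθ
  obtain ⟨L, hL, fin, hb⟩ := fi κ γ r (univ.image θ) h0 hγ hr
  choose b hb0 hb1 using fun v => hb (θ v) (mem_image_of_mem _ (mem_univ v))
  obtain ⟨B, hB, hB1, hB2⟩ := hF κ γ (3 * r) L (by positivity) (by linarith) fin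
  choose! z hz0 hz using fun e he => (hE e he).2.2.2
  simp only [ok.dil_one] at hz
  have hnm : ∀ (n : ℕ) g, D.ν κ (γ * n) g = D.ν κ γ (D.dil n g) := fun n g => by
    rw [ok.ndil, mul_comm]
  have hid : ∀ n : ℕ, 0 < n → ∀ g, D.dil n (D.dil (n : ℝ)⁻¹ g) = g := fun n hn g => by
    rw [ok.dil_dil, mul_inv_cancel₀ (by positivity), ok.dil_one]
  set sh : N1.Ed → D.P := fun e =>
    b (N1.up e) * (D.dil (nn (N1.lo e)) (z e))⁻¹ * (b (N1.lo e))⁻¹ with hsh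
  have hψ : ∀ v, 0 < nn v → ∀ d ∈ B,
      D.ν κ (γ * nn v) (D.dil (nn v : ℝ)⁻¹ (d * b v) * (φ v)⁻¹) ≤ (3 * Nn + 1) * r :=
    fun v hv d hd => by
      rw [hnm, map_mul, hid _ hv, map_inv, mul_assoc]
      refine (ok.mul _ _ _ _).trans ?_
      linarith [hb1 v, hB1 d hd]
  refine ⟨cov N1 B sh, ce N1 E1 B sh, Prod.fst, Prod.fst,
    fun v : N1.W × B => D.dil (nn v.1 : ℝ)⁻¹ (v.2.1 * b v.1), fine hfi B sh,
    ray hν hε1 hray hB sh fun e he => hB2 _ (L.mul_mem (L.mul_mem (hb0 _)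
      (L.inv_mem (hL (ok.mem _ _ (hz0 e he))))) (L.inv_mem (hb0 _))) ?_, fun e he => ?_⟩
  · have a2 := hz e he
    rw [hnm, map_mul, map_mul, map_inv, ok.dil_dil,
      show (nn (N1.lo e) : ℝ) * N1.pr e = nn (N1.up e) by
        rw [(hE e he).2.1]; push_cast; ring, ← ok.inv] at a2
    have a3 := hb1 (N1.lo e)
    rw [← ok.inv] at a3
    rw [show sh e = b (N1.up e) * (θ (N1.up e))⁻¹ * ((θ (N1.lo e) *
      D.dil (nn (N1.lo e)) (z e) * (θ (N1.up e))⁻¹)⁻¹ * (b (N1.lo e) * (θ (N1.lo e))⁻¹)⁻¹) by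
        simp only [hsh]
        group]
    refine (ok.mul _ _ _ _).trans ((add_le_add (hb1 _) ((ok.mul _ _ _ _).trans
      (add_le_add a2 a3))).trans (by linarith))
  · obtain ⟨he1, he2⟩ := mem_ce.1 he
    obtain ⟨b1, b2, b3, -⟩ := hE _ he1
    refine ⟨he1, rfl, rfl, rfl, ?_,
      hψ _ (b2 ▸ Nat.mul_pos b1 b3) _ e.2.2, hψ _ b3 _ ((cov N1 B sh).lo e).2.2⟩
    have c1 : (0 : ℝ) < N1.pr e.1 := by exact_mod_cast b1
    have c2 : (0 : ℝ) < nn (N1.lo e.1) := by exact_mod_cast b3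
    simp only [cov, dif_pos he2]
    unfold DS.Eq
    rw [ok.dil_dil, show (N1.pr e.1 : ℝ) * (nn (N1.up e.1) : ℝ)⁻¹ = (nn (N1.lo e.1) : ℝ)⁻¹ by
      rw [b2]; push_cast; field_simp, ← map_inv, ← map_mul,
      show (e.2.1 * sh e.1 * b (N1.lo e.1))⁻¹ * (e.2.1 * b (N1.up e.1)) =
        D.dil (nn (N1.lo e.1)) (z e.1) by
        simp only [hsh]
        group, ok.dil_dil, inv_mul_cancel₀ c2.ne', ok.dil_one]
    exact hz0 _ he1

end Pool.Agent.Lib.MP_028aa5_nt.V
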