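import Pool.Agent.Lib.MP_028aa5_nt.V.StB
import Pool.Agent.Lib.MP_028aa5_nt.V.GenB
import Pool.Agent.Lib.MP_028aa5_nt.T.Ft

/-! From cells to positions, and the union bound. -/

namespace Pool.Agent.Lib.MP_028aa5_nt.V

open Finset T U
open scoped Classical

namespace RareJ

lemma fwb (S : Finset ℕ) (B n : ℕ) : ‖fw S B n‖ ≤ 1 := Ft.bd_aux n _ B (min_le_right _ _)

lemma lg {X K : ℝ} (h : Real.exp K ≤ X) : K ≤ Real.log X :=
  (Real.le_log_iff_exp_le ((Real.exp_pos K).trans_le h)).2 h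

/-- one more power of the logarithm -/
lemma pw {l K c C : ℝ} (h1 : 1 ≤ l) (hK : K ≤ l) (hc : c ≤ C) : K * l ^ c ≤ l ^ (C + 1) := by
  have h0 : 0 < l := by linarith
  rw [Real.rpow_add h0, Real.rpow_one, mul_comm (l ^ C)]
  exact (mul_le_mul_of_nonneg_right hK (by positivity)).trans
    (mul_le_mul_of_nonneg_left (Real.rpow_le_rpow_of_exponent_le h1 hc) h0.le)

/-- basic consequences of the range -/
lemma rg {X C θ κ Y : ℝ} (h : Rg X C θ κ Y) (hX : Real.exp 1 ≤ X) (hθ : 0 ≤ θ) (hC : 1 ≤ C) :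
    1 ≤ Y ∧ 0 < κ ∧ κ ≤ 1 ∧ Real.log X ≤ κ * Y := by
  have x1 : 1 ≤ X := (Real.one_le_exp zero_le_one).trans hX
  have l1 := lg hX
  have y1 : 1 ≤ Y := (Real.one_le_rpow x1 hθ).trans h.lo
  have l2 : Real.log X ≤ κ * Y := by
    refine le_trans ?_ h.len
    simpa using Real.rpow_le_rpow_of_exponent_le l1 hC
  exact ⟨y1, by by_contra hc; nlinarith,
    h.κ.trans (Real.rpow_le_one_of_one_le_of_nonpos x1 (by norm_num)), l2⟩

lemma half {κ : ℝ} (h0 : 0 < κ) (h1 : κ ≤ 1) : κ / 2 ≤ Real.log (1 + κ) := by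
  have h2 := Real.one_sub_inv_le_log_of_pos (show 0 < 1 + κ by linarith)
  have h3 : 1 - (1 + κ)⁻¹ = κ / (1 + κ) := by field_simp; ring
  have h4 : κ / 2 ≤ κ / (1 + κ) := div_le_div_of_nonneg_left h0.le (by linarith) (by linarith)
  linarith

/-- three blocks of cells -/
lemma three (p : ℕ → Prop) (c N : ℕ) : #{x ∈ Ico c (c + 3 * N) | p x} ≤
    #{x ∈ Ico c (c + N) | p x} + #{x ∈ Ico (c + N) (c + N + N) | p x} +
      #{x ∈ Ico (c + 2 * N) (c + 2 * N + N) | p x} := by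
  refine le_trans (card_le_card (fun x hx => ?_)) ((card_union_le _ _).trans
    (Nat.add_le_add_right (card_union_le _ _) _))
  simp only [mem_union, mem_filter, mem_Ico] at hx ⊢
  have := hx.2
  by_cases h1 : x < c + N
  · exact Or.inl (Or.inl ⟨⟨hx.1.1, h1⟩, this⟩)
  by_cases h2 : x < c + N + N
  · exact Or.inl (Or.inr ⟨⟨by omega, h2⟩, this⟩)
  · exact Or.inr ⟨⟨by omega, by omega⟩, this⟩

/-- the nearest admissible length of a window -/
lemma near {κ t : ℝ} (h0 : 0 < κ) (h1 : κ ≤ 1) (ht : 0 < t) (h4 : 4 * t ≤ κ) :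
    1 ≤ ⌊Real.log (1 + κ) / t⌋₊ ∧ Real.exp (⌊Real.log (1 + κ) / t⌋₊ * t) - 1 ≤ κ ∧
      κ - 2 * t ≤ Real.exp (⌊Real.log (1 + κ) / t⌋₊ * t) - 1 := by
  have a1 := half h0 h1
  have a2 := (le_div_iff₀ ht).1 (Nat.floor_le (show 0 ≤ Real.log (1 + κ) / t by
    exact div_nonneg (by linarith) ht.le))
  have a3 := (div_lt_iff₀ ht).1 (Nat.lt_floor_add_one (Real.log (1 + κ) / t))
  have a4 := Real.exp_log (show 0 < 1 + κ by linarith)
  refine ⟨Nat.le_floor (by rw [le_div_iff₀ ht]; push_cast; linarith), ?_, ?_⟩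
  · linarith [Real.exp_le_exp.2 a2]
  · generalize (⌊Real.log (1 + κ) / t⌋₊ : ℝ) = m at a2 a3
    have a5 : Real.exp (Real.log (1 + κ) + -t) ≤ Real.exp (m * t) := Real.exp_le_exp.2 (by linarith)
    rw [Real.exp_add, a4] at a5
    have a6 := mul_le_mul_of_nonneg_left (Real.add_one_le_exp (-t)) (show 0 ≤ 1 + κ by linarith)
    nlinarith

end RareJ

open RareJ

theorem st_Tame : TameSt := by
  intro D Ad hR a η ρ ha hη hρ
  obtain ⟨M, L, n, D', Ad', η', K0, hL, hη', hRa, hB⟩ := hR η ρ hη hρ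
  refine ⟨M, fun β θ hβ hθ => ?_⟩
  have hβ' : 0 < β / (n * L + 1) := by positivity
  choose C X0 hC using fun j => hRa j a η' _ θ ha hη' hβ' hθ
  refine ⟨∑ j, |C j| + 1, ∑ j, |X0 j| + Real.exp (1 + 2 * L + |K0|),
    fun X hX i0 i1 B κ Y hP hY => ?_⟩
  have s1 : 0 ≤ ∑ j, |C j| := sum_nonneg fun _ _ => abs_nonneg _
  have s2 : 0 ≤ ∑ j, |X0 j| := sum_nonneg fun _ _ => abs_nonneg _
  have L1 : (1 : ℝ) ≤ L := by exact_mod_cast hL
  have l1 : 1 + 2 * L + |K0| ≤ Real.log X := lg (by linarith)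
  have k0 := abs_nonneg K0
  obtain ⟨y1, κ0, κ1, l2⟩ := rg hY ((Real.exp_le_exp.2 (by linarith)).trans
    (show Real.exp (1 + 2 * L + |K0|) ≤ X by linarith)) (by linarith) (by linarith)
  have a1 := half κ0 κ1
  have a2 : Real.log (1 + κ) ≤ κ := by
    linarith [Real.log_le_sub_one_of_pos (show 0 < 1 + κ by linarith)]
  set w := Real.log (1 + κ) / L with hw
  have w0 : 0 < w := div_pos (by linarith) (by linarith)
  have wL : L * w = Real.log (1 + κ) := by rw [hw]; field_simp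
  have e1 : 1 + (Real.exp w - 1) = Real.exp w := by ring
  have e2 : w ≤ Real.exp w - 1 := by linarith [Real.add_one_le_exp w]
  have e3 : (1 + (Real.exp w - 1)) ^ L = 1 + κ := by
    rw [e1, ← Real.exp_nat_mul, wL, Real.exp_log (by linarith)]
  have e4 : Real.exp w - 1 ≤ κ := by
    have := Real.exp_le_exp.2 (show w ≤ Real.log (1 + κ) by nlinarith)
    rw [Real.exp_log (by linarith)] at this
    linarith
  refine (Gen.vol_union ((univ : Finset (Fin n)) ×ˢ range L)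
    (fun q => {v ∈ Set.Icc (Real.log Y) (Real.log Y + 3) |
      (D' q.1).At (Ad' q.1) (Real.exp w - 1) (fw (SS i0 i1) B) η' (Real.exp v)})
    (fun q => q.2 * w) (β := β / (n * L + 1)) (fun v hv => ?_) fun q _ => ?_).trans
    (ENNReal.ofReal_le_ofReal ?_)
  · have v1 : Y ≤ Real.exp v := by
      rw [← Real.exp_log (show 0 < Y by linarith)]
      exact Real.exp_le_exp.2 hv.1.1
    obtain ⟨j, i, hi, h⟩ := hB κ _ _ _ (fwb _ _) (by linarith) κ1 e3
      (by nlinarith [le_abs_self K0]) hv.2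
    have i1 : (i : ℝ) ≤ L := by exact_mod_cast hi.le
    have i0 : (0 : ℝ) ≤ i * w := by positivity
    refine ⟨(j, i), by simpa using hi, ⟨by linarith [hv.1.1], ?_⟩, ?_⟩
    · have := mul_le_mul_of_nonneg_right i1 w0.le
      linarith [hv.1.2]
    · rwa [e1, ← Real.exp_nat_mul, ← Real.exp_add] at h
  · have c1 : C q.1 ≤ ∑ j, |C j| :=
      (le_abs_self _).trans (single_le_sum (f := fun j => |C j|) (fun _ _ => abs_nonneg _)
        (mem_univ _))
    have c2 : X0 q.1 ≤ ∑ j, |X0 j| :=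
      (le_abs_self _).trans (single_le_sum (f := fun j => |X0 j|) (fun _ _ => abs_nonneg _)
        (mem_univ _))
    refine hC q.1 X (by linarith [Real.exp_pos (1 + 2 * L + |K0|)]) i0 i1 B _ Y hP
      ⟨hY.lo, hY.hi, ?_, e4.trans hY.κ⟩
    have c3 := (pw (K := 2 * L) (by linarith) (by linarith) c1).trans hY.len
    have c4 : κ * Y ≤ 2 * L * ((Real.exp w - 1) * Y) := by
      rw [← mul_assoc]
      exact mul_le_mul_of_nonneg_right (by nlinarith) (by linarith)
    exact le_of_mul_le_mul_left (c3.trans c4) (by linarith)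
  · rw [card_product, card_univ, Fintype.card_fin, card_range, mul_div_assoc',
      div_le_iff₀ (by positivity)]
    push_cast
    linarith

theorem st_Rare (hC : CcSt) : RareSt := by
  intro D k Qf Ad hE hCe a η β θ ha hη hβ hθ
  obtain ⟨G, C, X0, hG0, hG, H⟩ := hCe a (η / 2) (β / 6) ((θ + 9 / 10) / 2) ⌈160 / η⌉₊ ha
    (by positivity) (by positivity) (by linarith)
  have G1 : (1 : ℝ) ≤ G := by exact_mod_cast hG
  have G2 : 160 / η ≤ G := (Nat.le_ceil _).trans (by exact_mod_cast hG0)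
  have d0 : 0 < (θ - 9 / 10) / 2 := by linarith
  refine ⟨|C| + 1, |X0| + Real.exp (10 + 320 / η + 2 / ((θ - 9 / 10) / 2)) + (48 / η + 4) * G,
    fun X hX i0 i1 B κ Y hP hY => ?_⟩
  have n1 : 0 < 320 / η := by positivity
  have n2 : 0 < 2 / ((θ - 9 / 10) / 2) := by positivity
  have n3 : 0 < (48 / η + 4) * G := by positivity
  have n4 := abs_nonneg X0
  have n5 := Real.exp_pos (10 + 320 / η + 2 / ((θ - 9 / 10) / 2))
  have l1 : 10 + 320 / η + 2 / ((θ - 9 / 10) / 2) ≤ Real.log X := lg (by linarith)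
  have xe : Real.exp 1 ≤ X := (Real.exp_le_exp.2 (by linarith)).trans
    (show Real.exp (10 + 320 / η + 2 / ((θ - 9 / 10) / 2)) ≤ X by linarith)
  have x1 : 1 ≤ X := (Real.one_le_exp zero_le_one).trans xe
  have x0 : 0 < X := by linarith
  obtain ⟨y1, κ0, κ1, l2⟩ := rg hY xe (by linarith) (by linarith [abs_nonneg C])
  have y2 := hY.hi
  have k1 : 1 ≤ κ * X := by nlinarith
  have k2 : κ ≤ 1 / 100 := by
    refine hY.κ.trans ?_
    rw [Real.rpow_def_of_pos x0]
    have b1 := Real.exp_le_exp.2 (show Real.log X * -(1 / 2 : ℝ) ≤ -5 by linarith)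
    have b2 : (100 : ℝ) ≤ Real.exp 5 := by
      have b3 := Real.exp_one_gt_d9.le
      rw [show (5 : ℝ) = (5 : ℕ) * 1 by norm_num, Real.exp_nat_mul]
      exact le_trans (by norm_num) (pow_le_pow_left₀ (by norm_num) b3 5)
    rw [Real.exp_neg] at b1
    exact b1.trans (by rw [one_div]; exact inv_anti₀ (by norm_num) b2)
  set z := X ^ (-(7 * k + 4 : ℝ)) with hz
  have z0 : 0 < z := by positivity
  have z1 : z * X ^ 2 ≤ 1 := by
    rw [hz, ← Real.rpow_natCast, ← Real.rpow_add x0]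
    refine Real.rpow_le_one_of_one_le_of_nonpos x1 ?_
    have : (0 : ℝ) ≤ k := Nat.cast_nonneg _
    push_cast
    linarith
  have z2 : (48 / η + 4) * (G * z) ≤ κ := by
    have b1 : (48 / η + 4) * G * z ≤ X * z := mul_le_mul_of_nonneg_right (by linarith) z0.le
    have b2 : X * z * 1 ≤ X * z * (κ * X) := mul_le_mul_of_nonneg_left k1 (by positivity)
    have b3 : κ * (z * X ^ 2) ≤ κ * 1 := mul_le_mul_of_nonneg_left z1 κ0.le
    nlinarith
  have t0 : 0 < G * z := by positivity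
  have t1 : 0 < 48 / η * (G * z) := by positivity
  obtain ⟨f1, f2, f3⟩ := near κ0 κ1 t0 (by linarith)
  set Nf := ⌊Real.log (1 + κ) / (G * z)⌋₊
  let π : Par := ⟨k, z, Nf, G, 0, ∅, 0⟩
  have N1 : (1 : ℝ) ≤ Nf := by exact_mod_cast f1
  have w0 : 0 < π.κ1 := mul_pos (show (0 : ℝ) < Nf by linarith) z0
  have e0 : π.κ = Real.exp (Nf * (G * z)) - 1 := by
    show Real.exp (G * (Nf * z)) - 1 = _
    rw [mul_left_comm]
  rw [← e0] at f2 f3
  have e1 : G * π.κ1 ≤ π.κ := by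
    show _ ≤ Real.exp (G * π.κ1) - 1
    linarith [Real.add_one_le_exp (G * π.κ1)]
  have ps : ∀ c : ℕ, π.ps c = Real.exp (c * π.κ1) := fun _ => rfl
  have hκ := hY.κ
  have H' := fun c N => H X (by linarith [le_abs_self X0]) π i0 i1 B c N rfl rfl f1 rfl hP
  generalize π.κ1 = w at *
  generalize π.κ = κ' at *
  have e2 : κ ≤ 2 * κ' := by linarith
  have κ'0 : 0 < κ' := by linarith
  have w1 : w ≤ 1 / 100 := by nlinarith
  have ly : 0 ≤ Real.log Y := Real.log_nonneg y1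
  set c0 := ⌊Real.log Y / w⌋₊
  have c1 : c0 * w ≤ Real.log Y := (le_div_iff₀ w0).1 (Nat.floor_le (by positivity))
  have c2 : Real.log Y < (c0 + 1) * w := (div_lt_iff₀ w0).1 (Nat.lt_floor_add_one _)
  have m1 : 1 ≤ ⌈1 / w⌉₊ * w := (div_le_iff₀ w0).1 (Nat.le_ceil _)
  have m2 : ⌈1 / w⌉₊ * w ≤ 1 + w := by
    have := mul_le_mul_of_nonneg_right (Nat.ceil_lt_add_one (show 0 ≤ 1 / w by positivity)).le w0.le
    rwa [add_mul, one_div_mul_cancel w0.ne', one_mul] at this
  obtain ⟨Nc, m3, m4⟩ : ∃ Nc : ℕ, 1 + w ≤ Nc * w ∧ Nc * w ≤ 1 + 2 * w :=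
    ⟨⌈1 / w⌉₊ + 1, by push_cast; linarith, by push_cast; linarith⟩
  have g2 := Real.log_two_gt_d9
  have blk : ∀ c : ℕ, c0 ≤ c → c ≤ c0 + 2 * Nc → (#{x ∈ Ico c (c + Nc) |
      D.At Ad κ' (fw (SS i0 i1) B) (η / 2) (π.ps x)} : ℝ) < β / 6 * Nc := fun c h1 h2 => by
    have h3 : (c0 : ℝ) ≤ c := by exact_mod_cast h1
    have h4 : (c : ℝ) ≤ c0 + 2 * Nc := by exact_mod_cast h2
    have h5 := mul_le_mul_of_nonneg_right h3 w0.le
    have h6 := mul_le_mul_of_nonneg_right h4 w0.le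
    have h7 : Y / 2 ≤ π.ps c := by
      rw [ps, ← Real.exp_log (show 0 < Y / 2 by linarith), Real.log_div (by linarith) two_ne_zero]
      exact Real.exp_le_exp.2 (by linarith)
    refine H' c Nc (le_trans ?_ h7) (le_trans ?_ y2) ?_ (f2.trans hκ) (by linarith) ?_
    · have h8 : X ^ θ = X ^ ((θ + 9 / 10) / 2) * X ^ ((θ - 9 / 10) / 2) := by
        rw [← Real.rpow_add x0]
        congr 1
        ring
      have h9 : 2 ≤ X ^ ((θ - 9 / 10) / 2) := by
        rw [Real.rpow_def_of_pos x0]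
        have := (div_le_iff₀ d0).1 (show 2 / ((θ - 9 / 10) / 2) ≤ Real.log X by linarith)
        linarith [Real.add_one_le_exp (Real.log X * ((θ - 9 / 10) / 2))]
      have := mul_le_mul_of_nonneg_left h9 (show 0 ≤ X ^ ((θ + 9 / 10) / 2) by positivity)
      linarith [hY.lo]
    · rw [ps, ← Real.exp_log (show 0 < 8 * Y by linarith), Real.log_mul (by norm_num) (by linarith),
        show (8 : ℝ) = 2 ^ 3 by norm_num, Real.log_pow]
      refine Real.exp_le_exp.2 ?_
      push_cast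
      linarith
    · have h8 := (pw (K := 4) (by linarith) (by linarith) (le_abs_self C)).trans hY.len
      have h9 := mul_le_mul e2 (show Y ≤ 2 * π.ps c by linarith) (by linarith) (by linarith)
      linarith
    · rw [show (4 : ℝ) = 2 ^ 2 by norm_num, Real.log_pow]
      push_cast
      linarith
  refine (Gen.vol_le w0 {x ∈ Ico c0 (c0 + 3 * Nc) |
      D.At Ad κ' (fw (SS i0 i1) B) (η / 2) (π.ps x)} (fun v hv => ly.trans hv.1.1)
    fun v hv => ?_).trans (ENNReal.ofReal_le_ofReal ?_)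
  · obtain ⟨⟨v1, v2⟩, g, hg, hv⟩ := hv
    have v3 : ⌊v / w⌋₊ * w ≤ v := (le_div_iff₀ w0).1 (Nat.floor_le (div_nonneg (by linarith) w0.le))
    have v4 : v < (⌊v / w⌋₊ + 1) * w := (div_lt_iff₀ w0).1 (Nat.lt_floor_add_one _)
    refine mem_filter.2 ⟨mem_Ico.2 ⟨Nat.floor_le_floor (by gcongr), ?_⟩, g, hg, ?_⟩
    · have : (⌊v / w⌋₊ : ℝ) < c0 + 3 * Nc := lt_of_mul_lt_mul_right (by linarith) w0.le
      exact_mod_cast this
    have v5 : Y ≤ Real.exp v := by
      rw [← Real.exp_log (show 0 < Y by linarith)]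
      exact Real.exp_le_exp.2 v1
    have v6 : 320 / η + 10 ≤ κ * Real.exp v := by nlinarith
    have v7 : 160 / η + 5 ≤ κ' * Real.exp v := by
      have := mul_le_mul_of_nonneg_right e2 (Real.exp_pos v).le
      have e : 320 / η = 2 * (160 / η) := by ring
      linarith
    have n6 : 0 < 160 / η := by positivity
    have p1 := hC.wid D Qf κ κ' _ (Real.exp v) g hE (fwb (SS i0 i1) B) κ'0 f2 (by linarith)
    have p2 := hC.move D Qf κ' _ (Real.exp v) (π.ps ⌊v / w⌋₊) w g hE (fwb (SS i0 i1) B) κ'0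
      (by linarith) (by linarith) (by rw [ps]; exact Real.exp_pos _)
      (by rw [ps, Real.log_exp, Real.log_exp, abs_le]; constructor <;> linarith) (by linarith)
    have q0 : ∀ s : ℝ, 160 / η ≤ s → 1 / s ≤ η / 160 := fun s hs => by
      rw [← one_div_div 160 η]
      exact one_div_le_one_div_of_le n6 hs
    have q1 := q0 (κ * Real.exp v) (by linarith [show 160 / η ≤ 320 / η by gcongr; norm_num])
    have q2 := q0 (κ' * Real.exp v) (by linarith)
    have q3 : w / κ' ≤ η / 160 := by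
      refine le_trans ?_ (q0 G G2)
      rw [div_le_div_iff₀ κ'0 (by linarith)]
      linarith
    have q4 : 3 * (κ - κ') / κ ≤ η / 8 := by
      rw [div_le_iff₀ κ0]
      have := mul_le_mul_of_nonneg_left (show 48 / η * (G * z) ≤ κ by linarith) hη.le
      rw [← mul_assoc, mul_div_cancel₀ _ hη.ne'] at this
      linarith
    have r1 := norm_sub_norm_le (D.cc κ (fw (SS i0 i1) B) (Real.exp v) g)
      (D.cc κ' (fw (SS i0 i1) B) (Real.exp v) g)
    have r2 := norm_sub_norm_le (D.cc κ' (fw (SS i0 i1) B) (Real.exp v) g)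
      (D.cc κ' (fw (SS i0 i1) B) (π.ps ⌊v / w⌋₊) g)
    rw [norm_sub_rev] at p2
    linarith
  · have b0 := three (fun x => D.At Ad κ' (fw (SS i0 i1) B) (η / 2) (π.ps x)) c0 Nc
    have b1 := blk c0 le_rfl (by omega)
    have b2 := blk (c0 + Nc) (by omega) (by omega)
    have b3 := blk (c0 + 2 * Nc) (by omega) le_rfl
    have b4 : (#{x ∈ Ico c0 (c0 + 3 * Nc) |
        D.At Ad κ' (fw (SS i0 i1) B) (η / 2) (π.ps x)} : ℝ) ≤ β / 2 * Nc := by
      have := (Nat.cast_le (α := ℝ)).2 b0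
      push_cast at this
      linarith
    have b5 := mul_le_mul_of_nonneg_right b4 w0.le
    have b6 := mul_le_mul_of_nonneg_left (show Nc * w ≤ 2 by linarith) (show 0 ≤ β / 2 by linarith)
    linarith

end Pool.Agent.Lib.MP_028aa5_nt.V
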