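import Pool.Agent.Lib.MP_028aa5_nt.V.StB
import Pool.Agent.Lib.MP_028aa5_nt.V.GenA

/-! From cells to the integral. -/

namespace Pool.Agent.Lib.MP_028aa5_nt.V

open Finset T U
open scoped Classical

theorem st_Top (hF : FtSt) (hS : RegSt) (hU : Setup2St) : TopSt := by
  intro D k Qf oe hC η hη
  obtain ⟨a, ha, hU⟩ := hU ((300 / η) ^ 2)
  set B : ℕ := ⌈2 / a⌉₊ with hBd
  have aB : 2 ≤ a * B := by
    have := Nat.le_ceil (2 / a)
    rw [div_le_iff₀ ha] at this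
    linarith
  have B0 : (0 : ℝ) < B := by
    by_contra h
    nlinarith [mul_nonneg ha.le (show (0 : ℝ) ≤ -B by linarith)]
  have B1 : 1 ≤ B := by exact_mod_cast B0
  obtain ⟨G, C, X1, -, g1, hC⟩ := hC a (η * (300 / η) ^ 2 / (100 * B)) (η / 200) (19 / 20) 0 ha
    (by positivity) (by positivity) (by norm_num)
  obtain ⟨C1, c1, c2⟩ : ∃ C1 : ℝ, C ≤ C1 ∧ 0 < C1 :=
    ⟨max C 1, le_max_left _ _, one_pos.trans_le (le_max_right _ _)⟩
  obtain ⟨X2, hU⟩ := hU k G C1 1 g1 c2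
  obtain ⟨X4, s2⟩ := hS.poly 2 (1 / 20) 0 (by norm_num)
  set T : ℝ := max (800 / η) 1 with hT
  refine ⟨C1 + 1, max (max (max X1 X2) X4) (max 9 (Real.exp T)), fun X hX H hH hHX => ?_⟩
  simp only [ge_iff_le, max_le_iff] at hX
  obtain ⟨⟨⟨x1, x2⟩, x4⟩, x5, x6⟩ := hX
  have X0 : 0 < X := by linarith
  have u1 : T ≤ Real.log X := (Real.le_log_iff_exp_le X0).2 x6
  have l2 : 1 ≤ Real.log X := (le_max_right _ _).trans u1
  set u : ℝ := Real.log X with hu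
  have u0 : 0 < u := by linarith
  have PD1 : 1 ≤ u ^ C1 := Real.one_le_rpow l2 c2.le
  obtain ⟨Nf, c0, Nc, i0, i1, n1, a0, a1, hL, hπ⟩ := hU X x2
  set π : Par := ⟨k, X ^ (-(7 * k + 4 : ℝ)), Nf, G, 2, ∅, 1⟩ with hπd
  obtain ⟨q1, q2, q3, q4, q5, q6, q7, q8, q9, q10⟩ := hπ π rfl rfl rfl rfl
  rw [← hu] at q1 q2
  have κ00 : 0 < π.κ0 := Real.rpow_pos_of_pos X0 _
  have ps0 : 0 < π.ps c0 := Real.exp_pos _
  have κp : 0 < π.κ := (mul_pos_iff_of_pos_right ps0).1 (one_pos.trans_le (PD1.trans q1))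
  have κX : 1 ≤ π.κ * X := PD1.trans (q1.trans (mul_le_mul_of_nonneg_left q6 κp.le))
  have hpr : ∀ p ∈ SS i0 i1, p.Prime ∧ X ^ a < p := fun p hp => by
    obtain ⟨h1, h2⟩ := mem_filter.1 hp
    rw [mem_Ioc] at h1
    exact ⟨h2, a0.trans_lt (by exact_mod_cast h1.1)⟩
  by_contra hcon
  rw [not_le] at hcon
  have : Nonempty D.P := ⟨1⟩
  have hgood := Gen.a0 (u := fun (g : D.P) n => D.ev g n) (fun g n => oe.bd _ _ _ _) π η X H
    (SS i0 i1) B c0 Nc hη κ00 n1 g1 (by linarith) κX ?_ hHX (fun p hp => (hpr p hp).1) ?_ hL B1 ?_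
    q5 q6 q7 q8 hcon
  rotate_left
  · have h1 : 800 / η ≤ u := (le_max_left _ _).trans u1
    rw [Real.rpow_add u0, Real.rpow_one] at hH
    rw [div_le_iff₀ hη] at h1
    have h3 := mul_le_mul_of_nonneg_left hH hη.le
    have h4 := mul_le_mul_of_nonneg_left h1 (zero_le_one.trans PD1)
    clear * - h3 h4 q2
    nlinarith
  · have h1 : #(SS i0 i1) ≤ 2 ^ i1 := (card_filter_le _ _).trans (by simp)
    have h2 : (#(SS i0 i1) : ℝ) ≤ 2 ^ i1 := by exact_mod_cast h1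
    refine h2.trans (a1.trans ?_)
    simpa using Real.rpow_le_rpow_of_exponent_le (show 1 ≤ X by linarith)
      (show (1 / 10 : ℝ) ≤ 1 by norm_num)
  · intro n n0 hn
    refine hF.cnt _ B n (X ^ a) (Real.one_le_rpow (by linarith) ha.le)
      (fun p hp => ⟨(hpr p hp).1, (hpr p hp).2.le⟩) n0 ?_
    rw [← Real.rpow_natCast, ← Real.rpow_mul X0.le]
    have := Real.rpow_le_rpow_of_exponent_le (show 1 ≤ X by linarith) aB
    rw [Real.rpow_two] at this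
    clear * - this hn x5
    nlinarith
  refine (hC X x1 π i0 i1 B c0 Nc rfl rfl n1 rfl ⟨a0, a1, aB⟩ ?_ q6
    ((Real.rpow_le_rpow_of_exponent_le l2 c1).trans q1) q4 q9 q10).not_ge (hgood.trans ?_)
  · have h1 := s2 X x4
    rw [pow_zero, mul_one] at h1
    have h3 : X = X ^ (19 / 20 : ℝ) * X ^ (1 / 20 : ℝ) := by
      rw [← Real.rpow_add X0]
      norm_num
    have h6 : 0 < X ^ (19 / 20 : ℝ) := Real.rpow_pos_of_pos X0 _
    have h8 := mul_le_mul_of_nonneg_left h1 h6.le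
    linarith
  · refine Nat.cast_le.2 (card_le_card (monotone_filter_right _ fun c _ ⟨g, h⟩ => ⟨g, trivial, ?_⟩))
    refine le_trans ?_ h
    gcongr

end Pool.Agent.Lib.MP_028aa5_nt.V
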