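import Pool.Agent.Lib.MP_028aa5_nt.V.ChInv
import Pool.Agent.Lib.MP_028aa5_nt.U.Count

/-! The number of lists of types that are carried by chains of conflicts. -/

namespace Pool.Agent.Lib.MP_028aa5_nt.V

open Finset T U ClJ
open scoped Classical

theorem st_Same : SameSt := by
  intro D ι κ y r L β σ A ζ μ c C hD hr hC hA hB
  refine (hD.cov ι κ y r 1 L A (fun x => β * (ζ x * μ x) * σ⁻¹) hr one_pos
    (fun x hx => (hA x hx).2.2.2.2) fun B sB h => hB B sB fun x hx x' hx' => ?_).trans_eq ?_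
  · obtain ⟨a1, a2, a3, a4, -⟩ := hA x (sB hx)
    obtain ⟨b1, b2, b3, b4, -⟩ := hA x' (sB hx')
    have e : ζ x * μ x = ζ x' * μ x' := by
      refine same hD (c := (c x * c x' : ℕ)) (by positivity) ?_ ?_ ?_
        ((h x hx x' hx').trans (one_le_pow₀ (by norm_num)))
      · refine le_trans ?_ hC
        rw [Nat.cast_mul, sq]
        exact mul_le_mul a2 b2 (Nat.cast_nonneg _) ((Nat.cast_nonneg _).trans a2)
      · rw [map_mul]
        exact D.Λ.mul_mem (mem_mul' hD _ _ a3) (hD.mem _ _ a4)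
      · rw [map_mul]
        exact D.Λ.mul_mem (mem_mul hD _ _ b3) (hD.mem _ _ b4)
    exact eq_trans (eq_symm (eq_mul _ a4)) (e ▸ eq_mul _ b4)
  · rw [div_one, sq, add_comm 1 r]
    ring

namespace CountJ

theorem num {Cv q : ℝ} (h : 1 ≤ Cv) (hq : 1 ≤ q) (g : ℕ) :
    Cv * (2 * q ^ (g + 1) + 1) ^ 2 ≤ (9 * Cv * q ^ 2) ^ (g + 1) := by
  have h1 : 1 ≤ q ^ (g + 1) := one_le_pow₀ hq
  have h2 : 9 * Cv ≤ (9 * Cv) ^ (g + 1) := le_self_pow₀ (by linarith) (Nat.succ_ne_zero _)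
  calc Cv * (2 * q ^ (g + 1) + 1) ^ 2 ≤ Cv * (3 * q ^ (g + 1)) ^ 2 := by gcongr; linarith
    _ = 9 * Cv * (q ^ 2) ^ (g + 1) := by ring
    _ ≤ _ := by rw [mul_pow]; gcongr

theorem sh (k g : ℕ) : ((1 + 4 * (g + 1)) ^ k : ℝ) ≤ (2 * 5 ^ k) ^ (g + 1) := by
  have h1 : (1 + 4 * (g + 1) : ℝ) ≤ 5 ^ (g + 1) := by
    have := one_add_mul_le_pow (show (-2 : ℝ) ≤ 4 by norm_num) (g + 1)
    push_cast at this
    norm_num at this ⊢
    linarith
  calc ((1 + 4 * (g + 1)) ^ k : ℝ) ≤ (5 ^ (g + 1)) ^ k := by gcongr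
    _ = (5 ^ k) ^ (g + 1) := by rw [← pow_mul, ← pow_mul, mul_comm]
    _ ≤ _ := by gcongr; linarith [pow_pos (show (0 : ℝ) < 5 by norm_num) k]

theorem size {P : ℝ} (h : 8 ≤ P) (g : ℕ) : ((2 * P) ^ g) ^ 2 * (2 * P) ^ g ≤ P ^ (4 * g + 1) := by
  calc ((2 * P) ^ g) ^ 2 * (2 * P) ^ g = 8 ^ g * P ^ (3 * g) * 1 := by
        rw [show (8 : ℝ) ^ g = 2 ^ (3 * g) by rw [pow_mul]; norm_num]
        ring
    _ ≤ P ^ g * P ^ (3 * g) * P := by gcongr <;> linarith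
    _ = _ := by ring

end CountJ

open U.CountJ in
theorem st_Count : CountSt := by
  intro D π Y Mb S j g hD ok hS hY hg hκ h9 h4 A hV hC z0 L hch
  have κ0 := GeoJ.κ_pos ok
  have P0 : 0 < π.P := by linarith [ok.P]
  have cv := hD.cv
  have cD0 : 0 ≤ D.cD := by unfold DS.cD; positivity
  have hA : ∀ t ∈ A, 0 < DS.Pt.y t := fun t ht => lt_of_lt_of_le (by positivity) (hV t ht)
  have hMb : 0 ≤ Mb := (Nat.cast_nonneg _).trans (hC 0)
  have hC' : ∀ (c : ℤ) (B : Finset (ℤ × D.P)), (∀ σ ∈ B, (∃ t ∈ A, S t = σ) ∧ σ.1 = c) →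
      (#B : ℝ) ≤ Mb := cellBound (D.geo π Y S) hC
  rcases L.eq_empty_or_nonempty with rfl | ⟨l0, hl0⟩
  · rw [card_empty, Nat.cast_zero]
    positivity
  have hz0 : z0 ∈ A := by
    obtain ⟨h1, z, h2⟩ := hch l0 hl0
    rcases l0 with _ | ⟨x, ls⟩
    · simp only [List.length_nil] at h1
      omega
    · obtain ⟨z1, h3, -⟩ := h2
      exact h3.1
  have hlen : ∀ l ∈ L, l.length = g := fun l hl => (hch l hl).1
  have : Nonempty (D.geo π Y S).Ω := ⟨z0⟩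
  choose! z hz using fun l hl => (hch l hl).2
  have inv := fun l hl => st_ChInv D π Y S A l z0 (z l) hD ok hS hA (hA z0 hz0) (hz l hl)
  choose! ζ hζ using fun l hl => (inv l hl).2.2.2.2
  choose μ hμ hμ' using hS.pt
  have hzA : ∀ l ∈ L, z l ∈ A := fun l hl => ((inv l hl).2.1 (by
    rintro rfl
    have := hlen _ hl
    simp only [List.length_nil] at this
    omega)).2
  let o : List (ℕ × ℕ × ℕ) → List (ℕ × ℕ) := fun l => l.map fun x => (x.1, x.2.2)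
  have ho : ∀ l, pa l = ((o l).map Prod.fst).prod ∧ pb l = ((o l).map Prod.snd).prod := fun l => by
    simp only [o, pa, pb, List.map_map]
    exact ⟨rfl, rfl⟩
  have h1 : (#(L.image o) : ℝ) ≤ (#π.PP : ℝ) ^ (2 * g) := by
    have := st_List.all _ (π.PP ×ˢ π.PP) g (L.image o) fun b hb => by
      obtain ⟨l, hl, rfl⟩ := mem_image.1 hb
      refine ⟨by rw [List.length_map, hlen l hl], fun x hx => ?_⟩
      obtain ⟨y, hy, rfl⟩ := List.mem_map.1 hx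
      exact mem_product.2 ⟨((inv l hl).1 y hy).1, ((inv l hl).1 y hy).2.2⟩
    rw [card_product, ← sq, ← pow_mul] at this
    exact_mod_cast this
  rw [mul_assoc]
  refine (fib L (L.image o) o (fun l hl => mem_image_of_mem _ hl) fun b hb L1 s1 e1 => ?_).trans
    (mul_le_mul_of_nonneg_right h1 (by positivity))
  obtain ⟨lb, hlb, eb⟩ := mem_image.1 hb
  have b1 := map_bd ok (fun x => x.1) (hlen lb hlb) fun x hx => ((inv lb hlb).1 x hx).1
  have b2 := map_bd ok (fun x => x.2.2) (hlen lb hlb) fun x hx => ((inv lb hlb).1 x hx).2.2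
  change 0 < pa lb ∧ (pa lb : ℝ) ≤ _ at b1
  change 0 < pb lb ∧ (pb lb : ℝ) ≤ _ at b2
  have ea : ∀ l ∈ L1, pa l = pa lb ∧ pb l = pb lb := fun l hl => by
    rw [(ho l).1, (ho l).2, (ho lb).1, (ho lb).2, e1 l hl, eb]
    exact ⟨rfl, rfl⟩
  have a0 : (0 : ℝ) < pa lb := by exact_mod_cast b1.1
  have b0 : (0 : ℝ) < pb lb := by exact_mod_cast b2.1
  have y0 := hA z0 hz0
  have hpos : ∀ l ∈ L1, |Real.log (DS.Pt.y (z l)) - Real.log (DS.Pt.y z0 * pa lb / pb lb)| ≤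
      g * π.κ := fun l hl => by
    have := (inv l (s1 hl)).2.2.2.1
    rwa [hlen l (s1 hl), (ea l hl).1, (ea l hl).2] at this
  obtain ⟨I, hI1, hI2⟩ := PtJ.cells π.κ (Real.log (DS.Pt.y z0 * pa lb / pb lb)) (g * π.κ) κ0
    (by positivity)
  rw [show 2 * (g * π.κ) / π.κ = 2 * g by field_simp] at hI1
  let T : Finset (ℤ × D.P) := {σ ∈ A.image S | σ.1 ∈ I}
  have h2 : (#T : ℝ) ≤ (2 * g + 2) * Mb :=
    (fib T I Prod.fst (fun σ hσ => (mem_filter.1 hσ).2) fun c _ B sB eB => hC' c B fun σ hσ =>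
      ⟨mem_image.1 (mem_filter.1 (sB hσ)).1, eB σ hσ⟩).trans (mul_le_mul_of_nonneg_right hI1 hMb)
  refine (fib L1 T (fun l => S (z l)) (fun l hl => mem_filter.2
    ⟨mem_image_of_mem _ (hzA l (s1 hl)), (hS.cell (z l)).symm ▸ hI2 _ (hpos l hl)⟩)
    fun σ _ L2 s2 e2 => ?_).trans (mul_le_mul_of_nonneg_right h2 (by positivity))
  have m2 : ∀ l ∈ L2, l ∈ L := fun l hl => s1 (s2 hl)
  have f1 : (1 : ℝ) ≤ 5 ^ D.k := one_le_pow₀ (by norm_num)
  refine (st_Same D _ π.κ (DS.Pt.y z0 / pb lb) (2 * (2 * 5 ^ D.k) ^ (g + 1))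
    (#π.PP ^ (g / 2) * (4 * g) ^ g) (D.dil (pb lb) (DS.Pt.ph z0)) (D.dil (pa lb) σ.2) L2 ζ
    (fun l => D.dil (pa lb) (μ (z l))) pc ((2 * π.P) ^ g) hD (by positivity) ?_
    (fun l hl => ?_) fun B sB hB => ?_).trans (mul_le_mul_of_nonneg_right ?_ (by positivity))
  · rw [← mul_div_assoc, le_div_iff₀ b0]
    exact (mul_le_mul_of_nonneg_left b2.2 (by positivity)).trans ((CountJ.size h9 g).trans
      (h4.trans (mul_le_mul_of_nonneg_left (hV z0 hz0) κ0.le)))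
  · have a := m2 l hl
    have b3 := map_bd ok (fun x => x.2.1) (hlen l a) fun x hx => ((inv l a).1 x hx).2.1
    refine ⟨b3.1, b3.2, ZtJ.den hD l _ (hζ l a).1, hD.mem _ _ (hμ _), ?_⟩
    have c1 := (hζ l a).2
    rw [hlen l a, (ea l (s2 hl)).1, (ea l (s2 hl)).2] at c1
    have c2 := hμ' (z l)
    have c3 := GeoJ.cell (DS.Pt.y (z l)) κ0
    rw [← hS.cell, ← Real.log_exp (_ * π.κ)] at c3
    have c4 := hD.shift π.κ (Real.exp ((S (z l)).1 * π.κ)) (pa lb * (DS.Pt.y z0 / pb lb))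
      ((g + 1) * π.κ) (DS.Pt.ph (z l) * D.dil 1 (μ (z l)) * (S (z l)).2⁻¹) κ0 ok.κ (Real.exp_pos _)
      (by positivity) (by
        have c5 := hpos l (s2 hl)
        rw [show pa lb * (DS.Pt.y z0 / pb lb) = DS.Pt.y z0 * pa lb / pb lb by ring]
        rw [abs_le] at c3 c5 ⊢
        constructor <;> linarith [c3.1, c3.2, c5.1, c5.2]) hκ
    rw [← hD.ndil, show 4 * ((g + 1) * π.κ) / π.κ = 4 * (g + 1) by field_simp] at c4
    have c6 := c4.trans ((mul_le_of_le_one_right (by positivity) c2).trans (CountJ.sh D.k g))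
    refine le_trans (le_of_eq_of_le (congrArg _ ?_) ((hD.mul _ _ _ _).trans (add_le_add c1 c6)))
      (by linarith)
    rw [← e2 l hl]
    simp only [map_mul, map_inv, hD.dil_one]
    group
  · have := st_Mid D g π.PP B ζ hD ok.ne (fun p hp => (ok.pr p hp).1)
      (fun l hl => ⟨hlen l (m2 l (sB hl)), (inv l (m2 l (sB hl))).1, (hζ l (m2 l (sB hl))).1⟩)
      fun l hl l' hl' => ⟨(e1 l (s2 (sB hl))).trans (e1 l' (s2 (sB hl'))).symm, hB l hl l' hl'⟩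
    exact_mod_cast this
  · rw [DS.cD, ← pow_mul, mul_comm D.Dm, pow_mul]
    exact pow_le_pow_left₀ (by positivity) (CountJ.num cv (by linarith) g) _

theorem st_Num : NumSt := by
  intro K pp C1 j hK hpp hC hj
  have h0 : (8 + j) / 4 ≠ 0 := by omega
  have h1 := Nat.pow_log_le_self 2 h0
  have h2 := Nat.lt_pow_succ_log_self (show 1 < 2 by norm_num) ((8 + j) / 4)
  have h3 : 1 ≤ Nat.log 2 ((8 + j) / 4) := Nat.le_log_of_pow_le (by norm_num) (by omega)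
  obtain ⟨b, hb⟩ : ∃ b, Nat.log 2 ((8 + j) / 4) = b + 1 := ⟨_, (Nat.sub_add_cancel h3).symm⟩
  rw [hb] at h1 h2
  have hpos : 1 ≤ 2 ^ b := Nat.one_le_two_pow
  rw [Nat.succ_eq_add_one, pow_succ, pow_succ] at h2
  rw [pow_succ] at h1
  refine ⟨b + 1, 2 * 2 ^ b, by ring, by omega, by omega, ?_⟩
  generalize 2 ^ b = h at h1 h2 hpos
  rw [show 2 * h / 2 = h by omega]
  have hK0 : 0 < K := by linarith
  have hp0 : 0 < pp := lt_of_lt_of_le (by positivity) hpp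
  have hh : (1 : ℝ) ≤ h := by exact_mod_cast hpos
  have h4 : C1 * ((4 : ℝ) * ((2 * h : ℕ) : ℝ)) ≤ K := by
    have : ((8 * h : ℕ) : ℝ) ≤ ((8 + j : ℕ) : ℝ) := Nat.cast_le.2 (by omega)
    push_cast at this ⊢
    have hj0 : (0 : ℝ) ≤ j := Nat.cast_nonneg j
    nlinarith
  have h5 : (2 : ℝ) * ((2 * h : ℕ) : ℝ) + 2 ≤ K := by
    push_cast at h4 ⊢
    nlinarith
  have h7 : C1 ≤ K := by
    push_cast at h4
    nlinarith
  have h6 : (K ^ 10 / pp ^ 3) ^ (2 * h) * (pp ^ (2 * (2 * h)) *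
      ((2 * ((2 * h : ℕ) : ℝ) + 2) * K ^ (3 * (j + 1))) *
        (C1 ^ (2 * h + 1) * (pp ^ h * (4 * ((2 * h : ℕ) : ℝ)) ^ (2 * h)))) =
      K ^ (20 * h) * (2 * ((2 * h : ℕ) : ℝ) + 2) * K ^ (3 * (j + 1)) * C1 *
        (C1 * (4 * ((2 * h : ℕ) : ℝ))) ^ (2 * h) / pp ^ h := by
    rw [div_pow, mul_pow C1]
    field_simp
    ring
  rw [h6, div_le_one (by positivity)]
  calc K ^ (20 * h) * (2 * ((2 * h : ℕ) : ℝ) + 2) * K ^ (3 * (j + 1)) * C1 *
        (C1 * (4 * ((2 * h : ℕ) : ℝ))) ^ (2 * h)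
      ≤ K ^ (20 * h) * K * K ^ (3 * (j + 1)) * K * K ^ (2 * h) := by gcongr
    _ = K ^ (22 * h + 2 + 3 * (j + 1)) := by ring
    _ ≤ K ^ (70 * h) := pow_le_pow_right₀ hK (by omega)
    _ = (K ^ 70) ^ h := by rw [pow_mul]
    _ ≤ pp ^ h := by gcongr

end Pool.Agent.Lib.MP_028aa5_nt.V
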