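import Pool.Agent.Lib.MP_028aa5_nt.V.StT
import Pool.Agent.Lib.MP_028aa5_nt.V.Count
import Pool.Agent.Lib.MP_028aa5_nt.U.TowX

/-! The tower over a graph of atoms. -/

namespace Pool.Agent.Lib.MP_028aa5_nt.V

open Finset T U
open scoped Classical

theorem TowJ.cD {D : DS} (hD : D.Ok) : 1 ≤ D.cD := by
  have h1 := hD.cv
  have h2 : (1 : ℝ) ≤ 5 ^ D.k := one_le_pow₀ (by norm_num)
  have h3 : (1 : ℝ) ≤ (2 * 5 ^ D.k) ^ 2 := one_le_pow₀ (by linarith)
  exact one_le_pow₀ (by nlinarith)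

theorem st_TowY (hS : SmSt) (h5 : TowSt) (h3 : InitSt) (h4 : Cnt0St) (h8 : NetSt) : TowYSt := by
  intro D ε δ hD hF e0 e1 d0
  obtain ⟨δ0, d1, d2, d3⟩ : ∃ δ0 : ℝ, 0 < δ0 ∧ δ0 ≤ 1 ∧ 5 ^ D.k * δ0 ≤ δ := by
    refine ⟨min 1 (δ / 5 ^ D.k), by positivity, min_le_left _ _, ?_⟩
    rw [← le_div_iff₀' (by positivity)]
    exact min_le_right _ _
  obtain ⟨ρ, r0, r1, h3⟩ := h3 D ε δ0 hD hF e0 (by linarith) d1 d2
  refine ⟨ρ, r0, r1, fun π N E φ cL cU Nc s K L u ok hI hL hRay cu cl cLU hNc p9 p16 hM hκ0 hu hsκ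
    hK1 hK2 hK3 hK4 L0 hLK hβ => ?_⟩
  have k1 := st_Bas.κ1_pos π ok
  have κ0 : 0 < π.κ := GeoJ.κ_pos ok
  have cD := TowJ.cD hD
  have s0 : (0 : ℝ) ≤ s := Nat.cast_nonneg s
  have P1 : 1 ≤ π.P := by linarith
  have K1 : 1 ≤ K := by nlinarith
  have κ2 : 2 * π.κ ≤ 1 := le_trans (mul_le_mul_of_nonneg_right (by linarith) κ0.le) hsκ
  have Y0 : 0 < π.ps cL := Real.exp_pos _
  have hY : ∀ x, π.ps cL ≤ N.pos π x := fun x => by
    have : cL ≤ N.cell x := by
      cases h : N.isU x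
      · exact (mem_Ico.1 (cl x h)).1
      · exact cLU.trans (mem_Ico.1 (cu x h)).1
    exact Real.exp_le_exp.2 (mul_le_mul_of_nonneg_right (by exact_mod_cast this) k1.le)
  obtain ⟨S, hSt⟩ := st_State D π.κ hD
  have p3 : 4 * π.P ^ 2 ≤ π.κ * π.ps cL := by
    refine le_trans ?_ ((pow_le_pow_right₀ P1 (show 3 ≤ 9 by norm_num)).trans p9)
    rw [pow_succ' π.P 2]
    exact mul_le_mul_of_nonneg_right (by linarith) (by positivity)
  have okT := st_Geo D π (π.ps cL) S hD ok hSt Y0 (le_trans (by nlinarith) p3)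
  obtain ⟨E0, F, F', g1, g2⟩ := h3 π N E φ (π.ps cL) u S ok hI hL hRay hY κ2 p3 hM hκ0 hu
  obtain ⟨v1, v2, v3⟩ := h4 D π N E φ (π.ps cL) δ0 u S E0 hD ok hI hSt d2 hu p16 hY g2
  obtain ⟨R, E1, G, G', t1, t2, t3, t4, t5, t6⟩ := h5 (D.geo π (π.ps cL) S) D.cK K L (4 * ε) s E0
    F F' okT g1 (by linarith) (by linarith) v1 (hS.cnt _ _ _ _ _ Subset.rfl hK1 v2)
    (hS.cnt _ _ _ _ _ Subset.rfl hK1 v3) K1 hK2 ((pow_le_pow_right₀ K1 (by norm_num)).trans hK3) L0
    hLK (by linarith) fun j hj => by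
      have js : (j : ℝ) ≤ s := by exact_mod_cast hj.le
      obtain ⟨a, g, rfl, a1, a2, a3⟩ := st_Num K #π.PP D.cD j K1 hK3 cD (by nlinarith)
      refine ⟨a, _, st_Count D π (π.ps cL) (K ^ (3 * (j + 1))) S j (2 ^ a) hD ok hSt Y0 a1 ?_ p16 ?_,
        by positivity, a3⟩
      · refine le_trans (mul_le_mul_of_nonneg_right ?_ κ0.le) hsκ
        have : 2 ^ a + 1 ≤ s + 9 := by omega
        exact_mod_cast this
      · refine (pow_le_pow_right₀ P1 a2).trans ?_
        rw [pow_add, ← mul_assoc]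
        exact mul_le_mul_of_nonneg_right p9 (by positivity)
  obtain ⟨N', E', φ', cls, yx, hO⟩ := h8 D π N E φ (π.ps cL) δ0 u _ _ S R E1 G G' cL cU Nc hD ok hI
    hSt κ2 hu t3 t2 (fun e he => g2 _ (t4 e he)) t5 t6 cu cl hNc
  refine ⟨R.prod, ?_, N', E', φ', cls, yx, hO.is, hO.lv, ?_, hO.ends, hO.num, hO.cla, hO.pos,
    fun e' he' => ?_⟩
  · rw [← t1]
    clear * - t2 ok P1
    induction R with
    | nil => simp
    | cons r R ih =>
      rw [List.length_cons, List.prod_cons, pow_succ', Nat.cast_mul]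
      exact mul_le_mul (ok.pr r (t2 r List.mem_cons_self)).2.1.le
        (ih fun r' hr' => t2 r' (List.mem_cons_of_mem _ hr')) (by positivity) (Nat.cast_nonneg _)
  · have := hO.ray
    rwa [show 1 - 16 * (4 * ε) = 1 - 64 * ε by ring] at this
  · obtain ⟨e, he, m1, m2, m3, m4⟩ := hO.lnk e' he'
    exact ⟨e, he, m1, m2, ClJ.mono d3 m3, ClJ.mono d3 m4⟩

open TowXJ in
theorem st_TowX (hR : Reg2St) (hY : TowYSt) : TowXSt := by
  intro DD k ε δ c hDD hF hε hε1 hδ hc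
  obtain ⟨ρ, hρ, hρ1, hT⟩ := hY DD ε δ hDD hF hε hε1 hδ
  obtain ⟨b, hb, hb1, hb2⟩ : ∃ b : ℝ, 0 < b ∧ b ≤ 1 / 600 ∧ b ≤ c / (36 * (7 * k + 4)) :=
    ⟨min (1 / 600) (c / (36 * (7 * k + 4))), by positivity, min_le_left _ _, min_le_right _ _⟩
  refine ⟨ρ, max 1 (2 / b), hρ, hρ1, le_max_left _ _, fun G M C D hD => ?_⟩
  have cv := hDD.cv
  have hcK : 0 ≤ DD.cK := by unfold DS.cK; positivity
  have cD := TowJ.cD hDD
  obtain ⟨K0, q1, q2, q3, q4, q5, q6, q7, q8, q9⟩ : ∃ K0 : ℝ, 3 ≤ K0 ∧ 8 ≤ K0 ∧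
      4 * M / ε ^ 2 ≤ K0 ∧ 1 / ε + 1 ≤ K0 ∧ 4 * DD.cD * (7 * k + 12) ≤ K0 ∧
      2 * M * (12 * G + 1) * DD.cK ≤ K0 ∧ 2 * DD.cK ≤ K0 ∧ 114 * (7 * k + 4) / (32 * ε) ≤ K0 ∧
      24 / c ≤ K0 := by
    have a3 : (0 : ℝ) ≤ 4 * M / ε ^ 2 := by positivity
    have a4 : (0 : ℝ) ≤ 1 / ε + 1 := by positivity
    have a5 : (0 : ℝ) ≤ 4 * DD.cD * (7 * k + 12) := by positivity
    have a6 : (0 : ℝ) ≤ 2 * M * (12 * G + 1) * DD.cK := by positivity
    have a7 : (0 : ℝ) ≤ 2 * DD.cK := by positivity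
    have a8 : (0 : ℝ) ≤ 114 * (7 * k + 4) / (32 * ε) := by positivity
    have a9 : (0 : ℝ) ≤ 24 / c := by positivity
    refine ⟨3 + 8 + 4 * M / ε ^ 2 + (1 / ε + 1) + 4 * DD.cD * (7 * k + 12) +
      2 * M * (12 * G + 1) * DD.cK + 2 * DD.cK + 114 * (7 * k + 4) / (32 * ε) + 24 / c,
      ?_, ?_, ?_, ?_, ?_, ?_, ?_, ?_, ?_⟩ <;> linarith
  obtain ⟨X1, h1⟩ := hR.base C D K0 hD
  obtain ⟨X2, h2⟩ := hR.pw C D 1 2 one_pos
  refine ⟨max X1 X2, fun X hX π N E φ cL cU Nc ek eG eM hreg hIs hLv hRay hU hL hLU hNc hP9 => ?_⟩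
  obtain ⟨b1, b2, b3, b4, b5, b6, b7, b8, b9⟩ :=
    h1 X (le_of_max_le_left hX) π _ (le_max_left _ _) hreg
  have b11 := h2 X (le_of_max_le_right hX) π _ hreg
  rw [Real.rpow_one] at b11
  set l := Real.log X with hl
  have hX0 : 0 < X := by linarith
  have hX1 : 1 ≤ X := by linarith
  have hl1 : 1 ≤ l := by linarith
  have hP1 : 1 ≤ π.P := by linarith
  have hP0 : 0 < π.P := by linarith
  have hp1 : 1 ≤ Real.log π.P := by linarith
  have hpl : Real.log π.P ≤ l := by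
    have a1 : l ^ (1 / 2 : ℝ) ≤ l := Real.rpow_le_self_of_one_le hl1 (by norm_num)
    nlinarith
  obtain ⟨s, s1, s2, s3⟩ := levels (k := k) hp1 hpl
  set u := π.P ^ b with hu
  have hlu : l ^ 2 ≤ u := by
    have a1 : l ^ (2 / b) ≤ π.P :=
      (Real.rpow_le_rpow_of_exponent_le hl1 (le_max_right _ _)).trans hreg.lo
    have a2 := Real.rpow_le_rpow (by positivity) a1 hb.le
    rw [← Real.rpow_mul (by linarith), div_mul_cancel₀ _ hb.ne'] at a2
    exact_mod_cast a2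
  have hKl : K0 * l ≤ u := by nlinarith
  have hKu : K0 ≤ u := by nlinarith
  have hu1 : 1 ≤ u := by linarith
  have hu0 : 0 < u := by linarith
  have hu6 : u ≤ u ^ 6 := le_self_pow₀ hu1 (by norm_num)
  have h70 : (u ^ 6) ^ 70 ≤ #π.PP := by
    refine le_trans ?_ b7
    rw [← pow_mul, hu, ← Real.rpow_natCast, ← Real.rpow_mul hP0.le]
    refine Real.rpow_le_rpow_of_exponent_le hP1 ?_
    push_cast
    linarith
  have hKp : K0 ≤ #π.PP :=
    hKu.trans (hu6.trans ((le_self_pow₀ (hu1.trans hu6) (by norm_num)).trans h70))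
  have hκ0 : 0 ≤ π.κ := le_trans (by positivity) hreg.κlo
  have hk0 : (0 : ℝ) ≤ k := Nat.cast_nonneg k
  obtain ⟨R, hRs, N', E', φ', cls, yx, hO⟩ := hT π N E φ cL cU Nc s (u ^ 6) (Real.log u - 1)
    (X * π.κ0) hreg.ok hIs hLv hRay hU hL hLU hNc hP9 (q2.trans b4)
    (by
      have a1 : (π.M : ℝ) / #π.PP ≤ (ε / 2) ^ 2 := by
        rw [eM, div_le_iff₀ (by linarith)]
        have a2 := q3.trans hKp
        rw [div_le_iff₀ (by positivity)] at a2
        linarith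
      have a2 := Real.sqrt_le_sqrt a1
      rw [Real.sqrt_sq (by positivity)] at a2
      linarith)
    (by
      refine mul_le_mul_of_nonneg_right (le_trans ?_ b11) hreg.ok.κ0.le
      rw [sq]
      exact mul_le_mul (by linarith) (by linarith) (by positivity) (by linarith))
    (by
      refine le_trans ?_ hreg.κlo
      have a1 : π.κ0 ≤ (X ^ 2)⁻¹ := by
        rw [hreg.κ0, ← Real.rpow_natCast, ← Real.rpow_neg hX0.le]
        refine Real.rpow_le_rpow_of_exponent_le hX1 ?_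
        have : (0 : ℝ) ≤ π.k := Nat.cast_nonneg _
        push_cast
        linarith
      calc _ ≤ X * (X ^ 2)⁻¹ := by gcongr
        _ = _ := by field_simp)
    (by
      refine le_trans (mul_le_mul_of_nonneg_right ?_ hκ0) b9
      nlinarith)
    (by rw [eM, eG]; exact q6.trans (hKu.trans hu6)) (q7.trans (hKu.trans hu6)) h70
    (by
      refine le_trans ?_ (hKl.trans hu6)
      refine le_trans ?_ (mul_le_mul_of_nonneg_right q5 (by linarith))
      rw [mul_assoc (4 * DD.cD)]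
      exact mul_le_mul_of_nonneg_left (by nlinarith) (by positivity))
    (by
      rw [sub_nonneg, Real.le_log_iff_exp_le hu0]
      exact Real.exp_one_lt_d9.le.trans (by linarith))
    (by rw [Real.log_pow]; push_cast; linarith)
    (by
      calc _ ≤ ((7 * k + 4) * l) * (114 / u) :=
            mul_le_mul s3 (loss hu1) (by
              have := Real.log_nonneg (hu1.trans hu6)
              positivity) (by positivity)
        _ ≤ _ := by
            rw [div_le_iff₀ (by positivity)] at q8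
            rw [← mul_div_assoc, div_le_iff₀ hu0]
            have a1 := mul_le_mul_of_nonneg_right q8 (by linarith : 0 ≤ l)
            have a2 := mul_le_mul_of_nonneg_left hKl (by positivity : 0 ≤ 32 * ε)
            linarith)
  refine ⟨R, le_trans ?_ hRs, N', E', φ', cls, yx, hO.is, hO.lv, hO.ray, hO.ends, hO.num.trans ?_,
    hO.cla, hO.pos, hO.lnk⟩
  · rw [← Real.log_le_log_iff (by positivity) (by positivity), Real.log_pow, Real.log_pow]
    push_cast
    exact s1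
  · have a1 : (u ^ 6) ^ (3 * (s + 1)) ≤ Real.exp (c * l / 2) := by
      rw [← Real.log_le_iff_le_exp (by positivity), Real.log_pow, Real.log_pow, hu,
        Real.log_rpow hP0]
      rw [le_div_iff₀ (by positivity)] at hb2
      have a2 := mul_le_mul_of_nonneg_left s2 hb.le
      have a3 := mul_le_mul_of_nonneg_right hb2 (by linarith : 0 ≤ l)
      push_cast
      linarith
    have a2 : 12 ≤ Real.exp (c * l / 2) := by
      have a3 := Real.add_one_le_exp (c * l / 2)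
      have a4 := q9.trans b2
      rw [div_le_iff₀ hc] at a4
      linarith
    calc _ ≤ Real.exp (c * l / 2) * Real.exp (c * l / 2) := by gcongr
      _ = _ := by
          rw [← Real.exp_add, Real.rpow_def_of_pos hX0]
          congr 1
          ring

end Pool.Agent.Lib.MP_028aa5_nt.V
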