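import Pool.Agent.Lib.MP_028aa5_nt.U.All
import Pool.Agent.Lib.MP_028aa5_nt.V.A1
import Pool.Agent.Lib.MP_028aa5_nt.V.A2
import Pool.Agent.Lib.MP_028aa5_nt.V.Cc
import Pool.Agent.Lib.MP_028aa5_nt.V.Cell
import Pool.Agent.Lib.MP_028aa5_nt.V.Cl
import Pool.Agent.Lib.MP_028aa5_nt.V.Init
import Pool.Agent.Lib.MP_028aa5_nt.V.MD
import Pool.Agent.Lib.MP_028aa5_nt.V.Net
import Pool.Agent.Lib.MP_028aa5_nt.V.Off
import Pool.Agent.Lib.MP_028aa5_nt.V.One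
import Pool.Agent.Lib.MP_028aa5_nt.V.Rare
import Pool.Agent.Lib.MP_028aa5_nt.V.Real
import Pool.Agent.Lib.MP_028aa5_nt.V.Top
import Pool.Agent.Lib.MP_028aa5_nt.V.Tow

/-! The base and the tower together. -/

namespace Pool.Agent.Lib.MP_028aa5_nt.V

theorem all_Cell : CellSt :=
  st_Cell (st_A2 (st_One st_Cc (st_A1 (st_Match st_Cl) (st_Desc st_Cl st_Cc T.st_Bas))
    (T.st_Win T.st_Pr))) st_Cc st_Cl U.all_Ft T.st_Reg

theorem all_Init : InitSt :=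
  st_Init T.st_Bas st_Cl st_Pt (U.st_Drop T.st_Bas) (st_Col st_Cl) (U.st_Blow T.st_Bas T.st_Lab)
    (st_Off st_Fol) U.st_Merge

theorem all_TowX : TowXSt :=
  st_TowX U.st_Reg2 (st_TowY U.all_Sm U.all_Tow all_Init
    (st_Cnt0 st_Cl T.st_Bas U.all_Pt U.st_VA) (st_Net st_Cl st_Pt T.st_Bas U.all_Pt U.st_VA))

theorem all_Real : RealSt := st_Real st_Cl st_Cc T.st_Bas U.st_VA

theorem all_Rare : RareSt := st_Rare st_Cc

theorem all_Top : TopSt := st_Top U.all_Ft T.st_Reg (U.st_Setup2 T.st_Pr)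

end Pool.Agent.Lib.MP_028aa5_nt.V
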