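import Pool.Agent.Lib.MP_028aa5_nt.V.KSt
import Pool.Agent.Lib.MP_028aa5_nt.T.C

/-! Elementary properties of the correlation with a kernel. -/

namespace Pool.Agent.Lib.MP_028aa5_nt.V

open Finset T U
open scoped ComplexConjugate Classical

namespace Ck

lemma ck_eq (κ f Φ y) (a : ℕ) : ck κ f Φ y a = C.av κ y fun n => f n * Φ (n / y) (a * n) := rfl

lemma per_mul {Φ : ℕ → ℂ} {q : ℕ} (h : ∀ m, Φ (m + q) = Φ m) (m t : ℕ) : Φ (m + q * t) = Φ m := by
  induction t with
  | zero => rfl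
  | succ t ih => rw [Nat.mul_succ, ← add_assoc, h, ih]

lemma per_mod {Φ : ℕ → ℂ} {q : ℕ} (h : ∀ m, Φ (m + q) = Φ m) {m n : ℕ} (e : m ≡ n [MOD q]) :
    Φ m = Φ n := by
  rw [← Nat.mod_add_div m q, ← Nat.mod_add_div n q, per_mul h, per_mul h, e]

lemma term {f : ℕ → ℂ} {Φ : ℝ → ℕ → ℂ} (hf : ∀ n, ‖f n‖ ≤ 1) (hΦ : ∀ z m, ‖Φ z m‖ ≤ 1) (n : ℕ)
    (z : ℝ) (m : ℕ) : ‖f n * Φ z m‖ ≤ 1 := by
  rw [norm_mul]
  exact mul_le_one₀ (hf n) (norm_nonneg _) (hΦ z m)

end Ck

open Ck in
theorem st_Ck : CkSt where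
  bd := fun κ f Φ y a hf hΦ hκ h => by
    have := C.av_le2 hκ h zero_le_one (a := fun n => f n * Φ (n / y) (a * n))
      fun n _ => term hf hΦ n _ _
    rwa [mul_one] at this
  mod := fun κ f Φ y q a b hΦ h => by
    unfold ck
    congr 1
    exact sum_congr rfl fun n _ => by rw [per_mod (hΦ _) (h.mul_right n)]
  move := fun κ W β q Q1 f Φ y y' u a hK hf hκ hκ1 hW h hy' hl hu => by
    have hy := C.pos hκ h
    obtain ⟨r1, r2⟩ := C.ratio hy hy' hl hu
    have hu0 : 0 ≤ u := (abs_nonneg _).trans hl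
    let b : ℕ → ℂ := fun n => if n ∈ Ioc ⌊y⌋₊ ⌊y * (1 + κ)⌋₊ then f n * Φ (n / y) (a * n)
      else f n * Φ (n / y') (a * n)
    have hb : ∀ n, ‖b n‖ ≤ 1 := fun n => by
      dsimp only [b]
      split_ifs <;> exact term hf hK.bd n _ _
    have e1 : ck κ f Φ y a = C.av κ y b := by
      rw [ck_eq]
      unfold C.av
      congr 1
      exact sum_congr rfl fun n hn => by simp only [b, if_pos hn]
    have e2 := C.move hb hκ hκ1 h hy' hl hu
    have e3 : ‖ck κ f Φ y' a - C.av κ y' b‖ ≤ (1 + 3) * (W * (4 * u)) := by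
      have e4 := C.av_sub κ y' 1 (fun n => f n * Φ (n / y') (a * n)) b
      rw [one_mul] at e4
      rw [ck_eq, e4]
      refine C.av_le hκ hy' (by positivity) (by nlinarith) fun n hn => ?_
      dsimp only [b]
      split_ifs with hn'
      · obtain ⟨w1, w2⟩ := C.win hκ hy hn'
        obtain ⟨w3, w4⟩ := C.win hκ hy' hn
        rw [one_mul, ← mul_sub, norm_mul]
        refine (mul_le_of_le_one_left (norm_nonneg _) (hf n)).trans
          ((hK.lip _ ⟨by linarith, by linarith⟩ _ ⟨by linarith, by linarith⟩ _).trans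
            (mul_le_mul_of_nonneg_left ?_ hW))
        have e5 : (n : ℝ) / y' - n / y = -(n / y' * ((y' - y) / y)) := by
          field_simp
          ring
        rw [e5, abs_neg, abs_mul, abs_of_nonneg (by linarith : 0 ≤ (n : ℝ) / y'), abs_div,
          abs_of_pos hy]
        have e6 : |y' - y| / y ≤ 2 * u := by rwa [div_le_iff₀ hy]
        calc _ ≤ 2 * (2 * u) := mul_le_mul (by linarith) e6 (by positivity) (by norm_num)
          _ = _ := by ring
      · rw [one_mul, sub_self, norm_zero]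
        positivity
    have e7 := norm_add_le_of_le e3 e2
    rw [sub_add_sub_cancel, ← e1] at e7
    have : 0 ≤ u / κ + 1 / (κ * y) := by positivity
    nlinarith [mul_nonneg hW hu0]

end Pool.Agent.Lib.MP_028aa5_nt.V
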