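import Pool.Agent.Lib.MP_028aa5_nt.V.KSt
import Pool.Agent.Lib.MP_028aa5_nt.T.CoreB

/-! One component is impossible, for a kernel. -/

namespace Pool.Agent.Lib.MP_028aa5_nt.V

open Finset T U
open scoped Classical

open CoreB in
theorem st_CoreBK (hEnd : EndKSt) (hS : SparseX2St) (hH : HatKSt) (hE : EKSt) (hF : FtSt)
    (hR : Reg2St) : CoreBKSt := by
  intro k η a hk hη hη1 ha
  obtain ⟨β, hβ, hE⟩ := hE a (7 * k + 3) (η ^ 2 / 40) ha (by positivity)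
  obtain ⟨ε2, hε2⟩ : ∃ ε2, ε2 = η ^ 2 / 10 ^ 4 := ⟨_, rfl⟩
  have hε : 0 < ε2 := by rw [hε2]; positivity
  have hεη : ε2 ≤ η / 10 ^ 4 := by
    rw [hε2]
    gcongr
    nlinarith
  have hε8 : ε2 ^ 2 ≤ 1 / 8 := by nlinarith
  refine ⟨ε2 ^ 2, ε2, β, by positivity, hε, hβ, fun Q1 hQ1 => ?_⟩
  obtain ⟨cE, XE, hcE, hE⟩ := hE Q1 hQ1
  have hc' : 0 < min cE (1 / 2) := lt_min hcE (by norm_num)
  obtain ⟨A, hA, hS⟩ := hS k _ hk hc'
  refine ⟨min cE (1 / 2) / 4, A, by positivity, hA, fun C D hD => ?_⟩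
  obtain ⟨XS, hS⟩ := hS C D hD
  obtain ⟨XR, hR⟩ := hR.base C D
    (33 + 900 / ε2 + 200 / (ε2 / 5) + (33 / (η ^ 2 / 40)) ^ 2) hD
  refine ⟨max XE (max XS XR), ?_⟩
  intro X hX π i0 i1 B JL JU Nj Jm q _ Φ vU vL Gd hπk hReg hi0 hi1 haB hcc hNc hY1 hY2 hPY hq hd
    hK hBlk
  subst hπk
  obtain ⟨b1, b2, -, b4, -, -, -, -, b9⟩ :=
    hR X ((le_max_right _ _).trans ((le_max_right _ _).trans hX)) π A hA hReg
  have p1 : 0 < 900 / ε2 := by positivity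
  have p2 : 0 ≤ 200 / (ε2 / 5) := by positivity
  have p3 : 0 ≤ (33 / (η ^ 2 / 40)) ^ 2 := by positivity
  have hX1 : 1 ≤ X := by linarith
  have hX0 : 0 < X := by linarith
  have hok := hReg.ok
  have hκ0 : 0 < π.κ := lt_of_lt_of_le (by positivity) hReg.κlo
  have hW : 1 ≤ X ^ (7 * π.k + 1) := one_le_pow₀ hX1
  have hW1 : X ≤ X ^ (7 * π.k + 1) := le_self_pow₀ hX1 (by omega)
  have hk0 : π.κ0 = (X ^ (7 * π.k + 1) * X ^ 3)⁻¹ := by
    rw [hReg.κ0, Real.rpow_neg hX0.le, ← pow_add, ← Real.rpow_natCast]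
    congr 2
    push_cast
    ring
  have hT : X ^ (7 * (π.k : ℝ) + 3) = X ^ (7 * π.k + 1) * X ^ 2 := by
    rw [← pow_add, ← Real.rpow_natCast]
    congr 1
    push_cast
    ring
  have hk1 : π.κ0 ≤ 1 := by
    rw [hk0]
    exact inv_le_one_of_one_le₀ (one_le_mul_of_one_le_of_one_le hW (one_le_pow₀ hX1))
  obtain ⟨N0, hN8, hN9⟩ : ∃ N0 : ℕ, 8 ≤ N0 * π.κ0 ∧ N0 * π.κ0 ≤ 9 := by
    have h0 := hok.κ0
    refine ⟨⌈8 / π.κ0⌉₊, (div_le_iff₀ h0).1 (Nat.le_ceil _), ?_⟩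
    have h1 := mul_le_mul_of_nonneg_right
      (Nat.ceil_lt_add_one (by positivity : 0 ≤ 8 / π.κ0)).le h0.le
    rw [add_mul, div_mul_cancel₀ _ h0.ne'] at h1
    linarith
  have : NeZero N0 := ⟨by
    rintro rfl
    norm_num at hN8⟩
  have hsp := hS X ((le_max_left _ _).trans ((le_max_right _ _).trans hX)) π N0 q rfl hReg
    hN8 hN9 hq
  obtain ⟨F', f1, f2, f3⟩ := hH N0 q (X ^ (7 * (π.k : ℝ) + 3)) (spec π N0 q) (by positivity)
  have hcc' : X ^ min cE (1 / 2) ≤ X ^ cE :=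
    Real.rpow_le_rpow_of_exponent_le hX1 (min_le_left _ _)
  have hB1 : 1 ≤ B := by
    rcases Nat.eq_zero_or_pos B with rfl | h
    · norm_num at haB
    · exact h
  obtain ⟨Mi, m1, m2⟩ := hE X ((le_max_left _ _).trans hX) (N0 * π.κ0) (π.yy JL) q (π.G * π.Nf)
    (fun l => Φ (π.yy (l + 1))) i0 i1 B hN8 hN9
    (hq.trans ((Real.rpow_le_rpow_of_exponent_le hX1 (by linarith)).trans hcc')) hd
    (fun _ => hK.bd _) (fun _ => hK.per _) (fun _ => hK.orth _) hY1 hY2 hi0 hi1 hB1 F'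
    (le_trans (by exact_mod_cast f1) (hsp.trans hcc')) f2
  have hY0 : 0 < π.yy JL := Real.exp_pos _
  have hY8 : 8 ≤ π.yy JL := by
    have := mul_le_mul_of_nonneg_right hok.κ hY0.le
    linarith
  have hcnt : ∀ n : ℕ, 0 < n → n ≤ ⌊32 * π.yy JL⌋₊ → #{p ∈ SS i0 i1 | p ∣ n} ≤ B := by
    intro n hn0 hn
    refine hF.cnt _ B n (X ^ a) (Real.one_le_rpow hX1 ha.le) (fun p hp => ?_) hn0 ?_
    · obtain ⟨h1, h2⟩ := mem_filter.1 hp
      refine ⟨h2, hi0.trans ?_⟩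
      exact_mod_cast (mem_Ioc.1 h1).1.le
    · have h1 : (n : ℝ) ≤ 32 * π.yy JL := (Nat.le_floor_iff (by positivity)).1 hn
      have h2 : X ^ 2 ≤ (X ^ a) ^ B := by
        rw [← Real.rpow_mul_natCast hX0.le, ← Real.rpow_natCast]
        exact Real.rpow_le_rpow_of_exponent_le hX1 (by exact_mod_cast haB)
      have h3 : 33 * X ≤ X * X := mul_le_mul_of_nonneg_right (by linarith) hX0.le
      rw [pow_two] at h2
      linarith
  have hbd : ∀ n ∈ Ioc ⌊π.yy JL / 8⌋₊ ⌊32 * π.yy JL⌋₊, ‖ft i0 i1 B Mi n‖ ≤ 1 := fun n hn =>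
    hF.bd i0 i1 B Mi n (hcnt n (lt_of_le_of_lt (Nat.zero_le _) (mem_Ioc.1 hn).1) (mem_Ioc.1 hn).2)
  have hP9 : 900 / ε2 ≤ π.P := by linarith
  have e2 : 80 / π.P ≤ ε2 / 5 := by
    rw [div_le_iff₀ (by linarith)]
    rw [div_le_iff₀ hε] at hP9
    nlinarith
  have e3 : 2 * π.κ ≤ ε2 / 5 := by
    have h1 : 900 / ε2 * 1 * π.κ ≤ 1 := by
      refine le_trans ?_ b9
      gcongr <;> linarith
    rw [mul_one, div_mul_eq_mul_div, div_le_iff₀ hε] at h1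
    linarith
  have e4 : 200 * (π.κ0 / π.κ) * X ≤ ε2 / 5 := by
    rw [hk0]
    exact err1 hX1 (by positivity) hReg.κlo hX0.le hW1 (by positivity) (by positivity)
      (by linarith)
  have e5 : 200 * (π.κ0 / (1 / X)) * X ^ (7 * π.k + 1) ≤ ε2 / 5 := by
    rw [hk0]
    exact err1 hX1 (by positivity) le_rfl (by positivity) le_rfl (by positivity) (by positivity)
      (by linarith)
  have e6 : X ^ (7 * π.k + 1) * (X * π.κ0) = π.κ0 / (1 / X) * X ^ (7 * π.k + 1) := by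
    field_simp
  have e7 : X * π.κ0 / π.κ = π.κ0 / π.κ * X := by ring
  have e8 : 0 ≤ X * π.κ0 := mul_nonneg hX0.le hok.κ0.le
  have e9 := mul_le_mul_of_nonneg_right hW e8
  have e10 : 0 ≤ π.κ0 / π.κ * X := e7 ▸ div_nonneg e8 hκ0.le
  have key := hEnd π (fw (SS i0 i1) B) (ft i0 i1 B Mi) Φ η (ε2 ^ 2) ε2 (X * π.κ0) π.P _ β ε2 JL JU
    Nj Jm q Q1 N0 vU vL Gd hok hcc (hF.fw_bd _ _) hK (by positivity) hBlk hN8 hNc
    (by linarith) hPY hbd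
    (fun n hn => hF.eq i0 i1 B Mi _ hY0 m1 n hn
      (hcnt n (lt_of_le_of_lt (Nat.zero_le _) (mem_Ioc.1 hn).1)
        ((mem_Ioc.1 hn).2.trans (Nat.floor_le_floor (by linarith)))))
    (by positivity) hε8 hε.le (le_mul_of_one_le_left hok.κ0.le hX1) (by linarith)
    (by rw [mul_assoc, e6, e7]; linarith) (by linarith)
  have h3 := f3 π _ (ft i0 i1 B Mi) Φ Q1 _ β (π.yy JL / 8) hok hK (by positivity) hN8
    (by linarith) (Ioc_subset_Ioc_right (Nat.floor_le_floor (by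
      linarith [mul_le_mul_of_nonneg_left exp_six hY0.le]))) hbd
  have hn0 : (0 : ℝ) < (π.G * π.Nf : ℕ) := by exact_mod_cast Nat.mul_pos hok.G hok.Nf
  rw [← inv_mul_le_iff₀ hn0] at m2
  have h4 : (#(spec π N0 q) : ℝ) * (7 * X ^ (7 * (π.k : ℝ) + 3) / N0 +
      4 * (1 + X ^ (7 * π.k + 1)) / (π.κ * X ^ (7 * (π.k : ℝ) + 3))) ≤ η ^ 2 / 40 := by
    rw [hT]
    have h6 := err2 (w := X ^ (7 * π.k + 1) / 7) (n := #(spec π N0 q)) (ε := η ^ 2 / 40) hX1 hW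
      hReg.κlo (by positivity) (by linarith) (hk0 ▸ hN8) (hsp.trans (by
        rw [Real.sqrt_eq_rpow]
        exact Real.rpow_le_rpow_of_exponent_le hX1 (min_le_right _ _))) (by positivity)
      (by linarith)
    rwa [mul_div_cancel₀ _ (by norm_num : (7 : ℝ) ≠ 0)] at h6
  have h5 := lhs hη hη1
  rw [← hε2] at h5
  have h6 : 0 < η ^ 2 := by positivity
  linarith

end Pool.Agent.Lib.MP_028aa5_nt.V
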