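import Pool.Agent.Lib.MP_028aa5_nt.V.KSt
import Pool.Agent.Lib.MP_028aa5_nt.T.E

/-! Choice of the windows and the bound for the bilinear truncation, for a family of kernels. -/

namespace Pool.Agent.Lib.MP_028aa5_nt.V

open Finset T U EAux
open scoped ComplexConjugate Classical

namespace EK

lemma FF_add (g1 g2 : ℕ → ℂ) (t M : ℝ) :
    FF (fun n => g1 n + 2 * g2 n) t M = FF g1 t M + 2 * FF g2 t M := by
  simp only [FF, tw, mul_sum]
  rw [← sum_add_distrib]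
  exact sum_congr rfl fun n _ => by ring

lemma FF_two (g2 : ℕ → ℂ) (t M : ℝ) : FF (fun n => 2 * g2 n) t M = 2 * FF g2 t M := by
  simp only [FF, tw, mul_sum]
  exact sum_congr rfl fun n _ => by ring

lemma sq_add (a b : ℂ) : ‖a + 2 * b‖ ^ 2 ≤ 2 * ‖a‖ ^ 2 + 8 * ‖b‖ ^ 2 := by
  have h : ‖a + 2 * b‖ ≤ ‖a‖ + 2 * ‖b‖ := by
    refine (norm_add_le _ _).trans_eq ?_
    rw [norm_mul, Complex.norm_ofNat]
  nlinarith [pow_le_pow_left₀ (norm_nonneg _) h 2, sq_nonneg (‖a‖ - 2 * ‖b‖)]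

lemma split {q Q : ℕ} [NeZero q] (hd : Q ∣ q) (F : Finset (ℤ × DirichletCharacter ℂ q)) :
    ∃ F1 : Finset (ℤ × DirichletCharacter ℂ Q), #F1 ≤ #F ∧ (∀ ξ ∈ F1, ∃ ξ' ∈ F, ξ'.1 = ξ.1) ∧
      ∀ (g g2 : DirichletCharacter ℂ q → ℕ → ℂ) (g1 : DirichletCharacter ℂ Q → ℕ → ℂ) (L M : ℝ),
      (∀ χ, (∀ n, g χ n = 2 * g2 χ n) ∨ ∃ χ1, χ = DirichletCharacter.changeLevel hd χ1 ∧
        ∀ n, g χ n = g1 χ1 n + 2 * g2 χ n) →
      ∑ ξ ∈ F, ‖FF (g ξ.2) (ξ.1 / L) M‖ ^ 2 ≤ 2 * ∑ ξ ∈ F1, ‖FF (g1 ξ.2) (ξ.1 / L) M‖ ^ 2 +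
        8 * ∑ ξ ∈ F, ‖FF (g2 ξ.2) (ξ.1 / L) M‖ ^ 2 := by
  let φ : ℤ × DirichletCharacter ℂ Q → ℤ × DirichletCharacter ℂ q :=
    fun ξ => (ξ.1, DirichletCharacter.changeLevel hd ξ.2)
  have hφ : Function.Injective φ := fun ξ ξ' h => Prod.ext (Prod.ext_iff.1 h).1
    (DirichletCharacter.changeLevel_injective hd (Prod.ext_iff.1 h).2)
  refine ⟨F.preimage φ hφ.injOn, ?_, fun ξ hξ => ⟨φ ξ, mem_preimage.1 hξ, rfl⟩, ?_⟩
  · exact card_le_card_of_injOn φ (fun ξ hξ => mem_preimage.1 hξ) hφ.injOn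
  intro g g2 g1 L M h
  have e1 : ∑ ξ ∈ F, ∑ ξ1 ∈ F.preimage φ hφ.injOn with φ ξ1 = ξ, ‖FF (g1 ξ1.2) (ξ1.1 / L) M‖ ^ 2 =
      ∑ ξ ∈ F.preimage φ hφ.injOn, ‖FF (g1 ξ.2) (ξ.1 / L) M‖ ^ 2 :=
    sum_fiberwise_of_maps_to (fun ξ hξ => mem_preimage.1 hξ) _
  rw [← e1, mul_sum, mul_sum, ← sum_add_distrib]
  refine sum_le_sum fun ξ hξ => ?_
  have p0 : 0 ≤ ∑ ξ1 ∈ F.preimage φ hφ.injOn with φ ξ1 = ξ, ‖FF (g1 ξ1.2) (ξ1.1 / L) M‖ ^ 2 := by
    positivity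
  rcases h ξ.2 with h1 | ⟨χ1, h1, h2⟩
  · rw [funext h1, FF_two, norm_mul, Complex.norm_ofNat, mul_pow]
    nlinarith [sq_nonneg ‖FF (g2 ξ.2) (ξ.1 / L) M‖]
  · have e2 : φ (ξ.1, χ1) = ξ := Prod.ext rfl h1.symm
    have e3 := single_le_sum (f := fun ξ1 : ℤ × DirichletCharacter ℂ Q =>
      ‖FF (g1 ξ1.2) (ξ1.1 / L) M‖ ^ 2) (fun _ _ => by positivity)
      (mem_filter.2 ⟨mem_preimage.2 (e2.symm ▸ hξ), e2⟩ :
        (ξ.1, χ1) ∈ {ξ1 ∈ F.preimage φ hφ.injOn | φ ξ1 = ξ})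
    rw [funext h2, FF_add]
    refine (sq_add _ _).trans ?_
    linarith

end EK

theorem st_EcK (hEb : EbSt) (hP : PrjSt) (hHM : HMiSt) (hGr : GrSt) (hFt : FtSt) : EcKSt := by
  intro A ε hε
  refine ⟨ε / 288, by positivity, fun Q1 hQ1 => ?_⟩
  have : NeZero Q1 := ⟨by omega⟩
  obtain ⟨c1, M1, hc1, h1⟩ := hHM (2 * max A 0)
  obtain ⟨c2, N, X2, hc2, hN, h2⟩ := hEb Q1 A (ε / 4) (by positivity)
  obtain ⟨X3, h3⟩ := big 4 (c := 1 / 20) (by norm_num)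
  obtain ⟨X4, h4⟩ := big M1 (c := 3 / 4) (by norm_num)
  obtain ⟨X5, h5⟩ := big (32 / ε) (c := c1 / 2) (by positivity)
  refine ⟨min (c1 / 2) c2, max (max 1 X2) (max X3 (max X4 X5)), by positivity, ?_⟩
  intro X hX L Y q _ n Φ F i1 hL8 hL9 hq hd hb hp ho hF hFA hY hYX hi1
  simp only [ge_iff_le, max_le_iff] at hX
  obtain ⟨⟨hX1, hX2⟩, hX3, hX4, hX5⟩ := hX
  have hY0 : 0 < Y := lt_of_lt_of_le (by positivity) hY
  have hlow : ∀ i < i1, X ^ (3 / 4 : ℝ) ≤ Y / 2 ^ (i + 3) := fun i hi =>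
    low hX1 (h3 X hX3) hi hY hi1
  obtain ⟨F1, f1, f2, f3⟩ := EK.split hd F
  have key : ∀ (g : DirichletCharacter ℂ q → ℕ → ℂ) (M : ℝ), GF q g →
      (∀ χ, ∑ m ∈ range q, ‖g χ m‖ ^ 2 ≤ ε / 288 * q) → X ^ (3 / 4 : ℝ) ≤ M →
      ∑ ξ ∈ F, ‖FF (g ξ.2) (ξ.1 / L) M‖ ^ 2 ≤ ε / 16 * 6 := by
    intro g M hg hβ m1
    have hM1 : 1 ≤ M := (Real.one_le_rpow hX1 (by norm_num)).trans m1
    have p1 : X ^ min (c1 / 2) c2 ≤ M ^ c1 :=
      pow_le hX1 m1 hc1.le ((min_le_left _ _).trans (by linarith))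
    have p2 : X ^ A ≤ M ^ (2 * max A 0) :=
      pow_le hX1 m1 (by positivity) (by
        have := le_max_left A 0
        have := le_max_right A 0
        linarith)
    have p3 : M ^ (-c1) ≤ ε / 32 := by
      have a := (h5 X hX5).trans (pow_le hX1 m1 hc1.le (by linarith))
      rw [Real.rpow_neg (by linarith), inv_le_comm₀ (by positivity) (by positivity), inv_div]
      exact a
    have a := h1 M L (ε / 288) q g F (Ioc ⌊M⌋₊ ⌊64 * M⌋₊) lio ((h4 X hX4).trans m1)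
      hL8 hL9 (NeZero.pos q) (hq.trans p1) hg (by positivity) hβ
      (hF.trans p1) (fun ξ hξ => (hFA ξ hξ).trans p2)
      (Ioc_subset_Ioc_right (Nat.floor_le_floor
        (mul_le_mul_of_nonneg_right exp8 (by linarith))))
    have b : ∑ m ∈ Ioc ⌊M⌋₊ ⌊64 * M⌋₊, ‖lio m‖ ^ 2 / m ≤ 6 := by
      have b1 := hGr.hsum M (64 * M) (by linarith) (by linarith)
      have b2 : Real.log (64 * M / M) ≤ 5 := by
        rw [mul_div_assoc, div_self (by linarith), mul_one,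
          show (64 : ℝ) = 2 ^ 6 by norm_num, Real.log_pow]
        have := Real.log_two_lt_d9
        push_cast
        linarith
      have b3 := min_le_left (1 : ℝ) (1 / M)
      refine le_trans (sum_le_sum fun m _ => ?_) (b1.trans (by linarith))
      exact div_le_div_of_nonneg_right (pow_le_one₀ (norm_nonneg _) (hFt.lio_bd m))
        (Nat.cast_nonneg m)
    exact a.trans (mul_le_mul (by linarith) b (by positivity) (by positivity))
  have rng : ∀ m ∈ range (i1 * N), X ^ (3 / 4 : ℝ) ≤ pw N (⌊N * Real.logb 2 Y⌋ - 2 * N - (m : ℤ)) ∧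
      pw N (⌊N * Real.logb 2 Y⌋ - 2 * N - (m : ℤ)) ≤ X := by
    intro m hm
    have g := grid hY0 (m / N) (Nat.mod_lt m (by omega : 0 < N))
    rw [Nat.div_add_mod'] at g
    refine ⟨(hlow _ (Nat.div_lt_of_lt_mul ?_)).trans g.1, g.2.trans (le_trans ?_ hYX)⟩
    · rw [mul_comm]
      exact mem_range.1 hm
    · exact div_le_self hY0.le (one_le_pow₀ one_le_two)
  have hN0 : (0 : ℝ) < N := by exact_mod_cast hN
  have one : ∀ l, ∑ m ∈ range (i1 * N), ∑ ξ ∈ F, ‖FF (prj q (Φ l) ξ.2) (ξ.1 / L)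
      (pw N (⌊N * Real.logb 2 Y⌋ - 2 * N - (m : ℤ)))‖ ^ 2 ≤ ε * N * Real.log X := by
    intro l
    obtain ⟨g1, g2, a1, a2, a3, a4⟩ := hP.split q Q1 hd _ (Φ l) (hb l) (hp l) (ho l)
    have a := h2 X hX2 L Q1 g1 F1
      (image (fun n : ℕ => ⌊N * Real.logb 2 Y⌋ - 2 * N - (n : ℤ)) (range (i1 * N))) hL8 hL9 hQ1
      le_rfl a1 (le_trans (by exact_mod_cast f1)
        (hF.trans (Real.rpow_le_rpow_of_exponent_le hX1 (min_le_right _ _))))
      (fun ξ hξ => by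
        obtain ⟨ξ', e1, e2⟩ := f2 ξ hξ
        exact e2 ▸ hFA ξ' e1)
      (by
        intro j hj
        obtain ⟨n, hn, rfl⟩ := mem_image.1 hj
        exact rng n hn)
    rw [sum_image fun x _ y _ h => by simpa using h] at a
    refine (sum_le_sum fun m _ => f3 _ g2 g1 L _ a4).trans ?_
    rw [sum_add_distrib, ← mul_sum, ← mul_sum]
    have b := sum_le_card_nsmul _ _ _ fun m hm => key g2 _ a2 a3 (rng m hm).1
    rw [card_range, nsmul_eq_mul, Nat.cast_mul] at b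
    have c := mul_le_mul_of_nonneg_left (idx_le hX1 hi1) (mul_pos hε hN0).le
    linarith
  let T : ℕ → ℝ := fun m => ∑ l ∈ range n, ∑ ξ ∈ F,
    ‖FF (prj q (Φ l) ξ.2) (ξ.1 / L) (pw N (⌊N * Real.logb 2 Y⌋ - 2 * N - (m : ℤ)))‖ ^ 2
  have hmin : ∀ i : ℕ, ∃ r ∈ range N, ∀ r' ∈ range N, T (i * N + r) ≤ T (i * N + r') :=
    fun i => exists_min_image _ _ (nonempty_range_iff.2 (by omega))
  choose r hr hrmin using hmin
  refine ⟨fun i => pw N (⌊N * Real.logb 2 Y⌋ - 2 * N - ((i * N + r i : ℕ) : ℤ)),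
    fun i _ => grid hY0 i (mem_range.1 (hr i)), ?_⟩
  have b : ∑ i ∈ range i1, (N : ℝ) * T (i * N + r i) ≤ ∑ n ∈ range (i1 * N), T n := by
    rw [← blocks]
    refine sum_le_sum fun i _ => ?_
    simpa using card_nsmul_le_sum (range N) (fun r' => T (i * N + r')) _ (hrmin i)
  rw [← mul_sum] at b
  have a : ∑ m ∈ range (i1 * N), T m ≤ n * (ε * N * Real.log X) := by
    rw [sum_comm]
    simpa using sum_le_card_nsmul (range n) _ _ fun l _ => one l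
  rw [sum_comm]
  refine le_of_mul_le_mul_left (b.trans (a.trans_eq ?_)) hN0
  ring

theorem st_EK (hEc : EcKSt) (hHM : HMpSt) (hP : PrjSt) (hFt : FtSt) (hPr : PrSt) : EKSt := by
  intro a A ϑ ha hϑ
  obtain ⟨c1, C, M1, hc1, hC, h1⟩ := hHM (max A 0 / a)
  obtain ⟨β, hβ, h2⟩ := hEc A (ϑ ^ 2 * a ^ 2 / (4 * C)) (by positivity)
  refine ⟨β, hβ, fun Q1 hQ1 => ?_⟩
  obtain ⟨c2, X2, hc2, h2⟩ := h2 Q1 hQ1
  obtain ⟨j0, hj0⟩ := hPr.blk
  obtain ⟨X3, h3⟩ := big M1 ha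
  obtain ⟨X4, h4⟩ := bigLog (j0 / a + 1)
  refine ⟨min (min c2 (a * c1)) a, max (max 1 X2) (max X3 X4), by positivity, ?_⟩
  intro X hX L Y q _ n Φ i0 i1 B hL8 hL9 hq hd hb hp ho hY hYX hi0 hi1 hB F hF hFA
  simp only [ge_iff_le, max_le_iff] at hX
  obtain ⟨⟨hX1, hX2⟩, hX3, hX4⟩ := hX
  have hY0 : 0 < Y := lt_of_lt_of_le (by positivity) hY
  have hgf := fun l => hP.gf q (Φ l) (hb l) (hp l)
  have e1 : X ^ min (min c2 (a * c1)) a ≤ X ^ c2 :=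
    Real.rpow_le_rpow_of_exponent_le hX1 ((min_le_left _ _).trans (min_le_left _ _))
  obtain ⟨Mi, hMi, hsum⟩ := h2 X hX2 L Y q n Φ F i1 hL8 hL9 (hq.trans e1) hd hb hp ho
    (hF.trans e1) hFA hY hYX hi1
  have hMi' : ∀ i ∈ Ico i0 i1, Y / 2 ^ (i + 3) ≤ Mi i ∧ Mi i ≤ Y / 2 ^ (i + 2) := fun i hi =>
    hMi i (mem_Ico.1 hi).2
  refine ⟨Mi, hMi', ?_⟩
  have hl := h4 X hX4
  have hj : (0 : ℝ) ≤ j0 / a := by positivity
  have hl0 : 0 < Real.log X := by linarith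
  have hbil : ∀ l, ∀ ξ ∈ F,
      ‖tw (ft i0 i1 B Mi) (prj q (Φ l) ξ.2) (ξ.1 / L) (Ioc ⌊Y / 8⌋₊ ⌊32 * Y⌋₊)‖ ≤
      ∑ i ∈ Ico i0 i1, ‖tw 1 (fun n => ξ.2 n) (ξ.1 / L) (blk (2 ^ i))‖ *
        ‖FF (prj q (Φ l) ξ.2) (ξ.1 / L) (Mi i)‖ := by
    intro l ξ _
    rw [hFt.bil i0 i1 B Mi Y _ _ (fun n => ξ.2 n) hY0 hMi' fun p hp m => (hgf l).mul _ _ _ ?_]
    · rw [norm_mul, norm_neg, norm_inv, Complex.norm_natCast]
      refine (mul_le_of_le_one_left (norm_nonneg _)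
        (inv_le_one_of_one_le₀ (by exact_mod_cast hB))).trans ((norm_sum_le _ _).trans_eq ?_)
      exact sum_congr rfl fun i _ => norm_mul _ _
    · obtain ⟨p1, p2⟩ := mem_filter.1 hp
      have p3 : (q : ℝ) ≤ 2 ^ i0 :=
        (hq.trans (Real.rpow_le_rpow_of_exponent_le hX1 (min_le_right _ _))).trans hi0
      have p4 : q ≤ 2 ^ i0 := by exact_mod_cast p3
      exact (p2.coprime_iff_not_dvd).2
        (Nat.not_dvd_of_pos_of_lt (NeZero.pos q) (p4.trans_lt (mem_Ioc.1 p1).1))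
  have hP : ∀ i ∈ Ico i0 i1, ∑ ξ ∈ F, ‖tw 1 (fun n => ξ.2 n) (ξ.1 / L) (blk (2 ^ i))‖ ^ 2 ≤
      C / (a * Real.log X) * (4 / (a * Real.log X)) := by
    intro i hi
    have m1 : X ^ a ≤ (2 : ℝ) ^ i := hi0.trans (pow_le_pow_right₀ one_le_two (mem_Ico.1 hi).1)
    have p1 : X ^ min (min c2 (a * c1)) a ≤ ((2 : ℝ) ^ i) ^ c1 :=
      pow_le hX1 m1 hc1.le ((min_le_left _ _).trans (min_le_right _ _))
    have p2 : X ^ A ≤ ((2 : ℝ) ^ i) ^ (max A 0 / a) :=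
      pow_le hX1 m1 (by positivity) (by
        rw [mul_div_cancel₀ _ ha.ne']
        exact le_max_left _ _)
    have p3 : a * Real.log X ≤ Real.log ((2 : ℝ) ^ i) := by
      rw [← Real.log_rpow (by linarith)]
      exact Real.log_le_log (by positivity) m1
    have p4 : a * Real.log X ≤ i := by
      rw [Real.log_pow] at p3
      have := Real.log_two_lt_d9
      have h0 : (0 : ℝ) ≤ i := Nat.cast_nonneg i
      nlinarith
    have p5 : j0 ≤ i := by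
      have : (j0 : ℝ) ≤ a * Real.log X := by
        have := mul_le_mul_of_nonneg_left hl ha.le
        rw [mul_add, mul_div_cancel₀ _ ha.ne'] at this
        linarith
      exact_mod_cast this.trans p4
    have b := h1 (2 ^ i) L q F (blk (2 ^ i)) ((h3 X hX3).trans m1) hL8 hL9 (NeZero.pos q)
      (hq.trans p1) (hF.trans p1) (fun ξ hξ => (hFA ξ hξ).trans p2) (by
        refine (filter_subset _ _).trans (Ioc_subset_Ioc ?_ ?_)
        · exact Nat.floor_le_of_le (by push_cast; rfl)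
        · refine Nat.le_floor ?_
          push_cast
          exact mul_le_mul_of_nonneg_right (by linarith [exp8]) (by positivity))
      fun p hp => (mem_filter.1 hp).2
    have hal : 0 < a * Real.log X := by positivity
    refine b.trans (mul_le_mul (div_le_div_of_nonneg_left hC.le hal p3)
      ((hj0 i p5).2.trans (div_le_div_of_nonneg_left (by norm_num) hal p4)) ?_ (by positivity))
    exact sum_nonneg fun p _ => by positivity
  refine (sum_le_sum fun l _ => (sum_le_sum (hbil l)).trans_eq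
    (sum_comm.trans (sum_product' _ _ _).symm)).trans ?_
  rw [← sum_product' (f := fun l (x : ℕ × ℤ × DirichletCharacter ℂ q) =>
    ‖tw 1 (fun n => x.2.2 n) (x.2.1 / L) (blk (2 ^ x.1))‖ *
      ‖FF (prj q (Φ l) x.2.2) (x.2.1 / L) (Mi x.1)‖)]
  refine (Real.sum_mul_le_sqrt_mul_sqrt _ _ _).trans ?_
  rw [← Real.sqrt_mul (by positivity)]
  simp only [sum_product]
  refine Real.sqrt_le_iff.2 ⟨by positivity, ?_⟩
  have s1 := (sum_le_sum hP).trans_eq (sum_const _)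
  have s2 : (#(Ico i0 i1) : ℝ) ≤ Real.log X := by
    have t1 := idx_le hX1 hi1
    have t2 : (#(Ico i0 i1) : ℝ) ≤ i1 := by
      rw [Nat.card_Ico]
      exact_mod_cast Nat.sub_le _ _
    have t3 : (0 : ℝ) ≤ i1 := Nat.cast_nonneg _
    linarith
  rw [nsmul_eq_mul] at s1
  have s3 := mul_le_mul_of_nonneg_left
    (s1.trans (mul_le_mul_of_nonneg_right s2 (by positivity))) (Nat.cast_nonneg (α := ℝ) n)
  have s4 := (sum_le_sum fun l (_ : l ∈ range n) => sum_le_sum_of_subset_of_nonneg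
    (s := Ico i0 i1) (fun i hi => mem_range.2 (mem_Ico.1 hi).2)
    fun i _ _ => by positivity).trans hsum
  rw [sum_const, card_range, nsmul_eq_mul]
  refine (mul_le_mul s3 s4 (by positivity) (by positivity)).trans_eq ?_
  field_simp

end Pool.Agent.Lib.MP_028aa5_nt.V
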