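import Pool.Agent.Lib.MP_028aa5_nt.V.KSt
import Pool.Agent.Lib.MP_028aa5_nt.T.End
import Pool.Agent.Lib.MP_028aa5_nt.T.Lam

/-! The end game for a kernel: transfer of one component to the finite group. -/

namespace Pool.Agent.Lib.MP_028aa5_nt.V

open Finset T U
open scoped ComplexConjugate Classical

theorem st_EndK (hD : DenSt) (hFour : FourSt) (hCh : ChSt) (hLam : LamKSt) (hC : CkSt) :
    EndKSt := by
  intro π f f' Φ η ε1 ε2 u K W β er JL JU Nj Jm q Q1 N0 _ _ vU vL Gd ok hc hf hΦ hW hK hN0 hNc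
    hK8 hKY hf' hff h1 h2 h3 hu hu1 her hη
  have k0 := ok.κ0
  have κp : 0 < π.κ := k0.trans_le (LamA.κ0_le ok)
  have yp : ∀ j, 0 < π.yy j := fun j => Real.exp_pos _
  have Yp := yp JL
  have hL : Nj ≤ N0 := by
    have e1 : Real.log 4 ≤ 4 - 1 := Real.log_le_sub_one_of_pos (by norm_num)
    have e2 : (Nj : ℝ) * π.κ0 ≤ N0 * π.κ0 := by linarith
    exact_mod_cast le_of_mul_le_mul_right e2 k0
  have iU := End.inj (N0 := N0) (a := JU) (b := JU + Nj) (by omega)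
  have iL := End.inj (N0 := N0) (a := JL) (b := JL + Nj) (by omega)
  set RU := Ico JU (JU + Nj) with hRU
  set RL := Ico JL (JL + Nj) with hRL
  set S0 := Ioc ⌊π.yy JL / 8⌋₊ ⌊32 * π.yy JL⌋₊ with hS0
  have mono : ∀ i j, i ≤ j → π.yy i ≤ π.yy j := fun i j h =>
    Real.exp_le_exp.2 (mul_le_mul_of_nonneg_right (Nat.cast_le.2 h) k0.le)
  have lgy : ∀ j, Real.log (π.yy j) = j * π.κ0 := fun j => Real.log_exp _
  have hS : S0 ⊆ Ioc ⌊π.yy JL / 8⌋₊ ⌊π.yy JL / 8 * Real.exp 6⌋₊ :=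
    Ioc_subset_Ioc_right (Nat.floor_le_floor (by nlinarith [End.exp6]))
  have big : ∀ j, JL ≤ j → K ≤ π.κ * π.yy j := fun j hj =>
    hKY.trans (mul_le_mul_of_nonneg_left (mono _ _ hj) κp.le)
  have u0 : 0 ≤ u := k0.le.trans hu
  have w0 : W * π.κ0 ≤ W * u := mul_le_mul_of_nonneg_left hu hW
  have w1 : 0 ≤ W * u := mul_nonneg hW u0
  have w2 : 0 ≤ u / π.κ := div_nonneg u0 κp.le
  have K0 : 0 ≤ 1 / K := div_nonneg (by norm_num) (by linarith)
  have K1 : 80 / K = 80 * (1 / K) := by ring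
  have mv : ∀ (j a : ℕ) (y v : ℝ), JL ≤ j → 0 < y → |Real.log y - j * π.κ0| ≤ v → v ≤ 1 →
      ‖ck π.κ f Φ y a - ck π.κ f Φ (π.yy j) a‖ ≤ 40 * (v / π.κ + 1 / K) + 20 * W * v := by
    intro j a y v hj hy e1 e2
    have e3 := big j hj
    refine (hC.move π.κ W β q Q1 f Φ (π.yy j) y v a hΦ hf κp ok.κ hW (by linarith) hy
      (by rwa [lgy]) e2).trans ?_
    have := one_div_le_one_div_of_le (by linarith) e3
    linarith
  have near : ∀ j ∈ RL, ∀ a : (ZMod q)ˣ, ‖LamK π N0 q S0 f' Φ (j, a) -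
      ck π.κ f Φ (π.yy j) (a : ZMod q).val‖ ≤ 2 * π.κ + 8 * W * π.κ0 := by
    intro j hj a
    have e1 := mono _ _ (mem_Ico.1 hj).1
    have e2 : π.yy j ≤ 4 * π.yy JL := by
      refine (mono _ _ (mem_Ico.1 hj).2.le).trans ?_
      rw [LamA.yy_add, mul_comm]
      refine mul_le_mul_of_nonneg_right ?_ Yp.le
      rw [← Real.exp_log (by norm_num : (0 : ℝ) < 4)]
      exact Real.exp_le_exp.2 hNc
    refine hLam.near π N0 q Q1 S0 f f' Φ W β (π.yy JL / 8) j a ok hΦ hW hN0 (by positivity) hS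
      (by linarith) (by nlinarith [End.exp6]) (by linarith [big _ (mem_Ico.1 hj).1]) hf
      fun n hn => ?_
    have e3 : n ∈ Ioc ⌊π.yy JL⌋₊ ⌊8 * π.yy JL⌋₊ :=
      Ioc_subset_Ioc (Nat.floor_le_floor e1) (Nat.floor_le_floor (by nlinarith [ok.κ])) hn
    exact ⟨Ioc_subset_Ioc (Nat.floor_le_floor (by linarith)) (Nat.floor_le_floor (by linarith)) e3,
      hff n e3⟩
  have gd : ∀ g ∈ Gd, g.1 ∈ RU ∧ g.1 - π.lg g.2.2 ∈ RL ∧
      sh π N0 q g.2.2 ((g.1 : ZMod N0), g.2.1) =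
        (((g.1 - π.lg g.2.2 : ℕ) : ZMod N0), g.2.1 * un q g.2.2) := by
    intro g hg
    obtain ⟨-, -, e1, e2, e3, -⟩ := hK.gd g hg
    refine ⟨e2, e3, ?_⟩
    rw [Nat.cast_sub e1]
    rfl
  have sq : ∑ g : ZMod N0 × (ZMod q)ˣ, ((∑ i ∈ RU with ((i : ℕ) : ZMod N0) = g.1, vU i g.2) ^ 2 +
      (∑ i ∈ RL with ((i : ℕ) : ZMod N0) = g.1, vL i g.2) ^ 2) =
      ∑ j ∈ range Jm, ∑ a, (vU j a ^ 2 + vL j a ^ 2) := by
    rw [sum_add_distrib]
    simp only [sum_add_distrib]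
    congr 1
    · exact End.sq_sum iU vU fun j a h => ⟨(hK.sU j a h).1, mem_range.2 (hK.sU j a h).2⟩
    · exact End.sq_sum iL vL fun j a h => ⟨(hK.sL j a h).1, mem_range.2 (hK.sL j a h).2.1⟩
  have fU : ∀ {M : Type} [AddCommMonoid M] (F : ℕ → M), ∀ j ∈ RU,
      ∑ i ∈ RU with ((i : ℕ) : ZMod N0) = (j : ZMod N0), F i = F j :=
    fun F j hj => End.fib iU F hj
  have fL : ∀ (F : ℕ → ℝ), ∀ j ∈ RL,
      ∑ i ∈ RL with ((i : ℕ) : ZMod N0) = (j : ZMod N0), F i = F j :=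
    fun F j hj => End.fib iL F hj
  have key := hFour (ZMod N0 × (ZMod q)ˣ) (ZMod N0 × DirichletCharacter ℂ q) (ch N0 q) (dv N0 q)
    {p ∈ π.PP | Nat.Coprime p q} (#π.PP) (sh π N0 q) (mul π N0 q)
    (fun g => ∑ i ∈ RU with ((i : ℕ) : ZMod N0) = g.1, vU i g.2)
    (fun g => ∑ i ∈ RL with ((i : ℕ) : ZMod N0) = g.1, vL i g.2)
    (Gd.image fun g => (((g.1 : ZMod N0), g.2.1), g.2.2))
    (fun g => ∑ i ∈ RU with ((i : ℕ) : ZMod N0) = g.1, ck π.κ f Φ (π.yy i) (g.2 : ZMod q).val)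
    (LamK π N0 q S0 f' Φ) 3 ε1 (ε2 + er) (η - er) (hCh.norm N0 q) (hCh.orth N0 q)
    (fun g g' => by convert hCh.dual N0 q g g') (hCh.dv N0 q)
    (by exact_mod_cast ok.ne.card_pos) (by exact_mod_cast card_filter_le _ _) (hCh.mul π N0 q)
    (fun g => sum_nonneg fun i _ => hK.nU _ _) (fun g => sum_nonneg fun i _ => hK.nL _ _)
    ?_ (by norm_num) ?_
    (fun g => hLam.bd π N0 q S0 f' Φ _ g ok hΦ.bd hN0 (by positivity) hS (by linarith) hf')
    ?_ (by linarith) ?_ (sq ▸ hK.pos) ?_ h1 h2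
  · convert key using 3
    · norm_num
    · rw [spec]
      congr
      exact Subsingleton.elim _ _
  · intro x hx
    obtain ⟨g, hg, rfl⟩ := mem_image.1 hx
    obtain ⟨e0, e1, -⟩ := hK.gd g hg
    exact mem_filter.2 ⟨e0, e1⟩
  · rintro ⟨z, a⟩
    by_cases h : ∃ j ∈ RU, ((j : ℕ) : ZMod N0) = z
    · obtain ⟨j, hj, rfl⟩ := h
      rw [fU (fun i => ck π.κ f Φ (π.yy i) (a : ZMod q).val) j hj]
      have e1 := big _ (hc.trans (mem_Ico.1 hj).1)
      exact (hC.bd _ _ _ _ _ hf hΦ.bd κp (by linarith)).trans (by norm_num)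
    · rw [sum_eq_zero fun i hi => absurd ⟨i, mem_filter.1 hi⟩ h, norm_zero]
      norm_num
  · intro x hx
    obtain ⟨g, hg, rfl⟩ := mem_image.1 hx
    obtain ⟨g1, g2, g3⟩ := gd g hg
    obtain ⟨e0, e1, e2, -, -, y, y0, e3, e4⟩ := hK.gd g hg
    have p0 : 0 < g.2.2 := (ok.pr _ e0).1.pos
    have p1 : (0 : ℝ) < g.2.2 := by exact_mod_cast p0
    have e5 := mv g.1 (g.2.1 : ZMod q).val y u (hc.trans (mem_Ico.1 g1).1) y0 e3 (by linarith)
    have e6 := mv (g.1 - π.lg g.2.2) ((g.2.1 : ZMod q).val * g.2.2) (y / g.2.2) (2 * u)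
      (mem_Ico.1 g2).1 (by positivity) (by
        have l1 := LamA.lg_lt ok g.2.2
        have l2 : Real.log g.2.2 ≤ π.lg g.2.2 * π.κ0 :=
          (Real.log_le_iff_le_exp p1).2 ((LamA.lg_le ok p0 _).1 le_rfl)
        rw [Real.log_div y0.ne' p1.ne', Nat.cast_sub e2, sub_mul, abs_le]
        constructor <;> linarith [(abs_le.1 e3).1, (abs_le.1 e3).2]) hu1
    have e8 := near _ g2 (g.2.1 * un q g.2.2)
    rw [hC.mod _ _ _ _ q _ _ hΦ.per (hD.un q _ g.2.1 e1)] at e8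
    dsimp only
    rw [g3, fU (fun i => ck π.κ f Φ (π.yy i) (g.2.1 : ZMod q).val) _ g1]
    have e9 := norm_add_le_of_le (norm_sub_le_of_le (norm_sub_le_of_le e4 e5) e6) e8
    refine le_trans (le_of_eq (congrArg _ (by ring))) (e9.trans ?_)
    rw [mul_div_assoc]
    linarith
  · rintro ⟨z, a⟩ h
    obtain ⟨j, hj', h0⟩ := exists_ne_zero_of_sum_ne_zero h
    obtain ⟨hj, rfl⟩ := mem_filter.1 hj'
    obtain ⟨-, -, y, y0, e3, e4⟩ := hK.sL j a h0
    have e5 := mv j (a : ZMod q).val y u (mem_Ico.1 hj).1 y0 e3 (by linarith)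
    have e6 := near j hj a
    have e7 := norm_sub_norm_le (ck π.κ f Φ (π.yy j) (a : ZMod q).val)
      (LamK π N0 q S0 f' Φ (j, a))
    have e8 := norm_sub_norm_le (ck π.κ f Φ y (a : ZMod q).val)
      (ck π.κ f Φ (π.yy j) (a : ZMod q).val)
    rw [norm_sub_rev] at e7
    linarith
  · rw [sq, sum_image]
    · refine hK.ray.trans (le_of_eq ?_)
      congr 1
      refine sum_congr rfl fun g hg => ?_
      obtain ⟨g1, g2, g3⟩ := gd g hg
      dsimp only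
      rw [g3, fU (fun i => vU i g.2.1) _ g1, fL (fun i => vL i (g.2.1 * un q g.2.2)) _ g2]
    · intro g hg g' hg' e
      simp only [Prod.mk.injEq] at e
      exact Prod.ext (iU (gd g hg).1 (gd g' hg').1 e.1.1) (Prod.ext e.1.2 e.2)

end Pool.Agent.Lib.MP_028aa5_nt.V
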