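import Pool.Agent.Lib.MP_028aa5_nt.V.KSt
import Pool.Agent.Lib.MP_028aa5_nt.T.Hat

/-! The Fourier coefficients of the model for a kernel. -/

namespace Pool.Agent.Lib.MP_028aa5_nt.V

open Finset T U
open scoped ComplexConjugate Classical

namespace HatK

open Hat

lemma abel_bd (w : ℕ → ℂ) (hw : ∀ m, ‖w m‖ ≤ 1) {x V : ℝ} (hx : |x| ≤ 1 / 2) (L : ℕ)
    (hV : ∑ m ∈ range L, ‖w m - w (m + 1)‖ ≤ V) :
    4 * |x| * ‖∑ m ∈ range L, w (m + 1) * e (x * (m + 1 : ℕ))‖ ≤ 2 + V := by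
  have h1 := abel w (e x) (norm_e x) L
  simp only [← e_pow]
  generalize ∑ m ∈ range L, w (m + 1) * e x ^ (m + 1) = s at h1 ⊢
  have h2 : (e x - 1) * s = ((e x - 1) * s - w L * e x ^ (L + 1) + w 0 * e x) +
      w L * e x ^ (L + 1) - w 0 * e x := by ring
  have h3 : ‖(e x - 1) * s‖ ≤ V + 1 + 1 := by
    rw [h2]
    refine (norm_sub_le _ _).trans (add_le_add ((norm_add_le _ _).trans (add_le_add
      (h1.trans hV) ?_)) ?_)
    · simpa using hw L
    · simpa using hw 0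
  rw [norm_mul] at h3
  have := mul_le_mul_of_nonneg_right (le_norm_e_sub_one hx) (norm_nonneg s)
  linarith

lemma yy_mem {π : Par} (h0 : 0 < π.κ0) {m : ℕ} (hm : m ≤ π.G * π.Nf) :
    π.yy m ∈ Set.Icc 1 (1 + π.κ) := by
  refine ⟨Real.one_le_exp (by positivity), ?_⟩
  have h2 : π.yy (π.G * π.Nf) = 1 + π.κ := by
    simp only [Par.yy, Par.κ, Par.κ1]; push_cast; rw [mul_assoc]; ring
  rw [← h2]
  exact Real.exp_le_exp.2 (mul_le_mul_of_nonneg_right (Nat.cast_le.2 hm) h0.le)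

lemma var_bd (hP : PrjSt) {π : Par} (hπ : π.Ok) {W β : ℝ} {q Q1 : ℕ} [NeZero q]
    {Φ : ℝ → ℕ → ℂ} (hK : Ker π.κ W β q Q1 Φ) (hW : 0 ≤ W) (χ : DirichletCharacter ℂ q) (n : ℕ) :
    ∑ m ∈ range (π.G * π.Nf), ‖prj q (Φ (π.yy m)) χ n - prj q (Φ (π.yy (m + 1))) χ n‖ ≤ W := by
  have h1 : ∀ m ∈ range (π.G * π.Nf), ‖prj q (Φ (π.yy m)) χ n - prj q (Φ (π.yy (m + 1))) χ n‖ ≤
      W * (π.yy (m + 1) - π.yy m) := fun m hm => by
    refine hP.sub q _ _ χ n _ fun l => (hK.lip _ (yy_mem hπ.κ0 (mem_range.1 hm).le) _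
      (yy_mem hπ.κ0 (mem_range.1 hm)) l).trans_eq ?_
    have h5 : π.yy m ≤ π.yy (m + 1) := Real.exp_le_exp.2 (by
      push_cast
      linarith [hπ.κ0])
    rw [abs_sub_comm, abs_of_nonneg (sub_nonneg.2 h5)]
  refine (sum_le_sum h1).trans ?_
  rw [← mul_sum, sum_range_sub π.yy]
  have h2 := (yy_mem hπ.κ0 (le_refl (π.G * π.Nf))).2
  have h3 := (yy_mem (π := π) hπ.κ0 (Nat.zero_le _)).1
  exact mul_le_of_le_one_right hW (by linarith [hπ.κ])

lemma sum_ker {π : Par} (hπ : π.Ok) {N0 : ℕ} [NeZero N0] (hN : 8 ≤ N0 * π.κ0)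
    (Φ : ℝ → ℕ → ℂ) (h : ℤ) (l : ℕ) :
    ∑ i : ZMod N0, kerK π N0 Φ i l * e (h / N0 * i.val) =
      ∑ m ∈ range (π.G * π.Nf), Φ (π.yy (m + 1)) l * e (h / N0 * (m + 1 : ℕ)) := by
  have hlt : π.G * π.Nf < N0 := by
    have h1 := GNf_le π
    have h2 := hπ.κ
    have h3 : ((π.G * π.Nf : ℕ) : ℝ) * π.κ0 < N0 * π.κ0 := by push_cast; linarith
    exact_mod_cast lt_of_mul_lt_mul_right h3 hπ.κ0.le
  simp only [kerK]
  rw [sum_val fun m => (if 0 < m ∧ m ≤ π.G * π.Nf then Φ (π.yy m) l else 0) * e (h / N0 * m)]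
  simp only [ite_mul, zero_mul]
  rw [← sum_filter]
  have h4 : (range N0).filter (fun m => 0 < m ∧ m ≤ π.G * π.Nf) = Ico 1 (π.G * π.Nf + 1) := by
    ext m
    simp only [mem_filter, mem_range, mem_Ico]
    omega
  rw [h4, sum_Ico_eq_sum_range]
  simp only [add_tsub_cancel_right, add_comm 1]

lemma hat_eq (hC : ChSt) {π : Par} (hπ : π.Ok) (N0 q : ℕ) [NeZero N0] [NeZero q]
    (hN : 8 ≤ N0 * π.κ0) (S : Finset ℕ) (f : ℕ → ℂ) (Φ : ℝ → ℕ → ℂ)
    (ξ : ZMod N0 × DirichletCharacter ℂ q) :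
    hat (ch N0 q) (LamK π N0 q S f Φ) ξ = (π.κ : ℂ)⁻¹ * (N0 : ℂ)⁻¹ *
      ∑ n ∈ S, f n / n * e (-(ξ.1.valMinAbs / N0 * π.lg n)) * ∑ m ∈ range (π.G * π.Nf),
        prj q (Φ (π.yy (m + 1))) ξ.2 n * e (ξ.1.valMinAbs / N0 * (m + 1 : ℕ)) := by
  obtain ⟨h, χ⟩ := ξ
  have key : ∀ n l, ∑ j : ZMod N0, kerK π N0 Φ ((π.lg n : ZMod N0) - j) l *
      conj (e ((h.val * j.val : ℝ) / N0)) =
      (∑ m ∈ range (π.G * π.Nf), Φ (π.yy (m + 1)) l * e (h.valMinAbs / N0 * (m + 1 : ℕ))) *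
        e (-(h.valMinAbs / N0 * π.lg n)) := fun n l => by
    rw [← sum_ker hπ hN, sum_mul, ← (Equiv.subLeft (π.lg n : ZMod N0)).sum_comp]
    refine sum_congr rfl fun i _ => ?_
    have h1 := hC.cast N0 h.valMinAbs (π.lg n - i.val)
    have h2 : (((π.lg n - i.val : ℤ)) : ZMod N0) = (π.lg n : ZMod N0) - i := by simp
    rw [ZMod.coe_valMinAbs, h2] at h1
    simp only [Equiv.subLeft_apply, sub_sub_cancel]
    rw [h1, conj_e, mul_assoc, ← e_add]
    congr 2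
    push_cast
    ring
  have hφ : (Fintype.card (ZMod q)ˣ : ℂ) = q.totient := by rw [ZMod.card_units_eq_totient]
  simp only [hat, LamK, ch, prj, Fintype.card_prod, ZMod.card, Nat.cast_mul, hφ,
    Fintype.sum_prod_type, map_mul]
  have step : ∀ n : ℕ, (N0 : ℂ)⁻¹ * (f n / n * e (-(h.valMinAbs / N0 * π.lg n)) *
      ∑ m ∈ range (π.G * π.Nf), ((q.totient : ℂ)⁻¹ * ∑ a : (ZMod q)ˣ, conj (χ a) *
        Φ (π.yy (m + 1)) ((a : ZMod q).val * n)) * e (h.valMinAbs / N0 * (m + 1 : ℕ))) =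
      ((N0 : ℂ) * q.totient)⁻¹ * ∑ j : ZMod N0, ∑ a : (ZMod q)ˣ,
        f n / n * kerK π N0 Φ ((π.lg n : ZMod N0) - j) ((a : ZMod q).val * n) *
          (conj (e ((h.val * j.val : ℝ) / N0)) * conj (χ a)) := fun n => by
    have e1 : ∑ j : ZMod N0, ∑ a : (ZMod q)ˣ,
        f n / n * kerK π N0 Φ ((π.lg n : ZMod N0) - j) ((a : ZMod q).val * n) *
          (conj (e ((h.val * j.val : ℝ) / N0)) * conj (χ a)) =
        ∑ a : (ZMod q)ˣ, f n / n * conj (χ a) * ∑ j : ZMod N0,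
          kerK π N0 Φ ((π.lg n : ZMod N0) - j) ((a : ZMod q).val * n) *
            conj (e ((h.val * j.val : ℝ) / N0)) := by
      rw [sum_comm]
      refine sum_congr rfl fun a _ => ?_
      rw [mul_sum]
      exact sum_congr rfl fun j _ => by ring
    rw [e1]
    simp only [key, mul_sum, sum_mul]
    rw [sum_comm]
    refine sum_congr rfl fun a _ => sum_congr rfl fun m _ => ?_
    ring
  rw [mul_assoc (π.κ : ℂ)⁻¹, mul_sum S]
  simp only [step]
  rw [← mul_sum S, mul_left_comm]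
  congr 1
  rw [sum_comm (s := S), mul_sum]
  refine sum_congr rfl fun j _ => ?_
  rw [sum_comm (s := S), mul_sum]
  refine sum_congr rfl fun a _ => ?_
  rw [mul_assoc, sum_mul]

end HatK

open Hat HatK in
theorem st_HatK (hC : ChSt) (hG : GrSt) (hP : PrjSt) : HatKSt := by
  intro N0 q _ _ T1 F hT
  have hN0 : (0 : ℝ) < N0 := by exact_mod_cast Nat.pos_of_ne_zero (NeZero.ne N0)
  let F0 := F.filter fun ξ => |(ξ.1.valMinAbs : ℝ)| ≤ T1
  let φ : ZMod N0 × DirichletCharacter ℂ q → ℤ × DirichletCharacter ℂ q :=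
    fun ξ => (ξ.1.valMinAbs, ξ.2)
  have hφ : Function.Injective φ := fun ξ ξ' h =>
    Prod.ext (ZMod.injective_valMinAbs (Prod.ext_iff.1 h).1) (Prod.ext_iff.1 h).2
  refine ⟨F0.image φ, card_image_le.trans (card_filter_le _ _), fun ξ hξ => ?_, ?_⟩
  · obtain ⟨ξ', h, rfl⟩ := mem_image.1 hξ
    exact (mem_filter.1 h).2
  intro π S f Φ Q1 W β A hπ hK hw hN hA hS hf
  have hκ := κ_pos hπ
  have h7 := harm hG hA hS
  have hn0 : (0 : ℝ) < (π.G * π.Nf : ℕ) := by exact_mod_cast Nat.mul_pos hπ.G hπ.Nf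
  have hc0 : ∀ n ∈ S, ‖f n / n‖ ≤ 1 / (n : ℝ) := fun n hn => by
    rw [norm_div, Complex.norm_natCast]
    exact div_le_div_of_nonneg_right (hf n hn) (Nat.cast_nonneg n)
  have hc : ∀ z χ, ∀ n ∈ S, ‖f n * prj q (Φ z) χ n / n‖ ≤ 1 / (n : ℝ) := fun z χ n hn => by
    rw [norm_div, norm_mul, Complex.norm_natCast]
    exact div_le_div_of_nonneg_right
      (mul_le_one₀ (hf n hn) (norm_nonneg _) (hP.bd _ _ _ _ (hK.bd z))) (Nat.cast_nonneg n)
  rw [sum_comm, sum_image fun _ _ _ _ h => hφ h, mul_sum, sum_filter, ← nsmul_eq_mul #F,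
    ← sum_const, ← sum_add_distrib]
  refine sum_le_sum fun ξ _ => ?_
  rw [HatK.hat_eq hC hπ N0 q hN, norm_mul, norm_mul, norm_inv, norm_inv, Complex.norm_real,
    Real.norm_of_nonneg hκ.le, Complex.norm_natCast]
  obtain ⟨a, χ⟩ := ξ
  have ha : 2 * |(a.valMinAbs : ℝ)| ≤ N0 := by
    have h1 := a.valMinAbs_mem_Ioc
    have h2 : 2 * |a.valMinAbs| ≤ N0 := by
      rcases abs_cases a.valMinAbs with h | h <;> linarith [h1.1, h1.2, h.1]
    exact_mod_cast h2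
  simp only [φ]
  generalize a.valMinAbs = h at ha ⊢
  have p1 : 0 ≤ 7 * T1 / N0 := by positivity
  have p2 : 0 ≤ 4 * (1 + W) / (π.κ * T1) := by positivity
  split_ifs with hh
  · have h1 : ∀ z, ‖∑ n ∈ S, f n * prj q (Φ z) χ n / n * e (-(h / N0 * π.lg n))‖ ≤
        ‖tw f (prj q (Φ z) χ) (h / (N0 * π.κ0)) S‖ + 7 * (7 * T1 / N0) := fun z => by
      refine (norm_le_insert' _ (tw f (prj q (Φ z) χ) (h / (N0 * π.κ0)) S)).trans
        (add_le_add le_rfl ?_)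
      rw [tw, ← sum_sub_distrib]
      refine (norm_sum_le _ _).trans (le_trans (sum_le_sum (g := fun n : ℕ => 1 / (n : ℝ) *
        (7 * T1 / N0)) fun n hn => ?_) ?_)
      · rw [← mul_sub, norm_mul]
        refine mul_le_mul (hc z χ n hn) ((norm_e_sub_le _ _).trans ?_) (norm_nonneg _)
          (by positivity)
        have h2 : -((h : ℝ) / N0 * π.lg n) - -(h / (N0 * π.κ0)) * Real.log n =
            -(h / N0 * (π.lg n - Real.log n / π.κ0)) := by ring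
        rw [h2, abs_neg, abs_mul, abs_div, abs_of_pos hN0, mul_div_assoc]
        refine mul_le_mul_of_nonneg_left ?_ (by norm_num)
        exact (mul_le_of_le_one_right (by positivity) (lg_near hπ.κ0 n)).trans
          (div_le_div_of_nonneg_right hh hN0.le)
      · rw [← sum_mul]
        exact mul_le_mul_of_nonneg_right h7 p1
    have h2 : ‖∑ n ∈ S, f n / n * e (-(h / N0 * π.lg n)) * ∑ m ∈ range (π.G * π.Nf),
        prj q (Φ (π.yy (m + 1))) χ n * e (h / N0 * (m + 1 : ℕ))‖ ≤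
        ∑ m ∈ range (π.G * π.Nf), (‖tw f (prj q (Φ (π.yy (m + 1))) χ) (h / (N0 * π.κ0)) S‖ +
          7 * (7 * T1 / N0)) := by
      simp only [mul_sum]
      rw [sum_comm]
      refine norm_sum_le_of_le _ fun m _ => le_trans (le_of_eq ?_) (h1 (π.yy (m + 1)))
      rw [← mul_one ‖∑ n ∈ S, f n * prj q (Φ (π.yy (m + 1))) χ n / n * e (-(h / N0 * π.lg n))‖,
        ← norm_e (h / N0 * (m + 1 : ℕ)), ← norm_mul, sum_mul]
      congr 1
      exact sum_congr rfl fun n _ => by ring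
    rw [sum_add_distrib, sum_const, card_range, nsmul_eq_mul] at h2
    have h3 : π.κ⁻¹ * (N0 : ℝ)⁻¹ ≤ 1 / 8 * ((π.G * π.Nf : ℕ) : ℝ)⁻¹ := by
      rw [← mul_inv, one_div, ← mul_inv]
      refine inv_anti₀ (by positivity) (le_of_mul_le_mul_right ?_ hπ.κ0)
      have := GNf_le π
      push_cast
      nlinarith
    have h5 : 0 ≤ ∑ m ∈ range (π.G * π.Nf),
        ‖tw f (prj q (Φ (π.yy (m + 1))) χ) (h / (N0 * π.κ0)) S‖ := by positivity
    refine (mul_le_mul h3 h2 (norm_nonneg _) (by positivity)).trans ?_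
    rw [mul_add, mul_assoc (1 / 8), mul_assoc (1 / 8), inv_mul_cancel_left₀ hn0.ne']
    have h6 := mul_nonneg (inv_nonneg.2 hn0.le) h5
    linarith
  · have hx : |(h : ℝ) / N0| ≤ 1 / 2 := by
      rw [abs_div, abs_of_pos hN0, div_le_iff₀ hN0]; linarith
    have h1 : ∀ n, ‖∑ m ∈ range (π.G * π.Nf), prj q (Φ (π.yy (m + 1))) χ n *
        e (h / N0 * (m + 1 : ℕ))‖ ≤ (2 + W) * N0 / (4 * T1) := fun n => by
      have h2 := HatK.abel_bd (fun m => prj q (Φ (π.yy m)) χ n)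
        (fun m => hP.bd _ _ _ _ (hK.bd _)) hx _ (var_bd hP hπ hK hw χ n)
      rw [abs_div, abs_of_pos hN0] at h2
      rw [le_div_iff₀ (by positivity)]
      have h3 := mul_le_mul_of_nonneg_right h2 hN0.le
      have h4 := mul_le_mul_of_nonneg_right (not_le.1 hh).le (norm_nonneg
        (∑ m ∈ range (π.G * π.Nf), prj q (Φ (π.yy (m + 1))) χ n * e (h / N0 * (m + 1 : ℕ))))
      generalize ‖∑ m ∈ range (π.G * π.Nf), prj q (Φ (π.yy (m + 1))) χ n *
        e (h / N0 * (m + 1 : ℕ))‖ = s at h3 h4 ⊢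
      have h5 : 4 * (|(h : ℝ)| / N0) * s * N0 = 4 * (|(h : ℝ)| * s) := by field_simp
      linarith
    have h2 : ‖∑ n ∈ S, f n / n * e (-(h / N0 * π.lg n)) * ∑ m ∈ range (π.G * π.Nf),
        prj q (Φ (π.yy (m + 1))) χ n * e (h / N0 * (m + 1 : ℕ))‖ ≤
        7 * ((2 + W) * N0 / (4 * T1)) := by
      refine (norm_sum_le_of_le _ (n := fun n : ℕ => 1 / (n : ℝ) * ((2 + W) * N0 / (4 * T1)))
        fun n hn => ?_).trans ?_
      · rw [norm_mul, norm_mul, norm_e, mul_one]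
        exact mul_le_mul (hc0 n hn) (h1 n) (norm_nonneg _) (by positivity)
      · rw [← sum_mul]
        exact mul_le_mul_of_nonneg_right h7 (by positivity)
    refine (mul_le_mul_of_nonneg_left h2 (by positivity)).trans ?_
    have h3 : π.κ⁻¹ * (N0 : ℝ)⁻¹ * (7 * ((2 + W) * N0 / (4 * T1))) =
        7 / 4 * (2 + W) / (π.κ * T1) := by field_simp
    have h4 : 7 / 4 * (2 + W) / (π.κ * T1) ≤ 4 * (1 + W) / (π.κ * T1) :=
      div_le_div_of_nonneg_right (by linarith) (by positivity)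
    linarith

end Pool.Agent.Lib.MP_028aa5_nt.V
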