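import Pool.Agent.Lib.MP_028aa5_nt.V.KSt
import Pool.Agent.Lib.MP_028aa5_nt.T.Lam

/-! The model on the finite group for a kernel. -/

namespace Pool.Agent.Lib.MP_028aa5_nt.V

open Finset T U
open scoped ComplexConjugate Classical

open LamA in
theorem st_LamK : LamKSt where
  near := by
    intro π N0 q Q1 _ S f f' Φ W β A j a h hK w0 hN hA hS a1 a2 hy hf hw
    have k0 := h.κ0
    have κ0 : 0 < π.κ := k0.trans_le (κ0_le h)
    have y0 : 0 < π.yy j := Real.exp_pos _
    have b1 : Real.log A ≤ j * π.κ0 := (Real.log_le_iff_le_exp hA).2 a1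
    have b2 : j * π.κ0 ≤ Real.log A + 6 := by
      rw [← Real.exp_le_exp, Real.exp_add, Real.exp_log hA]
      exact a2
    have win : ∀ n : ℕ, 0 < n → (n ∈ Ioc ⌊π.yy j⌋₊ ⌊π.yy j * (1 + π.κ)⌋₊ ↔
        j < π.lg n ∧ π.lg n ≤ j + π.G * π.Nf) := fun n hn => by
      rw [mem_Ioc, Nat.floor_lt y0.le, Nat.le_floor_iff (by positivity), ← not_le (a := π.lg n),
        lg_le h hn, lg_le h hn, not_le, yy_add, yy_W]
    have e1 : LamK π N0 q S f' Φ (j, a) = (π.κ : ℂ)⁻¹ *
        ∑ n ∈ Ioc ⌊π.yy j⌋₊ ⌊π.yy j * (1 + π.κ)⌋₊, f n / n *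
          Φ (π.yy (π.lg n - j)) ((a : ZMod q).val * n) := by
      rw [LamK, ← sum_subset (fun n hn => (hw n hn).1) fun n hn hn' => ?_]
      · congr 1
        refine sum_congr rfl fun n hn => ?_
        obtain ⟨c1, c2⟩ := (win n ((Nat.zero_le _).trans_lt (mem_Ioc.1 hn).1)).1 hn
        have c3 : π.lg n - j ≤ π.G * π.Nf := by omega
        have c4 : π.lg n - j < N0 := by
          exact_mod_cast lt_of_mul_lt_mul_right (show ((π.lg n - j : ℕ) : ℝ) * π.κ0 < N0 * π.κ0 by
            linarith [le_κ h c3, h.κ]) k0.le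
        rw [(hw n hn).2, kerK, ← Nat.cast_sub c1.le, ZMod.val_natCast_of_lt c4,
          if_pos ⟨by omega, c3⟩]
      · rw [kerK, if_neg fun hc => hn' ?_, mul_zero]
        obtain ⟨n0, -, c1, c2⟩ := lg_mem h hA (hS hn)
        dsimp only at hc
        have c3 := le_κ h hc.2
        have c4 := eq_of h hN (x := π.lg n) (y := j + ((π.lg n : ZMod N0) - j).val) (by simp) (by
          rw [Nat.cast_add, add_mul, abs_lt]
          constructor <;> linarith [h.κ, mul_nonneg (Nat.cast_nonneg (α := ℝ)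
            ((π.lg n : ZMod N0) - j).val) k0.le])
        exact (win n n0).2 ⟨by omega, by omega⟩
    rw [e1, ck, mul_sum, mul_sum, ← sum_sub_distrib]
    refine (norm_sum_le_of_le _ (n := fun _ => (π.κ * π.yy j)⁻¹ *
      (π.κ + W * (4 * π.κ0))) fun n hn => ?_).trans ?_
    · have n0 : 0 < n := (Nat.zero_le _).trans_lt (mem_Ioc.1 hn).1
      obtain ⟨c1, c2⟩ := (win n n0).1 hn
      have c3 := (Nat.floor_lt y0.le).1 (mem_Ioc.1 hn).1
      have c4 := (Nat.le_floor_iff (by positivity)).1 (mem_Ioc.1 hn).2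
      have n1 : (0 : ℝ) < n := y0.trans c3
      have c5 : π.yy (π.lg n - j) = π.yy (π.lg n) / π.yy j := by
        rw [eq_div_iff y0.ne', ← yy_add, Nat.sub_add_cancel c1.le]
      have c6 : (n : ℝ) ≤ π.yy (π.lg n) := (lg_le h n0 _).1 le_rfl
      have c7 : π.yy (π.lg n) ≤ n * Real.exp π.κ0 := by
        rw [← Real.exp_log n1, ← Real.exp_add]
        exact Real.exp_le_exp.2 (lg_lt h n).le
      have c8 := (abs_le.1 (Real.abs_exp_sub_one_le
        ((abs_of_pos k0).trans_le ((κ0_le h).trans h.κ)))).2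
      rw [abs_of_pos k0] at c8
      have z1 : |n / π.yy j - 1| ≤ π.κ := by
        rw [abs_of_nonneg (sub_nonneg.2 ((one_le_div y0).2 c3.le)), sub_le_iff_le_add',
          div_le_iff₀' y0]
        exact c4
      have z2 : |π.yy (π.lg n - j) - 1| ≤ π.κ := by
        rw [Par.yy, abs_of_nonneg (sub_nonneg.2 (Real.one_le_exp (by positivity))),
          sub_le_iff_le_add', ← yy_W]
        exact Real.exp_le_exp.2 (mul_le_mul_of_nonneg_right (Nat.cast_le.2 (by omega)) k0.le)
      have z3 : |π.yy (π.lg n - j) - 1 - (n / π.yy j - 1)| ≤ 4 * π.κ0 := by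
        rw [sub_sub_sub_cancel_right, c5, ← sub_div, abs_div, abs_of_pos y0,
          abs_of_nonneg (sub_nonneg.2 c6), div_le_iff₀ y0]
        have : (n : ℝ) ≤ 2 * π.yy j := by nlinarith [h.κ]
        nlinarith [mul_le_mul_of_nonneg_left c8 n1.le, mul_le_mul_of_nonneg_left this k0.le]
      rw [sub_sub_sub_cancel_right] at z3
      have z5 := (hK.lip (π.yy (π.lg n - j))
        ⟨Real.one_le_exp (by positivity), sub_le_iff_le_add'.1 (abs_le.1 z2).2⟩ _
        ⟨(one_le_div y0).2 c3.le, by linarith [(abs_le.1 z1).2]⟩ ((a : ZMod q).val * n)).trans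
        (mul_le_mul_of_nonneg_left z3 w0)
      have e2 : (π.κ : ℂ)⁻¹ * (f n / n * Φ (π.yy (π.lg n - j)) ((a : ZMod q).val * n)) -
          ((π.κ * π.yy j : ℝ) : ℂ)⁻¹ * (f n * Φ (n / π.yy j) ((a : ZMod q).val * n)) =
          (((π.κ * π.yy j)⁻¹ : ℝ) : ℂ) * (f n *
            (((π.yy j / n - 1 : ℝ) : ℂ) * Φ (π.yy (π.lg n - j)) ((a : ZMod q).val * n) +
            (Φ (π.yy (π.lg n - j)) ((a : ZMod q).val * n) -
              Φ (n / π.yy j) ((a : ZMod q).val * n)))) := by
        have d1 : (π.yy j : ℂ) ≠ 0 := by exact_mod_cast y0.ne'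
        push_cast
        field_simp
        ring
      rw [e2, norm_mul, Complex.norm_real, Real.norm_eq_abs, abs_of_pos (by positivity), norm_mul]
      refine mul_le_mul_of_nonneg_left ((mul_le_of_le_one_left (norm_nonneg _) (hf n)).trans
        ((norm_add_le _ _).trans (add_le_add ?_ z5))) (by positivity)
      rw [norm_mul]
      refine (mul_le_of_le_one_right (norm_nonneg _) (hK.bd _ _)).trans ?_
      rw [Complex.norm_real, Real.norm_eq_abs, abs_sub_comm,
        abs_of_nonneg (sub_nonneg.2 ((div_le_one n1).2 c3.le)), sub_le_comm, le_div_iff₀ n1]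
      nlinarith [mul_le_mul_of_nonneg_left c3.le κ0.le]
    · rw [sum_const, Nat.card_Ioc, nsmul_eq_mul, Nat.cast_sub (Nat.floor_mono
        (le_mul_of_one_le_right y0.le (by linarith))), ← mul_assoc]
      have c1 : ((⌊π.yy j * (1 + π.κ)⌋₊ : ℝ) - ⌊π.yy j⌋₊) * (π.κ * π.yy j)⁻¹ ≤ 2 := by
        rw [mul_inv_le_iff₀ (by positivity)]
        linarith [Nat.floor_le (show 0 ≤ π.yy j * (1 + π.κ) by positivity),
          Nat.lt_floor_add_one (π.yy j)]
      exact (mul_le_mul_of_nonneg_right c1 (by positivity)).trans_eq (by ring)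
  bd := by
    intro π N0 q _ S f' Φ A g h hΦ hN hA hS hκ hf
    have k0 := h.κ0
    have κ0 : 0 < π.κ := k0.trans_le (κ0_le h)
    obtain ⟨T, hT⟩ : ∃ T, T = {n ∈ S | 0 < ((π.lg n : ZMod N0) - g.1).val ∧
      ((π.lg n : ZMod N0) - g.1).val ≤ π.G * π.Nf} := ⟨_, rfl⟩
    have e1 : ‖LamK π N0 q S f' Φ g‖ ≤ π.κ⁻¹ * ∑ n ∈ T, (n : ℝ)⁻¹ := by
      rw [LamK, norm_mul, norm_inv, Complex.norm_real, Real.norm_eq_abs, abs_of_pos κ0, hT,
        sum_filter]
      refine mul_le_mul_of_nonneg_left (norm_sum_le_of_le _ fun n hn => ?_) (by positivity)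
      rw [kerK]
      split_ifs
      · rw [norm_mul]
        refine (mul_le_of_le_one_right (norm_nonneg _) (hΦ _ _)).trans ?_
        rw [norm_div, Complex.norm_natCast, inv_eq_one_div]
        exact div_le_div_of_nonneg_right (hf n hn) (Nat.cast_nonneg n)
      · simp
    refine e1.trans ?_
    rcases T.eq_empty_or_nonempty with h0 | h0
    · simp [h0]
    obtain ⟨m, hm, h1⟩ := exists_min_image T id h0
    rw [hT, mem_filter] at hm
    obtain ⟨m0, m1, m2, m3⟩ := lg_mem h hA (hS hm.1)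
    have m4 : 1 < π.κ * m := hκ.trans_lt (mul_lt_mul_of_pos_left m1 κ0)
    have m5 : (0 : ℝ) < m := hA.trans m1
    have m6 : 0 < π.lg m := by
      rw [← not_le, lg_le h m0, Par.yy, Nat.cast_zero, zero_mul, Real.exp_zero, not_le]
      nlinarith [h.κ]
    have m7 : π.yy (π.lg m - 1) < m := by
      rw [← not_le, ← lg_le h m0]
      omega
    have sub : T ⊆ Icc m ⌊m * (1 + π.κ)⌋₊ := fun n hn => mem_Icc.2 ⟨h1 n hn, Nat.le_floor (by
      rw [hT, mem_filter] at hn
      obtain ⟨n0, -, n2, n3⟩ := lg_mem h hA (hS hn.1)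
      have c4 := eq_of h hN (x := π.lg n + ((π.lg m : ZMod N0) - g.1).val)
        (y := π.lg m + ((π.lg n : ZMod N0) - g.1).val) (by
          simp only [Nat.cast_add, ZMod.natCast_zmod_val]
          ring) (by
          rw [Nat.cast_add, Nat.cast_add, add_mul, add_mul, abs_lt]
          constructor <;> linarith [h.κ, le_κ h hn.2.2, le_κ h hm.2.2,
            mul_nonneg (Nat.cast_nonneg (α := ℝ) ((π.lg n : ZMod N0) - g.1).val) k0.le,
            mul_nonneg (Nat.cast_nonneg (α := ℝ) ((π.lg m : ZMod N0) - g.1).val) k0.le])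
      refine ((lg_le h n0 (π.lg m - 1 + π.G * π.Nf)).1 (by omega)).trans ?_
      rw [yy_add, yy_W]
      exact mul_le_mul_of_nonneg_right m7.le (by positivity))⟩
    have c1 : (#T : ℝ) ≤ 2 * (π.κ * m) := by
      have c2 := card_le_card sub
      rw [Nat.card_Icc, Nat.le_sub_iff_add_le (Nat.le_succ_of_le (Nat.le_floor
        (le_mul_of_one_le_right m5.le (by linarith))))] at c2
      have c3 : (#T : ℝ) + m ≤ ⌊m * (1 + π.κ)⌋₊ + 1 := by exact_mod_cast c2
      linarith [Nat.floor_le (show 0 ≤ m * (1 + π.κ) by positivity)]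
    have c2 := sum_le_card_nsmul T (fun n => (n : ℝ)⁻¹) (m : ℝ)⁻¹
      fun n hn => inv_anti₀ m5 (Nat.cast_le.2 (h1 n hn))
    rw [nsmul_eq_mul] at c2
    rw [inv_mul_le_iff₀ κ0]
    refine c2.trans ?_
    rw [mul_inv_le_iff₀ m5]
    linarith

end Pool.Agent.Lib.MP_028aa5_nt.V
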