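import Pool.Agent.Lib.MP_028aa5_nt.V.KCk
import Pool.Agent.Lib.MP_028aa5_nt.T.G0

/-! The components of a periodic function along the characters. -/

namespace Pool.Agent.Lib.MP_028aa5_nt.V

open Finset T U
open scoped ComplexConjugate Classical

namespace Prj

open G0 Ck

variable {q : ℕ} [NeZero q] {Φ : ℕ → ℂ}

lemma sub (Φ Φ' : ℕ → ℂ) (χ : DirichletCharacter ℂ q) (n : ℕ) :
    prj q Φ χ n - prj q Φ' χ n = prj q (fun m => Φ m - Φ' m) χ n := by
  simp only [prj, mul_sub, sum_sub_distrib]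

lemma bd' (χ : DirichletCharacter ℂ q) (n : ℕ) {w : ℝ} (h : ∀ m, ‖Φ m‖ ≤ w) :
    ‖prj q Φ χ n‖ ≤ w := by
  have h0 : (0 : ℝ) < q.totient := by exact_mod_cast Nat.totient_pos.2 (NeZero.pos q)
  rw [prj, norm_mul, norm_inv, Complex.norm_natCast, inv_mul_le_iff₀ h0]
  refine (norm_sum_le_of_le _ (n := fun _ => w) fun a _ => ?_).trans (le_of_eq ?_)
  · rw [norm_mul, Complex.norm_conj, χ.unit_norm_eq_one, one_mul]
    exact h _
  · simp [ZMod.card_units_eq_totient]

lemma congr {Q : ℕ} (h : ∀ m, Φ (m + Q) = Φ m) (χ : DirichletCharacter ℂ q) {m n : ℕ}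
    (e : m ≡ n [MOD Q]) : prj q Φ χ m = prj q Φ χ n := by
  unfold prj
  congr 1
  exact sum_congr rfl fun a _ => by rw [per_mod h (e.mul_left _)]

lemma mul (h : ∀ m, Φ (m + q) = Φ m) (χ : DirichletCharacter ℂ q) {d : ℕ} (hd : Nat.Coprime d q)
    (n : ℕ) : prj q Φ χ (d * n) = χ d * prj q Φ χ n := by
  unfold prj
  rw [mul_left_comm]
  congr 1
  rw [← Equiv.sum_comp (Equiv.mulRight (ZMod.unitOfCoprime d hd))
    fun a : (ZMod q)ˣ => conj (χ a) * Φ ((a : ZMod q).val * n), mul_sum]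
  refine sum_congr rfl fun a _ => ?_
  have e1 : Φ ((((a * ZMod.unitOfCoprime d hd : (ZMod q)ˣ) : ZMod q)).val * n) =
      Φ ((a : ZMod q).val * (d * n)) := by
    refine per_mod h ((ZMod.natCast_eq_natCast_iff _ _ _).1 ?_)
    simp [mul_assoc]
  have e2 := unit_conj χ (ZMod.unitOfCoprime d hd)
  simp only [Equiv.coe_mulRight, e1]
  simp only [Units.val_mul, map_mul, ZMod.coe_unitOfCoprime] at e2 ⊢
  linear_combination (-(conj (χ a) * Φ ((a : ZMod q).val * (d * n)))) * e2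

/-- multiplication by a unit permutes the residues -/
lemma sum_mul_unit {M : Type} [AddCommMonoid M] {F : ℕ → M} (h : ∀ m n, m ≡ n [MOD q] → F m = F n)
    {d : ℕ} (hd : Nat.Coprime d q) : ∑ m ∈ range q, F (d * m) = ∑ m ∈ range q, F m := by
  have e : ∀ G : ℕ → M, ∑ m ∈ range q, G m = ∑ x : ZMod q, G x.val := fun G =>
    (sum_nbij' (fun x : ZMod q => x.val) (fun m : ℕ => (m : ZMod q))
      (fun x _ => mem_range.2 x.val_lt) (fun _ _ => mem_univ _) (fun x _ => by simp)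
      (fun m hm => ZMod.val_cast_of_lt (mem_range.1 hm)) fun _ _ => rfl).symm
  rw [e, e F, ← Equiv.sum_comp (ZMod.unitOfCoprime d hd).mulLeft fun x : ZMod q => F x.val]
  refine sum_congr rfl fun x _ => h _ _ ((ZMod.natCast_eq_natCast_iff _ _ _).1 ?_)
  simp

lemma orth' {g g' : ℕ → ℂ} {χ χ' : DirichletCharacter ℂ q} (h : χ ≠ χ')
    (p : ∀ n, g (n + q) = g n) (p' : ∀ n, g' (n + q) = g' n)
    (m : ∀ d n, Nat.Coprime d q → g (d * n) = χ d * g n)
    (m' : ∀ d n, Nat.Coprime d q → g' (d * n) = χ' d * g' n) :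
    ∑ n ∈ range q, g n * conj (g' n) = 0 := by
  obtain ⟨d, hd⟩ : ∃ d : (ZMod q)ˣ, χ d ≠ χ' d := by
    by_contra hn
    push Not at hn
    exact h (MulChar.ext hn)
  have hc := ZMod.val_coe_unit_coprime d
  have h1 := sum_mul_unit (F := fun n => g n * conj (g' n))
    (fun a b e => by rw [per_mod p e, per_mod p' e]) hc
  have h2 : ∑ n ∈ range q, g ((d : ZMod q).val * n) * conj (g' ((d : ZMod q).val * n)) =
      χ d * conj (χ' d) * ∑ n ∈ range q, g n * conj (g' n) := by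
    rw [mul_sum]
    refine sum_congr rfl fun x _ => ?_
    rw [m _ _ hc, m' _ _ hc, map_mul, ZMod.natCast_zmod_val]
    ring
  refine mul_left_cancel₀ (sub_ne_zero.2 hd) ?_
  have h3 := unit_conj χ' d
  rw [h2] at h1
  generalize ∑ n ∈ range q, g n * conj (g' n) = S at *
  linear_combination χ' d * h1 - χ d * S * h3

lemma gf (hb : ∀ m, ‖Φ m‖ ≤ 1) (h : ∀ m, Φ (m + q) = Φ m) : GF q (prj q Φ) where
  per := fun χ n => congr h χ (by simp [Nat.ModEq])
  bd := fun χ n => bd' χ n hb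
  mul := fun χ _ n hd => mul h χ hd n
  orth := fun χ χ' hχ => orth' hχ (fun n => congr h χ (by simp [Nat.ModEq]))
    (fun n => congr h χ' (by simp [Nat.ModEq])) (fun _ n hd => mul h χ hd n)
    fun _ n hd => mul h χ' hd n

/-- `prj` is an orthogonal projection -/
lemma proj (h : ∀ m, Φ (m + q) = Φ m) (χ : DirichletCharacter ℂ q) :
    ∑ n ∈ range q, conj (prj q Φ χ n) * prj q Φ χ n = ∑ n ∈ range q, conj (prj q Φ χ n) * Φ n := by
  have h1 : ∀ a : (ZMod q)ˣ, ∑ n ∈ range q, conj (prj q Φ χ n) *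
      (conj (χ a) * Φ ((a : ZMod q).val * n)) = ∑ n ∈ range q, conj (prj q Φ χ n) * Φ n := by
    intro a
    have hc := ZMod.val_coe_unit_coprime a
    rw [← sum_mul_unit (F := fun n => conj (prj q Φ χ n) * Φ n)
      (fun a b e => by rw [per_mod h e, congr h χ e]) hc]
    refine sum_congr rfl fun x _ => ?_
    rw [mul h χ hc, map_mul, ZMod.natCast_zmod_val]
    ring
  have h2 : ∀ n, conj (prj q Φ χ n) * prj q Φ χ n = (q.totient : ℂ)⁻¹ *
      ∑ a : (ZMod q)ˣ, conj (prj q Φ χ n) * (conj (χ a) * Φ ((a : ZMod q).val * n)) := by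
    intro x
    rw [← mul_sum, mul_left_comm]
    rfl
  simp only [h2]
  rw [← mul_sum, sum_comm]
  simp only [h1]
  rw [sum_const, card_univ, ZMod.card_units_eq_totient, nsmul_eq_mul,
    inv_mul_cancel_left₀ tot_ne]

/-- size of a class -/
lemma card_cls {Q : ℕ} (hd : Q ∣ q) {a : ℕ} (ha : a < Q) :
    #{m ∈ range q | m % Q = a} = q / Q := by
  obtain ⟨t, rfl⟩ := hd
  have hQ : 0 < Q := by omega
  rw [Nat.mul_div_cancel_left _ hQ]
  conv_rhs => rw [← card_range t]
  refine card_nbij' (fun m => m / Q) (fun i => a + Q * i) (fun m hm => ?_) (fun i hi => ?_)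
    (fun m hm => ?_) fun i _ => ?_
  · simp only [coe_filter, mem_range, Set.mem_ofPred_eq, coe_range, Set.mem_Iio] at hm ⊢
    exact Nat.div_lt_of_lt_mul hm.1
  · simp only [coe_filter, mem_range, Set.mem_ofPred_eq, coe_range, Set.mem_Iio] at hi ⊢
    refine ⟨?_, by rw [Nat.add_mul_mod_self_left, Nat.mod_eq_of_lt ha]⟩
    have := Nat.mul_le_mul_left Q (show i + 1 ≤ t from hi)
    rw [Nat.mul_succ] at this
    omega
  · simp only [coe_filter, mem_range, Set.mem_ofPred_eq] at hm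
    rw [← hm.2]
    exact Nat.mod_add_div m Q
  · dsimp only
    rw [Nat.add_mul_div_left _ _ hQ, Nat.div_eq_of_lt ha, zero_add]

/-- mean over the class modulo `Q` -/
noncomputable def cm (q Q : ℕ) (Φ : ℕ → ℂ) (n : ℕ) : ℂ :=
  ((q / Q : ℕ) : ℂ)⁻¹ * ∑ m ∈ range q with m % Q = n % Q, Φ m

lemma div_pos' {Q : ℕ} (hd : Q ∣ q) : 0 < q / Q :=
  Nat.div_pos (Nat.le_of_dvd (NeZero.pos q) hd) (Nat.pos_of_dvd_of_pos hd (NeZero.pos q))

lemma cm_bd {Q : ℕ} (hd : Q ∣ q) (hb : ∀ m, ‖Φ m‖ ≤ 1) (n : ℕ) : ‖cm q Q Φ n‖ ≤ 1 := by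
  have h0 : (0 : ℝ) < (q / Q : ℕ) := by exact_mod_cast div_pos' hd
  rw [cm, norm_mul, norm_inv, Complex.norm_natCast, inv_mul_le_iff₀ h0]
  refine (norm_sum_le_of_le _ (n := fun _ => 1) fun a _ => hb a).trans (le_of_eq ?_)
  rw [sum_const, card_cls hd (Nat.mod_lt _ (Nat.pos_of_dvd_of_pos hd (NeZero.pos q))),
    nsmul_eq_mul]

omit [NeZero q] in
lemma cm_per (Q n : ℕ) : cm q Q Φ (n + Q) = cm q Q Φ n := by rw [cm, cm, Nat.add_mod_right]

lemma cm_zero {Q : ℕ} (hd : Q ∣ q) (a : ℕ) :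
    ∑ m ∈ range q with m % Q = a, (Φ m - cm q Q Φ m) = 0 := by
  have hQ := Nat.pos_of_dvd_of_pos hd (NeZero.pos q)
  by_cases ha : a < Q
  · have h0 : ((q / Q : ℕ) : ℂ) ≠ 0 := by exact_mod_cast (div_pos' hd).ne'
    rw [sum_sub_distrib, sum_congr rfl (f := cm q Q Φ) (g := fun _ => ((q / Q : ℕ) : ℂ)⁻¹ *
      ∑ m ∈ range q with m % Q = a, Φ m) fun m hm => by rw [cm, (mem_filter.1 hm).2],
      sum_const, card_cls hd ha, nsmul_eq_mul, mul_inv_cancel_left₀ h0, sub_self]
  · exact sum_eq_zero fun m hm => absurd ((mem_filter.1 hm).2 ▸ Nat.mod_lt m hQ) ha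

/-- the projection keeps the vanishing of the class sums -/
lemma prj_zero {Q : ℕ} (hd : Q ∣ q) (h : ∀ m, Φ (m + q) = Φ m)
    (hz : ∀ a, ∑ m ∈ range q with m % Q = a, Φ m = 0) (χ : DirichletCharacter ℂ q) (a : ℕ) :
    ∑ m ∈ range q with m % Q = a, prj q Φ χ m = 0 := by
  have hQ := Nat.pos_of_dvd_of_pos hd (NeZero.pos q)
  by_cases ha : a < Q
  swap
  · exact sum_eq_zero fun m hm => absurd ((mem_filter.1 hm).2 ▸ Nat.mod_lt m hQ) ha
  simp only [prj]
  rw [← mul_sum, sum_comm]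
  refine mul_eq_zero_of_right _ (sum_eq_zero fun u _ => ?_)
  rw [← mul_sum]
  refine mul_eq_zero_of_right _ ?_
  have hc := ZMod.val_coe_unit_coprime u
  have h1 := sum_mul_unit (q := q)
    (F := fun m => if m % Q = ((u : ZMod q).val * a) % Q then Φ m else 0)
    (fun m n e => by rw [per_mod h e, (e.of_dvd hd : m % Q = n % Q)]) hc
  rw [← sum_filter, ← sum_filter, hz] at h1
  rw [← h1]
  refine sum_congr (filter_congr fun m _ => ?_) fun _ _ => rfl
  constructor
  · rintro rfl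
    exact ((Nat.mod_modEq m Q).mul_left _).symm
  · intro e
    have := Nat.ModEq.cancel_left_of_coprime (Nat.Coprime.coprime_dvd_left hd hc.symm) e
    rwa [Nat.ModEq, Nat.mod_eq_of_lt ha] at this

lemma lift {Q : ℕ} (hd : Q ∣ q) {d : ℕ} (h : Nat.Coprime d Q) :
    ∃ d' : ℕ, Nat.Coprime d' q ∧ d' ≡ d [MOD Q] := by
  obtain ⟨u, hu⟩ := ZMod.unitsMap_surjective hd (ZMod.unitOfCoprime d h)
  refine ⟨(u : ZMod q).val, ZMod.val_coe_unit_coprime u,
    (ZMod.natCast_eq_natCast_iff _ _ _).1 ?_⟩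
  have := congrArg (fun v : (ZMod Q)ˣ => (v : ZMod Q)) hu
  simpa [ZMod.unitsMap_def] using this

end Prj

open Prj Ck in
theorem st_Prj : PrjSt where
  bd := fun _ _ _ χ n h => bd' χ n h
  sub := fun _ _ _ _ χ n _ h => by
    rw [Prj.sub]
    exact bd' χ n h
  gf := fun _ _ _ hb h => gf hb h
  split := by
    intro q Q _ _ hd β Φ hb hp ho
    have p1 : ∀ m, cm q Q Φ (m + q) = cm q Q Φ m := fun m =>
      per_mod (cm_per Q) ((show m + q ≡ m [MOD q] by simp [Nat.ModEq]).of_dvd hd)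
    set Ψ : ℕ → ℂ := fun m => (Φ m - cm q Q Φ m) / 2 with hΨ
    have b2 : ∀ m, ‖Ψ m‖ ≤ 1 := fun m => by
      rw [hΨ, norm_div, Complex.norm_ofNat, div_le_one (by norm_num)]
      exact (norm_sub_le_of_le (hb m) (cm_bd hd hb m)).trans (by norm_num)
    have p2 : ∀ m, Ψ (m + q) = Ψ m := fun m => by simp only [hΨ, hp, p1]
    have g2 := gf b2 p2
    have dec : ∀ χ n, prj q Φ χ n = prj q (cm q Q Φ) χ n + 2 * prj q Ψ χ n := fun χ n => by
      simp only [prj, hΨ, mul_sum]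
      rw [← sum_add_distrib]
      exact sum_congr rfl fun a _ => by ring
    have m1 : ∀ (χ1 : DirichletCharacter ℂ Q) d n, Nat.Coprime d Q →
        prj q (cm q Q Φ) (DirichletCharacter.changeLevel hd χ1) (d * n) =
          χ1 d * prj q (cm q Q Φ) (DirichletCharacter.changeLevel hd χ1) n := by
      intro χ1 d n h
      obtain ⟨d', e1, e2⟩ := lift hd h
      rw [← Prj.congr (cm_per Q) _ (e2.mul_right n), Prj.mul p1 _ e1,
        ← (ZMod.natCast_eq_natCast_iff _ _ _).2 e2, ← ZMod.coe_unitOfCoprime d' e1,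
        DirichletCharacter.changeLevel_eq_cast_of_dvd, ZMod.coe_unitOfCoprime,
        ZMod.cast_natCast hd]
    have q1 : ∀ (χ : DirichletCharacter ℂ q) n, prj q (cm q Q Φ) χ (n + Q) =
        prj q (cm q Q Φ) χ n := fun χ n => Prj.congr (cm_per Q) _ (by simp [Nat.ModEq])
    refine ⟨fun χ1 => prj q (cm q Q Φ) (DirichletCharacter.changeLevel hd χ1), prj q Ψ,
      ⟨fun _ => q1 _, fun _ n => bd' _ n (cm_bd hd hb), m1, fun χ χ' h =>
        orth' h (q1 _) (q1 _) (m1 χ) (m1 χ')⟩, g2, fun χ => ?_, fun χ => ?_⟩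
    · have z : ∀ a, ∑ m ∈ range q with m % Q = a, conj (prj q Ψ χ m) = 0 := fun a => by
        rw [← map_sum, prj_zero hd p2 (fun a => by
          simp only [hΨ]
          rw [← sum_div, cm_zero hd, zero_div]), map_zero]
      have h1 := ho (fun m => conj (prj q Ψ χ m)) ⟨fun n => by rw [g2.per], fun n => by
        rw [Complex.norm_conj]
        exact g2.bd _ _, fun b hb => ⟨conj (χ b), by
          rw [Complex.norm_conj, ← ZMod.coe_unitOfCoprime b hb, χ.unit_norm_eq_one], fun n => by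
          rw [g2.mul _ _ _ hb, map_mul]⟩, z⟩
      have h2 : ∑ m ∈ range q, conj (prj q Ψ χ m) * cm q Q Φ m = 0 := by
        rw [← sum_fiberwise_of_maps_to (t := range Q) (g := fun m => m % Q)
          fun m _ => mem_range.2 (Nat.mod_lt _ (NeZero.pos Q))]
        refine sum_eq_zero fun a _ => ?_
        rw [sum_congr rfl (g := fun m => conj (prj q Ψ χ m) * cm q Q Φ a) fun m hm => by
          rw [← (mem_filter.1 hm).2, per_mod (cm_per Q) (Nat.mod_modEq m Q)], ← sum_mul, z,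
          zero_mul]
      have h3 : ((∑ m ∈ range q, ‖prj q Ψ χ m‖ ^ 2 : ℝ) : ℂ) =
          (∑ m ∈ range q, conj (prj q Ψ χ m) * Φ m) / 2 := by
        push_cast
        simp only [← Complex.conj_mul']
        rw [proj p2, ← sub_zero (∑ m ∈ range q, conj (prj q Ψ χ m) * Φ m), ← h2,
          ← sum_sub_distrib, sum_div]
        exact sum_congr rfl fun m _ => by simp only [hΨ]; ring
      have h4 := congrArg norm h3
      rw [Complex.norm_real, Real.norm_of_nonneg (by positivity), norm_div,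
        Complex.norm_ofNat] at h4
      linarith [norm_nonneg (∑ m ∈ range q, conj (prj q Ψ χ m) * Φ m)]
    · by_cases h : ∀ n, prj q (cm q Q Φ) χ n = 0
      · exact Or.inl fun n => by rw [dec, h, zero_add]
      · obtain ⟨n, hn⟩ := not_forall.1 h
        obtain ⟨_, χ1, rfl⟩ := (DirichletCharacter.factorsThrough_iff_ker_unitsMap hd).2
          (show (ZMod.unitsMap hd).ker ≤ χ.toUnitHom.ker from fun u hu => by
            have hc := ZMod.val_coe_unit_coprime u
            have e1 : (u : ZMod q).val ≡ 1 [MOD Q] := by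
              refine (ZMod.natCast_eq_natCast_iff _ _ _).1 ?_
              have := congrArg (fun v : (ZMod Q)ˣ => (v : ZMod Q)) (MonoidHom.mem_ker.1 hu)
              simpa [ZMod.unitsMap_def] using this
            have e2 := Prj.mul p1 χ hc n
            rw [Prj.congr (cm_per Q) χ (e1.mul_right n), one_mul, ZMod.natCast_zmod_val] at e2
            refine MonoidHom.mem_ker.2 (Units.ext ?_)
            rw [MulChar.coe_toUnitHom, Units.val_one]
            exact (mul_left_eq_self₀.1 e2.symm).resolve_right hn)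
        exact Or.inr ⟨χ1, rfl, dec _⟩

end Pool.Agent.Lib.MP_028aa5_nt.V
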