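import Pool.Agent.Lib.MP_028aa5_nt.U.All
import Pool.Agent.Lib.MP_028aa5_nt.V.KCk
import Pool.Agent.Lib.MP_028aa5_nt.V.KCore
import Pool.Agent.Lib.MP_028aa5_nt.V.KE
import Pool.Agent.Lib.MP_028aa5_nt.V.KEnd
import Pool.Agent.Lib.MP_028aa5_nt.V.KHat
import Pool.Agent.Lib.MP_028aa5_nt.V.KLam
import Pool.Agent.Lib.MP_028aa5_nt.V.KPrj

/-! The end game for a kernel: all parts together. -/

namespace Pool.Agent.Lib.MP_028aa5_nt.V

open T U

theorem all_EK : EKSt :=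
  st_EK (st_EcK (st_Eb (st_Eba all_Ft st_Gr) (st_HMi all_Box) (st_HMp all_Box) all_Hal st_Pr st_Gr)
    st_Prj (st_HMi all_Box) st_Gr all_Ft) (st_HMp all_Box) st_Prj all_Ft st_Pr

theorem all_CoreBK : CoreBKSt :=
  st_CoreBK (st_EndK st_Den st_Four st_Ch st_LamK st_Ck)
    (st_SparseX2 st_Reg2 (st_Sparse st_Ch st_Ab st_Bas)) (st_HatK st_Ch st_Gr st_Prj) all_EK all_Ft
    st_Reg2

end Pool.Agent.Lib.MP_028aa5_nt.V
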