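import Pool.Agent.Lib.MP_028aa5_nt.V.DenX
import Pool.Agent.Lib.MP_028aa5_nt.T.Block
import Pool.Agent.Lib.MP_028aa5_nt.T.C

/-! One component: the kernel and the weights on the group of units. -/

namespace Pool.Agent.Lib.MP_028aa5_nt.V

open Finset T U
open scoped Classical

namespace BlockXJ

variable {D : DX} {Qf : ℝ → ℕ}

/-- the correlation of an atom is a correlation with the kernel -/
lemma tr (e : D.OkE Qf) (κ : ℝ) (f : ℕ → ℂ) {g τ γ0 t : D.P} {y : ℝ} (y0 : 0 < y) {a : ℕ}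
    (e1 : D.Eq g (τ * D.dil a γ0)) (e3 : D.dil y τ = t) :
    D.cc κ f y g = ck κ f (fun z m => D.E t z γ0 m) y a := by
  unfold DX.cc ck
  refine congrArg _ (sum_congr rfl fun n _ => congrArg _ ?_)
  have e2 : g = τ * (D.dil a γ0 * (g⁻¹ * (τ * D.dil a γ0))⁻¹) := by group
  rw [e2, e.mul, e.lam _ _ _ _ _ (D.Λ.inv_mem e1), e.dil2, ← e3]
  beta_reduce
  rw [e.dil1, mul_div_cancel₀ _ y0.ne']

lemma move (e : D.OkE Qf) {κ y y' u K : ℝ} {f : ℕ → ℂ} (hf : ∀ n, ‖f n‖ ≤ 1) (k0 : 0 < κ)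
    (k1 : κ ≤ 1) (K1 : 1 ≤ K) (hK : K ≤ κ * y) (y0 : 0 < y')
    (hl : |Real.log y' - Real.log y| ≤ u) (hu : u ≤ κ) (g : D.P) :
    ‖D.cc κ f y' g - D.cc κ f y g‖ ≤ 20 * (u / κ + 1 / K) := by
  have h := C.move (a := fun n => f n * D.ev g n) (fun n => by
    rw [norm_mul]
    exact mul_le_one₀ (hf n) (norm_nonneg _) (e.bd _ _ _ _)) k0 k1 (K1.trans hK) y0 hl (hu.trans k1)
  have i := one_div_le_one_div_of_le (by linarith) hK
  exact le_trans h (by linarith)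

lemma eq_mul {g τ γ γ' : D.P} (e1 : D.Eq g (τ * γ)) (e2 : D.Eq γ γ') : D.Eq g (τ * γ') := by
  have := D.Λ.mul_mem e1 e2
  rwa [show g⁻¹ * (τ * γ) * (γ⁻¹ * γ') = g⁻¹ * (τ * γ') by group] at this

lemma ker (h : D.toDS.Ok) (e : D.OkE Qf) {κ β W : ℝ} {q0 : ℕ} {γ0 t : D.P} (k0 : 0 < κ)
    (k1 : κ ≤ 1) (β0 : 0 < β) (q1 : 1 ≤ q0) (hγ : γ0 ∈ D.Rat q0) (hW : D.ν κ 1 t ≤ W) :
    Ker κ ((D.Dm * (1 + W)) ^ D.Dm / κ) β (q0 ^ D.Dm * Qf β) (Qf β) fun z m => D.E t z γ0 m where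
  bd _ _ := e.bd _ _ _ _
  per z m := by
    generalize Qf β = n
    induction n with
    | zero => rfl
    | succ n ih => rw [Nat.mul_succ, ← add_assoc, e.per _ _ _ _ _ hγ, ih]
  lip z hz z' hz' m := by
    refine (e.lip κ t z z' γ0 m k0 k1 (by rw [abs_le]; constructor <;> linarith [hz.1, hz.2])
      (by rw [abs_le]; constructor <;> linarith [hz'.1, hz'.2])).trans ?_
    rw [div_mul_eq_mul_div, mul_div_assoc]
    have := h.nonneg κ 1 t
    gcongr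
  orth z := e.gq β q0 _ t z γ0 β0 (Nat.mul_pos (pow_pos q1 _) (e.qf β)) hγ (dvd_mul_right _ _)
    (dvd_mul_left _ _)

end BlockXJ

open BlockXJ Block in
theorem st_BlockX (hB : BasSt) (hD : DenXSt) (hA : LabXSt) : BlockXSt := by
  intro D Qf π f N E φ γ τ yx η ε2 Q Tm lam ω u β Kp cL cU Nc h a eo ok hNf hI hf hRe hc hd hpos hR
    hQ hl β0 hQ1 hu K1 hK
  obtain ⟨q0, γ0, t, w, V0, E1, hE1, q1, q2, q3, hw, hV, hE, hp0, hray⟩ :=
    hA D π N E φ γ τ yx Q Tm lam ω u (Qf β) h a ok hNf hI hd hpos hR hQ hl (eo.qf β) hQ1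
  have k0 : 0 < π.κ := (hB.κ1_pos π ok).trans_le (hB.κ1_le π ok)
  have P2 := ok.P
  have hy : ∀ e ∈ E, ∀ x, x = N.up e ∨ x = N.lo e →
      0 < yx x ∧ |Real.log (yx x) - Real.log (N.pos π x)| ≤ u := by
    intro e he x hx
    obtain ⟨b1, b2, b3, b4⟩ := hpos e he
    rcases hx with rfl | rfl
    · exact ⟨b1, b3⟩
    · exact ⟨b2 ▸ div_pos b1 (by exact_mod_cast (ok.pr _ (hI.pr e he)).1.pos), b4⟩
  have hlog : ∀ x, Real.log (N.pos π x) = N.cell x * π.κ0 := fun x => by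
    rw [Net.pos, Par.ps, Real.log_exp, Par.κ1, hNf, Nat.cast_one, one_mul]
  have hcell : ∀ x, cL ≤ N.cell x ∧ N.cell x < cU + Nc := fun x => by
    cases c : N.isU x
    · have := mem_Ico.1 (hRe.cl x c)
      omega
    · have := mem_Ico.1 (hRe.cu x c)
      omega
  have hbig : ∀ x, 2 * π.P * Kp ≤ π.κ * N.pos π x := fun x =>
    hK.trans (mul_le_mul_of_nonneg_left (Real.exp_le_exp.2 (mul_le_mul_of_nonneg_right
      (Nat.cast_le.2 (hcell x).1) (hB.κ1_pos π ok).le)) k0.le)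
  have hbig' : ∀ x, Kp ≤ π.κ * N.pos π x := fun x =>
    (le_mul_of_one_le_left (by linarith) (by linarith)).trans (hbig x)
  have hker : Ker π.κ ((D.Dm * (1 + 5 ^ D.k * Tm)) ^ D.Dm / π.κ) β (q0 ^ D.Dm * Qf β) (Qf β)
      fun z m => D.E t z γ0 m := by
    refine ker h eo k0 ok.κ β0 q1 q3 ?_
    obtain ⟨x, hx⟩ := nonempty_of_sum_ne_zero hp0.ne'
    obtain ⟨⟨e, he, c⟩, b2, -⟩ := hV x hx
    obtain ⟨b3, b4⟩ := hy e he x c
    have u0 := (abs_nonneg _).trans b4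
    rw [← b2, h.ndil, mul_one]
    refine (h.shift _ _ _ _ _ k0 ok.κ (hB.pos_pos π N x) b3 b4 (hu.trans ok.κ)).trans
      (mul_le_mul (pow_le_pow_left₀ (by positivity) ?_ _) (hd.sz e he x c) (h.nonneg _ _ _)
        (by positivity))
    have : 4 * u / π.κ ≤ 4 := by
      rw [div_le_iff₀ k0]
      linarith
    linarith
  have hq : ((q0 ^ D.Dm * Qf β : ℕ) : ℝ) ≤ Q ^ D.Dm * Qf β := by
    push_cast
    gcongr
  have hper := hD.per D q0 _ γ0 a q3 (dvd_mul_right _ (Qf β))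
  have hdv : Qf β ∣ q0 ^ D.Dm * Qf β := dvd_mul_left _ _
  have hq0 : NeZero (q0 ^ D.Dm * Qf β) := ⟨(Nat.mul_pos (pow_pos q1 _) (eo.qf β)).ne'⟩
  generalize q0 ^ D.Dm * Qf β = q at *
  obtain ⟨n, hn, hst⟩ := hD.stab D.toDS q γ0 h hper
  generalize lam - 2 * √(ω / #π.PP) = lam' at hray ⊢
  obtain ⟨R, hR⟩ : ∃ R : N.W → (ZMod q)ˣ → Prop,
      R = fun x (b : (ZMod q)ˣ) => D.Eq (γ x) (D.dil (b : ZMod q).val γ0) := ⟨_, rfl⟩
  have hR' : ∀ x b, R x b ↔ D.Eq (γ x) (D.dil (b : ZMod q).val γ0) := fun x b => by rw [hR]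
  obtain ⟨V, hV'⟩ : ∃ V : Finset (N.W × ℕ), V = V0.image fun x => (x, N.cell x) := ⟨_, rfl⟩
  have mV : ∀ v, v ∈ V ↔ v.1 ∈ V0 ∧ v.2 = N.cell v.1 := fun v => by
    rw [hV', mem_image]
    exact ⟨by rintro ⟨x, hx, rfl⟩; exact ⟨hx, rfl⟩, fun c => ⟨v.1, c.1, Prod.ext rfl c.2.symm⟩⟩
  have sV : ∑ v ∈ V, w v.1 ^ 2 = ∑ x ∈ V0, w x ^ 2 := by
    rw [hV', sum_image fun x _ y _ c => congrArg Prod.fst c]
  have hcn : ∀ x ∈ V0, #{b | R x b} = n := by
    intro x hx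
    obtain ⟨a0, a1, a2⟩ := (hV x hx).2.2
    rw [← hst _ a0 a1 a2]
    congr 1
    ext b
    simp only [mem_filter, hR']
  have htot := total V N.isU R w (cU + Nc) n (fun v hv => ((mV v).1 hv).2 ▸ (hcell _).2)
    fun v hv => hcn _ ((mV v).1 hv).1
  rw [sV] at htot
  have hpairs := pairs E1 (fun e b => R (N.up e) b) (fun e => w (N.up e) * w (N.lo e)) n
    fun e he => hcn _ (hE e he).1
  obtain ⟨P1, hP1⟩ : ∃ P1 : Finset (N.Ed × (ZMod q)ˣ),
      P1 = (E1 ×ˢ univ).filter fun x => R (N.up x.1) x.2 := ⟨_, rfl⟩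
  have hmem : ∀ x, x ∈ P1 ↔ x.1 ∈ E1 ∧ R (N.up x.1) x.2 := fun x => by
    simp only [hP1, mem_filter, mem_product, mem_univ, and_true]
  have hpairs' : ∑ x ∈ P1, w (N.up x.1) * w (N.lo x.1) =
      n * ∑ e ∈ E1, w (N.up e) * w (N.lo e) := by
    rw [← hpairs, hP1]
  have hn' : (0 : ℝ) < n := by exact_mod_cast hn
  have cu : ∀ e ∈ E, N.fj e = N.cell (N.up e) := fun e he => by
    rw [← hI.cu e he, hNf, Nat.div_one]
  have cl : ∀ e ∈ E, N.fj e - π.lg (N.pr e) = N.cell (N.lo e) := fun e he => by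
    rw [← hI.cl e he, hNf, Nat.div_one]
  refine ⟨q, hq0, _, vv V N.isU R w true, vv V N.isU R w false,
    P1.image fun x => (N.fj x.1, x.2, N.pr x.1), hq, hdv, hker, fun j b => Real.sqrt_nonneg _,
    fun j b => Real.sqrt_nonneg _, ?_, ?_, ?_, ?_, ?_⟩
  · rw [htot]
    exact mul_pos hn' hp0
  · rw [htot]
    have key : ∑ x ∈ P1, w (N.up x.1) * w (N.lo x.1) ≤
        ∑ g ∈ P1.image fun x => (N.fj x.1, x.2, N.pr x.1), vv V N.isU R w true g.1 g.2.1 *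
          vv V N.isU R w false (g.1 - π.lg g.2.2) (g.2.1 * un q g.2.2) := by
      rw [← sum_fiberwise_of_maps_to (g := fun x => (N.fj x.1, x.2, N.pr x.1))
        (fun x hx => mem_image_of_mem _ hx)]
      refine sum_le_sum ?_
      rintro ⟨j, b, p⟩ -
      have hS : ∀ x ∈ P1.filter fun x => (N.fj x.1, x.2, N.pr x.1) = (j, b, p),
          x.1 ∈ E1 ∧ R (N.up x.1) b ∧ N.fj x.1 = j ∧ x.2 = b ∧ N.pr x.1 = p := by
        intro x hx
        obtain ⟨b1, b2⟩ := mem_filter.1 hx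
        obtain ⟨b3, b4⟩ := (hmem x).1 b1
        simp only [Prod.mk.injEq] at b2
        exact ⟨b3, b2.2.1 ▸ b4, b2⟩
      refine (Real.sum_mul_le_sqrt_mul_sqrt _ _ _).trans (mul_le_mul (Real.sqrt_le_sqrt ?_)
        (Real.sqrt_le_sqrt ?_) (Real.sqrt_nonneg _) (Real.sqrt_nonneg _))
      · refine sum_inj _ _ (fun x : N.Ed × (ZMod q)ˣ => (N.up x.1, j)) (fun v => w v.1 ^ 2)
          (fun x hx => ?_) (fun x hx y hy hxy => ?_) fun v => sq_nonneg _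
        · obtain ⟨b1, b2, b3, -, -⟩ := hS x hx
          exact mem_fib.2 ⟨(mV _).2 ⟨(hE _ b1).1, b3 ▸ cu _ (hE1 b1)⟩, rfl, hI.up _ (hE1 b1), b2⟩
        · obtain ⟨b1, -, b3, b4, b5⟩ := hS x hx
          obtain ⟨c1, -, c3, c4, c5⟩ := hS y hy
          exact Prod.ext (hI.iu _ (hE1 b1) _ (hE1 c1) (b3.trans c3.symm) (b5.trans c5.symm)
            (congrArg Prod.fst hxy)) (b4.trans c4.symm)
      · refine sum_inj _ _ (fun x : N.Ed × (ZMod q)ˣ => (N.lo x.1, j - π.lg p))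
          (fun v => w v.1 ^ 2) (fun x hx => ?_) (fun x hx y hy hxy => ?_) fun v => sq_nonneg _
        · obtain ⟨b1, b2, b3, -, b5⟩ := hS x hx
          refine mem_fib.2 ⟨(mV _).2 ⟨(hE _ b1).2.1, b3 ▸ b5 ▸ cl _ (hE1 b1)⟩, rfl,
            hI.lo _ (hE1 b1), (hR' _ _).2 ?_⟩
          have d1 := hd.rat _ (hE1 b1)
          have d2 := DenXJ.dil h (N.pr x.1) ((hR' _ _).1 b2)
          have d3 := hper _ _ ((DenA.val_mul b _).trans
            ((DenA.val_un (b5 ▸ (hE _ b1).2.2 : Nat.Coprime p q)).mul_left _))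
          rw [h.dil_dil, b5, mul_comm, ← Nat.cast_mul] at d2
          rw [b5] at d1
          exact DenXJ.trans (DenXJ.trans d1 d2) (DenXJ.symm d3)
        · obtain ⟨b1, -, b3, b4, b5⟩ := hS x hx
          obtain ⟨c1, -, c3, c4, c5⟩ := hS y hy
          exact Prod.ext (hI.il _ (hE1 b1) _ (hE1 c1) (b3.trans c3.symm) (b5.trans c5.symm)
            (congrArg Prod.fst hxy)) (b4.trans c4.symm)
    have hc2 : (0 : ℝ) ≤ 2 / #π.PP := by positivity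
    refine le_trans ?_ (mul_le_mul_of_nonneg_left key hc2)
    rw [hpairs', mul_left_comm lam', mul_left_comm _ (n : ℝ)]
    exact mul_le_mul_of_nonneg_left hray hn'.le
  · intro g hg
    obtain ⟨⟨e, b⟩, hx, rfl⟩ := mem_image.1 hg
    obtain ⟨b1, b2⟩ := (hmem _).1 hx
    dsimp only at b1 b2 ⊢
    have he := hE1 b1
    obtain ⟨y0, y1⟩ := hy e he _ (Or.inl rfl)
    obtain ⟨p1, -, p2⟩ := ok.pr _ (hI.pr e he)
    have p0 : (0 : ℝ) < N.pr e := by exact_mod_cast p1.pos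
    have x0 := hB.pos_pos π N (N.up e)
    refine ⟨hI.pr e he, (hE e b1).2.2, hI.le e he, cu e he ▸ hRe.cu _ (hI.up e he),
      cl e he ▸ hRe.cl _ (hI.lo e he), yx (N.up e), y0, by rw [cu e he, ← hlog]; exact y1, ?_⟩
    have e1 := eq_mul (hd.eq e he _ (Or.inl rfl)) ((hR' _ _).1 b2)
    have e2 := DenXJ.dil h (N.pr e) e1
    rw [map_mul, h.dil_dil, mul_comm (N.pr e : ℝ), ← Nat.cast_mul] at e2
    have t1 := (hV _ (hE e b1).1).2.1
    rw [← tr eo π.κ f y0 e1 t1, ← tr eo π.κ f (div_pos y0 p0) e2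
      (by rw [h.dil_dil, div_mul_cancel₀ _ p0.ne', t1])]
    have m1 := move eo hf k0 ok.κ K1 (hbig' _) y0 y1 hu (φ (N.up e))
    have m2 := move eo hf k0 ok.κ K1 (y := N.pos π (N.up e) / N.pr e) (by
        rw [← mul_div_assoc, le_div_iff₀ p0]
        exact le_trans (by nlinarith) (hbig _)) (div_pos y0 p0)
      (by rw [Real.log_div y0.ne' p0.ne', Real.log_div x0.ne' p0.ne', sub_sub_sub_cancel_right]
          exact y1) hu (D.dil (N.pr e) (φ (N.up e)))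
    have m3 := hRe.tk e he
    generalize D.cc π.κ f (yx (N.up e)) (φ (N.up e)) = A1 at *
    generalize D.cc π.κ f (yx (N.up e) / N.pr e) (D.dil (N.pr e) (φ (N.up e))) = A2 at *
    generalize D.cc π.κ f (N.pos π (N.up e)) (φ (N.up e)) = B1 at *
    generalize D.cc π.κ f (N.pos π (N.up e) / N.pr e) (D.dil (N.pr e) (φ (N.up e))) = B2 at *
    rw [show A1 + A2 = A1 - B1 + (A2 - B2) + (B1 + B2) by ring]
    linarith [norm_add₃_le (a := A1 - B1) (b := A2 - B2) (c := B1 + B2)]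
  · intro j b hne
    obtain ⟨v, hv, rfl, b2, -⟩ := vv_ne hne
    rw [((mV v).1 hv).2]
    exact ⟨hRe.cu _ b2, (hcell _).2⟩
  · intro j b hne
    obtain ⟨⟨x, j⟩, hv, rfl, b2, b3⟩ := vv_ne hne
    obtain ⟨v1, v2⟩ := (mV _).1 hv
    dsimp only at b2 b3 v1 v2 ⊢
    obtain ⟨⟨e, he, c⟩, t1, -⟩ := hV x v1
    obtain ⟨y0, y1⟩ := hy e he x c
    refine ⟨v2 ▸ hRe.cl _ b2, v2 ▸ (hcell _).2, yx x, y0, by rw [v2, ← hlog]; exact y1, ?_⟩
    rw [← tr eo π.κ f y0 (eq_mul (hd.eq e he x c) ((hR' _ _).1 b3)) t1]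
    have m1 := move eo hf k0 ok.κ K1 (hbig' _) y0 y1 hu (φ x)
    have m2 : η ≤ ‖D.cc π.κ f (N.pos π x) (φ x)‖ := by
      rcases c with rfl | rfl
      · rw [hI.up e he] at b2
        exact absurd b2 (by simp)
      · exact hRe.big e he
    have m3 := norm_sub_norm_le (D.cc π.κ f (N.pos π x) (φ x)) (D.cc π.κ f (yx x) (φ x))
    rw [norm_sub_rev] at m3
    have := (norm_nonneg _).trans m1
    linarith

end Pool.Agent.Lib.MP_028aa5_nt.V
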