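import Pool.Agent.Lib.MP_028aa5_nt.V.StL

/-! From the top of the tower to one component. -/

namespace Pool.Agent.Lib.MP_028aa5_nt.V

open Finset T U
open scoped Classical

namespace CoreAJ

lemma W_le {X κ c : ℝ} {K m : ℕ} (hm : 2 * K ^ 3 ≤ m) (hX : 1 ≤ X) (hκ : 1 / X ≤ κ) (hc : 0 ≤ c)
    (h1 : K * (1 + c) ≤ X) : (K * (1 + c * X ^ (8 * K ^ 2))) ^ K / κ ≤ X ^ (7 * m + 1) := by
  have X0 : 0 < X := by linarith
  have κ0 : 0 < κ := lt_of_lt_of_le (by positivity) hκ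
  have a0 : 1 ≤ X ^ (8 * K ^ 2) := one_le_pow₀ hX
  have a1 : K * (1 + c * X ^ (8 * K ^ 2)) ≤ X * X ^ (8 * K ^ 2) := by
    refine le_trans ?_ (mul_le_mul_of_nonneg_right h1 (by positivity))
    rw [mul_assoc]
    exact mul_le_mul_of_nonneg_left (by linarith) (Nat.cast_nonneg K)
  have a2 := pow_le_pow_left₀ (by positivity) a1 K
  rw [← pow_succ', ← pow_mul] at a2
  have a3 : X ^ ((8 * K ^ 2 + 1) * K) ≤ X ^ (7 * m) := by
    have : K ≤ K ^ 3 := Nat.le_self_pow (by norm_num) K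
    exact pow_le_pow_right₀ hX (by nlinarith)
  have a4 := mul_le_mul_of_nonneg_left ((div_le_iff₀ X0).1 hκ)
    (show 0 ≤ X ^ (7 * m) by positivity)
  rw [div_le_iff₀ κ0, pow_succ X (7 * m)]
  linarith

lemma u_le {X κ κ0 : ℝ} {m : ℕ} (hX : 1 ≤ X) (hκ : 1 / X ≤ κ) (h0 : κ0 = X ^ (-(7 * m + 4 : ℝ))) :
    X * κ0 / κ ≤ 1 / X := by
  have X0 : 0 < X := by linarith
  have κ0' : 0 < κ := lt_of_lt_of_le (by positivity) hκ
  have a1 : κ0 ≤ X ^ (-(3 : ℝ)) := by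
    rw [h0]
    exact Real.rpow_le_rpow_of_exponent_le hX (by linarith [(Nat.cast_nonneg m : (0 : ℝ) ≤ m)])
  have a2 : X * X ^ (-(3 : ℝ)) = 1 / X * (1 / X) := by
    rw [Real.rpow_neg X0.le, show (3 : ℝ) = (3 : ℕ) by norm_num, Real.rpow_natCast]
    field_simp
  rw [div_le_iff₀ κ0']
  exact ((mul_le_mul_of_nonneg_left a1 X0.le).trans_eq a2).trans
    (mul_le_mul_of_nonneg_left hκ (by positivity))

end CoreAJ

open CoreAJ in
theorem st_CoreA (hB : BasSt) (hR : Reg2St) (hL : LevZSt) (hBl : BlockXSt) : CoreASt := by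
  intro k K Qf ε1 er β c h1 h2 h3 hc
  obtain ⟨a, a0, a1, a2⟩ : ∃ a : ℝ, 0 < a ∧ a ≤ ε1 ∧ a ≤ 1 / 2 :=
    ⟨min ε1 (1 / 2), by positivity, min_le_left _ _, min_le_right _ _⟩
  obtain ⟨tm, t1, t2⟩ : ∃ tm : ℕ, 1 ≤ tm ∧ 1 / (tm : ℝ) ≤ a / 8 := by
    have t0 : 0 < 8 / a := by positivity
    exact ⟨⌈8 / a⌉₊, Nat.ceil_pos.2 t0,
      (one_div_le_one_div_of_le t0 (Nat.le_ceil _)).trans_eq (one_div_div _ _)⟩
  obtain ⟨c', c0, c3⟩ : ∃ c' : ℝ, 0 < c' ∧ c' * K ≤ c / 2 := by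
    refine ⟨c / (2 * (K + 1)), by positivity, ?_⟩
    rw [div_mul_eq_mul_div, div_le_div_iff₀ (by positivity) (by norm_num)]
    nlinarith
  obtain ⟨c1, A, c10, A1, hL⟩ := hL k K c' c0
  refine ⟨a / 8, c1, max A 4, by positivity, c10, le_max_of_le_left A1, fun C D0 hD0 => ?_⟩
  obtain ⟨X2, H2⟩ := hL tm C D0 t1 hD0
  obtain ⟨L, K1, K2, K3, K4, K5⟩ : ∃ L : ℝ, 64 * c' / a ^ 2 ≤ L ∧ 4 ≤ L ∧ 120 / er ≤ L ∧
      K * (1 + 5 ^ k) ≤ L ∧ Qf β ≤ L :=
    ⟨max (max (64 * c' / a ^ 2) 4) (max (max (120 / er) (K * (1 + 5 ^ k))) (Qf β)), by simp,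
      by simp, by simp, by simp, by simp⟩
  obtain ⟨X3, H4⟩ := hR.base C D0 L hD0
  obtain ⟨X4, H5⟩ := hR.pw C D0 (c / 2) 1 (by positivity)
  refine ⟨max X2 (max X3 X4), fun X hX D π f N E φ Λ cls yx η ε2 R cL cU Nc hD hm hNf hr hf hE hv
    hy i1 c2 c4 hp hRe hcc hP => ?_⟩
  simp only [ge_iff_le, max_le_iff] at hX
  obtain ⟨b1, b2, b3, b4, -, -, b6, -, -⟩ := H4 X hX.2.1 π _ (le_max_of_le_left A1) hr
  have b8 := H5 X hX.2.2 π _ hr
  have ok := hr.ok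
  have ℓ1 : 1 ≤ Real.log X := by linarith
  have x1 : 1 ≤ X := by linarith
  have x0 : 0 < X := by linarith
  have κ0 : 0 < π.κ := lt_of_lt_of_le (by positivity) hr.κlo
  obtain ⟨E2, γ, τ, j1, j3, j4⟩ := H2 X hX.1 D π N E φ Λ cls (a / 8) R hD.ok hD.a hD.n hD.hk hD.hK
    hm hNf (hR.mono π X _ A C D0 ℓ1 (le_max_left _ _) hr) hE hv hy (by linarith) i1 c2 c4
    fun x => by
      have : cL ≤ N.cell x := by
        cases c : N.isU x
        · exact (mem_Ico.1 (hRe.cl x c)).1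
        · exact hcc.trans (mem_Ico.1 (hRe.cu x c)).1
      exact ((one_le_pow₀ (by linarith)).trans hP).trans (mul_le_mul_of_nonneg_left
        (Real.exp_le_exp.2 (mul_le_mul_of_nonneg_right (Nat.cast_le.2 this)
          (hB.κ1_pos π ok).le)) κ0.le)
  have s1 : √(c' * Real.log X / #π.PP) ≤ a / 8 := by
    have p0 : (0 : ℝ) < #π.PP := by exact_mod_cast ok.ne.card_pos
    have s3 : Real.log X * Real.log X ≤ #π.PP :=
      calc Real.log X * Real.log X = (Real.log X ^ (4 : ℝ)) ^ (1 / 2 : ℝ) := by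
            rw [← Real.rpow_mul (by linarith), show (4 : ℝ) * (1 / 2) = (2 : ℕ) by norm_num,
              Real.rpow_natCast, pow_two]
        _ ≤ π.P ^ (1 / 2 : ℝ) := Real.rpow_le_rpow (by positivity)
            ((Real.rpow_le_rpow_of_exponent_le ℓ1 (le_max_right A 4)).trans hr.lo) (by norm_num)
        _ ≤ π.P ^ (9 / 10 : ℝ) := Real.rpow_le_rpow_of_exponent_le (by linarith) (by norm_num)
        _ ≤ _ := b6
    have s2 := (mul_le_mul_of_nonneg_right (K1.trans b2) (zero_le_one.trans ℓ1)).trans s3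
    rw [div_mul_eq_mul_div, div_le_iff₀ (by positivity)] at s2
    rw [Real.sqrt_le_left (by positivity), div_le_iff₀ p0]
    linarith
  have s2 : 1 - a ≤ 1 - 2 * (a / 8) - 2 / tm - 2 * √(c' * Real.log X / #π.PP) := by
    rw [div_eq_mul_one_div 2]
    linarith
  have u1 := u_le x1 hr.κlo hr.κ0
  have u2 : 40 * (X * π.κ0 / π.κ + 1 / (π.P / 2)) ≤ er := by
    have v1 := one_div_le_one_div_of_le (by linarith) b1
    have v2 := one_div_le_one_div_of_le (by linarith) b4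
    have v3 : 120 * (1 / L) ≤ er := by
      rw [mul_one_div, div_le_iff₀ (by linarith), mul_comm]
      exact (div_le_iff₀' h2).1 K3 |>.trans_eq (mul_comm _ _)
    rw [one_div_div, div_eq_mul_one_div 2]
    linarith
  obtain ⟨q, hq, Φ, vU, vL, Gd, m1, m2, m3, m4⟩ := hBl D Qf π f N E2 φ γ τ yx η ε2 (X ^ c')
    (X ^ (8 * K ^ 2)) _ (c' * Real.log X) (X * π.κ0) β (π.P / 2) cL cU Nc hD.ok hD.a hD.e ok hNf
    (hB.mono π N E E2 hE j1) hf
    ⟨hRe.card, hRe.cu, hRe.cl, fun e he => hRe.tk e (j1 he), fun e he => hRe.big e (j1 he)⟩ hcc j3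
    (fun e he => hp e (j1 he)) j4
    (by
      rw [Real.log_rpow x0]
      exact le_mul_of_one_le_right (mul_nonneg c0.le (by linarith)) (by linarith))
    (by linarith) h3 (K5.trans b4)
    ((div_le_one κ0).1 (u1.trans ((div_le_one x0).2 x1))) (by linarith) (by linarith)
  rw [hD.hK] at m1 m3
  rw [hD.hk] at m3
  refine ⟨q, hq, Φ, vU, vL, Gd, m1.trans ?_, m2, ⟨m3.bd, m3.per, fun z hz z' hz' m =>
    (m3.lip z hz z' hz' m).trans (mul_le_mul_of_nonneg_right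
      (W_le hm x1 hr.κlo (by positivity) (K4.trans b1)) (abs_nonneg _)), m3.orth⟩, m4.nU, m4.nL,
    m4.pos, le_trans (mul_le_mul_of_nonneg_right (by linarith) m4.pos.le) m4.ray,
    fun g hg => ?_, m4.sU, fun j b hb => ?_⟩
  · rw [← Real.rpow_natCast, ← Real.rpow_mul x0.le, ← add_halves c, Real.rpow_add x0]
    exact mul_le_mul (Real.rpow_le_rpow_of_exponent_le x1 c3) (by linarith) (Nat.cast_nonneg _)
      (by positivity)
  · obtain ⟨g1, g2, g3, g4, g5, y, g6, g7, g8⟩ := m4.gd g hg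
    exact ⟨g1, g2, g3, g4, g5, y, g6, g7, by linarith⟩
  · obtain ⟨g1, g2, y, g3, g4, g5⟩ := m4.sL j b hb
    exact ⟨g1, g2, y, g3, g4, by linarith⟩

end Pool.Agent.Lib.MP_028aa5_nt.V
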