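import Pool.Agent.Lib.MP_028aa5_nt.V.StL

/-! Propagation of the rational approximation and the exact decomposition. -/

namespace Pool.Agent.Lib.MP_028aa5_nt.V

open Finset T U
open scoped Classical

namespace LevYJ

variable {D : DX}

lemma comm (h : D.toDS.Ok) (a b : ℝ) (g : D.P) :
    D.dil a (D.dil b g) = D.dil b (D.dil a g) := by
  rw [h.dil_dil, h.dil_dil, mul_comm]

lemma lam_rat (a : D.OkA) (q : ℕ) {l : D.P} (hl : l ∈ D.Λ) : l ∈ D.Rat q :=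
  a.rat_mono 1 q (one_dvd q) (a.lam ▸ hl)

lemma dil0 (h : D.toDS.Ok) (c : ℝ) (g : D.P) : D.dil c (D.dil 0 g) = D.dil 0 g := by
  rw [h.dil_dil, mul_zero]

lemma dil0' (h : D.toDS.Ok) (c : ℝ) (g : D.P) : D.dil 0 (D.dil c g) = D.dil 0 g := by
  rw [h.dil_dil, zero_mul]

lemma cls_mono {κ y : ℝ} {R : ℕ} {Q Q' T T' : ℝ} {g : D.P} (h : D.Cls κ y R Q T g)
    (h1 : Q ≤ Q') (h2 : T ≤ T') : D.Cls κ y R Q' T' g := by
  obtain ⟨q, z, a, b, c, d⟩ := h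
  exact ⟨q, z, a, b.trans h1, c, d.trans h2⟩

/-- moving along an edge costs a factor `9 ^ k` -/
lemma edge (hB : BasSt) (h : D.toDS.Ok) {π : Par} {N : Net} {E : Finset N.Ed}
    (ok : π.Ok) (hI : N.Is π E) (h1 : 2 * π.κ1 ≤ 1) {e : N.Ed} (he : e ∈ E) (τ : D.P) :
    D.ν π.κ (N.pos π (N.lo e)) (D.dil (N.pr e) τ) ≤ 9 ^ D.k * D.ν π.κ (N.pos π (N.up e)) τ ∧
    D.ν π.κ (N.pos π (N.up e)) τ ≤ 9 ^ D.k * D.ν π.κ (N.pos π (N.lo e)) (D.dil (N.pr e) τ) := by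
  have k1 := hB.κ1_pos π ok
  have k2 := hB.κ1_le π ok
  have k0 : 0 < π.κ := k1.trans_le k2
  have p0 : (0 : ℝ) < N.pr e := Nat.cast_pos.2 (ok.pr _ (hI.pr e he)).1.pos
  have u0 := hB.pos_pos π N (N.up e)
  have l0 := hB.pos_pos π N (N.lo e)
  have h2 := hB.pos_edge π N E ok hI e he
  rw [Real.log_div u0.ne' p0.ne'] at h2
  have h3 : |Real.log (N.pos π (N.up e)) - Real.log (N.pr e * N.pos π (N.lo e))| ≤ 2 * π.κ1 := by
    rw [Real.log_mul p0.ne' l0.ne', ← sub_sub]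
    exact h2
  have h4 : (1 + 4 * (2 * π.κ1) / π.κ) ^ D.k ≤ 9 ^ D.k := by
    refine pow_le_pow_left₀ (by positivity) ?_ _
    have : 4 * (2 * π.κ1) / π.κ ≤ 8 := by
      rw [div_le_iff₀ k0]
      linarith
    linarith
  rw [h.ndil]
  exact ⟨(h.shift _ _ _ _ τ k0 ok.κ u0 (by positivity) (by rwa [abs_sub_comm]) h1).trans
      (mul_le_mul_of_nonneg_right h4 (h.nonneg _ _ _)),
    (h.shift _ _ _ _ τ k0 ok.κ (by positivity) u0 h3 h1).trans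
      (mul_le_mul_of_nonneg_right h4 (h.nonneg _ _ _))⟩

lemma down (hB : BasSt) (h : D.toDS.Ok) (a : D.OkA) {π : Par} {N : Net} {E : Finset N.Ed}
    (ok : π.Ok) (hI : N.Is π E) (h1 : 2 * π.κ1 ≤ 1) {φ : N.W → D.P} {R : ℕ} {Q T : ℝ}
    (hL : D.LvX N R φ E) {e : N.Ed} (he : e ∈ E)
    (c : D.Cls π.κ (N.pos π (N.up e)) R Q T (φ (N.up e))) :
    D.Cls π.κ (N.pos π (N.lo e)) R Q (9 ^ D.k * T) (φ (N.lo e)) := by
  obtain ⟨q, γ, q1, q2, q3, q4⟩ := c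
  obtain ⟨l, hl, e1⟩ := hL e he
  refine ⟨q, D.dil (N.pr e) γ * l, q1, q2,
    (D.Rat q).mul_mem (a.rat_dil _ _ _ q3) (lam_rat a q hl), ?_⟩
  have e2 : φ (N.lo e) * (D.dil R (D.dil (N.pr e) γ * l))⁻¹ =
      D.dil (N.pr e) (φ (N.up e) * (D.dil R γ)⁻¹) := by
    simp only [e1, map_mul, map_inv, comm h (R : ℝ) (N.pr e)]
    group
  rw [e2]
  exact (edge hB h ok hI h1 he _).1.trans (mul_le_mul_of_nonneg_left q4 (by positivity))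

lemma up (hB : BasSt) (h : D.toDS.Ok) (a : D.OkA) {π : Par} {N : Net} {E : Finset N.Ed}
    (ok : π.Ok) (hI : N.Is π E) (h1 : 2 * π.κ1 ≤ 1) {φ : N.W → D.P} {R : ℕ} {Q T : ℝ}
    (hL : D.LvX N R φ E) {e : N.Ed} (he : e ∈ E)
    (c : D.Cls π.κ (N.pos π (N.lo e)) R Q T (φ (N.lo e))) :
    D.Cls π.κ (N.pos π (N.up e)) R (Q * (2 * π.P)) (9 ^ D.k * T) (φ (N.up e)) := by
  obtain ⟨q, γ, q1, q2, q3, q4⟩ := c
  obtain ⟨l, hl, e1⟩ := hL e he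
  obtain ⟨p1, -, p2⟩ := ok.pr _ (hI.pr e he)
  have p0 : (0 : ℝ) < N.pr e := Nat.cast_pos.2 p1.pos
  have e0 : ∀ g, D.dil (N.pr e) (D.dil (1 / N.pr e) g) = g := fun g => by
    rw [h.dil_dil, mul_one_div_cancel p0.ne', h.dil_one]
  refine ⟨q * N.pr e, D.dil (1 / N.pr e) (γ * l⁻¹), Nat.mul_pos q1 p1.pos, ?_,
    a.rat_root _ _ _ ?_, ?_⟩
  · rw [Nat.cast_mul]
    exact mul_le_mul q2 p2 p0.le ((Nat.cast_nonneg _).trans q2)
  · rw [e0]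
    exact (D.Rat q).mul_mem q3 (lam_rat a q (D.Λ.inv_mem hl))
  · refine (edge hB h ok hI h1 he _).2.trans (mul_le_mul_of_nonneg_left ?_ (by positivity))
    have e2 : D.dil (N.pr e) (φ (N.up e) * (D.dil R (D.dil (1 / N.pr e) (γ * l⁻¹)))⁻¹) =
        φ (N.lo e) * (D.dil R γ)⁻¹ := by
      rw [map_mul, map_inv, comm h (N.pr e) R, e0, e1, map_mul, map_inv]
      group
    rw [e2]
    exact q4

/-- normalisation of the constant terms -/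
lemma norm (h : D.toDS.Ok) (a : D.OkA) (n : D.OkN) {κ y Q T : ℝ} {R : ℕ} {g : D.P} (k0 : 0 < κ)
    (k1 : κ ≤ 1) (y0 : 0 < y) (c : D.Cls κ y R Q T g) : ∃ (q : ℕ) (γ τ l : D.P), 1 ≤ q ∧ q ≤ Q ∧
      γ ∈ D.Rat q ∧ l ∈ D.Λ ∧ g = τ * D.dil R (γ * l) ∧ D.dil 0 γ = 1 ∧ D.dil 0 τ ∈ D.Fd ∧
      D.ν κ y τ ≤ T + 2 * D.Dm + (D.Dm * (1 + (T + D.Dm)) / κ) ^ D.Dm := by
  obtain ⟨q, γ, q1, q2, q3, q4⟩ := c
  obtain ⟨l, hl, l0, l1⟩ := a.fd_ex γ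
  obtain ⟨m, hm, m0, m1⟩ := a.fd_ex (g * (D.dil R γ)⁻¹ * (D.dil 0 γ * l))
  have d1 : D.dil 0 γ ∈ D.Rat q := by simpa using a.rat_dil q 0 γ q3
  have r1 := lam_rat a q hl
  have r2 := lam_rat a q hm
  have s1 : D.ν κ y (g * (D.dil R γ)⁻¹ * (D.dil 0 γ * l)) ≤ T + D.Dm :=
    (h.mul _ _ _ _).trans (add_le_add q4 (n.fd _ _ _ l1))
  have lR : D.dil R l = l := by rw [← l0, dil0 h]
  have mR : D.dil R m = m := by rw [← m0, dil0 h]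
  refine ⟨q, m⁻¹ * ((D.dil 0 γ * l)⁻¹ * γ * l) * m, g * (D.dil R γ)⁻¹ * (D.dil 0 γ * l) * m,
    m⁻¹ * l⁻¹, q1, q2, ?_, D.Λ.mul_mem (D.Λ.inv_mem hm) (D.Λ.inv_mem hl), ?_, ?_, ?_, ?_⟩
  · exact (D.Rat q).mul_mem ((D.Rat q).mul_mem ((D.Rat q).inv_mem r2) ((D.Rat q).mul_mem
      ((D.Rat q).mul_mem ((D.Rat q).inv_mem ((D.Rat q).mul_mem d1 r1)) q3) r1)) r2
  · simp only [map_mul, map_inv, lR, mR, dil0 h]
    group
  · simp only [map_mul, map_inv, l0, m0, dil0 h]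
    group
  · rw [map_mul, m0]
    exact m1
  · generalize g * (D.dil R γ)⁻¹ * (D.dil 0 γ * l) = t at *
    have s2 := n.const κ y t k0 k1 y0
    have s3 : D.ν κ y m ≤ D.ν κ y (D.dil 0 t) + D.Dm := by
      have := h.mul κ y (D.dil 0 t)⁻¹ (D.dil 0 t * m)
      rw [inv_mul_cancel_left, h.inv] at this
      exact this.trans (add_le_add le_rfl (n.fd _ _ _ m1))
    have s4 : (D.Dm * (1 + D.ν κ y t) / κ) ^ D.Dm ≤ (D.Dm * (1 + (T + D.Dm)) / κ) ^ D.Dm := by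
      have := h.nonneg κ y t
      gcongr
    linarith [h.mul κ y t m]

/-- the decomposition is exact along an edge -/
lemma exact (h : D.toDS.Ok) (a : D.OkA) (n : D.OkN) {κ y T : ℝ} {R p q q' : ℕ}
    {γ τ l γ' τ' l' m : D.P} (k0 : 0 < κ) (y0 : 0 < y) (R0 : 0 < R) (q1 : 1 ≤ q) (q2 : 1 ≤ q')
    (r1 : γ ∈ D.Rat q) (r2 : γ' ∈ D.Rat q') (hl : l ∈ D.Λ) (hl' : l' ∈ D.Λ) (hm : m ∈ D.Λ)
    (e : τ' * D.dil R (γ' * l') = D.dil p (τ * D.dil R (γ * l)) * D.dil R m)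
    (z1 : D.dil 0 γ = 1) (z2 : D.dil 0 γ' = 1) (f1 : D.dil 0 τ ∈ D.Fd) (f2 : D.dil 0 τ' ∈ D.Fd)
    (s : D.ν κ y ((D.dil p τ)⁻¹ * τ') ≤ T)
    (b : (D.Dm * (1 + T) * (q * q' : ℕ)) ^ D.Dm * (1 / R) < κ * y) :
    τ' = D.dil p τ ∧ D.Eq (D.dil R γ') (D.dil p (D.dil R γ)) := by
  have R1 : (0 : ℝ) < R := by exact_mod_cast R0
  obtain ⟨j, hj⟩ : ∃ j, j = D.dil p l * m * l'⁻¹ := ⟨_, rfl⟩
  have j1 : j ∈ D.Λ := hj ▸ D.Λ.mul_mem (D.Λ.mul_mem (h.mem p l hl) hm) (D.Λ.inv_mem hl')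
  have e1 : (D.dil p τ)⁻¹ * τ' = D.dil R (D.dil p γ * j * γ'⁻¹) := by
    rw [eq_mul_inv_of_mul_eq e, hj]
    simp only [map_mul, map_inv, comm h (R : ℝ) p]
    group
  have e2 := n.big κ y (1 / R) T (q * q') _ k0 y0 (by positivity) (Nat.mul_pos q1 q2) (by
    rw [e1, h.dil_dil, one_div_mul_cancel R1.ne', h.dil_one]
    exact (D.Rat _).mul_mem ((D.Rat _).mul_mem (a.rat_mono _ _ (dvd_mul_right q q')
      (a.rat_dil _ _ _ r1)) (lam_rat a _ j1)) ((D.Rat _).inv_mem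
        (a.rat_mono _ _ (dvd_mul_left q' q) r2))) s b
  have e3 : D.dil 0 ((D.dil p τ)⁻¹ * τ') = D.dil 0 j := by
    rw [e1]
    simp only [map_mul, map_inv, dil0' h, z1, z2, one_mul, inv_one, mul_one]
  have e4 : D.dil 0 j = 1 := by
    refine a.fd_uniq _ f1 _ (by simpa using h.mem 0 j j1) ?_
    rw [← e3, map_mul, map_inv, dil0' h, mul_inv_cancel_left]
    exact f2
  rw [e3, e4] at e2
  refine ⟨(inv_mul_eq_one.1 e2.symm).symm, ?_⟩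
  rw [e1, map_mul, map_mul, map_inv, eq_comm, mul_inv_eq_one] at e2
  rw [DS.Eq, ← e2, comm h p R, mul_inv_rev, inv_mul_cancel_right]
  exact D.Λ.inv_mem (h.mem R j j1)

end LevYJ

open LevYJ

theorem st_LevY (hB : BasSt) (hC : CutSt) : LevYSt := by
  intro D π N E φ ε Q0 T0 Q T Tm R tm h a n ok hI hR hL hRay tm1 hε h1 hpos hQ0 T1 hS hQ hT hTm hrig
  have P2 := ok.P
  have P1 : 1 ≤ 2 * π.P := by linarith
  have k0 : 0 < π.κ := (hB.κ1_pos π ok).trans_le (hB.κ1_le π ok)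
  have c1 : (1 : ℝ) ≤ 9 ^ D.k := one_le_pow₀ (by norm_num)
  have mQ : ∀ s t : ℕ, s ≤ t → Q0 * (2 * π.P) ^ s ≤ Q0 * (2 * π.P) ^ t := fun s t h =>
    mul_le_mul_of_nonneg_left (pow_le_pow_right₀ P1 h) hQ0
  have mT : ∀ s t : ℕ, s ≤ t → (9 ^ D.k) ^ s * T0 ≤ (9 ^ D.k) ^ t * T0 := fun s t h =>
    mul_le_mul_of_nonneg_right (pow_le_pow_right₀ c1 h) T1
  obtain ⟨t, ht, hray⟩ := hC π N E (fun t x => D.Cls π.κ (N.pos π x) R
      (Q0 * (2 * π.P) ^ t) ((9 ^ D.k) ^ t * T0) (φ x)) ε tm ok hI hRay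
    tm1 hε (fun t x c => cls_mono c (mQ _ _ t.le_succ) (mT _ _ t.le_succ))
    (fun t e he c => cls_mono (down hB h a ok hI h1 hL he c) (mQ _ _ t.le_succ)
      (le_of_eq (by ring)))
    (fun t e he c => cls_mono (up hB h a ok hI h1 hL he c) (le_of_eq (by ring))
      (le_of_eq (by ring)))
    (fun E' hE hr => by
      obtain ⟨e, he, x, hx, c⟩ := hS E' hE hr
      refine ⟨e, he, ?_⟩
      simp only [pow_zero, mul_one, one_mul]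
      rcases hx with rfl | rfl
      exacts [Or.inl c, Or.inr c])
  have hch : ∀ x, ∃ (q : ℕ) (γ τ l : D.P), D.Cls π.κ (N.pos π x) R Q T (φ x) →
      1 ≤ q ∧ q ≤ Q ∧ γ ∈ D.Rat q ∧ l ∈ D.Λ ∧ φ x = τ * D.dil R (γ * l) ∧ D.dil 0 γ = 1 ∧
        D.dil 0 τ ∈ D.Fd ∧ D.ν π.κ (N.pos π x) τ ≤ Tm := by
    intro x
    by_cases c : D.Cls π.κ (N.pos π x) R Q T (φ x)
    · obtain ⟨q, γ, τ, l, a1, a2, a3, a4, a5, a6, a7, a8⟩ :=
        norm h a n k0 ok.κ (hB.pos_pos π N x) c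
      exact ⟨q, γ, τ, l, fun _ => ⟨a1, a2, a3, a4, a5, a6, a7, a8.trans hTm⟩⟩
    · exact ⟨1, 1, 1, 1, fun c' => absurd c' c⟩
  choose q γ τ l hq using hch
  set E' := {e ∈ E | D.Cls π.κ (N.pos π (N.up e)) R
      (Q0 * (2 * π.P) ^ t) ((9 ^ D.k) ^ t * T0) (φ (N.up e)) ∧
    D.Cls π.κ (N.pos π (N.lo e)) R
      (Q0 * (2 * π.P) ^ t) ((9 ^ D.k) ^ t * T0) (φ (N.lo e))} with hE'
  have hsub : E' ⊆ E := filter_subset _ _
  have hend : ∀ e ∈ E', ∀ x, x = N.up e ∨ x = N.lo e → D.Cls π.κ (N.pos π x) R Q T (φ x) := by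
    intro e he x hx
    obtain ⟨-, a, b⟩ := mem_filter.1 he
    refine cls_mono ?_ ((mQ _ _ ht.le).trans hQ) ((mT _ _ ht.le).trans hT)
    rcases hx with rfl | rfl
    exacts [a, b]
  have hex : ∀ e ∈ E', τ (N.lo e) = D.dil (N.pr e) (τ (N.up e)) ∧
      D.Eq (D.dil R (γ (N.lo e))) (D.dil (N.pr e) (D.dil R (γ (N.up e)))) := by
    intro e he
    obtain ⟨m, hm, e1⟩ := hL e (hsub he)
    obtain ⟨a1, a2, a3, a4, a5, a6, a7, a8⟩ := hq _ (hend e he _ (Or.inl rfl))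
    obtain ⟨b1, b2, b3, b4, b5, b6, b7, b8⟩ := hq _ (hend e he _ (Or.inr rfl))
    have T0 : 0 ≤ Tm := (h.nonneg _ _ _).trans a8
    have R1 : (0 : ℝ) < R := by exact_mod_cast hR
    refine exact h a n (T := (1 + 9 ^ D.k) * Tm) k0 (hB.pos_pos π N (N.lo e)) hR a1 b1 a3 b3 a4 b4
      hm (by rw [← a5, ← b5]; exact e1) a6 b6 a7 b7 ((h.mul _ _ _ _).trans ?_)
      (lt_of_lt_of_le ?_ (hpos _))
    · rw [h.inv]
      have := (edge hB h ok hI h1 (hsub he) (τ (N.up e))).1.trans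
        (mul_le_mul_of_nonneg_left a8 (by positivity))
      linarith
    · rw [mul_one_div, div_lt_one R1]
      refine lt_of_le_of_lt (pow_le_pow_left₀ (by positivity)
        (mul_le_mul_of_nonneg_left ?_ (by positivity)) _) hrig
      rw [Nat.cast_mul, sq]
      exact mul_le_mul a2 b2 (Nat.cast_nonneg _) ((Nat.cast_nonneg _).trans a2)
  refine ⟨E', fun x => D.dil R (γ x), τ, hsub, ⟨fun e he x hx => ?_, fun e he x hx => ?_,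
    fun e he x hx => (hq x (hend e he x hx)).2.2.2.2.2.2.2, fun e he => (hex e he).2,
    fun e he => (hex e he).1⟩, hray⟩
  · obtain ⟨-, -, -, a4, a5, -⟩ := hq x (hend e he x hx)
    rw [DS.Eq, a5, map_mul, ← mul_assoc (τ x), mul_inv_rev, inv_mul_cancel_right]
    exact D.Λ.inv_mem (h.mem R _ a4)
  · obtain ⟨a1, a2, a3, -⟩ := hq x (hend e he x hx)
    exact ⟨q x, a1, a2, a.rat_dil _ _ _ a3⟩

end Pool.Agent.Lib.MP_028aa5_nt.V
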