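import Pool.Agent.Lib.MP_028aa5_nt.V.StL
import Pool.Agent.Lib.MP_028aa5_nt.U.LevX2

/-! The exact decomposition in the regime of short intervals of logarithmic length. -/

namespace Pool.Agent.Lib.MP_028aa5_nt.V

open Finset T U
open scoped Classical

namespace LevZJ

lemma base_le {E X κ c W B : ℝ} (hE : 0 ≤ E) (hX : 0 < X) (hκ : 1 / X ≤ κ) (hc : c ≤ E)
    (hW0 : 0 ≤ W) (hW : W ≤ E ^ 5) (hB0 : 0 ≤ B) (hB : B ≤ X ^ 3 * E ^ 2) (h8 : E ^ 8 ≤ X) :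
    c * W * B / κ ≤ X ^ 5 := by
  have κ0 : 0 < κ := lt_of_lt_of_le (by positivity) hκ
  have a1 : c * W * B ≤ E * E ^ 5 * (X ^ 3 * E ^ 2) :=
    mul_le_mul (mul_le_mul hc hW hW0 hE) hB hB0 (by positivity)
  have a2 : E ^ 8 * X ^ 3 ≤ X * X ^ 3 := mul_le_mul_of_nonneg_right h8 (by positivity)
  have a3 := mul_le_mul_of_nonneg_left ((div_le_iff₀ hX).1 hκ) (show 0 ≤ X ^ 4 by positivity)
  rw [div_le_iff₀ κ0]
  nlinarith

lemma Tm_le {X κ : ℝ} {K : ℕ} (hK : 2 ≤ K) (hX : 2 * K + 2 ≤ X) (hκ : 1 / X ≤ κ) :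
    X ^ (5 * K + 1) + 2 * K + (K * (1 + (X ^ (5 * K + 1) + K)) / κ) ^ K ≤ X ^ (8 * K ^ 2) := by
  have K0 : (0 : ℝ) ≤ K := Nat.cast_nonneg K
  have X1 : 1 ≤ X := by linarith
  have X0 : 0 < X := by linarith
  have κ0 : 0 < κ := lt_of_lt_of_le (by positivity) hκ
  have a0 : X ≤ X ^ (5 * K + 1) := le_self_pow₀ X1 (by omega)
  have a1 : X ^ (5 * K + 1) + 2 * K + 1 ≤ X ^ (5 * K + 2) := by
    rw [pow_succ X (5 * K + 1)]
    nlinarith
  have a2 : K * (1 + (X ^ (5 * K + 1) + K)) / κ ≤ X ^ (5 * K + 4) := by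
    have b1 : K * (1 + (X ^ (5 * K + 1) + K)) ≤ X * X ^ (5 * K + 2) :=
      mul_le_mul (by linarith) (by linarith) (by positivity) X0.le
    have b2 := mul_le_mul_of_nonneg_left ((div_le_iff₀ X0).1 hκ)
      (show 0 ≤ X * X ^ (5 * K + 2) by positivity)
    rw [div_le_iff₀ κ0, show X ^ (5 * K + 4) = X * X ^ (5 * K + 2) * X by ring]
    linarith
  have a3 := pow_le_pow_left₀ (by positivity) a2 K
  rw [← pow_mul] at a3
  have a4 : X ^ (5 * K + 2) ≤ X ^ ((5 * K + 4) * K) := pow_le_pow_right₀ X1 (by nlinarith)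
  have a5 : X ^ ((5 * K + 4) * K + 1) ≤ X ^ (8 * K ^ 2) := pow_le_pow_right₀ X1 (by nlinarith)
  have a6 : 0 ≤ X ^ ((5 * K + 4) * K) := by positivity
  rw [pow_succ] at a5
  nlinarith

lemma rig_lt {X Q c R : ℝ} {K m : ℕ} (hK : 2 ≤ K) (hm : 2 * K ^ 3 ≤ m) (hX : 1 < X) (hc : 0 ≤ c)
    (h1 : K * (1 + c) ≤ X) (hQ : Q ^ 2 ≤ X) (hR : X ^ (7 * m + 2) ≤ R) :
    (K * (1 + c * X ^ (8 * K ^ 2)) * Q ^ 2) ^ K < R := by
  have X0 : 0 < X := by linarith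
  have a0 : 1 ≤ X ^ (8 * K ^ 2) := one_le_pow₀ hX.le
  have a1 : K * (1 + c * X ^ (8 * K ^ 2)) ≤ X * X ^ (8 * K ^ 2) := by
    refine le_trans ?_ (mul_le_mul_of_nonneg_right h1 (by positivity))
    rw [mul_assoc]
    exact mul_le_mul_of_nonneg_left (by linarith) (Nat.cast_nonneg K)
  have a2 := pow_le_pow_left₀ (by positivity)
    (mul_le_mul a1 hQ (by positivity) (by positivity)) K
  rw [← pow_succ', ← pow_succ, ← pow_mul] at a2
  refine a2.trans_lt (lt_of_lt_of_le (pow_lt_pow_right₀ hX ?_) hR)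
  have : K ≤ K ^ 3 := Nat.le_self_pow (by norm_num) K
  nlinarith

end LevZJ

open LevZJ LevX2J in
theorem st_LevZ (hB : BasSt) (hR2 : Reg2St) (hS : SeedXSt) (hL : LevYSt) : LevZSt := by
  intro k K c hc
  obtain ⟨c', c0, c1, c2⟩ : ∃ c' : ℝ, 0 < c' ∧ c' ≤ c ∧ c' ≤ 1 / 4 :=
    ⟨min c (1 / 4), lt_min hc (by norm_num), min_le_left _ _, min_le_right _ _⟩
  obtain ⟨d, d1, d2⟩ : ∃ d : ℕ, 8 ≤ d ∧ 5 * K + 1 ≤ d := ⟨8 + (5 * K + 1), by omega, by omega⟩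
  have d0 : (0 : ℝ) < d := by exact_mod_cast (show 0 < d by omega)
  have e0 : 0 < c' / d := div_pos c0 d0
  obtain ⟨A, A1, hA⟩ := hR2.fact 4 (c' / d) (by norm_num) e0
  refine ⟨c' / d, A, e0, A1, fun tm C D0 htm hD => ?_⟩
  obtain ⟨L, K1, K2, K3, K4⟩ : ∃ L : ℝ, 33 ≤ L ∧ 32 * (K : ℝ) ≤ L ∧
      (9 ^ k) ^ tm ≤ L ∧ K * (1 + (1 + 2 * 9 ^ k)) ≤ L := by
    have a1 : (0 : ℝ) ≤ 32 * (K : ℝ) := by positivity
    have a2 : (0 : ℝ) ≤ (9 ^ k) ^ tm := by positivity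
    have a3 : (0 : ℝ) ≤ K * (1 + (1 + 2 * 9 ^ k)) := by positivity
    exact ⟨33 + 32 * (K : ℝ) + (9 ^ k) ^ tm + K * (1 + (1 + 2 * 9 ^ k)),
      by linarith, by linarith, by linarith, by linarith⟩
  obtain ⟨X1, h1⟩ := hR2.base C D0 L hD
  obtain ⟨X2, h2⟩ := hR2.pw C D0 (c' / d) tm e0
  obtain ⟨X3, h3⟩ := hA C D0 L hD (by linarith)
  refine ⟨max X1 (max X2 X3), fun X hX D π N E φ Λ cls ε R h a nn pk pK hm pN hReg hI hLv hRay hε
    hRX hW hC hpos => ?_⟩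
  obtain ⟨b1, b2, b3, b4, -, b6, b7, -, b9⟩ := h1 X (le_trans (le_max_left _ _) hX) π A A1 hReg
  have s1 := h2 X (le_trans (le_trans (le_max_left _ _) (le_max_right _ _)) hX) π A hReg
  have f0 := h3 X (le_trans (le_trans (le_max_right _ _) (le_max_right _ _)) hX) π hReg
  clear h1 h2 h3 hX hA
  subst pk pK
  have k2 : 2 ≤ D.Dm := le_trans (by omega) a.kK
  have k2' : (2 : ℝ) ≤ D.Dm := by exact_mod_cast k2
  have X1' : 1 < X := by linarith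
  have X0 : 0 < X := by linarith
  have P0 : 0 < π.P := by linarith
  obtain ⟨-, p2⟩ := LevX.P_le P0 (show 1 ≤ L by linarith) (show 1 ≤ Real.log X by linarith)
    (by linarith) b6
  obtain ⟨n, n1, n2, n3, n4⟩ := LevX.steps (show 4 ≤ Real.log π.P by linarith) p2
  obtain ⟨f1, f2⟩ := f0 n (by linarith)
  have s2 : (X ^ (c' / d)) ^ d = X ^ c' := by
    rw [← Real.rpow_natCast, ← Real.rpow_mul X0.le, div_mul_cancel₀ _ d0.ne']
  generalize X ^ (c' / d) = Ee at s1 s2 f1 f2 hW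
  have n0 : (1 : ℝ) ≤ n := by exact_mod_cast n1
  have g3 := LevX.lin_le n1 (show 1 ≤ L by linarith) f2
  obtain ⟨E1, -, -, l3⟩ := lin (r := 0) K1 (by linarith) n0 g3
  have E2 : 2 ≤ Ee := by linarith
  have p1 : π.P ≤ Ee := by
    have a1 : 2 * π.P ≤ (2 * π.P) ^ tm := le_self_pow₀ (by linarith) (by omega)
    linarith
  have q1 : (X ^ c') ^ 2 ≤ X := by
    rw [← Real.rpow_natCast, ← Real.rpow_mul X0.le]
    exact Real.rpow_le_self_of_one_le X1'.le (by push_cast; linarith)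
  have q2 : ∀ j ≤ d, Ee ^ j ≤ X ^ c' := fun j hj =>
    (pow_le_pow_right₀ (by linarith) hj).trans s2.le
  have q3 : X ^ c' ≤ X := Real.rpow_le_self_of_one_le X1'.le (by linarith)
  have q4 : Ee ≤ X := by
    have a1 := (q2 1 (by omega)).trans q3
    rwa [pow_one] at a1
  have g2 := LevX.fac_le (show 4 ≤ L by linarith) f2
  have g1 := LevX.rat_le (show 2 ≤ L by linarith) P0.le (Nat.cast_nonneg _) f1
  have g5 := LevX.pow_pp X1' P0 b7 n2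
  have g6 := LevX.pow_P X0 P0 p1 (LevX.two_le g2) n3
  have κ1 := hB.κ1_pos π hReg.ok
  have κ2 := hB.κ1_le π hReg.ok
  have κ0 : 0 < π.κ := κ1.trans_le κ2
  have w1 : (#(univ.image cls) : ℝ) ≤ Ee / π.κ := by
    rw [le_div_iff₀ κ0, mul_comm]
    exact hW
  have F1 : (0 : ℝ) < 4 ^ n := by positivity
  have F2 : (0 : ℝ) < (n.factorial : ℝ) ^ 2 := by positivity
  obtain ⟨Wd, W1, W2⟩ := wd E2
  have R0 : 0 < R := by
    have h : (0 : ℝ) < R := lt_of_lt_of_le (by positivity) hRX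
    exact_mod_cast h
  have t1 : 2 * (2 * (n : ℝ) + 2) * π.κ1 ≤ 1 := LevX.aux3 K1 n0 n4 κ1 κ2 b9
  have t0 : 2 * π.κ1 ≤ 1 :=
    le_trans (mul_le_mul_of_nonneg_right (by linarith) κ1.le) t1
  have t2 := many (k := D.Dm) E2 X0 (by linarith) F1 F2 g2 hReg.κlo ((q2 3 (by omega)).trans q3) g5
  have t3 := width (k := D.Dm) (by linarith) F1 F2 g2 κ0 (lt_trans (by positivity) g5)
    (by positivity) g1 (K2.trans E1)
  have n9 : (1 : ℝ) ≤ 9 ^ D.k := one_le_pow₀ (by norm_num)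
  have t4 : D.Dm * (1 + 2 * 9 ^ D.k) * Wd * (2 * π.P) ^ n / π.κ ≤ X ^ 5 :=
    base_le (by linarith) X0 hReg.κlo (by linarith) (Nat.cast_nonneg _) W2 (by positivity) g6
      ((q2 8 d1).trans q3)
  have t5 : 3 * π.κ + (4 * (n : ℝ) + 2) * π.κ1 ≤ 4 * π.κ := by
    refine fine X1'.le (Nat.cast_nonneg π.k) ?_ hReg.κlo (l3.trans q4)
    rw [Par.κ1, pN, hReg.κ0, Nat.cast_one, one_mul]
  have t6 : (D.Dm * (1 + 2 * 9 ^ D.k) * Wd * (2 * π.P) ^ n / π.κ) ^ (2 * D.Dm) ≤ R := by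
    refine (pow_le_pow_left₀ (by positivity) t4 _).trans (le_trans ?_ hRX)
    rw [← pow_mul]
    have : D.Dm ≤ D.Dm ^ 3 := Nat.le_self_pow (by norm_num) _
    exact pow_le_pow_right₀ X1'.le (by omega)
  obtain ⟨E', γ, τ, r2, r4, r5⟩ := hL D π N E φ ε _ _ (X ^ c') (X ^ (5 * D.Dm + 1))
    (X ^ (8 * D.Dm ^ 2)) R tm h a nn hReg.ok hI R0 hLv hRay htm hε t0 hpos (by positivity)
    (by positivity)
    (fun E' hE' hr => hS D π N E' φ Λ cls (2 * 9 ^ D.k) (3 * π.κ) (4 * π.κ) (Ee / π.κ) _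
      R n Wd h nn hReg.ok (hB.mono π N E E' hI hE') (by positivity) R0
      (fun e he => hLv e (hE' he)) hr w1 hC n1 t5 (four K1 b2 κ0 b9)
      le_rfl t2 ((add_le_add t3 le_rfl).trans W1) t6)
    (by
      refine le_trans ?_ (q2 _ d2)
      rw [pow_succ Ee, pow_mul Ee 5]
      exact mul_le_mul (pow_le_pow_left₀ (Nat.cast_nonneg _) W2 _) s1 (by positivity)
        (by positivity))
    (by
      rw [pow_succ' X, pow_mul X 5]
      exact mul_le_mul (K3.trans b1) (pow_le_pow_left₀ (by positivity) t4 _) (by positivity) X0.le)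
    (Tm_le k2 (by linarith) hReg.κlo)
    (rig_lt k2 hm X1' (by positivity) (le_trans (by gcongr; linarith) (K4.trans b1)) q1 hRX)
  refine ⟨E', γ, τ, r2, ⟨r4.eq, fun e he x hx => ?_, r4.sz, r4.rat, r4.re⟩, r5⟩
  obtain ⟨q, a1, a2, a3⟩ := r4.den e he x hx
  exact ⟨q, a1, a2.trans (Real.rpow_le_rpow_of_exponent_le X1'.le c1), a3⟩

end Pool.Agent.Lib.MP_028aa5_nt.V
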