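import Pool.Agent.Lib.MP_028aa5_nt.V.LoopX
import Pool.Agent.Lib.MP_028aa5_nt.V.LevY
import Pool.Agent.Lib.MP_028aa5_nt.V.LevZ
import Pool.Agent.Lib.MP_028aa5_nt.V.BlockX
import Pool.Agent.Lib.MP_028aa5_nt.V.CoreA
import Pool.Agent.Lib.MP_028aa5_nt.T.Bas
import Pool.Agent.Lib.MP_028aa5_nt.T.Blk0
import Pool.Agent.Lib.MP_028aa5_nt.T.Cf
import Pool.Agent.Lib.MP_028aa5_nt.T.Cut
import Pool.Agent.Lib.MP_028aa5_nt.T.PF
import Pool.Agent.Lib.MP_028aa5_nt.T.Walk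
import Pool.Agent.Lib.MP_028aa5_nt.U.Lev2
import Pool.Agent.Lib.MP_028aa5_nt.U.VA

/-! From the top of the tower to one component: all parts together. -/

namespace Pool.Agent.Lib.MP_028aa5_nt.V

open T U

theorem all_CoreA : CoreASt :=
  st_CoreA st_Bas st_Reg2
    (st_LevZ st_Bas st_Reg2
      (st_SeedX st_Bas (st_LoopX st_Bas (st_Cf st_Bas) st_PF (st_Walk st_Bas) st_Ab))
      (st_LevY st_Bas (st_Cut st_Bas)))
    (st_BlockX st_Bas st_DenX (st_LabX (st_Drop st_Bas) st_Lab st_DenX))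

end Pool.Agent.Lib.MP_028aa5_nt.V
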