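import Pool.Agent.Lib.MP_028aa5_nt.V.Geo
import Pool.Agent.Lib.MP_028aa5_nt.U.ChInv
import Pool.Agent.Lib.MP_028aa5_nt.U.Zt
import Pool.Agent.Lib.MP_028aa5_nt.U.List

/-! Conflicts, chains of conflicts and their defects. -/

namespace Pool.Agent.Lib.MP_028aa5_nt.V

open Finset T U ClJ
open scoped Classical

theorem st_Rel : RelSt := by
  rintro D π Y S A z z' ⟨p, r, p'⟩ hD hπ hS hz hz' ⟨-, -, hp, hr, hp', t, t', ht, ht', hc, hn⟩
  change D.Pt at t t'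
  change D.chd π p t = z at ht
  change D.chd π p' t' = z' at ht'
  change S (D.chd π r t) = S (D.chd π r t') at hc
  have hκ := GeoJ.κ_pos hπ
  have p0 : (0 : ℝ) < p := by exact_mod_cast (hπ.pr p hp).1.pos
  have r0 : (0 : ℝ) < r := by exact_mod_cast (hπ.pr r hr).1.pos
  have p0' : (0 : ℝ) < p' := by exact_mod_cast (hπ.pr p' hp').1.pos
  have zy : z.y = t.y / p := by rw [← ht]; rfl
  have zy' : z'.y = t'.y / p' := by rw [← ht']; rfl
  have ty : 0 < t.y := by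
    rw [zy] at hz
    exact (div_pos_iff_of_pos_right p0).1 hz
  have ty' : 0 < t'.y := by
    rw [zy'] at hz'
    exact (div_pos_iff_of_pos_right p0').1 hz'
  have c1 : (S (D.chd π r t)).1 = ⌊Real.log (t.y / r) / π.κ⌋ := hS.cell _
  have c2 : (S (D.chd π r t)).1 = ⌊Real.log (t'.y / r) / π.κ⌋ := by
    rw [hc]
    exact hS.cell _
  have hl : |Real.log t.y - Real.log t'.y| ≤ π.κ := by
    have h := GeoJ.cell2 hκ (c1.symm.trans c2)
    rw [Real.log_div ty.ne' r0.ne', Real.log_div ty'.ne' r0.ne'] at h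
    simpa using h
  obtain ⟨i, hi0, hi⟩ := congr hD (ch π r t) (ch π r t') (near hD hS hc)
  obtain ⟨w, rfl⟩ : ∃ w, i = D.dil r w := ⟨_, (dil_inv hD r0.ne' i).symm⟩
  rw [hD.dil_one, ← map_inv, ← map_mul, ← map_mul] at hi
  have key : ∀ y : ℝ, 0 < y → (S (D.chd π r t)).1 = ⌊Real.log (y / r) / π.κ⌋ →
      D.ν π.κ y (t.ph * w * t'.ph⁻¹) ≤ 2 * 5 ^ D.k := by
    intro y hy hcy
    have h1 := GeoJ.cell (y / r) hκ
    rw [← hcy, ← Real.log_exp (_ * π.κ)] at h1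
    have h2 := n5 (g := D.dil r (t.ph * w * t'.ph⁻¹)) hD hκ hπ.κ (Real.exp_pos _) (by positivity) h1
    rw [hD.ndil, mul_div_cancel₀ _ r0.ne'] at h2
    calc _ ≤ _ := h2
      _ ≤ 5 ^ D.k * 2 := mul_le_mul_of_nonneg_left hi (by positivity)
      _ = _ := mul_comm _ _
  have m1 : D.Eq z.ph (D.dil p t.ph) := ht ▸ ch π p t
  have m2 : D.Eq (D.dil p' t'.ph) z'.ph := eq_symm (ht' ▸ ch π p' t')
  refine ⟨?_, _, ⟨_, hD.mem p' _ m1, _, hD.mem p _ m2, w, hi0, fun hw => ?_, rfl⟩, ?_⟩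
  · change |Real.log z'.y - Real.log (z.y * p / p')| ≤ π.κ
    rw [zy, zy', div_mul_cancel₀ _ p0.ne', Real.log_div ty.ne' p0'.ne', Real.log_div ty'.ne' p0'.ne',
      abs_sub_comm]
    simpa using hl
  · exact hn ⟨hl, ⟨w, hw, (hD.dil_one w).symm ▸ key _ ty c1⟩, ⟨w, hw, (hD.dil_one w).symm ▸ key _ ty' c2⟩⟩
  · have e4 : (p : ℝ) * p' * (z.y / p') = t.y := by
      rw [zy]
      field_simp
    have h3 := key _ ty c1
    rw [← e4, ← hD.ndil] at h3
    refine le_of_eq_of_le (congrArg _ ?_) h3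
    simp only [map_mul, map_inv, hD.dil_dil, Nat.cast_mul, mul_comm (p' : ℝ) p]
    group

theorem st_ChInv : ChInvSt := by
  intro D π Y S A l z z' hD hπ hS hA hz h
  have hκ := GeoJ.κ_pos hπ
  induction l generalizing z with
  | nil =>
    obtain rfl : z = z' := h
    refine ⟨by simp, fun h => absurd rfl h, hz, by simp [pa, pb], 1, rfl, ?_⟩
    simp [pa, pb, hD.one]
  | cons l ls ih =>
    obtain ⟨z1, h1, h2⟩ := h
    change D.Pt at z1
    have hz1 : 0 < z1.y := hA z1 h1.2.1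
    obtain ⟨i1, i2, i3, i4, ζ', i5, i6⟩ := ih z1 hz1 h2
    obtain ⟨r1, ζ1, r2, r3⟩ := st_Rel D π Y S A z z1 l hD hπ hS hz hz1 h1
    have hp : l.1 ∈ π.PP := h1.2.2.1
    have hr : l.2.1 ∈ π.PP := h1.2.2.2.1
    have hp' : l.2.2 ∈ π.PP := h1.2.2.2.2.1
    have p0 : (0 : ℝ) < l.1 := by exact_mod_cast (hπ.pr _ hp).1.pos
    have p0' : (0 : ℝ) < l.2.2 := by exact_mod_cast (hπ.pr _ hp').1.pos
    have a0 : (0 : ℝ) < pa ls := by
      exact_mod_cast ChInvJ.pa_pos fun x hx => (hπ.pr _ (i1 x hx).1).1.pos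
    have b0 : (0 : ℝ) < pb ls := by
      exact_mod_cast ChInvJ.pb_pos fun x hx => (hπ.pr _ (i1 x hx).2.2).1.pos
    have ea : (pa (l :: ls) : ℝ) = l.1 * pa ls := by simp [pa]
    have eb : (pb (l :: ls) : ℝ) = l.2.2 * pb ls := by simp [pb]
    rw [Real.log_div (by positivity) p0'.ne', Real.log_mul hz.ne' p0.ne'] at r1
    refine ⟨?_, fun _ => ⟨h1.1, ?_⟩, i3, ?_, _, ⟨ζ1, ζ', r2, i5, rfl⟩, ?_⟩
    · intro x hx
      rcases List.mem_cons.1 hx with rfl | hx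
      · exact ⟨hp, hr, hp'⟩
      · exact i1 x hx
    · cases ls with
      | nil =>
        obtain rfl : z1 = z' := h2
        exact h1.2.1
      | cons a as => exact (i2 (List.cons_ne_nil _ _)).2
    · rw [Real.log_div (by positivity) b0.ne', Real.log_mul hz1.ne' a0.ne'] at i4
      rw [ea, eb, Real.log_div (by positivity) (by positivity), Real.log_mul hz.ne' (by positivity),
        Real.log_mul p0.ne' a0.ne', Real.log_mul p0'.ne' b0.ne', List.length_cons]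
      push_cast
      rw [abs_le] at r1 i4 ⊢
      constructor <;> linarith [r1.1, r1.2, i4.1, i4.2]
    · rw [show z.y / l.2.2 = pb ls * (z.y / (l.2.2 * pb ls)) by field_simp, ← hD.ndil] at r3
      rw [show z1.y / pb ls = l.1 * (z1.y / (l.1 * pb ls)) by field_simp, ← hD.ndil] at i6
      have s3 := (n5 (y' := z.y / (l.2.2 * pb ls)) hD hκ hπ.κ (by positivity) (by positivity)
        (by
          rw [Real.log_div hz.ne' (by positivity), Real.log_div hz1.ne' (by positivity),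
            Real.log_mul p0.ne' b0.ne', Real.log_mul p0'.ne' b0.ne']
          rw [abs_le] at r1 ⊢
          constructor <;> linarith [r1.1, r1.2])).trans
        (mul_le_mul_of_nonneg_left i6 (by positivity))
      have s4 := (hD.mul _ _ _ _).trans (add_le_add r3 s3)
      rw [ea, eb]
      refine le_trans (le_of_eq_of_le (congrArg _ ?_) s4) ?_
      · simp only [map_mul, map_inv, hD.dil_dil, mul_comm (pb ls : ℝ)]
        group
      have f1 : (1 : ℝ) ≤ 5 ^ D.k := one_le_pow₀ (by norm_num)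
      have f2 : (2 * 5 ^ D.k : ℝ) ≤ (2 * 5 ^ D.k) ^ (ls.length + 1) :=
        le_self_pow₀ (by linarith) (Nat.succ_ne_zero _)
      rw [List.length_cons, pow_succ _ (ls.length + 1)]
      nlinarith

namespace ZtJ

variable {D : DS}

theorem swap (hD : D.Ok) (m n : ℕ) {g : D.P} (h : D.dil m g ∈ D.Λ) : D.dil m (D.dil n g) ∈ D.Λ := by
  rw [dil_comm hD]
  exact hD.mem n _ h

theorem den1 (hD : D.Ok) {x : ℕ × ℕ × ℕ} {ζ : D.P} (h : D.Z1 x ζ) : D.dil x.2.1 ζ ∈ D.Λ := by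
  obtain ⟨μ, h1, μ', h2, w, h3, -, rfl⟩ := h
  rw [map_mul, map_mul]
  exact D.Λ.mul_mem (D.Λ.mul_mem (hD.mem _ _ h1) (swap hD _ _ h3)) (hD.mem _ _ h2)

theorem den (hD : D.Ok) (l : List (ℕ × ℕ × ℕ)) : ∀ ζ, D.Zt l ζ → D.dil (pc l) ζ ∈ D.Λ := by
  induction l with
  | nil =>
    rintro ζ rfl
    simp
  | cons x ls ih =>
    rintro ζ ⟨ζ1, ζ', h1, hz, rfl⟩
    rw [show pc (x :: ls) = x.2.1 * pc ls by simp [pc], map_mul]
    exact D.Λ.mul_mem (swap hD _ _ (mem_mul' hD _ _ (den1 hD h1)))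
      (swap hD _ _ (mem_mul hD _ _ (ih ζ' hz)))

theorem one (hD : D.Ok) (q : ℕ) (hq : q.Prime) (l : List (ℕ × ℕ × ℕ)) : ∀ ζ (m : ℕ),
    (∀ x ∈ l, x.1.Prime ∧ x.2.1.Prime ∧ x.2.2.Prime) → D.Zt l ζ →
    (∀ x ∈ l, x.1 ≠ q ∧ x.2.2 ≠ q) → (l.map fun x => x.2.1).count q = 1 → Nat.Coprime m q →
    D.dil m ζ ∉ D.Λ := by
  induction l with
  | nil =>
    intro ζ m _ _ _ h
    simp at h
  | cons x ls ih =>
    rintro ζ m hp ⟨ζ1, ζ', h1, hz, rfl⟩ hne hc hm h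
    have hp' : ∀ y ∈ ls, y.1.Prime ∧ y.2.1.Prime ∧ y.2.2.Prime :=
      fun y hy => hp y (List.mem_cons_of_mem _ hy)
    have hne' : ∀ y ∈ ls, y.1 ≠ q ∧ y.2.2 ≠ q := fun y hy => hne y (List.mem_cons_of_mem _ hy)
    obtain ⟨p1, p2, p3⟩ := hp x List.mem_cons_self
    obtain ⟨n1, n3⟩ := hne x List.mem_cons_self
    have c1 : Nat.Coprime x.1 q := (Nat.coprime_primes p1 hq).2 n1
    have c3 : Nat.Coprime x.2.2 q := (Nat.coprime_primes p3 hq).2 n3
    rw [List.map_cons, List.count_cons] at hc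
    by_cases e : x.2.1 = q
    · have h0 : q ∉ ls.map fun x => x.2.1 := List.count_eq_zero.1 (by simpa [e] using hc)
      have c2 : Nat.Coprime (pc ls) q := U.ZtJ.cop ls _ hq fun y hy =>
        ⟨(hp' y hy).2.1, fun h1 => h0 (List.mem_map.2 ⟨y, hy, h1⟩)⟩
      have c4 : Nat.Coprime (pb ls) q :=
        U.ZtJ.cop ls _ hq fun y hy => ⟨(hp' y hy).2.2, (hne' y hy).2⟩
      have h2 := mem_mul' hD m (pc ls) h
      rw [map_mul, D.Λ.mul_mem_cancel_right (swap hD _ _ (mem_mul hD _ _ (den hD ls ζ' hz))),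
        hD.dil_dil, ← Nat.cast_mul] at h2
      obtain ⟨μ, h3, μ', h4, w, h5, h6, rfl⟩ := h1
      rw [map_mul, map_mul, D.Λ.mul_mem_cancel_right (hD.mem _ _ h4),
        D.Λ.mul_mem_cancel_left (hD.mem _ _ h3), hD.dil_dil, ← Nat.cast_mul] at h2
      exact h6 (hD.int _ _ w (((hm.mul_left c2).mul_left c4).mul_left (c1.mul_left c3)) h2 (e ▸ h5))
    · have c2 : Nat.Coprime x.2.1 q := (Nat.coprime_primes p2 hq).2 e
      have h2 := mem_mul' hD m x.2.1 h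
      rw [map_mul, D.Λ.mul_mem_cancel_left (swap hD _ _ (mem_mul hD _ _ (den1 hD h1))),
        hD.dil_dil, ← Nat.cast_mul] at h2
      exact ih ζ' (m * x.2.1 * x.1) hp' hz hne' (by simpa [e] using hc)
        ((hm.mul_left c2).mul_left c1) h2

end ZtJ

theorem st_Zt : ZtSt where
  den _ l ζ h := ZtJ.den h l ζ
  one _ l ζ q m hD h1 h2 hq := ZtJ.one hD q hq l ζ m h1 h2

theorem st_Mid : MidSt := by
  intro D g PP L ζ hD hne hPP h1 h2
  rcases L.eq_empty_or_nonempty with rfl | ⟨l0, hl0⟩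
  · simp
  rw [← card_image_of_injOn (f := fun l : List (ℕ × ℕ × ℕ) => l.map fun x => x.2.1)
    fun l hl l' hl' e => U.ZtJ.inj l l' (h2 l hl l' hl').1 e]
  refine st_List.rep PP ((l0.map fun x => x.1).toFinset ∪ (l0.map fun x => x.2.1).toFinset ∪
    (l0.map fun x => x.2.2).toFinset) g _ hne ?_ fun l' hl' => ?_
  · have h3 : ∀ f : ℕ × ℕ × ℕ → ℕ, #(l0.map f).toFinset ≤ g := fun f =>
      (List.toFinset_card_le _).trans (by rw [List.length_map, (h1 l0 hl0).1])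
    have h4 := h3 fun x => x.1
    have h5 := h3 fun x => x.2.1
    have h6 := h3 fun x => x.2.2
    refine (card_union_le _ _).trans ((Nat.add_le_add_right (card_union_le _ _) _).trans ?_)
    omega
  obtain ⟨l, hl, rfl⟩ := mem_image.1 hl'
  obtain ⟨a1, a2, a3⟩ := h1 l hl
  obtain ⟨-, b2, b3⟩ := h1 l0 hl0
  refine ⟨by rw [List.length_map, a1], fun q hq => ?_⟩
  obtain ⟨x, hx, rfl⟩ := List.mem_map.1 hq
  refine ⟨(a2 x hx).2.1, fun hc => ?_⟩
  by_contra hB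
  simp only [mem_union, List.mem_toFinset, List.mem_map, not_or, not_exists, not_and] at hB
  have hq' := hPP _ (a2 x hx).2.1
  refine ZtJ.one hD x.2.1 hq' l (ζ l) (pc l0) (fun y hy => ⟨hPP _ (a2 y hy).1, hPP _ (a2 y hy).2.1,
    hPP _ (a2 y hy).2.2⟩) a3 (fun y hy => ?_) hc
    (U.ZtJ.cop l0 _ hq' fun y hy => ⟨hPP _ (b2 y hy).2.1, hB.1.2 y hy⟩)
    (eq_mem (eq_dil hD _ (h2 l hl l0 hl0).2) (ZtJ.den hD l0 _ b3))
  have h3 : (y.1, y.2.2) ∈ l0.map fun x => (x.1, x.2.2) := by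
    rw [← (h2 l hl l0 hl0).1]
    exact List.mem_map.2 ⟨y, hy, rfl⟩
  obtain ⟨y', hy', e⟩ := List.mem_map.1 h3
  rw [Prod.mk.injEq] at e
  exact ⟨e.1 ▸ hB.1.1 y' hy', e.2 ▸ hB.2 y' hy'⟩

end Pool.Agent.Lib.MP_028aa5_nt.V
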