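import Pool.Agent.Lib.MP_028aa5_nt.U.St2

/-! Dilation systems: a group of phases with dilations, a lattice and local gauges. -/

namespace Pool.Agent.Lib.MP_028aa5_nt.V

open Finset T U
open scoped Classical

/-- a group of phases, dilations, a lattice, local gauges and numerical constants -/
structure DS where
  P : Type
  [grp : Group P]
  dil : ℝ → P →* P
  Λ : Subgroup P
  ν : ℝ → ℝ → P → ℝ
  k : ℕ
  Cv : ℝ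
  Dm : ℕ

attribute [instance] DS.grp

namespace DS

variable (D : DS)

structure Ok : Prop where
  dil_one : ∀ g, D.dil 1 g = g
  dil_dil : ∀ a b g, D.dil a (D.dil b g) = D.dil (a * b) g
  mem : ∀ (n : ℕ) g, g ∈ D.Λ → D.dil n g ∈ D.Λ
  bez : ∀ m n : ℕ, Nat.Coprime m n → ∀ g ∈ D.Λ, ∃ a ∈ D.Λ, ∃ b ∈ D.Λ, g = D.dil m a * D.dil n b
  int : ∀ (m n : ℕ) g, Nat.Coprime m n → D.dil m g ∈ D.Λ → D.dil n g ∈ D.Λ → g ∈ D.Λ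
  nonneg : ∀ κ y g, 0 ≤ D.ν κ y g
  one : ∀ κ y, D.ν κ y 1 = 0
  inv : ∀ κ y g, D.ν κ y g⁻¹ = D.ν κ y g
  mul : ∀ κ y g h, D.ν κ y (g * h) ≤ D.ν κ y g + D.ν κ y h
  ndil : ∀ κ y a g, D.ν κ y (D.dil a g) = D.ν κ (a * y) g
  shift : ∀ κ y y' u g, 0 < κ → κ ≤ 1 → 0 < y → 0 < y' → |Real.log y' - Real.log y| ≤ u → u ≤ 1 →
    D.ν κ y' g ≤ (1 + 4 * u / κ) ^ D.k * D.ν κ y g
  rig : ∀ κ y c β w, 0 < c → c ≤ κ * y → D.dil c w ∈ D.Λ →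
    D.ν κ y (β * w * β⁻¹) ≤ 100 ^ (D.k + 1) → w = 1
  cv : 1 ≤ D.Cv
  cov : ∀ (ι : Type) (κ y r δ L : ℝ) (A : Finset ι) (v : ι → D.P), 0 ≤ r → 0 < δ →
    (∀ x ∈ A, D.ν κ y (v x) ≤ r) →
    (∀ B ⊆ A, (∀ x ∈ B, ∀ x' ∈ B, D.ν κ y (v x * (v x')⁻¹) ≤ δ) → (#B : ℝ) ≤ L) →
    (#A : ℝ) ≤ (D.Cv * (r / δ + 1) * (1 + r)) ^ D.Dm * L

/-- `g` is within `r` of `h` modulo the lattice of level `c` -/
def Cl (κ c y r : ℝ) (g h : D.P) : Prop := ∃ l ∈ D.Λ, D.ν κ y (g * D.dil c l * h⁻¹) ≤ r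

/-- equality modulo the lattice -/
def Eq (g h : D.P) : Prop := g⁻¹ * h ∈ D.Λ

/-- an exact point: fine index, position, phase modulo the lattice -/
structure Pt where
  J : ℤ
  y : ℝ
  b : D.P ⧸ D.Λ

/-- a representative of the phase -/
noncomputable def Pt.ph {D : DS} (t : D.Pt) : D.P := t.b.out

def mkP (J : ℤ) (y : ℝ) (g : D.P) : D.Pt := ⟨J, y, (g : D.P ⧸ D.Λ)⟩

/-- the child along `p` -/
noncomputable def chd (π : Par) (p : ℕ) (t : D.Pt) : D.Pt :=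
  D.mkP (t.J - π.lg p) (t.y / p) (D.dil p t.ph)

/-- a map to states: a cell of width `κ` and a point of a separated net -/
structure StMap (κ : ℝ) (S : D.Pt → ℤ × D.P) : Prop where
  cell : ∀ t, (S t).1 = ⌊Real.log t.y / κ⌋
  pt : ∀ t, D.Cl κ 1 (Real.exp ((S t).1 * κ)) 1 t.ph (S t).2
  few : ∀ (c : ℤ) (g : D.P) (r : ℝ) (A : Finset D.Pt), 0 ≤ r →
    (∀ t ∈ A, (S t).1 = c ∧ D.Cl κ 1 (Real.exp (c * κ)) r t.ph g) →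
    (#(A.image S) : ℝ) ≤ (D.Cv * (r + 2) ^ 2) ^ D.Dm

/-- the geometric system -/
noncomputable def geo (π : Par) (Y : ℝ) (S : D.Pt → ℤ × D.P) : Sys where
  Ω := D.Pt
  Λ := ℤ × D.P
  PP := π.PP
  ch := D.chd π
  top p r y z := if h : ∃ t, D.chd π r t = y ∧ D.chd π p t = z then h.choose else y
  S := S
  cl := Prod.fst
  Near t u := |Real.log t.y - Real.log u.y| ≤ π.κ ∧ D.Cl π.κ 1 t.y (2 * 5 ^ D.k) t.ph u.ph ∧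
    D.Cl π.κ 1 u.y (2 * 5 ^ D.k) t.ph u.ph
  V j t := Y * π.P ^ j ≤ t.y

/-- number of states near a point -/
def cK : ℝ := 4 * (D.Cv * (2 * 25 ^ D.k + 2) ^ 2) ^ D.Dm

/-- growth rate of the number of defects -/
def cD : ℝ := (9 * D.Cv * (2 * 5 ^ D.k) ^ 2) ^ D.Dm

/-- the defect of one conflict -/
def Z1 (l : ℕ × ℕ × ℕ) (ζ : D.P) : Prop := ∃ μ ∈ D.Λ, ∃ μ' ∈ D.Λ, ∃ w, D.dil l.2.1 w ∈ D.Λ ∧
  w ∉ D.Λ ∧ ζ = μ * D.dil (l.1 * l.2.2 : ℕ) w * μ'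

/-- the defect of a chain of conflicts -/
def Zt : List (ℕ × ℕ × ℕ) → D.P → Prop
  | [], ζ => ζ = 1
  | l :: ls, ζ => ∃ ζ1 ζ', D.Z1 l ζ1 ∧ Zt ls ζ' ∧ ζ = D.dil (pb ls : ℕ) ζ1 * D.dil l.1 ζ'

end DS

end Pool.Agent.Lib.MP_028aa5_nt.V
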