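import Pool.Agent.Lib.MP_028aa5_nt.V.DS

/-! Statements: the geometric system over a dilation system and the count of chains. -/

namespace Pool.Agent.Lib.MP_028aa5_nt.V

open Finset T U
open scoped Classical

/-- closeness -/
structure ClSt : Prop where
  refl : ∀ (D : DS) κ c y r g, D.Ok → 0 ≤ r → D.Cl κ c y r g g
  symm : ∀ (D : DS) κ c y r g h, D.Ok → D.Cl κ c y r g h → D.Cl κ c y r h g
  trans : ∀ (D : DS) κ c y r r' g h i, D.Ok → D.Cl κ c y r g h → D.Cl κ c y r' h i →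
    D.Cl κ c y (r + r') g i
  mono : ∀ (D : DS) κ c y r r' g h, r ≤ r' → D.Cl κ c y r g h → D.Cl κ c y r' g h
  nonneg : ∀ (D : DS) κ c y r g h, D.Ok → D.Cl κ c y r g h → 0 ≤ r
  dil : ∀ (D : DS) κ c y r g h (a : ℕ), D.Ok → D.Cl κ c (a * y) r g h →
    D.Cl κ c y r (D.dil a g) (D.dil a h)
  lift : ∀ (D : DS) κ c y r g h (a : ℝ), D.Ok → D.Cl κ c (a * y) r g h →
    D.Cl κ (a * c) y r (D.dil a g) (D.dil a h)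
  shift : ∀ (D : DS) κ c y y' u r g h, D.Ok → 0 < κ → κ ≤ 1 → 0 < y → 0 < y' →
    |Real.log y' - Real.log y| ≤ u → u ≤ 1 → D.Cl κ c y r g h →
    D.Cl κ c y' ((1 + 4 * u / κ) ^ D.k * r) g h
  n5 : ∀ (D : DS) κ y y' g, D.Ok → 0 < κ → κ ≤ 1 → 0 < y → 0 < y' →
    |Real.log y' - Real.log y| ≤ κ → D.ν κ y' g ≤ 5 ^ D.k * D.ν κ y g
  cl5 : ∀ (D : DS) κ c y y' r g h, D.Ok → 0 < κ → κ ≤ 1 → 0 < y → 0 < y' →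
    |Real.log y' - Real.log y| ≤ κ → D.Cl κ c y r g h → D.Cl κ c y' (5 ^ D.k * r) g h
  cl9 : ∀ (D : DS) κ c y y' r g h, D.Ok → 0 < κ → 2 * κ ≤ 1 → 0 < y → 0 < y' →
    |Real.log y' - Real.log y| ≤ 2 * κ → D.Cl κ c y r g h → D.Cl κ c y' (9 ^ D.k * r) g h
  eq_refl : ∀ (D : DS) g, D.Eq g g
  eq_symm : ∀ (D : DS) g h, D.Eq g h → D.Eq h g
  eq_trans : ∀ (D : DS) g h i, D.Eq g h → D.Eq h i → D.Eq g i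
  eq_dil : ∀ (D : DS) g h (a : ℕ), D.Ok → D.Eq g h → D.Eq (D.dil a g) (D.dil a h)
  congr : ∀ (D : DS) κ y r g g' h h', D.Ok → D.Eq g g' → D.Eq h h' → D.Cl κ 1 y r g h →
    D.Cl κ 1 y r g' h'
  /-- two primes cannot both be denominators -/
  one : ∀ (D : DS) κ y ρ g h w w' (r s : ℕ), D.Ok → Nat.Coprime r s → 0 < r → 0 < s →
    D.dil r w ∈ D.Λ → D.dil s w' ∈ D.Λ → D.ν κ y (g * w * h⁻¹) ≤ ρ → D.ν κ y (g * w' * h⁻¹) ≤ ρ →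
    2 * ρ ≤ 100 ^ (D.k + 1) → (r * s : ℝ) ≤ κ * y → w ∈ D.Λ

/-- exact points -/
structure PtSt : Prop where
  mkp : ∀ (D : DS) J y g, D.Eq (D.mkP J y g).ph g
  ext : ∀ (D : DS) (t t' : D.Pt), t.J = t'.J → t.y = t'.y → D.Eq t.ph t'.ph → t = t'
  ch : ∀ (D : DS) (π : Par) p t, D.Eq (D.chd π p t).ph (D.dil p t.ph)
  comm : ∀ (D : DS) (π : Par) p r t, D.Ok → D.chd π p (D.chd π r t) = D.chd π r (D.chd π p t)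
  pull : ∀ (D : DS) (π : Par) (p r : ℕ) y z, D.Ok → p.Prime → r.Prime → p ≠ r →
    D.chd π p y = D.chd π r z → ∃ t, D.chd π r t = y ∧ D.chd π p t = z
  uniq : ∀ (D : DS) (π : Par) (p r : ℕ) t t', D.Ok → p.Prime → r.Prime → p ≠ r →
    D.chd π r t = D.chd π r t' → D.chd π p t = D.chd π p t' → t = t'
  chL_y : ∀ (D : DS) (π : Par) Y S (R : List ℕ) (t : D.Pt),
    DS.Pt.y ((D.geo π Y S).chL R t) = t.y / R.prod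
  chL_ph : ∀ (D : DS) (π : Par) Y S (R : List ℕ) (t : D.Pt), D.Ok →
    D.Eq (DS.Pt.ph ((D.geo π Y S).chL R t)) (D.dil (R.prod : ℕ) t.ph)
  chL_ch : ∀ (D : DS) (π : Par) Y S (R : List ℕ) (p : ℕ) (t : D.Pt), D.Ok →
    (D.geo π Y S).chL R (D.chd π p t) = D.chd π p ((D.geo π Y S).chL R t)
  near : ∀ (D : DS) κ S t t', D.Ok → D.StMap κ S → S t = S t' →
    D.Cl κ 1 (Real.exp ((S t).1 * κ)) 2 t.ph t'.ph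

/-- existence of states -/
def StateSt : Prop := ∀ (D : DS) (κ : ℝ), D.Ok → ∃ S : D.Pt → ℤ × D.P, D.StMap κ S

def GeoSt : Prop := ∀ (D : DS) (π : Par) (Y : ℝ) (S : D.Pt → ℤ × D.P), D.Ok → π.Ok →
  D.StMap π.κ S → 0 < Y → 2 * π.P ≤ π.κ * Y → (D.geo π Y S).Ok D.cK

/-- one conflict -/
def RelSt : Prop := ∀ (D : DS) (π : Par) (Y : ℝ) (S : D.Pt → ℤ × D.P) (A : Finset D.Pt)
  (z z' : D.Pt) (l : ℕ × ℕ × ℕ), D.Ok → π.Ok → D.StMap π.κ S → 0 < z.y → 0 < z'.y →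
  (D.geo π Y S).Rel A z l z' →
  |Real.log z'.y - Real.log (z.y * l.1 / l.2.2)| ≤ π.κ ∧ ∃ ζ, D.Z1 l ζ ∧
    D.ν π.κ (z.y / l.2.2) (D.dil l.2.2 z.ph * ζ * (D.dil l.1 z'.ph)⁻¹) ≤ 2 * 5 ^ D.k

/-- the invariant of a chain -/
def ChInvSt : Prop := ∀ (D : DS) (π : Par) (Y : ℝ) (S : D.Pt → ℤ × D.P) (A : Finset D.Pt)
  (l : List (ℕ × ℕ × ℕ)) (z z' : D.Pt), D.Ok → π.Ok → D.StMap π.κ S → (∀ t ∈ A, 0 < t.y) →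
  0 < z.y → Chn ((D.geo π Y S).Rel A) l z z' →
  (∀ x ∈ l, x.1 ∈ π.PP ∧ x.2.1 ∈ π.PP ∧ x.2.2 ∈ π.PP) ∧ (l ≠ [] → z ∈ A ∧ z' ∈ A) ∧ 0 < z'.y ∧
  |Real.log z'.y - Real.log (z.y * pa l / pb l)| ≤ l.length * π.κ ∧
  ∃ ζ, D.Zt l ζ ∧ D.ν π.κ (z.y / pb l) (D.dil (pb l) z.ph * ζ * (D.dil (pa l) z'.ph)⁻¹) ≤
    (2 * 5 ^ D.k) ^ (l.length + 1)

/-- denominators of the defect -/
structure ZtSt : Prop where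
  den : ∀ (D : DS) l ζ, D.Ok → D.Zt l ζ → D.dil (pc l) ζ ∈ D.Λ
  one : ∀ (D : DS) l ζ (q m : ℕ), D.Ok → (∀ x ∈ l, x.1.Prime ∧ x.2.1.Prime ∧ x.2.2.Prime) →
    D.Zt l ζ → q.Prime → (∀ x ∈ l, x.1 ≠ q ∧ x.2.2 ≠ q) → (l.map fun x => x.2.1).count q = 1 →
    Nat.Coprime m q → D.dil m ζ ∉ D.Λ

/-- the middle primes of chains with the same defect -/
def MidSt : Prop := ∀ (D : DS) (g : ℕ) (PP : Finset ℕ) (L : Finset (List (ℕ × ℕ × ℕ)))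
  (ζ : List (ℕ × ℕ × ℕ) → D.P), D.Ok → PP.Nonempty → (∀ p ∈ PP, p.Prime) →
  (∀ l ∈ L, l.length = g ∧ (∀ x ∈ l, x.1 ∈ PP ∧ x.2.1 ∈ PP ∧ x.2.2 ∈ PP) ∧ D.Zt l (ζ l)) →
  (∀ l ∈ L, ∀ l' ∈ L, (l.map fun x => (x.1, x.2.2)) = (l'.map fun x => (x.1, x.2.2)) ∧
    D.Eq (ζ l) (ζ l')) → #L ≤ #PP ^ (g / 2) * (4 * g) ^ g

/-- chains with the same outer primes and the same final state have few defects -/
def SameSt : Prop := ∀ (D : DS) (ι : Type) (κ y r L : ℝ) (β σ : D.P) (A : Finset ι)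
  (ζ μ : ι → D.P) (c : ι → ℕ) (C : ℝ), D.Ok → 0 ≤ r → C ^ 2 ≤ κ * y →
  (∀ x ∈ A, 0 < c x ∧ (c x : ℝ) ≤ C ∧ D.dil (c x) (ζ x) ∈ D.Λ ∧ μ x ∈ D.Λ ∧
    D.ν κ y (β * (ζ x * μ x) * σ⁻¹) ≤ r) →
  (∀ B ⊆ A, (∀ x ∈ B, ∀ x' ∈ B, D.Eq (ζ x) (ζ x')) → (#B : ℝ) ≤ L) →
  (#A : ℝ) ≤ (D.Cv * (r + 1) ^ 2) ^ D.Dm * L

/-- the number of chains -/
def CountSt : Prop := ∀ (D : DS) (π : Par) (Y Mb : ℝ) (S : D.Pt → ℤ × D.P) (j g : ℕ), D.Ok → π.Ok →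
  D.StMap π.κ S → 0 < Y → 1 ≤ g → (g + 1) * π.κ ≤ 1 → 8 ≤ π.P →
  π.P ^ (4 * g + 1) ≤ π.κ * (Y * π.P ^ j) →
  (D.geo π Y S).Few j Mb g
    (#π.PP ^ (2 * g) * ((2 * g + 2) * Mb) * (D.cD ^ (g + 1) * (#π.PP ^ (g / 2) * (4 * g) ^ g)))

/-- the choice of the length of the chains -/
def NumSt : Prop := ∀ (K pp C1 : ℝ) (j : ℕ), 1 ≤ K → K ^ 70 ≤ pp → 1 ≤ C1 → 4 * C1 * (8 + j) ≤ K →
  ∃ a g : ℕ, g = 2 ^ a ∧ 1 ≤ g ∧ 4 * g + 1 ≤ 9 + j ∧ (K ^ 10 / pp ^ 3) ^ g *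
    (pp ^ (2 * g) * ((2 * g + 2) * K ^ (3 * (j + 1))) *
      (C1 ^ (g + 1) * (pp ^ (g / 2) * (4 * g) ^ g))) ≤ 1

end Pool.Agent.Lib.MP_028aa5_nt.V
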