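import Pool.Agent.Lib.MP_028aa5_nt.V.KSt
import Pool.Agent.Lib.MP_028aa5_nt.V.StC

/-! Dilation systems with rational points and a test function. -/

namespace Pool.Agent.Lib.MP_028aa5_nt.V

open Finset T U
open scoped Classical

/-- rational points of height `Q`, a fundamental domain for the constants and the test function
`E t z γ m = F (t z * γ m)` -/
structure DX extends DS where
  Rat : ℕ → Subgroup P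
  Fd : Set P
  E : P → ℝ → P → ℕ → ℂ

namespace DS

variable (D : DS)

/-- equality modulo the lattice of level `c` -/
def Ex (c : ℝ) (g h : D.P) : Prop := ∃ l ∈ D.Λ, g = h * D.dil c l

/-- compatibility along the edges, within `ρ`, modulo the lattice of level `R` -/
def Lv (π : Par) (N : Net) (R ρ : ℝ) (φ : N.W → D.P) (E : Finset N.Ed) : Prop :=
  ∀ e ∈ E, D.Cl π.κ R (N.pos π (N.lo e)) ρ (φ (N.lo e)) (D.dil (N.pr e) (φ (N.up e)))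

/-- exact compatibility -/
def LvX (N : Net) (R : ℝ) (φ : N.W → D.P) (E : Finset N.Ed) : Prop :=
  ∀ e ∈ E, D.Ex R (φ (N.lo e)) (D.dil (N.pr e) (φ (N.up e)))

/-- finer lattices -/
def Fine : Prop := ∀ (κ y r : ℝ) (Θ : Finset D.P), 0 < κ → 0 < y → 0 < r →
  ∃ L : Subgroup D.P, D.Λ ≤ L ∧ (∀ R : ℝ, {d | d ∈ L ∧ D.ν κ y d ≤ R}.Finite) ∧
    ∀ g ∈ Θ, ∃ d ∈ L, D.ν κ y (d * g⁻¹) ≤ r

/-- an exact edge lies over an edge of the graph; `u` bounds the drift of the exact position -/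
def Lnk (π : Par) (N : Net) (E : Finset N.Ed) (φ : N.W → D.P) (δ u : ℝ) (t : D.Pt) (p : ℕ) : Prop :=
  ∃ e ∈ E, N.pr e = p ∧ t.J = N.fj e ∧ 0 < t.y ∧ |Real.log t.y - N.fj e * π.κ0| ≤ u ∧
    |Real.log (t.y / p) - (N.fj e - π.lg p : ℕ) * π.κ0| ≤ u ∧
    D.Cl π.κ 1 t.y δ t.ph (φ (N.up e)) ∧ D.Cl π.κ 1 (t.y / p) δ (D.chd π p t).ph (φ (N.lo e))

/-- vertices in the same class are close at level `R` -/
def Cla (π : Par) (N : Net) (φ : N.W → D.P) {Λ : Type} (cls : N.W → Λ) (R u r : ℝ) : Prop :=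
  ∀ x x', cls x = cls x' → N.isU x = N.isU x' ∧
    |Real.log (N.pos π x) - Real.log (N.pos π x')| ≤ u ∧ D.Cl π.κ R (N.pos π x) r (φ x) (φ x')

end DS

/-- exact positions of the vertices -/
def Pos (π : Par) (N : Net) (E : Finset N.Ed) (yx : N.W → ℝ) (u : ℝ) : Prop :=
  ∀ e ∈ E, 0 < yx (N.up e) ∧ yx (N.lo e) = yx (N.up e) / N.pr e ∧
    |Real.log (yx (N.up e)) - Real.log (N.pos π (N.up e))| ≤ u ∧
    |Real.log (yx (N.lo e)) - Real.log (N.pos π (N.lo e))| ≤ u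

/-- the graph produced by the tower -/
structure DS.Out (D : DS) (π : Par) (N : Net) (E : Finset N.Ed) (φ : N.W → D.P) (δ u : ℝ) (R : ℕ)
    (lam nW : ℝ) (N' : Net) (E' : Finset N'.Ed) (φ' : N'.W → D.P) (cls : N'.W → Bool × ℤ × D.P)
    (yx : N'.W → ℝ) : Prop where
  is : N'.Is (vA π (Fintype.card N'.W)) E'
  lv : D.LvX N' R φ' E'
  ray : N'.Ray (vA π (Fintype.card N'.W)).ν E' lam
  ends : ∀ v, ∃ e ∈ E', v = N'.up e ∨ v = N'.lo e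
  num : π.κ * #(univ.image cls) ≤ nW
  cla : D.Cla (vA π (Fintype.card N'.W)) N' φ' cls R (3 * π.κ) (2 * 9 ^ D.k)
  pos : Pos (vA π (Fintype.card N'.W)) N' E' yx u
  lnk : ∀ e' ∈ E', ∃ e ∈ E, N.pr e = N'.pr e' ∧ N.fj e = N'.fj e' ∧
    D.Cl π.κ 1 (π.yy (N.fj e)) δ (φ' (N'.up e')) (φ (N.up e)) ∧
    D.Cl π.κ 1 (π.yy (N.fj e - π.lg (N.pr e))) δ (φ' (N'.lo e')) (φ (N.lo e))

namespace DX

variable (D : DX)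

/-- the sequence of an atom -/
def ev (g : D.P) (n : ℕ) : ℂ := D.E g n 1 0

/-- normalised correlation on `(y, y (1 + κ)]` -/
noncomputable def cc (κ : ℝ) (f : ℕ → ℂ) (y : ℝ) (g : D.P) : ℂ :=
  ((κ * y : ℝ) : ℂ)⁻¹ * ∑ n ∈ Ioc ⌊y⌋₊ ⌊y * (1 + κ)⌋₊, f n * D.ev g n

/-- a separated family of admissible atoms that correlate with `f` -/
def Fam (Ad : D.P → Prop) (κ : ℝ) (f : ℕ → ℂ) (η ρ y : ℝ) (A : Finset D.P) : Prop :=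
  (∀ g ∈ A, Ad g ∧ η ≤ ‖D.cc κ f y g‖) ∧ ∀ g ∈ A, ∀ h ∈ A, g ≠ h → ¬D.Cl κ 1 y ρ g h

/-- `Q` is the exact height of `γ` -/
def Den (Q : ℕ) (γ : D.P) : Prop :=
  1 ≤ Q ∧ γ ∈ D.Rat Q ∧ ∀ Q' : ℕ, 1 ≤ Q' → γ ∈ D.Rat Q' → Q ∣ Q'

/-- rational points and constants; `D.Dm` is the large constant -/
structure OkA : Prop where
  cv : D.Cv = D.Dm
  kK : D.k + 2 ≤ D.Dm
  lam : D.Rat 1 = D.Λ
  rat_dil : ∀ (Q n : ℕ) g, g ∈ D.Rat Q → D.dil n g ∈ D.Rat Q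
  rat_mono : ∀ Q Q' : ℕ, Q ∣ Q' → D.Rat Q ≤ D.Rat Q'
  rat_gcd : ∀ (Q Q' : ℕ) g, g ∈ D.Rat Q → g ∈ D.Rat Q' → g ∈ D.Rat (Nat.gcd Q Q')
  rat_root : ∀ (Q p : ℕ) g, D.dil p g ∈ D.Rat Q → g ∈ D.Rat (Q * p)
  rat_cop : ∀ (Q Q' a : ℕ) g, Nat.Coprime a Q' → D.dil a g ∈ D.Rat Q → g ∈ D.Rat Q' → g ∈ D.Rat Q
  rat_mod : ∀ (Q a b : ℕ) g, g ∈ D.Rat Q → a ≡ b [MOD Q ^ D.Dm] → D.Eq (D.dil a g) (D.dil b g)
  fd_ex : ∀ g, ∃ l ∈ D.Λ, D.dil 0 l = l ∧ D.dil 0 g * l ∈ D.Fd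
  fd_uniq : ∀ d ∈ D.Fd, ∀ l ∈ D.Λ, d * l ∈ D.Fd → l = 1

/-- more on the gauge -/
structure OkN : Prop where
  fine : D.Fine
  const : ∀ κ y g, 0 < κ → κ ≤ 1 → 0 < y →
    D.ν κ y (D.dil 0 g) ≤ (D.Dm * (1 + D.ν κ y g) / κ) ^ D.Dm
  fd : ∀ κ y, ∀ d ∈ D.Fd, D.ν κ y d ≤ D.Dm
  big : ∀ (κ y c T : ℝ) (Q : ℕ) w, 0 < κ → 0 < y → 0 < c → 1 ≤ Q → D.dil c w ∈ D.Rat Q →
    D.ν κ y w ≤ T → (D.Dm * (1 + T) * Q) ^ D.Dm * c < κ * y → D.dil 0 w = w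
  seed : ∀ (κ y r B : ℝ) (b Wd : ℕ) (A : Finset ℕ) g, 0 < κ → κ ≤ 1 → 0 < y → 0 ≤ r → 1 ≤ Wd →
    0 < b → b ≤ B → D.Dm ≤ #A → (∀ a ∈ A, ∀ a' ∈ A, (a : ℤ) - a' ≤ Wd) →
    (∀ a ∈ A, 0 < a ∧ |Real.log a - Real.log b| ≤ 1 ∧
      D.Cl κ 1 (y / b) r (D.dil a g) (D.dil b g)) →
    (D.Dm * (1 + r) * Wd * B / κ) ^ (2 * D.Dm) ≤ y →
    ∃ (Q : ℕ) (γ : D.P), 1 ≤ Q ∧ Q ≤ Wd ^ D.Dm ∧ γ ∈ D.Rat Q ∧
      D.ν κ y (g * γ⁻¹) ≤ (D.Dm * (1 + r) * Wd * B / κ) ^ D.Dm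

/-- the test function -/
structure OkE (Qf : ℝ → ℕ) : Prop where
  bd : ∀ t z γ m, ‖D.E t z γ m‖ ≤ 1
  dil1 : ∀ a t z γ m, D.E (D.dil a t) z γ m = D.E t (a * z) γ m
  dil2 : ∀ (a : ℕ) t z γ m, D.E t z (D.dil a γ) m = D.E t z γ (a * m)
  mul : ∀ t γ (n : ℕ), D.ev (t * γ) n = D.E t n γ n
  lam : ∀ t z γ m, ∀ l ∈ D.Λ, D.E t z (γ * l) m = D.E t z γ m
  pert : ∀ κ y ε t z γ m, 0 < κ → 0 < y → |z - y| ≤ 2 * κ * y → D.ν κ y ε ≤ 1 →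
    ‖D.E (ε * t) z γ m - D.E t z γ m‖ ≤ D.Dm * D.ν κ y ε
  lip : ∀ κ t z z' γ m, 0 < κ → κ ≤ 1 → |z - 1| ≤ 2 * κ → |z' - 1| ≤ 2 * κ →
    ‖D.E t z γ m - D.E t z' γ m‖ ≤ (D.Dm * (1 + D.ν κ 1 t)) ^ D.Dm * (|z - z'| / κ)
  per : ∀ (Q : ℕ) t z γ m, γ ∈ D.Rat Q → D.E t z γ (m + Q ^ D.Dm) = D.E t z γ m
  qf : ∀ β, 1 ≤ Qf β
  gq : ∀ (β : ℝ) (Q q : ℕ) t z γ, 0 < β → 1 ≤ q → γ ∈ D.Rat Q → Q ^ D.Dm ∣ q → Qf β ∣ q →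
    Orth q (Qf β) β (D.E t z γ)

/-- all properties, with degree `k` and large constant `K` -/
structure OkX (k K : ℕ) (Qf : ℝ → ℕ) : Prop where
  ok : D.toDS.Ok
  hk : D.k = k
  hK : D.Dm = K
  a : D.OkA
  n : D.OkN
  e : D.OkE Qf

/-- the properties of the graph that come from `f` -/
structure Real0 (π : Par) (f : ℕ → ℂ) (η ε2 : ℝ) (cL cU Nc : ℕ) (N : Net) (E : Finset N.Ed)
    (φ : N.W → D.P) : Prop where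
  card : Fintype.card N.W ≤ 2 * π.M * Nc
  cu : ∀ x, N.isU x = true → N.cell x ∈ Ico cU (cU + Nc)
  cl : ∀ x, N.isU x = false → N.cell x ∈ Ico cL (cL + Nc)
  tk : ∀ e ∈ E, ‖D.cc π.κ f (N.pos π (N.up e)) (φ (N.up e)) +
    D.cc π.κ f (N.pos π (N.up e) / N.pr e) (D.dil (N.pr e) (φ (N.up e)))‖ ≤ ε2
  big : ∀ e ∈ E, η ≤ ‖D.cc π.κ f (N.pos π (N.lo e)) (φ (N.lo e))‖

/-- decomposition of the atoms into a real part and a rational part -/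
structure Dec (π : Par) (Q Tm : ℝ) (N : Net) (E : Finset N.Ed) (φ γ τ : N.W → D.P) : Prop where
  eq : ∀ e ∈ E, ∀ x, x = N.up e ∨ x = N.lo e → D.Eq (φ x) (τ x * γ x)
  den : ∀ e ∈ E, ∀ x, x = N.up e ∨ x = N.lo e → ∃ q : ℕ, 1 ≤ q ∧ q ≤ Q ∧ γ x ∈ D.Rat q
  sz : ∀ e ∈ E, ∀ x, x = N.up e ∨ x = N.lo e → D.ν π.κ (N.pos π x) (τ x) ≤ Tm
  rat : ∀ e ∈ E, D.Eq (γ (N.lo e)) (D.dil (N.pr e) (γ (N.up e)))
  re : ∀ e ∈ E, τ (N.lo e) = D.dil (N.pr e) (τ (N.up e))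

end DX

/-- supremum of short sums over a family of sequences -/
noncomputable def supU {ι : Type} (u : ι → ℕ → ℂ) (H x : ℝ) : ℝ :=
  ⨆ i, ‖∑ n ∈ Ioc ⌊x⌋₊ ⌊x + H⌋₊, u i n‖

end Pool.Agent.Lib.MP_028aa5_nt.V
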