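import Pool.Agent.Lib.MP_028aa5_nt.V.StL
import Pool.Agent.Lib.MP_028aa5_nt.T.Den

/-! Exact heights and orbits of rational points; the choice of one label. -/

namespace Pool.Agent.Lib.MP_028aa5_nt.V

open Finset T U
open scoped Classical

namespace DenXJ

section
variable {D : DS}

lemma refl (g : D.P) : D.Eq g g := by
  rw [DS.Eq, inv_mul_cancel]
  exact D.Λ.one_mem

lemma symm {g g' : D.P} (e : D.Eq g g') : D.Eq g' g := by
  have := D.Λ.inv_mem e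
  rwa [mul_inv_rev, inv_inv] at this

lemma trans {g g' g'' : D.P} (e : D.Eq g g') (e' : D.Eq g' g'') : D.Eq g g'' := by
  have := D.Λ.mul_mem e e'
  rwa [mul_assoc, mul_inv_cancel_left] at this

lemma dil (h : D.Ok) {g g' : D.P} (n : ℕ) (e : D.Eq g g') : D.Eq (D.dil n g) (D.dil n g') := by
  have := h.mem n _ e
  rwa [map_mul, map_inv] at this

lemma shift (h : D.Ok) {q : ℕ} [NeZero q] {γ : D.P} (hp : D.Per q γ) {x y : (ZMod q)ˣ}
    (z : (ZMod q)ˣ) (hxy : D.Eq (D.dil (x : ZMod q).val γ) (D.dil (y : ZMod q).val γ)) :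
    D.Eq (D.dil ((z * x : (ZMod q)ˣ) : ZMod q).val γ)
      (D.dil ((z * y : (ZMod q)ˣ) : ZMod q).val γ) := by
  have h1 := dil h (z : ZMod q).val hxy
  rw [h.dil_dil, h.dil_dil, ← Nat.cast_mul, ← Nat.cast_mul] at h1
  exact trans (hp _ _ (DenA.val_mul z x)) (trans h1 (hp _ _ (DenA.val_mul z y).symm))

lemma stab (h : D.Ok) (q : ℕ) [NeZero q] (γ0 : D.P) (hp : D.Per q γ0) : ∃ n : ℕ, 0 < n ∧
    ∀ γ (a0 : ℕ), Nat.Coprime a0 q → D.Eq γ (D.dil a0 γ0) →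
      #{a : (ZMod q)ˣ | D.Eq γ (D.dil (a : ZMod q).val γ0)} = n := by
  refine ⟨#{a : (ZMod q)ˣ | D.Eq (D.dil ((1 : (ZMod q)ˣ) : ZMod q).val γ0)
    (D.dil (a : ZMod q).val γ0)}, card_pos.2 ⟨1, mem_filter.2 ⟨mem_univ _, refl _⟩⟩,
    fun γ a0 ha hγ => ?_⟩
  have h1 := trans hγ (hp _ _ (DenA.val_un ha).symm)
  refine (card_equiv (Equiv.mulLeft (un q a0)) fun a => ?_).symm
  simp only [mem_filter, mem_univ, true_and, Equiv.coe_mulLeft]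
  constructor
  · intro e
    have := shift h hp (un q a0) e
    rw [mul_one] at this
    exact trans h1 this
  · intro e
    have := shift h hp (un q a0)⁻¹ (trans (symm h1) e)
    rwa [inv_mul_cancel, inv_mul_cancel_left] at this

lemma orb (h : D.Ok) {q p : ℕ} {γ γ' : D.P} (q1 : 1 ≤ q) (hp : D.Per q γ) (c : Nat.Coprime p q)
    (h' : D.Eq γ' (D.dil p γ)) (β : D.P) : (∃ a : ℕ, Nat.Coprime a q ∧ D.Eq β (D.dil a γ)) ↔
      ∃ a : ℕ, Nat.Coprime a q ∧ D.Eq β (D.dil a γ') := by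
  constructor
  · rintro ⟨a, ha, hb⟩
    have t0 : 0 < q.totient := Nat.totient_pos.2 q1
    refine ⟨a * p ^ (q.totient - 1), Nat.Coprime.mul_left ha (c.pow_left _),
      trans hb (symm (trans (dil h _ h') ?_))⟩
    rw [h.dil_dil, ← Nat.cast_mul]
    refine hp _ _ ?_
    rw [mul_assoc, ← pow_succ, Nat.sub_add_cancel t0]
    simpa using (Nat.ModEq.pow_totient c).mul_left a
  · rintro ⟨a, ha, hb⟩
    refine ⟨a * p, Nat.Coprime.mul_left ha c, trans hb ?_⟩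
    rw [Nat.cast_mul, ← h.dil_dil]
    exact dil h _ h'

end

variable {D : DX}

lemma rat (a : D.OkA) {q : ℕ} {γ γ' : D.P} (e : D.Eq γ γ') (h : γ ∈ D.Rat q) : γ' ∈ D.Rat q := by
  have := (D.Rat q).mul_mem h (a.rat_mono 1 q (one_dvd q) (a.lam ▸ (show γ⁻¹ * γ' ∈ D.Λ from e)))
  rwa [mul_inv_cancel_left] at this

lemma ex (a : D.OkA) {q : ℕ} {γ : D.P} (q1 : 1 ≤ q) (h : γ ∈ D.Rat q) :
    ∃ q' : ℕ, q' ≤ q ∧ D.Den q' γ := by
  have hex : ∃ q : ℕ, 1 ≤ q ∧ γ ∈ D.Rat q := ⟨q, q1, h⟩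
  obtain ⟨a1, a2⟩ := Nat.find_spec hex
  refine ⟨Nat.find hex, Nat.find_min' hex ⟨q1, h⟩, a1, a2, fun r _ hr => ?_⟩
  have h1 := Nat.find_min' hex ⟨Nat.gcd_pos_of_pos_left r a1, a.rat_gcd _ _ _ a2 hr⟩
  rw [← Nat.le_antisymm (Nat.gcd_le_left r a1) h1]
  exact Nat.gcd_dvd_right _ _

end DenXJ

open DenXJ

theorem st_DenX : DenXSt where
  rat _ _ _ _ a := rat a
  ex _ _ _ a := ex a
  uniq _ _ _ _ h h' := Nat.dvd_antisymm (h.2.2 _ h'.1 h'.2.1) (h'.2.2 _ h.1 h.2.1)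
  congr _ _ _ _ a e h := ⟨h.1, rat a e h.2.1, fun r r1 hr => h.2.2 r r1 (rat a (symm e) hr)⟩
  cop _ _ _ _ a c h :=
    ⟨h.1, a.rat_dil _ _ _ h.2.1, fun r r1 hr => h.2.2 r r1 (a.rat_cop _ _ _ _ c hr h.2.1)⟩
  per _ _ _ _ a h d _ _ e := a.rat_mod _ _ _ _ h (e.of_dvd d)
  stab _ q _ γ0 h := stab h q γ0
  orb _ _ _ _ _ h := orb h

theorem st_LabX (hDr : DropSt) (hL : LabSt) (hD : DenXSt) : LabXSt := by
  intro D π N E φ γ τ yx Q Tm lam ω u Q1 h a ok hNf hI hd hpos hR hQ hl c1 c2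
  have hden : ∀ x, ∃ q : ℕ, ∀ e ∈ E, x = N.up e ∨ x = N.lo e → q ≤ Q ∧ D.Den q (γ x) := by
    intro x
    by_cases c : ∃ e ∈ E, x = N.up e ∨ x = N.lo e
    · obtain ⟨e, he, c⟩ := c
      obtain ⟨q, q1, q2, q3⟩ := hd.den e he x c
      obtain ⟨q', q4, q5⟩ := hD.ex D q _ a q1 q3
      exact ⟨q', fun _ _ _ => ⟨le_trans (by exact_mod_cast q4) q2, q5⟩⟩
    · exact ⟨1, fun e he h' => absurd ⟨e, he, h'⟩ c⟩
  choose den hden using hden
  have P1 : 1 < π.P := by linarith [ok.P]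
  obtain ⟨e0, he0⟩ : E.Nonempty := by
    obtain ⟨v, v0, v1⟩ := hR
    by_contra c
    rw [not_nonempty_iff_eq_empty.1 c, Net.Qf, sum_empty, mul_zero] at v1
    nlinarith [Real.sqrt_nonneg (ω / #π.PP)]
  have Q1' : (1 : ℝ) ≤ Q := by
    obtain ⟨b1, b2⟩ := hden _ e0 he0 (Or.inl rfl)
    exact le_trans (by exact_mod_cast b2.1) b1
  have ω0 : 0 ≤ ω :=
    nonneg_of_mul_nonneg_left ((Real.log_nonneg Q1').trans hQ) (Real.log_pos P1)
  obtain ⟨v, v0, v1⟩ := hDr π N E lam ω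
    (fun x => {p ∈ π.PP | p ∣ den x ∧ ∃ e ∈ E, x = N.up e}) ok hI (fun x => by
      by_cases c : ∃ e ∈ E, x = N.up e
      · obtain ⟨e, he, c⟩ := c
        obtain ⟨b1, b2⟩ := hden x e he (Or.inl c)
        exact DenA.primes b2.1 b1 P1 hQ fun p hp =>
          ⟨(ok.pr p (mem_filter.1 hp).1).1, (ok.pr p (mem_filter.1 hp).1).2.1,
            (mem_filter.1 hp).2.1⟩
      · rw [filter_false_of_mem fun p _ c' => c c'.2, card_empty, Nat.cast_zero]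
        exact ω0) hR
  generalize lam - 2 * √(ω / #π.PP) = lam' at hl v1 ⊢
  set E0 := {e ∈ E | N.pr e ∉ {p ∈ π.PP | p ∣ den (N.up e) ∧ ∃ e' ∈ E, N.up e = N.up e'}}
    with hE0
  have s0 : E0 ⊆ E := filter_subset _ _
  have cop : ∀ e ∈ E0, Nat.Coprime (N.pr e) (den (N.up e)) ∧
      Nat.Coprime (N.pr e) (den (N.up e) ^ D.Dm * Q1) := by
    intro e he
    obtain ⟨b1, b2⟩ := mem_filter.1 he
    obtain ⟨p1, p2, -⟩ := ok.pr _ (hI.pr e b1)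
    have b3 := p1.coprime_iff_not_dvd.2 fun c => b2 (mem_filter.2 ⟨hI.pr e b1, c, e, b1, rfl⟩)
    refine ⟨b3, Nat.Coprime.mul_right (b3.pow_right _) (p1.coprime_iff_not_dvd.2 fun c => ?_)⟩
    have b4 : (N.pr e : ℝ) ≤ Q1 := by exact_mod_cast Nat.le_of_dvd c1 c
    linarith
  set A : Finset N.W := {x | ∃ e ∈ E, x = N.up e ∨ x = N.lo e} with hA
  have mA : ∀ x, x ∈ A ↔ ∃ e ∈ E, x = N.up e ∨ x = N.lo e := fun x => by simp [hA]
  have p0 : (0 : ℝ) < #π.PP := by exact_mod_cast ok.ne.card_pos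
  have r1 : lam' * ∑ x, v x ^ 2 ≤ 2 / #π.PP * ∑ e ∈ E0, |v (N.up e)| * |v (N.lo e)| := by
    refine v1.trans ?_
    rw [Net.Qf, Par.ν, hNf, Nat.cast_one, one_mul, mul_one_div]
    exact mul_le_mul_of_nonneg_left (sum_le_sum fun e _ => (le_abs_self _).trans_eq (abs_mul _ _))
      (by positivity)
  have r2 : ∑ x ∈ A, |v x| ^ 2 ≤ ∑ x, v x ^ 2 := by
    simp only [sq_abs]
    exact sum_le_sum_of_subset_of_nonneg (subset_univ _) fun _ _ _ => sq_nonneg _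
  have r3 : 0 < ∑ x ∈ A, |v x| ^ 2 := by
    obtain ⟨e, he, c⟩ := exists_ne_zero_of_sum_ne_zero
      (right_ne_zero_of_mul ((mul_pos hl v0).trans_le r1).ne')
    exact sum_pos' (fun _ _ => sq_nonneg _) ⟨N.up e, (mA _).2 ⟨e, s0 he, Or.inl rfl⟩,
      pow_pos (abs_pos.2 (abs_ne_zero.1 (left_ne_zero_of_mul c))) 2⟩
  set lab : N.W → ℕ × Set D.P × D.P := fun x =>
    (den x, {β | ∃ b : ℕ, Nat.Coprime b (den x ^ D.Dm * Q1) ∧ D.Eq β (D.dil b (γ x))},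
      D.dil (yx x) (τ x)) with hlab
  have hlb : ∀ e ∈ E0, lab (N.up e) = lab (N.lo e) := fun e he => by
    have d1 := (hden _ e (s0 he) (Or.inl rfl)).2
    have d2 := (hden _ e (s0 he) (Or.inr rfl)).2
    have d3 : den (N.lo e) = den (N.up e) := hD.uniq D _ _ _ d2
      (hD.congr D _ _ _ a (symm (hd.rat e (s0 he))) (hD.cop D _ _ _ a (cop e he).1 d1))
    have d4 : (N.pr e : ℝ) ≠ 0 := by exact_mod_cast (ok.pr _ (hI.pr e (s0 he))).1.pos.ne'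
    simp only [hlab, d3, hd.re e (s0 he), h.dil_dil, (hpos e (s0 he)).2.1, div_mul_cancel₀ _ d4,
      hD.orb D.toDS _ _ _ _ h (Nat.mul_pos (pow_pos d1.1 _) c1)
        (hD.per D _ _ _ a d1.2.1 (dvd_mul_right _ _)) (cop e he).2 (hd.rat e (s0 he))]
  obtain ⟨l, l1, l2⟩ := hL _ _ _ A E0 N.up N.lo (fun x => |v x|) lab _ _
    (fun e he => ⟨(mA _).2 ⟨e, s0 he, Or.inl rfl⟩, (mA _).2 ⟨e, s0 he, Or.inr rfl⟩, hlb e he⟩)
    r3 ((mul_le_mul_of_nonneg_left r2 hl.le).trans r1)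
  obtain ⟨x0, hx0, -⟩ := exists_ne_zero_of_sum_ne_zero l1.ne'
  obtain ⟨x1, rfl⟩ := (@mem_filter _ _ (_) _ _).1 hx0
  obtain ⟨e1, he1, x2⟩ := (mA _).1 x1
  obtain ⟨d1, d2⟩ := hden _ e1 he1 x2
  refine ⟨den x0, γ x0, D.dil (yx x0) (τ x0), fun x => |v x|, A.filter fun x => lab x = lab x0,
    E0.filter fun e => lab (N.up e) = lab x0, fun e he => s0 (mem_filter.1 he).1, d2.1, d1, d2.2.1,
    fun _ => abs_nonneg _, fun x hx => ?_, fun e he => ?_, ?_, ?_⟩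
  · obtain ⟨b1, b2⟩ := mem_filter.1 hx
    simp only [hlab, Prod.mk.injEq] at b2
    refine ⟨(mA _).1 b1, b2.2.2, ?_⟩
    have : γ x ∈ {β | ∃ b : ℕ, Nat.Coprime b (den x ^ D.Dm * Q1) ∧ D.Eq β (D.dil b (γ x))} :=
      ⟨1, Nat.coprime_one_left _, by rw [Nat.cast_one, h.dil_one]; exact refl _⟩
    rwa [b2.2.1] at this
  · obtain ⟨b1, b2⟩ := mem_filter.1 he
    refine ⟨mem_filter.2 ⟨(mA _).2 ⟨e, s0 b1, Or.inl rfl⟩, b2⟩,
      mem_filter.2 ⟨(mA _).2 ⟨e, s0 b1, Or.inr rfl⟩, (hlb e b1).symm.trans b2⟩, ?_⟩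
    have : den (N.up e) = den x0 := congrArg Prod.fst b2
    rw [← this]
    exact (cop e b1).2
  · convert l1
  · convert l2

end Pool.Agent.Lib.MP_028aa5_nt.V
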