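import Pool.Agent.Lib.MP_028aa5_nt.V.Cl
import Pool.Agent.Lib.MP_028aa5_nt.U.Geo
import Pool.Agent.Lib.MP_028aa5_nt.T.Bas

/-! States, and the conditions of the abstract tower. -/

namespace Pool.Agent.Lib.MP_028aa5_nt.V

open Finset T U ClJ
open scoped Classical

namespace GeoJ

theorem κ_pos {π : Par} (h : π.Ok) : 0 < π.κ := (st_Bas.κ1_pos π h).trans_le (st_Bas.κ1_le π h)

theorem cell {κ : ℝ} (y : ℝ) (h : 0 < κ) : |Real.log y - ⌊Real.log y / κ⌋ * κ| ≤ κ := by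
  obtain ⟨h1, h2⟩ := PtJ.cell κ (Real.log y) h
  rwa [abs_of_nonneg h1]

theorem cell2 {κ y y' : ℝ} (h : 0 < κ) (e : ⌊Real.log y / κ⌋ = ⌊Real.log y' / κ⌋) :
    |Real.log y - Real.log y'| ≤ κ := by
  obtain ⟨h1, h2⟩ := PtJ.cell κ (Real.log y) h
  obtain ⟨h3, h4⟩ := PtJ.cell κ (Real.log y') h
  rw [e] at h1 h2
  exact abs_le.2 ⟨by linarith, by linarith⟩

theorem net {D : DS} (hD : D.Ok) (κ y : ℝ) : ∃ A : Set D.P,
    (A.Pairwise fun a a' => ¬D.Cl κ 1 y 1 a a') ∧ ∀ α, ∃ a ∈ A, D.Cl κ 1 y 1 α a := by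
  obtain ⟨A, hA⟩ := zorn_subset {A : Set D.P | A.Pairwise fun a a' => ¬D.Cl κ 1 y 1 a a'}
    fun c hc hch => ⟨⋃₀ c, (Set.pairwise_sUnion hch.directedOn).2 fun s hs => hc hs,
      fun s hs => Set.subset_sUnion_of_mem hs⟩
  refine ⟨A, hA.prop, fun α => ?_⟩
  by_contra hne
  push Not at hne
  have h1 : (insert α A).Pairwise fun a a' => ¬D.Cl κ 1 y 1 a a' :=
    Set.Pairwise.insert hA.prop fun b hb _ => ⟨hne b hb, fun h => hne b hb (symm hD h)⟩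
  exact hne α (hA.le_of_ge h1 (Set.subset_insert _ _) (Set.mem_insert _ _)) (refl hD zero_le_one)

theorem four (k : ℕ) : (2 * (2 * 5 ^ k) : ℝ) ≤ 100 ^ (k + 1) := by
  have : (5 : ℝ) ^ k ≤ 100 ^ k := pow_le_pow_left₀ (by norm_num) (by norm_num) k
  have h : (0 : ℝ) < 5 ^ k := by positivity
  rw [pow_succ]
  linarith

theorem rig {D : DS} (hD : D.Ok) {π : Par} {r : ℕ} {t t' u : D.Pt} (hr : 0 < r)
    (hb : r ≤ π.κ * t.y) (h1 : D.Cl π.κ 1 t.y (2 * 5 ^ D.k) t.ph u.ph)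
    (h2 : D.Cl π.κ 1 t'.y (2 * 5 ^ D.k) t'.ph u.ph) (h : D.chd π r t = D.chd π r t') : t = t' := by
  have r0 : (0 : ℝ) < r := by exact_mod_cast hr
  have eJ : t.J = t'.J := sub_left_injective (congrArg DS.Pt.J h :)
  have ey : t.y = t'.y := (div_left_inj' r0.ne').1 (congrArg DS.Pt.y h :)
  have eb : D.dil r (t.ph⁻¹ * t'.ph) ∈ D.Λ := by simpa [DS.Eq] using ch_eq h
  rw [← ey] at h2
  obtain ⟨l, hl, h1⟩ := h1
  obtain ⟨l', hl', h2⟩ := h2
  rw [hD.dil_one] at h1 h2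
  have e : l = t.ph⁻¹ * t'.ph * l' := by
    refine same hD (g := t.ph) (h := u.ph) r0 hb (hD.mem r l hl) ?_ ((ν_div hD _ _ _ _).trans ?_)
    · rw [map_mul]
      exact D.Λ.mul_mem eb (hD.mem r l' hl')
    · rw [← mul_assoc, mul_inv_cancel_left]
      linarith [four D.k]
  refine ext _ _ eJ ey ?_
  have := D.Λ.mul_mem hl (D.Λ.inv_mem hl')
  rwa [e, mul_inv_cancel_right] at this

theorem few {D : DS} (hD : D.Ok) {κ : ℝ} {S : D.Pt → ℤ × D.P} (hκ : 0 < κ) (hκ1 : κ ≤ 1)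
    (hS : D.StMap κ S) (u : D.Pt) (A : Finset D.Pt)
    (h : ∀ t ∈ A, 0 < t.y ∧ |Real.log t.y - Real.log u.y| ≤ κ ∧
      D.Cl κ 1 t.y (2 * 5 ^ D.k) t.ph u.ph) : (#(A.image S) : ℝ) ≤ D.cK := by
  obtain ⟨I, hI, hI'⟩ := PtJ.cells κ (Real.log u.y) κ hκ hκ.le
  rw [mul_div_cancel_right₀ _ hκ.ne'] at hI
  have := hD.cv
  refine (card_le_fibers (A.image S) I Prod.fst (L := (D.Cv * (2 * 25 ^ D.k + 2) ^ 2) ^ D.Dm)
    (fun b hb => ?_) fun c _ => ?_).trans (mul_le_mul_of_nonneg_right (by linarith) (by positivity))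
  · obtain ⟨t, ht, rfl⟩ := mem_image.1 hb
    rw [hS.cell]
    exact hI' _ (h t ht).2.1
  · rw [filter_image]
    refine hS.few c u.ph (2 * 25 ^ D.k) _ (by positivity) fun t ht => ?_
    obtain ⟨ht, hc⟩ := mem_filter.1 ht
    obtain ⟨a1, -, a3⟩ := h t ht
    have a4 := cell t.y hκ
    rw [← hS.cell, hc, abs_sub_comm, ← Real.log_exp (c * κ)] at a4
    have a5 := cl5 hD hκ hκ1 a1 (Real.exp_pos _) a4 a3
    rw [mul_left_comm, ← mul_pow, show (5 * 5 : ℝ) = 25 by norm_num] at a5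
    exact ⟨hc, a5⟩

end GeoJ

theorem st_State : StateSt := by
  intro D κ hD
  choose Ac hsep hnear using fun c : ℤ => GeoJ.net hD κ (Real.exp (c * κ))
  choose a ha hcl using hnear
  refine ⟨fun t => (⌊Real.log t.y / κ⌋, a ⌊Real.log t.y / κ⌋ t.ph), fun _ => rfl,
    fun t => hcl _ _, fun c α r A hr hA => ?_⟩
  have key : ∀ s ∈ A.image fun t : D.Pt => (⌊Real.log t.y / κ⌋, a ⌊Real.log t.y / κ⌋ t.ph),
      s.1 = c ∧ s.2 ∈ Ac c ∧ ∃ l ∈ D.Λ,
        D.ν κ (Real.exp (c * κ)) (s.2 * D.dil 1 l * α⁻¹) ≤ 1 + r := by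
    intro s hs
    obtain ⟨t, ht, rfl⟩ := mem_image.1 hs
    obtain ⟨h1, h2⟩ := hA t ht
    simp only at h1 ⊢
    rw [h1]
    exact ⟨rfl, ha c _, trans hD (symm hD (hcl c t.ph)) h2⟩
  choose! h1 h2 z hz hz' using key
  have h3 := hD.cov _ κ (Real.exp (c * κ)) (1 + r) 1 1 _ (fun s => s.2 * D.dil 1 (z s) * α⁻¹)
    (by linarith) one_pos hz' fun B hB hd => by
      have : #B ≤ 1 := card_le_one.2 fun x hx x' hx' => by
        refine Prod.ext ((h1 x (hB hx)).trans (h1 x' (hB hx')).symm) ?_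
        by_contra hne
        refine hsep c (h2 x (hB hx)) (h2 x' (hB hx')) hne ⟨z x * (z x')⁻¹,
          D.Λ.mul_mem (hz x (hB hx)) (D.Λ.inv_mem (hz x' (hB hx'))), ?_⟩
        simpa [mul_assoc] using hd x hx x' hx'
      exact_mod_cast this
  refine h3.trans_eq ?_
  rw [div_one, mul_one]
  congr 1
  ring

theorem st_Geo : GeoSt := by
  intro D π Y S hD hπ hS hY hb
  have hκ := GeoJ.κ_pos hπ
  have P2 := hπ.P
  have cv := hD.cv
  have le : ∀ (j : ℕ) (t : D.Pt), Y * π.P ^ j ≤ t.y → Y ≤ t.y := fun j t h =>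
    (le_mul_of_one_le_right hY.le (one_le_pow₀ (by linarith))).trans h
  refine ⟨hπ.ne, by unfold DS.cK; positivity, fun p hp r hr hpr y z h => ?_, fun t u h => ?_,
    fun j r hr t t' u hv _ h1 h2 h => ?_, fun j u A h => ?_, fun c p hp => ?_, fun j r hr t h => ?_⟩
  · have h1 := pull hD π p r y z (hπ.pr p hp).1 (hπ.pr r hr).1 hpr h
    have h2 : ∃ t, D.chd π p t = z ∧ D.chd π r t = y := h1.imp fun _ => And.symm
    have e1 : (D.geo π Y S).top p r y z = h1.choose := dif_pos h1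
    have e2 : (D.geo π Y S).top r p z y = h2.choose := dif_pos h2
    rw [e1, e2]
    exact ⟨h1.choose_spec.1, h1.choose_spec.2, uniq hD π p r _ _ (hπ.pr p hp).1 (hπ.pr r hr).1 hpr
      (h2.choose_spec.2.trans h1.choose_spec.1.symm) (h2.choose_spec.1.trans h1.choose_spec.2.symm)⟩
  · exact ⟨(abs_sub_comm _ _).trans_le h.1, symm hD h.2.2, symm hD h.2.1⟩
  · exact GeoJ.rig hD (hπ.pr r hr).1.pos ((hπ.pr r hr).2.2.trans
      (hb.trans (mul_le_mul_of_nonneg_left (le j t hv) hκ.le))) h1.2.1 h2.2.1 h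
  · have := GeoJ.few hD hκ hπ.κ hS u A fun t ht =>
      ⟨hY.trans_le (le j t (h t ht).1), (h t ht).2.1, (h t ht).2.2.1⟩
    refine le_trans (Nat.cast_le.2 (card_le_card fun b hb => ?_)) this
    obtain ⟨t, ht, rfl⟩ := (@mem_image _ _ (_) _ _ _).1 hb
    exact mem_image_of_mem S ht
  · refine ⟨⌊(c : ℝ) - Real.log p / π.κ⌋, fun j t hv hc => ?_⟩
    have p0 : (p : ℝ) ≠ 0 := Nat.cast_ne_zero.2 (hπ.pr p hp).1.ne_zero
    have e : (D.geo π Y S).cl ((D.geo π Y S).S ((D.geo π Y S).ch p t)) =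
        ⌊Real.log (DS.Pt.y t) / π.κ - Real.log p / π.κ⌋ := by
      rw [← sub_div, ← Real.log_div (hY.trans_le (le j t hv)).ne' p0]
      exact hS.cell _
    rw [e, ← hc.symm.trans (hS.cell t) |>.symm]
    exact U.GeoJ.floor_two _ _
  · obtain ⟨a1, a2, -⟩ := hπ.pr r hr
    have h' : Y * π.P ^ j ≤ DS.Pt.y t / r := h
    rw [le_div_iff₀ (by linarith)] at h'
    change Y * π.P ^ (j + 1) ≤ DS.Pt.y t
    rw [pow_succ, ← mul_assoc]
    exact (mul_le_mul_of_nonneg_left a2.le (by positivity)).trans h'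

end Pool.Agent.Lib.MP_028aa5_nt.V
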