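import Pool.Agent.Lib.MP_028aa5_nt.U.St4

/-! The end game for an abstract kernel: definitions and statements. -/

namespace Pool.Agent.Lib.MP_028aa5_nt.V

open Finset T U
open scoped ComplexConjugate Classical

/-- component of a periodic function along a character -/
noncomputable def prj (q : ℕ) [NeZero q] (Φ : ℕ → ℂ) (χ : DirichletCharacter ℂ q) (n : ℕ) : ℂ :=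
  (q.totient : ℂ)⁻¹ * ∑ a : (ZMod q)ˣ, conj (χ a) * Φ ((a : ZMod q).val * n)

/-- test functions: periodic, bounded, eigenfunctions of the units, mean zero on the classes
modulo `Q1` -/
structure Tst (q Q1 : ℕ) (r : ℕ → ℂ) : Prop where
  per : ∀ n, r (n + q) = r n
  bd : ∀ n, ‖r n‖ ≤ 1
  mul : ∀ b, Nat.Coprime b q → ∃ c : ℂ, ‖c‖ = 1 ∧ ∀ n, r (b * n) = c * r n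
  zero : ∀ a, ∑ m ∈ range q with m % Q1 = a, r m = 0

/-- small correlation with all test functions -/
def Orth (q Q1 : ℕ) (β : ℝ) (Φ : ℕ → ℂ) : Prop :=
  ∀ r, Tst q Q1 r → ‖∑ m ∈ range q, r m * Φ m‖ ≤ β * q

/-- a kernel -/
structure Ker (κ W β : ℝ) (q Q1 : ℕ) (Φ : ℝ → ℕ → ℂ) : Prop where
  bd : ∀ z m, ‖Φ z m‖ ≤ 1
  per : ∀ z m, Φ z (m + q) = Φ z m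
  lip : ∀ z ∈ Set.Icc 1 (1 + κ), ∀ z' ∈ Set.Icc 1 (1 + κ), ∀ m,
    ‖Φ z m - Φ z' m‖ ≤ W * |z - z'|
  orth : ∀ z, Orth q Q1 β (Φ z)

/-- correlation with a kernel -/
noncomputable def ck (κ : ℝ) (f : ℕ → ℂ) (Φ : ℝ → ℕ → ℂ) (y : ℝ) (a : ℕ) : ℂ :=
  ((κ * y : ℝ) : ℂ)⁻¹ * ∑ n ∈ Ioc ⌊y⌋₊ ⌊y * (1 + κ)⌋₊, f n * Φ (n / y) (a * n)

/-- the kernel on the cyclic group of fine positions -/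
noncomputable def kerK (π : Par) (N0 : ℕ) (Φ : ℝ → ℕ → ℂ) (i : ZMod N0) (m : ℕ) : ℂ :=
  if 0 < i.val ∧ i.val ≤ π.G * π.Nf then Φ (π.yy i.val) m else 0

/-- the model of `ck` on the finite group -/
noncomputable def LamK (π : Par) (N0 q : ℕ) (S : Finset ℕ) (f : ℕ → ℂ) (Φ : ℝ → ℕ → ℂ)
    (g : ZMod N0 × (ZMod q)ˣ) : ℂ :=
  (π.κ : ℂ)⁻¹ * ∑ n ∈ S, f n / n *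
    kerK π N0 Φ ((π.lg n : ZMod N0) - g.1) ((g.2 : ZMod q).val * n)

/-- a nearly invariant pair of weights on one component; `JL`, `JU`, `Nj` are fine indices -/
structure BlkK (π : Par) (f : ℕ → ℂ) (Φ : ℝ → ℕ → ℂ) (q : ℕ) [NeZero q]
    (vU vL : ℕ → (ZMod q)ˣ → ℝ) (Gd : Finset (ℕ × (ZMod q)ˣ × ℕ)) (JL JU Nj Jm : ℕ)
    (lam η ε2 u : ℝ) : Prop where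
  nU : ∀ j a, 0 ≤ vU j a
  nL : ∀ j a, 0 ≤ vL j a
  pos : 0 < ∑ j ∈ range Jm, ∑ a, (vU j a ^ 2 + vL j a ^ 2)
  ray : lam * ∑ j ∈ range Jm, ∑ a, (vU j a ^ 2 + vL j a ^ 2) ≤
    2 / #π.PP * ∑ g ∈ Gd, vU g.1 g.2.1 * vL (g.1 - π.lg g.2.2) (g.2.1 * un q g.2.2)
  gd : ∀ g ∈ Gd, g.2.2 ∈ π.PP ∧ Nat.Coprime g.2.2 q ∧ π.lg g.2.2 ≤ g.1 ∧
    g.1 ∈ Ico JU (JU + Nj) ∧ g.1 - π.lg g.2.2 ∈ Ico JL (JL + Nj) ∧ ∃ y : ℝ, 0 < y ∧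
      |Real.log y - g.1 * π.κ0| ≤ u ∧ ‖ck π.κ f Φ y (g.2.1 : ZMod q).val +
        ck π.κ f Φ (y / g.2.2) ((g.2.1 : ZMod q).val * g.2.2)‖ ≤ ε2
  sU : ∀ j a, vU j a ≠ 0 → j ∈ Ico JU (JU + Nj) ∧ j < Jm
  sL : ∀ j a, vL j a ≠ 0 → j ∈ Ico JL (JL + Nj) ∧ j < Jm ∧ ∃ y : ℝ, 0 < y ∧
    |Real.log y - j * π.κ0| ≤ u ∧ η ≤ ‖ck π.κ f Φ y (a : ZMod q).val‖

/-- the components of a periodic function -/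
structure PrjSt : Prop where
  bd : ∀ (q : ℕ) [NeZero q] (Φ : ℕ → ℂ) χ n, (∀ m, ‖Φ m‖ ≤ 1) → ‖prj q Φ χ n‖ ≤ 1
  sub : ∀ (q : ℕ) [NeZero q] (Φ Φ' : ℕ → ℂ) χ n (w : ℝ), (∀ m, ‖Φ m - Φ' m‖ ≤ w) →
    ‖prj q Φ χ n - prj q Φ' χ n‖ ≤ w
  gf : ∀ (q : ℕ) [NeZero q] (Φ : ℕ → ℂ), (∀ m, ‖Φ m‖ ≤ 1) → (∀ m, Φ (m + q) = Φ m) →
    GF q (prj q Φ)
  /-- a part of bounded period and a small part -/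
  split : ∀ (q Q1 : ℕ) [NeZero q] [NeZero Q1] (hd : Q1 ∣ q) (β : ℝ) (Φ : ℕ → ℂ),
    (∀ m, ‖Φ m‖ ≤ 1) → (∀ m, Φ (m + q) = Φ m) → Orth q Q1 β Φ →
    ∃ (g1 : DirichletCharacter ℂ Q1 → ℕ → ℂ) (g2 : DirichletCharacter ℂ q → ℕ → ℂ),
      GF Q1 g1 ∧ GF q g2 ∧ (∀ χ, ∑ m ∈ range q, ‖g2 χ m‖ ^ 2 ≤ β * q) ∧
      ∀ χ, (∀ n, prj q Φ χ n = 2 * g2 χ n) ∨
        ∃ χ1, χ = DirichletCharacter.changeLevel hd χ1 ∧ ∀ n, prj q Φ χ n = g1 χ1 n + 2 * g2 χ n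

/-- elementary properties of `ck` -/
structure CkSt : Prop where
  bd : ∀ κ f Φ y a, (∀ n, ‖f n‖ ≤ 1) → (∀ z m, ‖Φ z m‖ ≤ 1) → 0 < κ → 1 ≤ κ * y →
    ‖ck κ f Φ y a‖ ≤ 2
  mod : ∀ κ f Φ y (q a b : ℕ), (∀ z m, Φ z (m + q) = Φ z m) → a ≡ b [MOD q] →
    ck κ f Φ y a = ck κ f Φ y b
  move : ∀ κ W β q Q1 f Φ y y' u a, Ker κ W β q Q1 Φ → (∀ n, ‖f n‖ ≤ 1) → 0 < κ → κ ≤ 1 →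
    0 ≤ W → 1 ≤ κ * y → 0 < y' → |Real.log y' - Real.log y| ≤ u → u ≤ 1 →
    ‖ck κ f Φ y' a - ck κ f Φ y a‖ ≤ 40 * (u / κ + 1 / (κ * y)) + 20 * W * u

structure LamKSt : Prop where
  near : ∀ (π : Par) (N0 q Q1 : ℕ) [NeZero N0] (S : Finset ℕ) (f f' : ℕ → ℂ) (Φ : ℝ → ℕ → ℂ)
    (W β A : ℝ) (j : ℕ) (a : (ZMod q)ˣ), π.Ok → Ker π.κ W β q Q1 Φ → 0 ≤ W → 8 ≤ N0 * π.κ0 →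
    0 < A → S ⊆ Ioc ⌊A⌋₊ ⌊A * Real.exp 6⌋₊ → A ≤ π.yy j → π.yy j ≤ A * Real.exp 6 →
    1 ≤ π.κ * π.yy j → (∀ n, ‖f n‖ ≤ 1) →
    (∀ n ∈ Ioc ⌊π.yy j⌋₊ ⌊π.yy j * (1 + π.κ)⌋₊, n ∈ S ∧ f' n = f n) →
    ‖LamK π N0 q S f' Φ (j, a) - ck π.κ f Φ (π.yy j) (a : ZMod q).val‖ ≤
      2 * π.κ + 8 * W * π.κ0
  bd : ∀ (π : Par) (N0 q : ℕ) [NeZero N0] (S : Finset ℕ) (f' : ℕ → ℂ) (Φ : ℝ → ℕ → ℂ) (A : ℝ) g,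
    π.Ok → (∀ z m, ‖Φ z m‖ ≤ 1) → 8 ≤ N0 * π.κ0 → 0 < A → S ⊆ Ioc ⌊A⌋₊ ⌊A * Real.exp 6⌋₊ →
    1 ≤ π.κ * A → (∀ n ∈ S, ‖f' n‖ ≤ 1) → ‖LamK π N0 q S f' Φ g‖ ≤ 3

/-- the Fourier coefficients of the model -/
def HatKSt : Prop := ∀ (N0 q : ℕ) [NeZero N0] [NeZero q] (T1 : ℝ)
  (F : Finset (ZMod N0 × DirichletCharacter ℂ q)), 0 < T1 →
  ∃ F' : Finset (ℤ × DirichletCharacter ℂ q), #F' ≤ #F ∧ (∀ ξ ∈ F', |(ξ.1 : ℝ)| ≤ T1) ∧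
    ∀ (π : Par) (S : Finset ℕ) (f' : ℕ → ℂ) (Φ : ℝ → ℕ → ℂ) (Q1 : ℕ) (W β A : ℝ), π.Ok →
    Ker π.κ W β q Q1 Φ → 0 ≤ W → 8 ≤ N0 * π.κ0 → 1 ≤ A → S ⊆ Ioc ⌊A⌋₊ ⌊A * Real.exp 6⌋₊ →
    (∀ n ∈ S, ‖f' n‖ ≤ 1) →
    ∑ ξ ∈ F, ‖hat (ch N0 q) (LamK π N0 q S f' Φ) ξ‖ ≤
      ((π.G * π.Nf : ℕ) : ℝ)⁻¹ * ∑ i ∈ range (π.G * π.Nf), ∑ ξ ∈ F',
        ‖tw f' (prj q (Φ (π.yy (i + 1))) ξ.2) (ξ.1 / (N0 * π.κ0)) S‖ +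
      #F * (7 * T1 / N0 + 4 * (1 + W) / (π.κ * T1))

/-- the end game -/
def EndKSt : Prop := ∀ (π : Par) (f f' : ℕ → ℂ) (Φ : ℝ → ℕ → ℂ) (η ε1 ε2 u K W β er : ℝ)
  (JL JU Nj Jm q Q1 N0 : ℕ) [NeZero q] [NeZero N0] (vU vL : ℕ → (ZMod q)ˣ → ℝ)
  (Gd : Finset (ℕ × (ZMod q)ˣ × ℕ)), π.Ok → JL ≤ JU → (∀ n, ‖f n‖ ≤ 1) →
  Ker π.κ W β q Q1 Φ → 0 ≤ W → BlkK π f Φ q vU vL Gd JL JU Nj Jm (1 - ε1) η ε2 u →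
  8 ≤ N0 * π.κ0 → Nj * π.κ0 ≤ Real.log 4 → 8 ≤ K → K ≤ π.κ * π.yy JL →
  (∀ n ∈ Ioc ⌊π.yy JL / 8⌋₊ ⌊32 * π.yy JL⌋₊, ‖f' n‖ ≤ 1) →
  (∀ n ∈ Ioc ⌊π.yy JL⌋₊ ⌊8 * π.yy JL⌋₊, f' n = f n) → 0 ≤ ε1 → ε1 ≤ 1 / 8 → 0 ≤ ε2 →
  π.κ0 ≤ u → 2 * u ≤ 1 → 120 * (u / π.κ) + 80 / K + 68 * W * u + 2 * π.κ ≤ er → er ≤ η →
  (η - er) ^ 2 - 135 * √(ε1 + (ε2 + er) ^ 2) ≤ 3 * ∑ ξ ∈ spec π N0 q,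
    ‖hat (ch N0 q) (LamK π N0 q (Ioc ⌊π.yy JL / 8⌋₊ ⌊32 * π.yy JL⌋₊) f' Φ) ξ‖

/-- choice of the windows, for a finite family of periodic functions -/
def EcKSt : Prop := ∀ (A ε : ℝ), 0 < ε → ∃ β : ℝ, 0 < β ∧ ∀ Q1 : ℕ, 1 ≤ Q1 → ∃ c X0 : ℝ, 0 < c ∧
  ∀ X ≥ X0, ∀ (L Y : ℝ) (q : ℕ) [NeZero q] (n : ℕ) (Φ : ℕ → ℕ → ℂ)
  (F : Finset (ℤ × DirichletCharacter ℂ q)) (i1 : ℕ), 8 ≤ L → L ≤ 9 → q ≤ X ^ c → Q1 ∣ q →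
  (∀ l m, ‖Φ l m‖ ≤ 1) → (∀ l m, Φ l (m + q) = Φ l m) → (∀ l, Orth q Q1 β (Φ l)) →
  #F ≤ X ^ c → (∀ ξ ∈ F, |(ξ.1 : ℝ)| ≤ X ^ A) → X ^ (9 / 10 : ℝ) ≤ Y → Y ≤ X →
  (2 : ℝ) ^ i1 ≤ X ^ (1 / 10 : ℝ) →
  ∃ Mi : ℕ → ℝ, (∀ i < i1, Y / 2 ^ (i + 3) ≤ Mi i ∧ Mi i ≤ Y / 2 ^ (i + 2)) ∧
    ∑ l ∈ range n, ∑ i ∈ range i1, ∑ ξ ∈ F, ‖FF (prj q (Φ l) ξ.2) (ξ.1 / L) (Mi i)‖ ^ 2 ≤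
      n * (ε * Real.log X)

def EKSt : Prop := ∀ (a A ϑ : ℝ), 0 < a → 0 < ϑ → ∃ β : ℝ, 0 < β ∧ ∀ Q1 : ℕ, 1 ≤ Q1 →
  ∃ c X0 : ℝ, 0 < c ∧ ∀ X ≥ X0, ∀ (L Y : ℝ) (q : ℕ) [NeZero q] (n : ℕ) (Φ : ℕ → ℕ → ℂ)
  (i0 i1 B : ℕ), 8 ≤ L → L ≤ 9 → q ≤ X ^ c → Q1 ∣ q → (∀ l m, ‖Φ l m‖ ≤ 1) →
  (∀ l m, Φ l (m + q) = Φ l m) → (∀ l, Orth q Q1 β (Φ l)) → X ^ (9 / 10 : ℝ) ≤ Y → Y ≤ X →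
  X ^ a ≤ (2 : ℝ) ^ i0 → (2 : ℝ) ^ i1 ≤ X ^ (1 / 10 : ℝ) → 1 ≤ B →
  ∀ F : Finset (ℤ × DirichletCharacter ℂ q), #F ≤ X ^ c → (∀ ξ ∈ F, |(ξ.1 : ℝ)| ≤ X ^ A) →
  ∃ Mi : ℕ → ℝ, (∀ i ∈ Ico i0 i1, Y / 2 ^ (i + 3) ≤ Mi i ∧ Mi i ≤ Y / 2 ^ (i + 2)) ∧
    ∑ l ∈ range n, ∑ ξ ∈ F,
      ‖tw (ft i0 i1 B Mi) (prj q (Φ l) ξ.2) (ξ.1 / L) (Ioc ⌊Y / 8⌋₊ ⌊32 * Y⌋₊)‖ ≤ n * ϑ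

/-- one component is impossible -/
def CoreBKSt : Prop := ∀ (k : ℕ) (η a : ℝ), 1 ≤ k → 0 < η → η ≤ 1 → 0 < a →
  ∃ ε1 ε2 β : ℝ, 0 < ε1 ∧ 0 < ε2 ∧ 0 < β ∧ ∀ Q1 : ℕ, 1 ≤ Q1 → ∃ c A : ℝ, 0 < c ∧ 1 ≤ A ∧
  ∀ C D : ℝ, 0 < D → ∃ X0 : ℝ, ∀ X ≥ X0, ∀ (π : Par) (i0 i1 B JL JU Nj Jm q : ℕ) [NeZero q]
  (Φ : ℝ → ℕ → ℂ) (vU vL : ℕ → (ZMod q)ˣ → ℝ) (Gd : Finset (ℕ × (ZMod q)ˣ × ℕ)), π.k = k →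
  Reg2 π X A C D → X ^ a ≤ (2 : ℝ) ^ i0 → (2 : ℝ) ^ i1 ≤ X ^ (1 / 10 : ℝ) → 2 ≤ a * B →
  JL ≤ JU → Nj * π.κ0 ≤ Real.log 4 → X ^ (9 / 10 : ℝ) ≤ π.yy JL → π.yy JL ≤ X →
  π.P ≤ π.κ * π.yy JL → q ≤ X ^ c → Q1 ∣ q → Ker π.κ (X ^ (7 * k + 1)) β q Q1 Φ →
  BlkK π (fw (SS i0 i1) B) Φ q vU vL Gd JL JU Nj Jm (1 - ε1) η ε2 (X * π.κ0) → False

end Pool.Agent.Lib.MP_028aa5_nt.V
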