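import Pool.Agent.Lib.MP_028aa5_nt.V.StL
import Pool.Agent.Lib.MP_028aa5_nt.U.Loop2
import Pool.Agent.Lib.MP_028aa5_nt.T.Inv

/-! Exact walks back to a class, and the rational point near the starting vertex. -/

namespace Pool.Agent.Lib.MP_028aa5_nt.V

open Finset T U
open scoped Classical

namespace LoopXJ

variable {D : DS}

lemma comm (h : D.Ok) (a b : ℝ) (g : D.P) : D.dil a (D.dil b g) = D.dil b (D.dil a g) := by
  rw [h.dil_dil, h.dil_dil, mul_comm]

lemma ex_refl (c : ℝ) (g : D.P) : D.Ex c g g := ⟨1, D.Λ.one_mem, by rw [map_one, mul_one]⟩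

lemma ex_symm {c : ℝ} {g g' : D.P} (e : D.Ex c g g') : D.Ex c g' g := by
  obtain ⟨l, hl, rfl⟩ := e
  exact ⟨l⁻¹, D.Λ.inv_mem hl, by rw [map_inv, mul_inv_cancel_right]⟩

lemma ex_trans {c : ℝ} {g g' g'' : D.P} (e : D.Ex c g g') (e' : D.Ex c g' g'') : D.Ex c g g'' := by
  obtain ⟨l, hl, rfl⟩ := e
  obtain ⟨l', hl', rfl⟩ := e'
  exact ⟨l' * l, D.Λ.mul_mem hl' hl, by rw [map_mul, mul_assoc]⟩

lemma ex_dil (h : D.Ok) {c : ℝ} {g g' : D.P} (n : ℕ) (e : D.Ex c g g') :
    D.Ex c (D.dil n g) (D.dil n g') := by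
  obtain ⟨l, hl, rfl⟩ := e
  exact ⟨D.dil n l, h.mem n l hl, by rw [map_mul, comm h]⟩

/-- the invariant along a walk -/
lemma inv (hB : BasSt) (h : D.Ok) {π : Par} {N : Net} {E : Finset N.Ed} {φ : N.W → D.P} {R : ℝ}
    (ok : π.Ok) (hI : N.Is π E) (hL : D.LvX N R φ E) (x0 : N.W) (l : List ℕ) (x : N.W)
    (hx : N.opL π.ν E (fun _ => Equiv.refl Unit) l (fun y _ => if y = x0 then 1 else 0) x () ≠ 0) :
    N.isU x = (N.isU x0).xor (l.length % 2 == 1) ∧ 0 < (ab (N.isU x0) l).1 ∧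
      0 < (ab (N.isU x0) l).2 ∧
      |Real.log (N.pos π x) - Real.log (ab (N.isU x0) l).2 -
        (Real.log (N.pos π x0) - Real.log (ab (N.isU x0) l).1)| ≤ 2 * l.length * π.κ1 ∧
      D.Ex R (D.dil (ab (N.isU x0) l).2 (φ x)) (D.dil (ab (N.isU x0) l).1 (φ x0)) := by
  induction l generalizing x with
  | nil =>
    have h' : x = x0 := by
      by_contra hc
      exact hx (if_neg hc)
    subst h'
    have e1 : ab (N.isU x) [] = (1, 1) := rfl
    rw [e1]
    exact ⟨by simp, one_pos, one_pos, by simp, ex_refl _ _⟩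
  | cons p l ih =>
    rw [List.length_cons, Inv.xor_succ]
    rcases Inv.opC_ne N Unit _ _ _ _ x () hx with ⟨e, he, hx, hne⟩ | ⟨e, he, hx, hne⟩
    · rw [mem_filter] at he
      obtain ⟨he, hp⟩ := he
      subst hx hp
      obtain ⟨i1, i2, i3, i4, i5⟩ := ih _ hne
      rw [hI.up e he] at i1
      rw [Inv.ab_down _ _ _ i1.symm, ← i1]
      have hp0 : 0 < N.pr e := (ok.pr _ (hI.pr e he)).1.pos
      have ha : (0 : ℝ) < (ab (N.isU x0) l).1 := by exact_mod_cast i2
      have hp : (0 : ℝ) < N.pr e := by exact_mod_cast hp0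
      have hed := hB.pos_edge π N E ok hI e he
      rw [Real.log_div (hB.pos_pos π N _).ne' hp.ne'] at hed
      refine ⟨hI.lo e he, Nat.mul_pos i2 hp0, i3, ?_, ?_⟩
      · dsimp only
        rw [Nat.cast_mul, Real.log_mul ha.ne' hp.ne']
        push_cast
        rw [abs_le] at hed i4 ⊢
        constructor <;> linarith [hed.1, hed.2, i4.1, i4.2]
      · have c1 := ex_dil h (N.pr e) i5
        have c2 := ex_dil h (ab (N.isU x0) l).2 (hL e he)
        rw [comm h] at c2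
        rw [h.dil_dil (N.pr e) (ab (N.isU x0) l).1, mul_comm, ← Nat.cast_mul] at c1
        exact ex_trans c2 c1
    · rw [mem_filter] at he
      obtain ⟨he, hp⟩ := he
      subst hx hp
      obtain ⟨i1, i2, i3, i4, i5⟩ := ih _ hne
      rw [hI.lo e he] at i1
      rw [Inv.ab_up _ _ _ i1.symm, ← i1]
      have hp0 : 0 < N.pr e := (ok.pr _ (hI.pr e he)).1.pos
      have hb : (0 : ℝ) < (ab (N.isU x0) l).2 := by exact_mod_cast i3
      have hp : (0 : ℝ) < N.pr e := by exact_mod_cast hp0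
      have hed := hB.pos_edge π N E ok hI e he
      rw [Real.log_div (hB.pos_pos π N _).ne' hp.ne'] at hed
      refine ⟨hI.up e he, i2, Nat.mul_pos i3 hp0, ?_, ?_⟩
      · dsimp only
        rw [Nat.cast_mul, Real.log_mul hb.ne' hp.ne']
        push_cast
        rw [abs_le] at hed i4 ⊢
        constructor <;> linarith [hed.1, hed.2, i4.1, i4.2]
      · have c2 := ex_dil h (ab (N.isU x0) l).2 (hL e he)
        rw [h.dil_dil, ← Nat.cast_mul] at c2
        exact ex_trans (ex_symm c2) i5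

/-- closeness of the two dilates -/
lemma close (h : D.Ok) {κ R y r : ℝ} {a b : ℕ} {g g' : D.P} (b0 : 0 < b) (c : D.Cl κ R y r g g')
    (e : D.Ex R (D.dil b g') (D.dil a g)) : D.Cl κ R (y / b) r (D.dil a g) (D.dil b g) := by
  obtain ⟨l, hl, c⟩ := c
  obtain ⟨m, hm, e⟩ := e
  have b1 : (b : ℝ) ≠ 0 := by exact_mod_cast b0.ne'
  refine ⟨m * (D.dil b l)⁻¹, D.Λ.mul_mem hm (D.Λ.inv_mem (h.mem b l hl)), ?_⟩
  have e1 : D.dil a g * D.dil R (m * (D.dil b l)⁻¹) * (D.dil b g)⁻¹ =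
      (D.dil b (g * D.dil R l * g'⁻¹))⁻¹ := by
    simp only [map_mul, map_inv, e, comm h R b]
    group
  rw [e1, h.inv, h.ndil, mul_div_cancel₀ _ b1]
  exact c

end LoopXJ

open LoopXJ

theorem st_LoopX (hB : BasSt) (hCf : CfSt) (hPF : PFSt) (hW : WalkSt) (hA : AbSt) : LoopXSt := by
  intro D π N E φ Λ' cls R r u nW n hD ok hE hLv hRay hcard hCla n1
  have hν := (hB.ν_pos π ok).le
  have hκ1 := hB.κ1_pos π ok
  have hP : (0 : ℝ) < #π.PP := by exact_mod_cast ok.ne.card_pos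
  have hP1 : 1 ≤ 2 * π.P := by linarith [ok.P]
  obtain ⟨hnW, x, ⟨e, he, hxe⟩, hx⟩ := Loop2J.diag hCf hPF N hν E hRay cls hcard n1
  let T : N.Ed → Unit ≃ Unit := fun _ => Equiv.refl _
  let F : N.W → Unit → ℝ := fun y _ => if y = x then 1 else 0
  have hF : ∀ y d, 0 ≤ F y d := fun y d => by
    simp only [F]
    split_ifs <;> norm_num
  let Λ := {l ∈ Fintype.piFinset fun _ : Fin (2 * n) => π.PP |
    ∑ z with cls z = cls x, N.opL π.ν E T (List.ofFn l) F z () ≠ 0}
  have h1 : 1 / (4 ^ n * nW) ≤ #Λ * (1 / (#π.PP : ℝ)) ^ (2 * n) := by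
    refine hx.trans ?_
    have e : ∀ z, (N.opB π.ν E)^[2 * n] (fun y => if y = x then 1 else 0) z =
        ∑ l ∈ Fintype.piFinset fun _ : Fin (2 * n) => π.PP,
          N.opL π.ν E T (List.ofFn l) F z () := fun z => by
      have e := hW.projI N Unit π.ν E T (2 * n) F z
      simp only [univ_unique, sum_singleton] at e
      exact e.symm.trans (hW.exp N Unit π.ν E T π.PP (2 * n) F z () hE.pr)
    rw [sum_congr rfl fun z _ => e z, sum_comm, ← sum_filter_ne_zero, ← nsmul_eq_mul]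
    refine sum_le_card_nsmul _ _ _ fun l _ => ?_
    have h2 := hW.mass π N Unit E T (List.ofFn l) F ok hE hF
    simp only [univ_unique, sum_singleton, List.length_ofFn] at h2
    refine (sum_le_sum_of_subset_of_nonneg (filter_subset _ _)
      fun y _ _ => hW.nonneg N Unit π.ν E T _ F hν hF y ()).trans (h2.trans_eq ?_)
    simp [F]
  have hΛ : Λ.Nonempty := by
    rw [← card_pos]
    by_contra h
    rw [Nat.eq_zero_of_not_pos h, Nat.cast_zero, zero_mul] at h1
    exact absurd h1 (not_le.2 (by positivity))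
  have hfac : (0 : ℝ) < n.factorial := by exact_mod_cast n.factorial_pos
  obtain ⟨b, A, h2, ⟨l0, hl0, hb⟩, h3⟩ := LoopJ.pigeon Λ hΛ (fun l => ab (N.isU x) (List.ofFn l))
    (K := #π.PP ^ n) (L := n.factorial ^ 2) (c := #π.PP ^ n / (4 ^ n * nW * n.factorial ^ 2))
    (by exact_mod_cast (card_le_card (image_subset_image (filter_subset _ _))).trans
          (hA.ab_img (N.isU x) π.PP n))
    (fun a b => by
      exact_mod_cast (card_le_card (filter_subset_filter _ (filter_subset _ _))).trans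
        (hA.ab_fib (N.isU x) π.PP n a b fun p hp => (ok.pr p hp).1))
    (by positivity) (by positivity) (by
      rw [one_div_pow, mul_one_div, le_div_iff₀ (by positivity)] at h1
      refine le_of_eq_of_le ?_ h1
      rw [two_mul, pow_add]
      field_simp)
  have h4 : 0 < (ab (N.isU x) (List.ofFn l0)).2 ∧
      (ab (N.isU x) (List.ofFn l0)).2 ≤ (2 * π.P) ^ n := by
    have h := hA.ab_le (N.isU x) (List.ofFn l0) (2 * π.P) hP1 fun p hp => by
      obtain ⟨i, rfl⟩ := List.mem_ofFn.1 hp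
      have := ok.pr _ (Fintype.mem_piFinset.1 (mem_filter.1 hl0).1 i)
      exact ⟨this.1.pos, this.2.2⟩
    rw [List.length_ofFn, show (2 * n + 1) / 2 = n by omega] at h
    exact ⟨h.2.1, h.2.2.2⟩
  refine ⟨e, he, x, hxe, b, A, h2, hb ▸ h4.1, hb ▸ h4.2, fun a ha => ?_⟩
  obtain ⟨l, hl, hab⟩ := h3 a ha
  obtain ⟨x', hx', hne⟩ := exists_ne_zero_of_sum_ne_zero (mem_filter.1 hl).2
  obtain ⟨-, c1, c2⟩ := hCla x x' (mem_filter.1 hx').2.symm
  obtain ⟨-, a0, b0, h7, h8⟩ := inv hB hD ok hE hLv x (List.ofFn l) x' hne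
  rw [hab] at a0 b0 h7 h8
  rw [List.length_ofFn, Nat.cast_mul, Nat.cast_two] at h7
  refine ⟨a0, ?_, close hD b0 c2 h8⟩
  dsimp only at h7
  rw [abs_le] at h7 c1 ⊢
  constructor <;> linarith [h7.1, h7.2, c1.1, c1.2]

theorem st_SeedX (hB : BasSt) (hL : LoopXSt) : SeedXSt := by
  intro D π N E φ Λ cls r u u' nW Na R n Wd hD hN ok hE r0 hR hLv hRay hcard hCla n1 hu u1 hNa hk
    hW he0
  have hR' : (0 : ℝ) < R := by exact_mod_cast hR
  have hκ0 : 0 < π.κ := (hB.κ1_pos π ok).trans_le (hB.κ1_le π ok)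
  obtain ⟨e, he, x, hx, b, A, h1, b0, b1, h2⟩ :=
    hL D.toDS π N E φ Λ cls R r u nW n hD ok hE hLv hRay hcard hCla n1
  have h3 : ∀ a ∈ A, |(a : ℝ) - b| ≤ 2 * u' * (2 * π.P) ^ n := by
    intro a ha
    obtain ⟨a0, h, -⟩ := h2 a ha
    have a0' : (0 : ℝ) < a := by exact_mod_cast a0
    have b0' : (0 : ℝ) < b := by exact_mod_cast b0
    have h5 := h.trans hu
    have h6 := (abs_nonneg _).trans h5
    have h4 := Real.abs_exp_sub_one_le (h5.trans u1)
    rw [Real.exp_sub, Real.exp_log a0', Real.exp_log b0', div_sub_one b0'.ne', abs_div,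
      abs_of_pos b0', div_le_iff₀ b0'] at h4
    calc _ ≤ _ := h4
      _ ≤ _ := by gcongr
  obtain ⟨W1, B, hBA, hBc, hBD⟩ := SeedJ.cluster hk (hNa.trans h1) hW fun a ha c hc => by
    have := abs_le.1 (h3 a ha)
    have := abs_le.1 (h3 c hc)
    linarith
  have p1 : 1 ≤ N.pos π x := Real.one_le_exp (by have := hB.κ1_pos π ok; positivity)
  have e1 : ∀ g, D.dil R (D.dil (1 / R) g) = g := fun g => by
    rw [hD.dil_dil, mul_one_div_cancel hR'.ne', hD.dil_one]
  obtain ⟨Q, γ, q1, q2, q3, q4⟩ := hN.seed π.κ (R * N.pos π x) r ((2 * π.P) ^ n) b Wd B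
    (D.dil (1 / R) (φ x)) hκ0 ok.κ (by positivity) r0 W1 b0 b1 (by omega)
    (fun a ha c hc => (le_abs_self _).trans (hBD a ha c hc))
    (fun a ha => by
      obtain ⟨a0, h, l, hl, c⟩ := h2 a (hBA ha)
      refine ⟨a0, (h.trans hu).trans u1, l, hl, ?_⟩
      rw [mul_div_assoc, ← hD.ndil, hD.dil_one]
      simp only [map_mul, map_inv, comm hD (R : ℝ) a, comm hD (R : ℝ) b, e1]
      exact c)
    (he0.trans (le_mul_of_one_le_right hR'.le p1))
  refine ⟨e, he, x, hx, Q, γ, q1, by exact_mod_cast q2, q3, ?_⟩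
  rw [← hD.ndil, map_mul, map_inv, e1] at q4
  exact q4

end Pool.Agent.Lib.MP_028aa5_nt.V
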