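import Pool.Agent.Lib.MP_028aa5_nt.V.StB
import Pool.Agent.Lib.MP_028aa5_nt.T.One

/-! One descent with the choice of the primes and of the lower families. -/

namespace Pool.Agent.Lib.MP_028aa5_nt.V

open Finset T U
open scoped Classical

lemma OneJ.largest (D : DX) (Ad : D.P → Prop) (κ η ρ y : ℝ) (f : ℕ → ℂ) (M : ℕ)
    (h : ∀ A, D.Fam Ad κ f η ρ y A → #A ≤ M) :
    ∃ A, D.Fam Ad κ f η ρ y A ∧ #A ≤ M ∧ ∀ A', D.Fam Ad κ f η ρ y A' → #A' ≤ #A := by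
  have hne : ({n | ∃ A, D.Fam Ad κ f η ρ y A ∧ #A = n} : Set ℕ).Nonempty :=
    ⟨0, ∅, ⟨by simp, by simp⟩, rfl⟩
  have hb : BddAbove ({n | ∃ A, D.Fam Ad κ f η ρ y A ∧ #A = n} : Set ℕ) :=
    ⟨M, fun n ⟨A, hA, hn⟩ => hn ▸ h A hA⟩
  obtain ⟨A, hA, hn⟩ := Nat.sSup_mem hne hb
  exact ⟨A, hA, h A hA, fun A' hA' => hn ▸ le_csSup hb ⟨A', hA', rfl⟩⟩

theorem st_One (hC : CcSt) (hA1 : A1St) (hWin : WinSt) : OneSt := by
  intro M ε2 ls hM hε hls
  have hM' : (1 : ℝ) ≤ M := by exact_mod_cast hM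
  obtain ⟨δ, hδ0, hδ1, hδ2⟩ : ∃ δ : ℝ, 0 < δ ∧ δ ≤ 1 ∧ M * (3 * δ) ≤ ls / 3 := by
    refine ⟨min 1 (ls / (9 * M)), by positivity, min_le_left _ _, ?_⟩
    calc (M : ℝ) * (3 * min 1 (ls / (9 * M))) ≤ M * (3 * (ls / (9 * M))) := by
          gcongr; exact min_le_right _ _
      _ = ls / 3 := by field_simp; ring
  obtain ⟨D0, P0, hD0, hW⟩ := hWin δ (24 * M ^ 2 / (ls * ε2 ^ 2)) hδ0 hδ1 (by positivity)
  refine ⟨max D0 (2 / δ), max (max P0 16) (max (1 / δ) ((4 * (3 * M ^ 3 / ls) / δ) ^ 2)),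
    le_max_of_le_left hD0, ?_⟩
  intro D' Qf Ad π f P1 η η' ρ ρ' K1 cU Nc AU okD oe clo hk hπM hG hκ0 hNf hκK hKP hNc hK1 hK1U hf hmul hρ' hρ hρρ hη
    hAU hbd
  generalize hD : max D0 (2 / δ) = D at *
  have hDD : D0 ≤ D := hD ▸ le_max_left _ _
  have hDδ : 2 / δ ≤ D := hD ▸ le_max_right _ _
  generalize hK : max (max P0 16) (max (1 / δ) ((4 * (3 * (M : ℝ) ^ 3 / ls) / δ) ^ 2)) = K0 at *
  have hK_a : P0 ≤ K0 := hK ▸ le_max_of_le_left (le_max_left _ _)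
  have hK_e : 16 ≤ K0 := hK ▸ le_max_of_le_left (le_max_right _ _)
  have hK_b : 2 ≤ K0 := by linarith
  have hK_c : 1 / δ ≤ K0 := hK ▸ le_max_of_le_right (le_max_left _ _)
  have hK_d : (4 * (3 * (M : ℝ) ^ 3 / ls) / δ) ^ 2 ≤ K0 :=
    hK ▸ le_max_of_le_right (le_max_right _ _)
  have hκ1 : 0 < π.κ1 := by
    unfold Par.κ1
    have : (1 : ℝ) ≤ π.Nf := by exact_mod_cast hNf
    positivity
  have hκκ : π.κ1 ≤ π.κ := by
    unfold Par.κ
    have h1 : (1 : ℝ) ≤ π.G := by exact_mod_cast hG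
    have h2 := Real.add_one_le_exp (π.G * π.κ1)
    nlinarith
  have hκ : 0 < π.κ := hκ1.trans_le hκκ
  have hκ2 : 2 * π.κ ≤ 1 := by nlinarith
  have hκδ : π.κ ≤ δ := by
    have h1 : π.κ * (1 / δ) ≤ 1 := le_trans (by gcongr) hκK
    rwa [mul_one_div, div_le_one hδ0] at h1
  have hP1 : 2 ≤ P1 := hK_b.trans hKP
  have hB1 : 1 ≤ P1 ^ D0 := Real.one_le_rpow (by linarith) (by linarith)
  have hBD : P1 ^ D0 ≤ P1 ^ D := Real.rpow_le_rpow_of_exponent_le (by linarith) hDD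
  generalize hQ : P1 ^ D = Q at *
  have hQ1 : 1 ≤ Q := hB1.trans hBD
  have hK11 : 1 ≤ K1 := by
    have : 1 ≤ Q ^ 2 := one_le_pow₀ hQ1
    linarith
  have hps : ∀ c c' : ℕ, c ≤ c' → π.ps c ≤ π.ps c' := by
    intro c c' h
    unfold Par.ps
    have : (c : ℝ) ≤ c' := by exact_mod_cast h
    gcongr
  have hsum : ∑ p ∈ pri P1 (P1 ^ D0), (∑ c ∈ Ico cU (cU + Nc), ∑ α ∈ AU c,
      ‖D'.cc π.κ f (π.ps c) α + D'.cc π.κ f (π.ps c / p) (D'.dil p α)‖ ^ 2) / p ≤ 8 * M * Nc := by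
    simp only [sum_div]
    rw [sum_comm]
    calc _ ≤ ∑ _c ∈ Ico cU (cU + Nc), (8 * M : ℝ) := by
          refine sum_le_sum fun c hc => ?_
          rw [sum_comm]
          calc _ ≤ ∑ _α ∈ AU c, (8 : ℝ) := by
                refine sum_le_sum fun α _ => ?_
                have h1 := hC.tk D' Qf π.κ f (π.ps c) α (pri P1 (P1 ^ D0)) (P1 ^ D0) oe hf hκ hB1
                  (fun p hp => by
                    have h2 := One.mem_pri (by linarith) hp
                    exact ⟨h2.1, h2.2.2, hmul p h2.1 (h2.2.2.trans hBD)⟩)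
                  (by
                    have h2 : π.κ * π.ps cU ≤ π.κ * π.ps c := by
                      gcongr; exact hps _ _ (mem_Ico.1 hc).1
                    have h3 : (P1 ^ D0) ^ 2 ≤ Q ^ 2 := by gcongr
                    have h4 : K1 ≤ K1 * Q := le_mul_of_one_le_right (by linarith) hQ1
                    have h5 : 0 ≤ Q ^ 2 := by positivity
                    linarith)
                refine le_trans (le_of_eq (sum_congr rfl fun p _ => ?_)) h1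
                ring
            _ = 8 * #(AU c) := by simp [mul_comm]
            _ ≤ 8 * M := by gcongr; exact (hAU c hc).2
      _ = 8 * M * Nc := by simp [mul_comm]
  obtain ⟨P, hP1P, hP2, hPP, ht⟩ := hW P1 (hK_a.trans hKP) _ _
    (fun p => sum_nonneg fun c _ => sum_nonneg fun α _ => by positivity) hsum
  have hP : 2 ≤ P := hP1.trans hP1P
  have hPQ : P ≤ Q := by linarith
  have hl : 0 < Real.log P := Real.log_pos (by linarith)
  have hmem : ∀ p ∈ pri P ((1 + δ) * P), p.Prime ∧ P < p ∧ p ≤ (1 + δ) * P :=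
    fun p hp => One.mem_pri (by positivity) hp
  generalize pri P ((1 + δ) * P) = PP at *
  have hcard : 3 * (M : ℝ) ^ 3 / ls ≤ #PP :=
    One.many hδ0 hP (by positivity) (hK_d.trans (hKP.trans hP1P)) hPP
  have hpos : (0 : ℝ) < #PP := lt_of_lt_of_le (by positivity) hcard
  have hOk : Par.Ok { π with P := P, PP := PP } :=
    ⟨hk, hκ0, hNf, hG, by change π.κ ≤ 1; linarith, hP, card_pos.1 (by exact_mod_cast hpos),
      fun p hp => ⟨(hmem p hp).1, (hmem p hp).2.1, (hmem p hp).2.2.trans (by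
        change (1 + δ) * P ≤ 2 * P
        exact mul_le_mul_of_nonneg_right (by linarith) (by linarith))⟩⟩
  obtain ⟨sh, hs1, hs2⟩ : ∃ sh : ℕ, sh * π.κ1 ≤ Real.log P ∧ Real.log P < (sh + 1) * π.κ1 :=
    ⟨⌊Real.log P / π.κ1⌋₊, (le_div_iff₀ hκ1).1 (Nat.floor_le (by positivity)),
      (div_lt_iff₀ hκ1).1 (Nat.lt_floor_add_one _)⟩
  have hpsp : ∀ c, 0 < π.ps c := fun c => Real.exp_pos _
  have hsh : sh ≤ cU := by
    have h1 : P ≤ π.ps cU :=
      calc P ≤ Q := hPQ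
        _ ≤ K1 * Q := le_mul_of_one_le_left (by linarith) hK11
        _ ≤ π.κ * π.ps cU := hK1U
        _ ≤ π.ps cU := mul_le_of_le_one_left (hpsp cU).le (by linarith)
    have h2 : Real.log P ≤ cU * π.κ1 := by
      rw [Real.log_le_iff_le_exp (by linarith)]; exact h1
    have h3 : (sh : ℝ) ≤ cU := le_of_mul_le_mul_right (hs1.trans h2) hκ1
    exact_mod_cast h3
  obtain ⟨cL, rfl⟩ : ∃ cL, cU = cL + sh := ⟨cU - sh, by omega⟩
  have hUL : π.ps (cL + sh) ≤ Q * π.ps cL := by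
    have h1 : π.ps (cL + sh) = Real.exp (sh * π.κ1) * π.ps cL := by
      unfold Par.ps
      rw [← Real.exp_add]; congr 1; push_cast; ring
    have h2 : Real.exp (sh * π.κ1) ≤ P := by
      rw [← Real.le_log_iff_exp_le (by linarith)]; exact hs1
    rw [h1]
    have := (hpsp cL).le
    gcongr
    exact h2.trans hPQ
  have hKL : K1 ≤ π.κ * π.ps cL := by
    have h1 : K1 * Q ≤ π.κ * π.ps cL * Q :=
      calc K1 * Q ≤ π.κ * π.ps (cL + sh) := hK1U
        _ ≤ π.κ * (Q * π.ps cL) := mul_le_mul_of_nonneg_left hUL hκ.le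
        _ = π.κ * π.ps cL * Q := by ring
    exact le_of_mul_le_mul_right h1 (by linarith)
  have h8 : 8 * π.ps cL ≤ π.ps (cL + sh) := by
    have h1 : π.ps (cL + sh) = Real.exp (sh * π.κ1) * π.ps cL := by
      unfold Par.ps
      rw [← Real.exp_add]; congr 1; push_cast; ring
    have h2 : P * (1 - π.κ1) ≤ Real.exp (sh * π.κ1) := by
      have h3 : Real.exp (Real.log P + -π.κ1) ≤ Real.exp (sh * π.κ1) :=
        Real.exp_le_exp.2 (by linarith)
      rw [Real.exp_add, Real.exp_log (by linarith)] at h3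
      exact le_trans (mul_le_mul_of_nonneg_left (by linarith [Real.add_one_le_exp (-π.κ1)])
        (by linarith)) h3
    rw [h1]
    refine mul_le_mul_of_nonneg_right (le_trans ?_ h2) (hpsp cL).le
    have h4 : 16 * (1 / 2) ≤ P * (1 - π.κ1) :=
      mul_le_mul (by linarith) (by linarith) (by norm_num) (by linarith)
    linarith
  have hBd := hbd cL h8 hUL
  set Bd := {c ∈ Ico cL (cL + Nc) | D'.Bad Ad π.κ f η' ρ' M (π.ps c)}
  have hAL : ∀ c : ℕ, ∃ A, c ∈ Ico cL (cL + Nc) → D'.Fam Ad π.κ f η' ρ' (π.ps c) A ∧ #A ≤ M ∧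
      (c ∉ Bd → ∀ A', D'.Fam Ad π.κ f η' ρ' (π.ps c) A' → #A' ≤ #A) := by
    intro c
    by_cases hc : D'.Bad Ad π.κ f η' ρ' M (π.ps c)
    · exact ⟨∅, fun h => ⟨⟨by simp, by simp⟩, by simp, fun h' => absurd (mem_filter.2 ⟨h, hc⟩) h'⟩⟩
    · obtain ⟨A, hA⟩ := OneJ.largest D' Ad π.κ η' ρ' (π.ps c) f M fun A hA =>
        not_lt.1 fun h => hc ⟨A, hA, h⟩
      exact ⟨A, fun _ => ⟨hA.1, hA.2.1, fun _ => hA.2.2⟩⟩
  choose AL hAL using hAL
  subst hπM
  obtain ⟨N, E, φ, hIs, hLv, hR, hRay⟩ := hA1 D' Qf Ad { π with P := P, PP := PP } f δ η η' ρ ρ' ε2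
    (8 * π.M / (24 * π.M ^ 2 / (ls * ε2 ^ 2))) (ls / π.M) K1 cL sh Nc AU AL Bd okD oe clo hOk hf hδ1 (hκκ.trans hκδ)
    (by change 2 * π.κ1 ≤ 1; linarith) (fun p hp => (hmem p hp).2.2) hNc hs1 hs2
    (by
      change 12 * P ^ 2 ≤ K1
      have : P ^ 2 ≤ Q ^ 2 := by gcongr
      linarith)
    hKL hρ' hρ hρρ hε hη hBd hAU hAL
    (ht.trans (le_of_eq (by ring)))
  refine ⟨P, PP, cL, AL, N, E, φ, hOk, hP1P, hPQ, le_trans ?_ hPP, by omega, hUL,
    fun c hc => ⟨(hAL c hc).1, (hAL c hc).2.1⟩, hIs, hLv, hR,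
    fun lam h1 h2 => hRay lam (h1.trans ?_) h2⟩
  · calc P / (D * Real.log P) ≤ P / (2 / δ * Real.log P) := by gcongr
      _ = δ * P / (2 * Real.log P) := by field_simp
  · have h3 : (π.M : ℝ) * (8 * π.M / (24 * π.M ^ 2 / (ls * ε2 ^ 2)) / ε2 ^ 2) = ls / 3 := by
      field_simp; ring
    have h4 : (π.M : ℝ) * (π.M ^ 2 / #PP) ≤ ls / 3 := by
      rw [div_le_iff₀ hls] at hcard
      rw [← mul_div_assoc, div_le_iff₀ hpos]
      linarith
    have h5 : (π.M : ℝ) * (8 * π.M / (24 * π.M ^ 2 / (ls * ε2 ^ 2)) / ε2 ^ 2 + π.M ^ 2 / #PP +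
        3 * δ + ls / π.M) ≤ 2 * ls := by
      rw [mul_add, mul_add, mul_add, h3, mul_div_cancel₀ ls (by linarith)]; linarith
    have h6 : (0 : ℝ) ≤ Nc := by positivity
    have h7 := mul_le_mul_of_nonneg_right h5 h6
    change _ ≤ 2 * (_ - (π.M : ℝ) * Nc * (_ + π.M ^ 2 / #PP + _ + _))
    linarith

end Pool.Agent.Lib.MP_028aa5_nt.V
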